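import Pool.Agent.ZSharp.ForceDefs

/-!
# The property `(*)` with countable `N`
-/

set_option autoImplicit false

open Set Cardinal FirstOrder

namespace Pool.Agent.ZSharp

universe u

variable {C : Type (u + 1)}

/-- The property `(*)` with `N` countable in `V[G]`: whenever `p` forces `x ∈ H(χ)^{V[G]}`,
where `χ ≥ ℵ_2^V`, and `<` is a binary relation of `V[G]`, there are a name `N` and a set
`T ∈ V` of size at most `κ` in `V` such that `p` forces: `N` is a countable elementary
substructure of `(H(χ)^{V[G]}, ∈, <, H(χ)^V)`, `x ∈ N` and `N ∩ H(χ)^V = T`. -/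
def StarCountable [Small.{u} C] (le : C → C → Prop) (κ : Cardinal.{u}) : Prop :=
  ∀ (χ : Cardinal.{u}), ℵ_ 2 ≤ χ → ∀ (W : VGRel le) (x : PName C) (p : C),
    FHered le χ x p → ∃ (N : PName C) (T : ZFSet.{u}),
      FElem W (HeredV χ) (FHered le χ) N p ∧ FSmall le (ℵ_ 1) N p ∧ FMem le x N p ∧
      (∀ y q, le q p → (FMem le y N q ∧ FGround le (HeredV χ) y q ↔
        FMem le y (check T) q)) ∧ T.card ≤ κ

end Pool.Agent.ZSharp
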