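import Pool.Agent.ZSharp.Closed

/-!
# The property `(*)`
-/

set_option autoImplicit false

open Set Cardinal FirstOrder

namespace Pool.Agent.ZSharp

universe u

variable {C : Type (u + 1)} {le : C → C → Prop}

theorem hered_reg [Small.{u} C] (h : IsPre le) (χ : Cardinal.{u}) :
    RegCls le (FHered le χ) := by
  refine ⟨fun x => ⟨fun p q hq hp r hr => hp r (h.trans _ _ _ hr hq), fun p hp q hq => ?_⟩,
    fun x x' p hx hp q hq => ?_⟩
  · obtain ⟨r, hr, h1⟩ := hp q hq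
    obtain ⟨r', hr', h2⟩ := h1 r (h.refl r)
    exact ⟨r', h.trans _ _ _ hr' hr, h2⟩
  · obtain ⟨r, hr, t, h1, h2, h3⟩ := hp q hq
    exact ⟨r, hr, t, h1, h2.congr_left h (hx.mono h (h.trans _ _ _ hr hq)), h3⟩

theorem fground_loc [Small.{u} C] (h : IsPre le) {Q : ZFSet.{u} → Prop} {x : PName C} {p : C}
    (hp : ∀ q, le q p → ∃ r, le r q ∧ FGround le Q x r) : FGround le Q x p := by
  intro q hq
  obtain ⟨r, hr, h1⟩ := hp q hq
  obtain ⟨r', hr', h2⟩ := h1 r (h.refl r)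
  exact ⟨r', h.trans _ _ _ hr' hr, h2⟩

theorem hered_check [Small.{u} C] (h : IsPre le) {χ : Cardinal.{u}} {y : ZFSet.{u}}
    (hy : HeredV χ y) (p : C) : FHered le χ (check y) p := by
  classical
  obtain ⟨t, ht, hyt, htc⟩ := hy
  intro q _
  refine ⟨q, h.refl q, check t, ?_, ?_, ?_⟩
  · intro w x r _ hw hx
    rw [mem_check_iff h] at hw ⊢
    intro s hs
    obtain ⟨s', hs', z, hz, h1⟩ := hw s hs
    have h2 := (hx.mono h (h.trans _ _ _ hs' hs)).congr_right h h1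
    rw [mem_check_iff h] at h2
    obtain ⟨s'', hs'', z', hz', h3⟩ := h2 s' (h.refl s')
    exact ⟨s'', h.trans _ _ _ hs'' hs', z', ht.mem_trans hz' hz, h3⟩
  · rw [mem_check_iff h]
    exact fun r _ => ⟨r, h.refl r, y, hyt, FEq.refl h _ _⟩
  · intro r _
    -- an enumeration of `t` in the ground model
    let α : Ordinal.{u} := t.card.ord
    have hα : α < χ.ord := Cardinal.ord_lt_ord.2 htc
    obtain ⟨g, hg⟩ : ∃ g : Ordinal.{u} → ZFSet.{u}, ∀ z ∈ t, ∃ β < α, g β = z := by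
      have h1 : #t = #(Set.Iio α) := by
        rw [ZFSet.cardinalMk_coe_sort, Cardinal.mk_Iio_ordinal, Cardinal.card_ord]
      obtain ⟨e⟩ := Cardinal.eq.1 h1
      refine ⟨fun β => if hβ : β < α then (e.symm ⟨β, hβ⟩).1 else ∅, fun z hz => ?_⟩
      refine ⟨(e ⟨z, hz⟩).1, (e ⟨z, hz⟩).2, ?_⟩
      have h2 : (e ⟨z, hz⟩).1 < α := (e ⟨z, hz⟩).2
      refine (dif_pos h2).trans ?_
      have h3 : (⟨(e ⟨z, hz⟩).1, h2⟩ : Set.Iio α) = e ⟨z, hz⟩ := rfl
      rw [h3, Equiv.symm_apply_apply]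
    let F : VGRel le :=
      { val := fun b x p => ∀ q, le q p → ∃ r, le r q ∧ ∃ β < α,
          FEq le b (check β.toZFSet) r ∧ FEq le x (check (g β)) r
        mono := fun _ _ p q hq hp r hr => hp r (h.trans _ _ _ hr hq)
        loc := fun _ _ p hp q hq => by
          obtain ⟨r, hr, h1⟩ := hp q hq
          obtain ⟨r', hr', h2⟩ := h1 r (h.refl r)
          exact ⟨r', h.trans _ _ _ hr' hr, h2⟩
        congr := fun _ _ _ _ p hb hx hp q hq => by
          obtain ⟨r, hr, β, hβ, h1, h2⟩ := hp q hq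
          have hrp := h.trans _ _ _ hr hq
          exact ⟨r, hr, β, hβ, (hb.symm.mono h hrp).trans h h1,
            (hx.symm.mono h hrp).trans h h2⟩ }
    refine ⟨r, h.refl r, α, hα, F, ?_, ?_⟩
    · intro b x x' s _ h1 h2
      refine FEq.loc h fun s1 hs1 => ?_
      obtain ⟨s2, hs2, β, -, h3, h4⟩ := h1 s1 hs1
      obtain ⟨s3, hs3, β', -, h5, h6⟩ := h2 s2 (h.trans _ _ _ hs2 hs1)
      have h7 : β = β' := by
        have h8 := (h3.mono h hs3).symm.trans h h5
        rw [check_eq_iff h] at h8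
        exact Ordinal.toZFSet_injective h8
      subst h7
      exact ⟨s3, h.trans _ _ _ hs3 hs2, (h4.mono h hs3).trans h h6.symm⟩
    · intro x s _ hx
      rw [mem_check_iff h] at hx
      obtain ⟨s', hs', z, hz, h1⟩ := hx s (h.refl s)
      obtain ⟨β, hβ, hgz⟩ := hg z hz
      refine ⟨s', hs', β, hβ, fun s'' hs'' => ⟨s'', h.refl _, β, hβ, FEq.refl h _ _, ?_⟩⟩
      rw [hgz]
      exact h1.mono h hs''

theorem star_of_cc [Small.{u} C] (h : IsPre le) {μ : Cardinal.{u}} (hμ : μ.IsRegular)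
    (hμ0 : ℵ₀ < μ) (hcc : ∀ A : Set C, (∀ a ∈ A, ∀ b ∈ A, Cpt le a b → a = b) →
      #A < Cardinal.lift.{u + 1} μ) : StarProp le μ := by
  classical
  intro χ _ W x p hx
  obtain ⟨M, hMc, hxM, hM1, hM2⟩ := exists_closed h hμ hμ0 hcc W (HeredV χ)
    (hered_reg h χ) x
  have hsm : Small.{u} M := by
    rw [Cardinal.small_iff_lift_mk_lt_univ]
    refine lt_of_lt_of_le (b := Cardinal.lift.{u + 1, u + 1} (Cardinal.lift.{u + 1} μ)) ?_ ?_
    · exact Cardinal.lift_lt.2 hMc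
    · rw [Cardinal.lift_id]
      exact (Cardinal.lift_lt_univ μ).le
  have hsT : Small.{u} {y : ZFSet.{u} // HeredV χ y ∧ (check y : PName C) ∈ M} := by
    refine small_of_injective (β := M) (f := fun y => ⟨check y.1, y.2.2⟩) ?_
    intro a b hab
    exact Subtype.ext (check_injective h p (congrArg Subtype.val hab))
  refine ⟨hull M (FHered le χ), ZFSet.range (Subtype.val : {y : ZFSet.{u} // HeredV χ y ∧
    (check y : PName C) ∈ M} → ZFSet.{u}), M, hull_elem h W _ (hered_reg h χ) hM1 p, ?_, ?_,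
    ?_, ?_, hMc⟩
  · exact (mem_hull_iff h (hered_reg h χ)).2 fun q hq => ⟨q, h.refl q, x, hxM,
      ((hered_reg h χ).reg x).mono _ _ hq hx, FEq.refl h x q⟩
  · intro y q _
    constructor
    · rintro ⟨h1, h2⟩
      rw [mem_check_iff h]
      intro r hr
      obtain ⟨s, hs, τ, hτ, h3, h4⟩ := (mem_hull_iff h (hered_reg h χ)).1 h1 r hr
      obtain ⟨s', hs', z, hz, h5⟩ := h2 s (h.trans _ _ _ hs hr)
      refine ⟨s', h.trans _ _ _ hs' hs, z, ?_, h5⟩
      rw [ZFSet.mem_range]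
      exact ⟨⟨z, hz, hM2 τ hτ z s' hz ((h4.symm.mono h hs').trans h h5)⟩, rfl⟩
    · intro h1
      rw [mem_check_iff h] at h1
      constructor
      · rw [mem_hull_iff h (hered_reg h χ)]
        intro r hr
        obtain ⟨s, hs, z, hz, h2⟩ := h1 r hr
        obtain ⟨⟨z', hz', hzM⟩, rfl⟩ := ZFSet.mem_range.1 hz
        exact ⟨s, hs, _, hzM, hered_check h hz' s, h2⟩
      · intro r hr
        obtain ⟨s, hs, z, hz, h2⟩ := h1 r hr
        obtain ⟨⟨z', hz', hzM⟩, rfl⟩ := ZFSet.mem_range.1 hz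
        exact ⟨s, hs, _, hz', h2⟩
  · rw [← Cardinal.lift_lt.{u, u + 1}]
    refine lt_of_le_of_lt (b := #{y : ZFSet.{u} // HeredV χ y ∧ (check y : PName C) ∈ M})
      ?_ (lt_of_le_of_lt ?_ hMc)
    · have h1 := ZFSet.lift_card_range_le (f := (Subtype.val : {y : ZFSet.{u} // HeredV χ y ∧
        (check y : PName C) ∈ M} → ZFSet.{u}))
      rwa [Cardinal.lift_id'.{u, u + 1}] at h1
    · refine mk_le_of_injective (f := fun y => (⟨check y.1, y.2.2⟩ : M)) ?_
      intro a b hab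
      exact Subtype.ext (check_injective h p (congrArg Subtype.val hab))
  · intro y q _ h1
    obtain ⟨r, hr, τ, hτ, -, h2⟩ := (mem_hull_iff h (hered_reg h χ)).1 h1 q (h.refl q)
    exact ⟨r, hr, τ, hτ, h2⟩

end Pool.Agent.ZSharp
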