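import Pool.Agent.ZSharp.Main
import Pool.Agent.ZSharp.Star

/-!
# The property `(*)` for constructible forcing notions with a chain condition
-/

set_option autoImplicit false

open Set Cardinal

namespace Pool.Agent.ZSharp

universe u

instance (P : ZFSet.{u}) : Small.{u} (Cond P) := ZFSet.small_coe P

theorem leP_pre {P R : ZFSet.{u}} (hf : IsForcing P R) : IsPre (leP P R) :=
  ⟨fun p => hf.refl _ p.2, fun _ _ _ h1 h2 => hf.trans _ _ _ h1 h2⟩

theorem star_of_chain {P R : ZFSet.{u}} (hf : IsForcing P R) {μ : Cardinal.{u}}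
    (hμ : μ.IsRegular) (hμ0 : ℵ₀ < μ)
    (hcc : ∀ Ant : Set ZFSet.{u}, (∀ a ∈ Ant, a ∈ P) →
      (∀ a ∈ Ant, ∀ b ∈ Ant, Compatible P R a b → a = b) → #Ant < Cardinal.lift.{u + 1} μ) :
    StarProp (leP P R) μ := by
  refine star_of_cc (leP_pre hf) hμ hμ0 fun A hA => ?_
  have h1 := hcc (Subtype.val '' A) (by
    rintro _ ⟨a, -, rfl⟩
    exact a.2) (by
    rintro _ ⟨a, ha, rfl⟩ _ ⟨b, hb, rfl⟩ ⟨r, hr1, hr2⟩
    exact congrArg Subtype.val (hA a ha b hb ⟨⟨r, hr1.1⟩, hr1, hr2⟩))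
  rwa [mk_image_eq Subtype.val_injective] at h1

end Pool.Agent.ZSharp
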