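import Pool.Agent.ZSharp.Collapse
import Pool.Agent.ZSharp.StarChain
import Pool.Agent.ZSharp.CountDefs

/-!
# The property `(*)` with countable `N`
-/

set_option autoImplicit false
set_option linter.deprecated false

open Set Cardinal FirstOrder

namespace Pool.Agent.ZSharp

universe u

/-- If `κ` is collapsed then the submodels of `StarProp` are countable. -/
theorem starCountable_of {C : Type (u + 1)} [Small.{u} C] {le : C → C → Prop}
    (h : IsPre le) {κ : Cardinal.{u}} (hstar : StarProp le (Order.succ κ))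
    (V : ℕ → C → Ordinal.{u} → Prop) (hmono : ∀ n p q ι, le q p → V n p ι → V n q ι)
    (huniq : ∀ n p ι ι', V n p ι → V n p ι' → ι = ι')
    (hdense : ∀ p, ∀ ι < κ.ord, ∃ q, le q p ∧ ∃ n, V n q ι) : StarCountable le κ := by
  classical
  intro χ hχ W x p hx
  obtain ⟨N, T, M, h1, h2, h3, h4, h5, h6⟩ := hstar χ hχ W x p hx
  refine ⟨N, T, h1, ?_, h2, h3, Order.lt_succ_iff.1 h4⟩
  have hM : #M ≤ #(Set.Iio κ.ord) := by
    rw [Cardinal.mk_Iio_ordinal, Cardinal.card_ord]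
    rw [Cardinal.lift_succ, Order.lt_succ_iff] at h6
    exact h6
  obtain ⟨⟨f, hf⟩⟩ := Cardinal.le_def _ _ |>.1 hM
  obtain ⟨g, hg⟩ : ∃ g : Ordinal.{u} → PName C, ∀ τ ∈ M, ∃ ι < κ.ord, g ι = τ := by
    refine ⟨fun ι => if hι : ∃ τ : M, (f τ).1 = ι then hι.choose.1 else check ∅,
      fun τ hτ => ⟨(f ⟨τ, hτ⟩).1, (f ⟨τ, hτ⟩).2, ?_⟩⟩
    have hex : ∃ τ' : M, (f τ').1 = (f ⟨τ, hτ⟩).1 := ⟨⟨τ, hτ⟩, rfl⟩
    refine (dif_pos hex).trans ?_
    have h7 : f hex.choose = f ⟨τ, hτ⟩ := Subtype.ext hex.choose_spec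
    rw [hf h7]
  let F : VGRel le :=
    { val := fun b y p => ∀ q, le q p → ∃ r, le r q ∧ ∃ n : ℕ, ∃ ι < κ.ord,
        FEq le b (check (n : Ordinal.{u}).toZFSet) r ∧ V n r ι ∧ FEq le y (g ι) r
      mono := fun _ _ p q hq hp r hr => hp r (h.trans _ _ _ hr hq)
      loc := fun _ _ p hp q hq => by
        obtain ⟨r, hr, h1⟩ := hp q hq
        obtain ⟨r', hr', h2⟩ := h1 r (h.refl r)
        exact ⟨r', h.trans _ _ _ hr' hr, h2⟩
      congr := fun _ _ _ _ p hb hy hp q hq => by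
        obtain ⟨r, hr, n, ι, hι, h1, h2, h3⟩ := hp q hq
        have hrp := h.trans _ _ _ hr hq
        exact ⟨r, hr, n, ι, hι, (hb.symm.mono h hrp).trans h h1, h2,
          (hy.symm.mono h hrp).trans h h3⟩ }
  intro q hq
  refine ⟨q, h.refl q, Ordinal.omega0, ?_, F, ?_, ?_⟩
  · rw [Cardinal.lt_ord]
    simpa using Cardinal.aleph0_lt_aleph_one
  · intro b y y' s _ k1 k2
    refine FEq.loc h fun s1 hs1 => ?_
    obtain ⟨s2, hs2, n, ι, -, h3, h3', h4⟩ := k1 s1 hs1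
    obtain ⟨s3, hs3, n', ι', -, h5, h5', h6⟩ := k2 s2 (h.trans _ _ _ hs2 hs1)
    have h7 : n = n' := by
      have h8 := (h3.mono h hs3).symm.trans h h5
      rw [check_eq_iff h] at h8
      exact_mod_cast Ordinal.toZFSet_injective h8
    subst h7
    have h9 : ι = ι' := huniq n s3 _ _ (hmono _ _ _ _ hs3 h3') h5'
    subst h9
    exact ⟨s3, h.trans _ _ _ hs3 hs2, (h4.mono h hs3).trans h h6.symm⟩
  · intro y s hs hy
    obtain ⟨s1, hs1, τ, hτ, k1⟩ := h5 y s (h.trans _ _ _ hs hq) hy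
    obtain ⟨ι, hι, hgι⟩ := hg τ hτ
    obtain ⟨s2, hs2, n, hn⟩ := hdense s1 ι hι
    refine ⟨s2, h.trans _ _ _ hs2 hs1, n, Ordinal.natCast_lt_omega0 n, fun r hr =>
      ⟨r, h.refl r, n, ι, hι, FEq.refl h _ _, hmono _ _ _ _ hr hn, ?_⟩⟩
    rw [hgι]
    exact k1.mono h (h.trans _ _ _ hr hs2)

theorem Pos_starCountable (hz : ZeroSharp.{u}) {reg : Cardinal.{u}} (hreg : reg.IsRegular)
    (hreg0 : ℵ₀ < reg) {lam : Ordinal.{u}} (hlam : reg.ord ≤ lam)
    (hstar : StarProp (leP (Pos reg lam) (PosR reg lam)) (Order.succ reg)) :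
    StarCountable (leP (Pos reg lam) (PosR reg lam)) reg := by
  obtain ⟨J, hJ⟩ := id hz
  obtain ⟨θ, -, hθ⟩ := exists_Big reg.ord 0
  have h0 : 0 < θ.ord := zero_le.trans_lt hθ.lt
  have hle : ∀ p q : Cond (Pos reg lam), leP (Pos reg lam) (PosR reg lam) q p →
      p.1 ⊆ q.1 := fun p q h => (le_iff.1 h).2.2
  refine starCountable_of (leP_pre (Pos_forcing reg lam)) hstar
    (fun n p ι => VV J reg θ h0 n p.1 ι) ?_ ?_ ?_
  · intro n p q ι hqp h
    exact h.mono hJ hθ p.2 q.2 (hle _ _ hqp)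
  · intro n p ι ι' h h'
    exact VV.unique p.2 h h'
  · intro p ι hι
    obtain ⟨r, hr, hpr, n, hn⟩ := VV.dense (h0 := h0) hz hJ hreg hreg0 hθ hlam p.2 hι
    exact ⟨⟨r, hr⟩, le_iff.2 ⟨hr, p.2, hpr⟩, n, hn⟩

end Pool.Agent.ZSharp
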