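import Pool.Agent.ZSharp.LTools

/-!
# Back-and-forth equivalence over `L_κ`
-/

set_option autoImplicit false

open FirstOrder Set Ordinal Cardinal

namespace Pool.Agent.ZSharp

universe u

/-- The natural number `n` as a set. -/
noncomputable def nn (n : ℕ) : ZFSet.{u} := (n : Ordinal.{u}).toZFSet

theorem nn_inj {m n : ℕ} (h : nn.{u} m = nn n) : m = n := by
  have := Ordinal.toZFSet_injective h
  exact_mod_cast this

theorem nn_succ (n : ℕ) : nn.{u} (n + 1) = insert (nn n) (nn n) := by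
  ext t
  rw [ZFSet.mem_insert_iff, nn, nn, Ordinal.mem_toZFSet_iff]
  constructor
  · rintro ⟨γ, hγ, rfl⟩
    have h1 : γ < Order.succ (n : Ordinal.{u}) := by
      rw [Order.succ_eq_add_one]
      exact_mod_cast hγ
    rcases (Order.lt_succ_iff.1 h1).lt_or_eq with h2 | h2
    · right
      exact Ordinal.mem_toZFSet_iff.2 ⟨γ, h2, rfl⟩
    · left
      rw [h2]
  · rintro (rfl | ht)
    · exact ⟨n, by exact_mod_cast Nat.lt_succ_self n, rfl⟩
    · obtain ⟨γ, hγ, rfl⟩ := Ordinal.mem_toZFSet_iff.1 ht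
      exact ⟨γ, hγ.trans (by exact_mod_cast Nat.lt_succ_self n), rfl⟩

/-- Atomic agreement. -/
def BF0 (M : ZFSet.{u}) (x y : ZFSet.{u}) : Prop :=
  ∀ i ∈ M, ∀ j ∈ M, ∀ c ∈ M, ∀ d ∈ M, ∀ c' ∈ M, ∀ d' ∈ M, ZFSet.pair i c ∈ x →
    ZFSet.pair j d ∈ x → ZFSet.pair i c' ∈ y → ZFSet.pair j d' ∈ y →
    ((c ∈ d ↔ c' ∈ d') ∧ (c = d ↔ c' = d'))

/-- `n` rounds of the back-and-forth game. -/
def BF (M : ZFSet.{u}) : ℕ → ZFSet.{u} → ZFSet.{u} → Prop
  | 0, x, y => BF0 M x y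
  | n + 1, x, y =>
    (∀ c ∈ M, ∃ c' ∈ M, BF M n (insert (ZFSet.pair (nn n) c) x)
      (insert (ZFSet.pair (nn n) c') y)) ∧
    (∀ c' ∈ M, ∃ c ∈ M, BF M n (insert (ZFSet.pair (nn n) c) x)
      (insert (ZFSet.pair (nn n) c') y))

theorem BF.atom {M : ZFSet.{u}} (hne : ∃ c, c ∈ M) : ∀ {n : ℕ} {x y : ZFSet.{u}},
    BF M n x y → BF0 M x y
  | 0, _, _, h => h
  | n + 1, x, y, h => by
    obtain ⟨c, hc⟩ := hne
    obtain ⟨c', -, h'⟩ := h.1 c hc
    intro i hi j hj d hd e he d' hd' e' he' h1 h2 h3 h4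
    exact BF.atom ⟨c, hc⟩ h' i hi j hj d hd e he d' hd' e' he'
      (ZFSet.mem_insert_of_mem _ h1) (ZFSet.mem_insert_of_mem _ h2)
      (ZFSet.mem_insert_of_mem _ h3) (ZFSet.mem_insert_of_mem _ h4)

/-- Terms are variables. -/
theorem LST_term {α : Type} (t : LST.Term α) : ∃ a : α,
    ∀ (M : ZFSet.{u}) (v : α → {x : ZFSet.{u} // x ∈ M}), t.realize v = v a := by
  cases t with
  | var a => exact ⟨a, fun M v => rfl⟩
  | func f _ => exact Empty.elim f

/-- Back-and-forth equivalence preserves formulas. -/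
theorem BF.formula {M : ZFSet.{u}} (hM : ∀ n, nn.{u} n ∈ M) {α : Type} {m : ℕ}
    (φ : LST.BoundedFormula α m) : ∃ n0 : ℕ, ∀ n ≥ n0, ∀ (x y : ZFSet.{u})
      (ι : α ⊕ Fin m → ZFSet.{u}) (v w : α ⊕ Fin m → {x : ZFSet.{u} // x ∈ M}),
      (∀ i, ι i ∈ M) → (∀ i, ZFSet.pair (ι i) (v i).1 ∈ x) →
      (∀ i, ZFSet.pair (ι i) (w i).1 ∈ y) → BF M n x y →
      (φ.Realize (v ∘ Sum.inl) (v ∘ Sum.inr) ↔ φ.Realize (w ∘ Sum.inl) (w ∘ Sum.inr)) := by
  have e0 : ∀ {k : ℕ} (v : α ⊕ Fin k → {x : ZFSet.{u} // x ∈ M}),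
      Sum.elim (v ∘ Sum.inl) (v ∘ Sum.inr) = v := fun v => by
    funext i; rcases i with i | i <;> rfl
  induction φ with
  | falsum => exact ⟨0, fun _ _ _ _ _ _ _ _ _ _ _ => Iff.rfl⟩
  | equal t₁ t₂ =>
    obtain ⟨a, ha⟩ := LST_term.{u} t₁
    obtain ⟨b, hb⟩ := LST_term.{u} t₂
    refine ⟨0, fun n _ x y ι v w hι hv hw h => ?_⟩
    have h1 := (h.atom ⟨_, hM 0⟩ _ (hι a) _ (hι b) _ (v a).2 _ (v b).2 _ (w a).2 _ (w b).2
      (hv a) (hv b) (hw a) (hw b)).2
    simp only [FirstOrder.Language.BoundedFormula.Realize, e0, ha, hb]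
    rw [Subtype.ext_iff, Subtype.ext_iff]
    exact h1
  | @rel k l R ts =>
    cases R with
    | mem =>
      obtain ⟨a, ha⟩ := LST_term.{u} (ts 0)
      obtain ⟨b, hb⟩ := LST_term.{u} (ts 1)
      refine ⟨0, fun n _ x y ι v w hι hv hw h => ?_⟩
      have h1 := (h.atom ⟨_, hM 0⟩ _ (hι a) _ (hι b) _ (v a).2 _ (v b).2 _ (w a).2 _ (w b).2
        (hv a) (hv b) (hw a) (hw b)).1
      simp only [FirstOrder.Language.BoundedFormula.Realize, e0]
      have h2 : ∀ u : α ⊕ Fin k → {x : ZFSet.{u} // x ∈ M},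
          (FirstOrder.Language.Structure.RelMap (L := LST) (SetRel.mem)
            (fun i => (ts i).realize u) ↔ (u a).1 ∈ (u b).1) := by
        intro u
        rw [← ha M u, ← hb M u]
        exact Iff.rfl
      exact (h2 v).trans (h1.trans (h2 w).symm)
  | imp φ ψ ih1 ih2 =>
    obtain ⟨n1, h1⟩ := ih1
    obtain ⟨n2, h2⟩ := ih2
    refine ⟨max n1 n2, fun n hn x y ι v w hι hv hw h => ?_⟩
    exact imp_congr (h1 n (le_trans (le_max_left _ _) hn) x y ι v w hι hv hw h)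
      (h2 n (le_trans (le_max_right _ _) hn) x y ι v w hι hv hw h)
  | @all k φ ih =>
    obtain ⟨n0, h0⟩ := ih
    refine ⟨n0 + 1, fun n hn x y ι v w hι hv hw h => ?_⟩
    obtain ⟨n, rfl⟩ : ∃ n', n = n' + 1 := ⟨n - 1, by omega⟩
    have hn' : n ≥ n0 := by omega
    have key : ∀ c c' : {x : ZFSet.{u} // x ∈ M}, BF M n (insert (ZFSet.pair (nn n) c.1) x)
        (insert (ZFSet.pair (nn n) c'.1) y) →
        (φ.Realize (v ∘ Sum.inl) (Fin.snoc (v ∘ Sum.inr) c) ↔
          φ.Realize (w ∘ Sum.inl) (Fin.snoc (w ∘ Sum.inr) c')) := by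
      intro c c' hb
      have h3 := h0 n hn' _ _ (Sum.elim (ι ∘ Sum.inl)
        (Fin.snoc (ι ∘ Sum.inr) (nn n) : Fin (k + 1) → ZFSet.{u}))
        (Sum.elim (v ∘ Sum.inl) (Fin.snoc (v ∘ Sum.inr) c : Fin (k + 1) → _))
        (Sum.elim (w ∘ Sum.inl) (Fin.snoc (w ∘ Sum.inr) c' : Fin (k + 1) → _)) ?_ ?_ ?_ hb
      · exact h3
      · rintro (i | i)
        · exact hι _
        · refine Fin.lastCases ?_ (fun i => ?_) i
          · simpa using hM n
          · simpa using hι _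
      · rintro (i | i)
        · exact ZFSet.mem_insert_of_mem _ (hv _)
        · refine Fin.lastCases ?_ (fun i => ?_) i
          · simp
          · simp only [Sum.elim_inr, Fin.snoc_castSucc, Function.comp_apply]
            exact ZFSet.mem_insert_of_mem _ (hv _)
      · rintro (i | i)
        · exact ZFSet.mem_insert_of_mem _ (hw _)
        · refine Fin.lastCases ?_ (fun i => ?_) i
          · simp
          · simp only [Sum.elim_inr, Fin.snoc_castSucc, Function.comp_apply]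
            exact ZFSet.mem_insert_of_mem _ (hw _)
    show (∀ c, _) ↔ (∀ c, _)
    constructor
    · intro hall c'
      obtain ⟨c, hc, hb⟩ := h.2 c'.1 c'.2
      exact (key ⟨c, hc⟩ c' hb).1 (hall ⟨c, hc⟩)
    · intro hall c
      obtain ⟨c', hc', hb⟩ := h.1 c.1 c.2
      exact (key c ⟨c', hc'⟩ hb).2 (hall ⟨c', hc'⟩)

/-- The set coding an assignment. -/
noncomputable def code {ι : Type} [Small.{u} ι] (idx : ι → ZFSet.{u}) (f : ι → ZFSet.{u}) :
    ZFSet.{u} := ZFSet.range (fun i => ZFSet.pair (idx i) (f i))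

theorem pair_mem_code {ι : Type} [Small.{u} ι] {idx : ι → ZFSet.{u}}
    (hidx : Function.Injective idx) {f : ι → ZFSet.{u}} {i c : ZFSet.{u}} :
    ZFSet.pair i c ∈ code idx f ↔ ∃ k, idx k = i ∧ f k = c := by
  rw [code, ZFSet.mem_range]
  constructor
  · rintro ⟨k, hk⟩
    exact ⟨k, (ZFSet.pair_injective hk).1, (ZFSet.pair_injective hk).2⟩
  · rintro ⟨k, rfl, rfl⟩
    exact ⟨k, rfl⟩

/-- There are only finitely many `n`-types. -/
theorem BF.finite (M : ZFSet.{u}) : ∀ (n : ℕ) (ι : Type) [Finite ι] (idx : ι → ZFSet.{u}),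
    Function.Injective idx → (∀ i, ∀ k < n, idx i ≠ nn k) →
    ∃ (Θ : Type) (_ : Finite Θ) (τ : (ι → {x : ZFSet.{u} // x ∈ M}) → Θ), ∀ f g,
      τ f = τ g → BF M n (code idx (fun i => (f i).1)) (code idx (fun i => (g i).1))
  | 0, ι, _, idx, hidx, _ => by
    classical
    refine ⟨ι → ι → Prop × Prop, inferInstance, fun f i j => ((f i).1 ∈ (f j).1, f i = f j),
      fun f g h => ?_⟩
    intro i _ j _ c _ d _ c' _ d' _ h1 h2 h3 h4
    rw [pair_mem_code hidx] at h1 h2 h3 h4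
    obtain ⟨k, rfl, rfl⟩ := h1
    obtain ⟨l, rfl, rfl⟩ := h2
    obtain ⟨k', hk, rfl⟩ := h3
    obtain ⟨l', hl, rfl⟩ := h4
    obtain rfl := hidx hk
    obtain rfl := hidx hl
    have h5 := congrFun (congrFun h k') l'
    have h6 := (Prod.ext_iff.1 h5).1
    have h7 := (Prod.ext_iff.1 h5).2
    refine ⟨iff_of_eq h6, ?_⟩
    rw [← Subtype.ext_iff, ← Subtype.ext_iff]
    exact iff_of_eq h7
  | n + 1, ι, _, idx, hidx, hn => by
    classical
    let idx' : Option ι → ZFSet.{u} := fun o => o.elim (nn n) idx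
    have hidx' : Function.Injective idx' := by
      rintro (_ | i) (_ | j) h
      · rfl
      · exact absurd h.symm (hn j n (Nat.lt_succ_self n))
      · exact absurd h (hn i n (Nat.lt_succ_self n))
      · exact congrArg some (hidx h)
    obtain ⟨Θ, _, τ, hτ⟩ := BF.finite M n (Option ι) idx' hidx' (by
      rintro (_ | i) k hk h
      · exact absurd (nn_inj h) hk.ne'
      · exact hn i k (hk.trans (Nat.lt_succ_self n)) h)
    have e1 : ∀ (f : ι → {x : ZFSet.{u} // x ∈ M}) (c : {x : ZFSet.{u} // x ∈ M}),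
        code idx' (fun o => (o.elim c f : {x : ZFSet.{u} // x ∈ M}).1) =
          insert (ZFSet.pair (nn n) c.1) (code idx (fun i => (f i).1)) := by
      intro f c
      ext t
      rw [ZFSet.mem_insert_iff, code, ZFSet.mem_range, code, ZFSet.mem_range]
      constructor
      · rintro ⟨_ | i, rfl⟩
        · exact Or.inl rfl
        · exact Or.inr ⟨i, rfl⟩
      · rintro (rfl | ⟨i, rfl⟩)
        · exact ⟨none, rfl⟩
        · exact ⟨some i, rfl⟩
    refine ⟨Set Θ, inferInstance, fun f => Set.range fun c => τ (fun o => o.elim c f),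
      fun f g h => ⟨fun c hc => ?_, fun c' hc' => ?_⟩⟩
    · have h' : (Set.range fun c => τ (fun o => o.elim c f)) =
          Set.range fun c => τ (fun o => o.elim c g) := h
      have h1 : τ (fun o => o.elim ⟨c, hc⟩ f) ∈ Set.range fun c =>
          τ (fun o => o.elim c g) := by
        rw [← h']
        exact ⟨_, rfl⟩
      obtain ⟨c', hc'⟩ := h1
      refine ⟨c'.1, c'.2, ?_⟩
      have h2 := hτ _ _ hc'.symm
      rwa [e1, e1] at h2
    · have h' : (Set.range fun c => τ (fun o => o.elim c f)) =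
          Set.range fun c => τ (fun o => o.elim c g) := h
      have h1 : τ (fun o => o.elim ⟨c', hc'⟩ g) ∈ Set.range fun c =>
          τ (fun o => o.elim c f) := by
        rw [h']
        exact ⟨_, rfl⟩
      obtain ⟨c, hc⟩ := h1
      refine ⟨c.1, c.2, ?_⟩
      have h2 := hτ _ _ hc
      rwa [e1, e1] at h2

end Pool.Agent.ZSharp
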