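import Pool.Agent.ZSharp.LTools

/-!
# Definability with parameters over `L_θ`, by instances
-/

set_option autoImplicit false
set_option linter.deprecated false

open FirstOrder Set Ordinal Cardinal

namespace Pool.Agent.ZSharp

universe u

variable {θ : Ordinal.{u}} {I : Type}

/-- `R` is definable with parameters over `L_θ`. -/
class DP (R : (I → LA θ) → Prop) : Prop where
  out : ∃ (K : Type) (p : K → LA θ) (R' : (I ⊕ K → LA θ) → Prop), Dfn LST R' ∧
    ∀ v, R v ↔ R' (Sum.elim v p)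

theorem DP.congr {R S : (I → LA θ) → Prop} (h : DP R) (e : ∀ v, R v ↔ S v) : DP S := by
  obtain ⟨K, p, R', h1, h2⟩ := h.out
  exact ⟨K, p, R', h1, fun v => (e v).symm.trans (h2 v)⟩

theorem DP.relabel {K : Type} {R : (I → LA θ) → Prop} (h : DP R) (g : I → K) :
    DP (fun v : K → LA θ => R (fun i => v (g i))) := by
  obtain ⟨K', p, R', h1, h2⟩ := h.out
  refine ⟨K', p, fun v => R' (v ∘ Sum.map g id), h1.relabel _, fun v => (h2 _).trans ?_⟩
  refine iff_of_eq (congrArg R' ?_)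
  funext i
  rcases i with i | i <;> rfl

theorem DP.ofDfn {R : (I → LA θ) → Prop} (h : Dfn LST R) : DP R := by
  refine ⟨Empty, fun e => e.elim, fun v => R (v ∘ Sum.inl), h.relabel _, fun v => ?_⟩
  exact Iff.rfl

instance DP.not {R : (I → LA θ) → Prop} [h : DP R] : DP (fun v => ¬ R v) := by
  obtain ⟨K, p, R', h1, h2⟩ := h.out
  exact ⟨K, p, _, h1.not, fun v => not_congr (h2 v)⟩

instance DP.and {R S : (I → LA θ) → Prop} [h : DP R] [k : DP S] :
    DP (fun v => R v ∧ S v) := by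
  obtain ⟨K, p, R', h1, h2⟩ := h.out
  obtain ⟨K', p', S', k1, k2⟩ := k.out
  refine ⟨K ⊕ K', Sum.elim p p', fun v => R' (v ∘ Sum.map id Sum.inl) ∧
    S' (v ∘ Sum.map id Sum.inr), (h1.relabel _).and (k1.relabel _), fun v => ?_⟩
  refine and_congr ((h2 v).trans (iff_of_eq (congrArg R' ?_)))
    ((k2 v).trans (iff_of_eq (congrArg S' ?_)))
  · funext i
    rcases i with i | i <;> rfl
  · funext i
    rcases i with i | i <;> rfl

instance DP.or {R S : (I → LA θ) → Prop} [h : DP R] [k : DP S] : DP (fun v => R v ∨ S v) :=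
  DP.congr (R := fun v => ¬ (¬ R v ∧ ¬ S v)) inferInstance fun v => by tauto

instance DP.imp {R S : (I → LA θ) → Prop} [h : DP R] [k : DP S] :
    DP (fun v => R v → S v) :=
  DP.congr (R := fun v => ¬ (R v ∧ ¬ S v)) inferInstance fun v => by tauto

instance DP.iff {R S : (I → LA θ) → Prop} [h : DP R] [k : DP S] :
    DP (fun v => R v ↔ S v) :=
  DP.congr (R := fun v => (R v → S v) ∧ (S v → R v)) inferInstance fun v => by tauto

instance DP.prop (P : Prop) : DP (fun _ : I → LA θ => P) := by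
  by_cases h : P
  · exact (DP.ofDfn Dfn.true).congr fun v => by simp [h]
  · exact (DP.ofDfn Dfn.true.not).congr fun v => by simp [h]

theorem DP.exs {K : Type} [Finite K] {R : (I ⊕ K → LA θ) → Prop} (h : DP R) :
    DP (fun v : I → LA θ => ∃ w : K → LA θ, R (Sum.elim v w)) := by
  obtain ⟨K', p, R', h1, h2⟩ := h.out
  let g : (I ⊕ K) ⊕ K' → (I ⊕ K') ⊕ K :=
    Sum.elim (Sum.map Sum.inl id) (fun k => Sum.inl (Sum.inr k))
  refine ⟨K', p, _, (h1.relabel g).exs, fun v => ?_⟩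
  refine exists_congr fun w => (h2 _).trans (iff_of_eq (congrArg R' ?_))
  funext i
  rcases i with (i | i) | i <;> rfl

instance DP.ex {R : (I → LA θ) → LA θ → Prop}
    [h : DP (fun v : I ⊕ Unit → LA θ => R (fun i => v (Sum.inl i)) (v (Sum.inr ())))] :
    DP (fun v : I → LA θ => ∃ x : LA θ, R v x) := by
  refine (DP.exs h).congr fun v => ?_
  constructor
  · rintro ⟨w, hw⟩
    exact ⟨w (), hw⟩
  · rintro ⟨x, hx⟩
    exact ⟨fun _ => x, hx⟩

instance DP.all {R : (I → LA θ) → LA θ → Prop}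
    [h : DP (fun v : I ⊕ Unit → LA θ => R (fun i => v (Sum.inl i)) (v (Sum.inr ())))] :
    DP (fun v : I → LA θ => ∀ x : LA θ, R v x) := by
  refine DP.congr (R := fun v => ¬ ∃ x, ¬ R v x) ?_ fun v => by simp
  infer_instance

theorem DP.finAll {K : Type} [Finite K] {R : K → (I → LA θ) → Prop} (h : ∀ k, DP (R k)) :
    DP (fun v : I → LA θ => ∀ k, R k v) := by
  choose K' p R' h1 h2 using fun k => (h k).out
  refine ⟨Σ k, K' k, fun q => p q.1 q.2, fun v => ∀ k, R' k (v ∘ Sum.map id fun i => ⟨k, i⟩),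
    Dfn.finAll fun k => (h1 k).relabel _, fun v => ?_⟩
  refine forall_congr' fun k => (h2 k v).trans (iff_of_eq (congrArg (R' k) ?_))
  funext i
  rcases i with i | i <;> rfl

/-- `f` is a function definable with parameters over `L_θ`. -/
class FT (f : (I → LA θ) → LA θ) : Prop where
  out : DP (fun v : I ⊕ Unit → LA θ => v (Sum.inr ()) = f (fun i => v (Sum.inl i)))

instance FT.var (i : I) : FT (fun v : I → LA θ => v i) := ⟨DP.ofDfn (Dfn.eq _ _)⟩

instance FT.const (a : LA θ) : FT (fun _ : I → LA θ => a) :=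
  ⟨⟨Unit, fun _ => a, fun v => v (Sum.inl (Sum.inr ())) = v (Sum.inr ()), Dfn.eq _ _,
    fun _ => Iff.rfl⟩⟩

theorem DP.subst {F : Type} [Finite F] {Q : (F → LA θ) → Prop} (hQ : DP Q)
    (f : F → (I → LA θ) → LA θ) (hf : ∀ i, FT (f i)) :
    DP (fun v => Q (fun i => f i v)) := by
  have h1 : DP (fun v : I ⊕ F → LA θ => (∀ i : F, v (Sum.inr i) =
      f i (fun j => v (Sum.inl j))) ∧ Q (fun i => v (Sum.inr i))) := by
    have h2 : DP (fun v : I ⊕ F → LA θ => ∀ i : F, v (Sum.inr i) =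
        f i (fun j => v (Sum.inl j))) :=
      DP.finAll fun i => ((hf i).out.relabel (K := I ⊕ F)
        (Sum.elim Sum.inl fun _ => Sum.inr i)).congr fun v => Iff.rfl
    have h3 : DP (fun v : I ⊕ F → LA θ => Q (fun i => v (Sum.inr i))) := hQ.relabel _
    exact DP.and
  refine h1.exs.congr fun v => ?_
  constructor
  · rintro ⟨w, hw, hq⟩
    have : w = fun i => f i v := funext hw
    rw [← this]
    exact hq
  · intro hq
    exact ⟨fun i => f i v, fun i => rfl, hq⟩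

theorem DP.sub1 {Q : LA θ → Prop} (hQ : DP (fun v : Unit → LA θ => Q (v ())))
    {f : (I → LA θ) → LA θ} (hf : FT f) : DP (fun v => Q (f v)) :=
  hQ.subst (fun _ => f) fun _ => hf

theorem DP.sub2 {Q : LA θ → LA θ → Prop} (hQ : DP (fun v : Fin 2 → LA θ => Q (v 0) (v 1)))
    {f g : (I → LA θ) → LA θ} (hf : FT f) (hg : FT g) : DP (fun v => Q (f v) (g v)) :=
  hQ.subst ![f, g] fun i => by fin_cases i <;> assumption

theorem DP.sub3 {Q : LA θ → LA θ → LA θ → Prop}
    (hQ : DP (fun v : Fin 3 → LA θ => Q (v 0) (v 1) (v 2)))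
    {f g h : (I → LA θ) → LA θ} (hf : FT f) (hg : FT g) (hh : FT h) :
    DP (fun v => Q (f v) (g v) (h v)) :=
  hQ.subst ![f, g, h] fun i => by fin_cases i <;> assumption

theorem DP.sub4 {Q : LA θ → LA θ → LA θ → LA θ → Prop}
    (hQ : DP (fun v : Fin 4 → LA θ => Q (v 0) (v 1) (v 2) (v 3)))
    {f g h k : (I → LA θ) → LA θ} (hf : FT f) (hg : FT g) (hh : FT h) (hk : FT k) :
    DP (fun v => Q (f v) (g v) (h v) (k v)) :=
  hQ.subst ![f, g, h, k] fun i => by fin_cases i <;> assumption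

section atoms

variable {f g h k : (I → LA θ) → LA θ} [hf : FT f] [hg : FT g] [hh : FT h] [hk : FT k]

instance DP.mem : DP (fun v => (f v).1 ∈ (g v).1) :=
  DP.sub2 (Q := fun x y => x.1 ∈ y.1) (DP.ofDfn (dfn_mem' 0 1)) hf hg

instance DP.eq : DP (fun v => f v = g v) :=
  DP.sub2 (Q := fun x y => x = y) (DP.ofDfn (Dfn.eq 0 1)) hf hg

instance DP.eq1 : DP (fun v => (f v).1 = (g v).1) :=
  DP.congr (R := fun v => f v = g v) inferInstance fun _ => Subtype.ext_iff

instance DP.sub : DP (fun v => (f v).1 ⊆ (g v).1) :=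
  DP.sub2 (Q := fun x y => x.1 ⊆ y.1) (DP.ofDfn (dfn_sub 0 1)) hf hg

instance DP.pairMem : DP (fun v => ZFSet.pair (f v).1 (g v).1 ∈ (h v).1) :=
  DP.sub3 (Q := fun x y z => ZFSet.pair x.1 y.1 ∈ z.1) (DP.ofDfn (dfn_pair 0 1 2)) hf hg hh

instance DP.eqPair : DP (fun v => (h v).1 = ZFSet.pair (f v).1 (g v).1) :=
  DP.sub3 (Q := fun x y z => z.1 = ZFSet.pair x.1 y.1) (DP.ofDfn (dfn_eqPair 2 0 1)) hf hg hh

instance DP.ins : DP (fun v => (k v).1 = insert (ZFSet.pair (f v).1 (g v).1) (h v).1) :=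
  DP.sub4 (Q := fun x y z w => w.1 = insert (ZFSet.pair x.1 y.1) z.1)
    (DP.ofDfn (dfn_ins 3 0 1 2)) hf hg hh hk

instance DP.succ : DP (fun v => (g v).1 = insert (f v).1 (f v).1) :=
  DP.sub2 (Q := fun x y => y.1 = insert x.1 x.1) (DP.ofDfn (dfn_succ 1 0)) hf hg

instance DP.isOrd : DP (fun v => ZFSet.IsOrdinal (f v).1) :=
  DP.subst (Q := fun v : Unit → LA θ => ZFSet.IsOrdinal (v ()).1)
    (DP.ofDfn ((Dfn.relabel dfn_isOrdinal (Sum.elim (fun e => e.elim) id)).congr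
      fun _ => Iff.rfl)) (fun _ => f) fun _ => hf

end atoms

/-- The set defined over `L_θ` by `Q`. -/
noncomputable def sepL (Q : LA θ → Prop) : ZFSet.{u} :=
  ZFSet.sep (fun x => ∃ h : x ∈ Lset θ, Q ⟨x, h⟩) (Lset θ)

theorem mem_sepL {Q : LA θ → Prop} {x : ZFSet.{u}} :
    x ∈ sepL Q ↔ ∃ h : x ∈ Lset θ, Q ⟨x, h⟩ := by
  rw [sepL, ZFSet.mem_sep]
  constructor
  · exact fun h => h.2
  · exact fun h => ⟨h.1, h⟩

theorem mem_sepL' {Q : LA θ → Prop} (x : LA θ) : x.1 ∈ sepL Q ↔ Q x := by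
  rw [mem_sepL]
  exact ⟨fun h => h.2, fun h => ⟨x.2, h⟩⟩

theorem sepL_mem {Q : LA θ → Prop} (hQ : DP (fun v : Unit → LA θ => Q (v ()))) :
    sepL Q ∈ Lset (θ + 1) := by
  obtain ⟨K, p, R', h1, h2⟩ := hQ.out
  refine mem_of_dfn (I := K) (R := fun p x => R' (Sum.elim (fun _ => x) p)) ?_ ?_ p ?_
  · intro x hx
    exact (mem_sepL.1 hx).1
  · refine (h1.relabel (Sum.elim (fun _ => Sum.inr ()) Sum.inl)).congr fun v => ?_
    refine iff_of_eq (congrArg R' ?_)
    funext i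
    rcases i with i | i <;> rfl
  · intro y
    rw [mem_sepL']
    exact h2 fun _ => y

theorem sepL_constr {Q : LA θ → Prop} (hQ : DP (fun v : Unit → LA θ => Q (v ()))) :
    Constructible (sepL Q) := ⟨_, sepL_mem hQ⟩

example (a : LA θ) (w : LA θ) : DP (fun v : Unit → LA θ => ∃ x : LA θ, x.1 ∈ (v ()).1 ∧
    ∀ y : LA θ, ZFSet.pair x.1 y.1 ∈ w.1 → y = a ∨ ZFSet.IsOrdinal y.1) := inferInstance

end Pool.Agent.ZSharp
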