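import Pool.Agent.ZSharp.Calc

/-!
# Definability without parameters over `L_θ`, by instances
-/

set_option autoImplicit false
set_option linter.deprecated false

open FirstOrder Set Ordinal Cardinal

namespace Pool.Agent.ZSharp

universe u

variable {θ : Ordinal.{u}} {I : Type}

/-- `R` is definable without parameters over `L_θ`. -/
class D0 (R : (I → LA θ) → Prop) : Prop where
  out : Dfn LST R

theorem D0.congr {R S : (I → LA θ) → Prop} (h : D0 R) (e : ∀ v, R v ↔ S v) : D0 S :=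
  ⟨h.out.congr e⟩

instance D0.not {R : (I → LA θ) → Prop} [h : D0 R] : D0 (fun v => ¬ R v) := ⟨h.out.not⟩

instance D0.and {R S : (I → LA θ) → Prop} [h : D0 R] [k : D0 S] :
    D0 (fun v => R v ∧ S v) := ⟨h.out.and k.out⟩

instance D0.or {R S : (I → LA θ) → Prop} [h : D0 R] [k : D0 S] : D0 (fun v => R v ∨ S v) :=
  ⟨h.out.or k.out⟩

instance D0.imp {R S : (I → LA θ) → Prop} [h : D0 R] [k : D0 S] :
    D0 (fun v => R v → S v) := ⟨h.out.imp k.out⟩

instance D0.iff {R S : (I → LA θ) → Prop} [h : D0 R] [k : D0 S] :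
    D0 (fun v => R v ↔ S v) := ⟨h.out.iff k.out⟩

instance D0.ex {R : (I → LA θ) → LA θ → Prop}
    [h : D0 (fun v : I ⊕ Unit → LA θ => R (fun i => v (Sum.inl i)) (v (Sum.inr ())))] :
    D0 (fun v : I → LA θ => ∃ x : LA θ, R v x) := ⟨Dfn.ex h.out⟩

instance D0.all {R : (I → LA θ) → LA θ → Prop}
    [h : D0 (fun v : I ⊕ Unit → LA θ => R (fun i => v (Sum.inl i)) (v (Sum.inr ())))] :
    D0 (fun v : I → LA θ => ∀ x : LA θ, R v x) := ⟨Dfn.all h.out⟩

/-- `f` is a projection. -/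
class F0 (f : (I → LA θ) → LA θ) : Prop where
  out : ∃ i : I, f = fun v => v i

instance F0.var (i : I) : F0 (fun v : I → LA θ => v i) := ⟨i, rfl⟩

section atoms

variable {f g h k : (I → LA θ) → LA θ} [hf : F0 f] [hg : F0 g] [hh : F0 h] [hk : F0 k]

instance D0.mem : D0 (fun v => (f v).1 ∈ (g v).1) := by
  obtain ⟨i, rfl⟩ := hf.out
  obtain ⟨j, rfl⟩ := hg.out
  exact ⟨dfn_mem' i j⟩

instance D0.eq : D0 (fun v => f v = g v) := by
  obtain ⟨i, rfl⟩ := hf.out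
  obtain ⟨j, rfl⟩ := hg.out
  exact ⟨Dfn.eq i j⟩

instance D0.eq1 : D0 (fun v => (f v).1 = (g v).1) :=
  D0.congr (R := fun v => f v = g v) inferInstance fun _ => Subtype.ext_iff

instance D0.sub : D0 (fun v => (f v).1 ⊆ (g v).1) := by
  obtain ⟨i, rfl⟩ := hf.out
  obtain ⟨j, rfl⟩ := hg.out
  exact ⟨dfn_sub i j⟩

instance D0.pairMem : D0 (fun v => ZFSet.pair (f v).1 (g v).1 ∈ (h v).1) := by
  obtain ⟨i, rfl⟩ := hf.out
  obtain ⟨j, rfl⟩ := hg.out
  obtain ⟨l, rfl⟩ := hh.out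
  exact ⟨dfn_pair i j l⟩

instance D0.eqPair : D0 (fun v => (h v).1 = ZFSet.pair (f v).1 (g v).1) := by
  obtain ⟨i, rfl⟩ := hf.out
  obtain ⟨j, rfl⟩ := hg.out
  obtain ⟨l, rfl⟩ := hh.out
  exact ⟨dfn_eqPair l i j⟩

instance D0.succ : D0 (fun v => (g v).1 = insert (f v).1 (f v).1) := by
  obtain ⟨i, rfl⟩ := hf.out
  obtain ⟨j, rfl⟩ := hg.out
  exact ⟨dfn_succ j i⟩

/-- A definable relation at a tuple of variables and a variable. -/
theorem D0.def1 {K : Type} {T : (K → LA θ) → LA θ → Prop} (hT : Dfn1 LST T)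
    (φ : K → I) {f : (I → LA θ) → LA θ} (hf : F0 f) :
    D0 (fun v : I → LA θ => IsDef T (fun q => v (φ q)) (f v)) := by
  obtain ⟨i, rfl⟩ := hf.out
  exact ⟨hT.isDef.at φ i⟩

end atoms

end Pool.Agent.ZSharp
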