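import Pool.Agent.ZSharp.Setup

/-!
# Interleaving finite sequences of ordinals
-/

set_option autoImplicit false

open Set Ordinal

namespace Pool.Agent.ZSharp

universe u

/-- `x` is small, or at finite distance from one of the `b f`. -/
def InK {F : Type} (b : F → Ordinal.{u}) (o x : Ordinal.{u}) : Prop :=
  x ≤ o ∨ ∃ f, ∃ n : ℕ, x = b f + n

theorem nat_add_lt {x : Ordinal.{u}} {m n : ℕ} (h : m < n) : x + (m : Ordinal.{u}) < x + n :=
  (add_lt_add_iff_left x).2 (by exact_mod_cast h)

theorem interleave {F : Type} [Finite F] {b : F → Ordinal.{u}} {o : Ordinal.{u}} {f0 : F}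
    (hf0 : b f0 = o) {m : ℕ} {a : Fin m → Ordinal.{u}} (ha : StrictMono a) :
    ∃ t : Fin 3 → Fin m → Ordinal.{u}, t 2 = a ∧ (∀ i, InK b o (t 0 i)) ∧
      (∀ k i, t k i ≤ a i) ∧ (∀ i, a i ≤ o → ∀ k, t k i = a i) ∧
      (∀ i, o < a i → ∀ k, o < t k i) ∧
      ∀ k l k' l' : Fin 3, k < l → k' < l' →
        OE (Sum.elim b (Sum.elim (t k) (t l))) (Sum.elim b (Sum.elim (t k') (t l'))) := by
  classical
  -- the base point below `a i`
  have hg0 : ∀ i : Fin m, ∃ g : F, ¬ InK b o (a i) →
      (b g ≤ a i ∧ ∀ f, b f ≤ a i → b f ≤ b g) := by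
    intro i
    by_cases h : InK b o (a i)
    · exact ⟨f0, fun h' => absurd h h'⟩
    · have := Fintype.ofFinite F
      have hne : (Finset.univ.filter fun f => b f ≤ a i).Nonempty := by
        refine ⟨f0, Finset.mem_filter.2 ⟨Finset.mem_univ _, ?_⟩⟩
        rw [hf0]
        exact (not_le.1 fun h' => h (Or.inl h')).le
      obtain ⟨g, hg, hmax⟩ := Finset.exists_max_image _ b hne
      refine ⟨g, fun _ => ⟨(Finset.mem_filter.1 hg).2, fun f hf => ?_⟩⟩
      exact hmax f (Finset.mem_filter.2 ⟨Finset.mem_univ _, hf⟩)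
  choose g hg using hg0
  -- the offset
  obtain ⟨N, hN1, hN⟩ : ∃ N : ℕ, 1 ≤ N ∧ ∀ i j : Fin m, ∀ n : ℕ, a j = b (g i) + n →
      n < N := by
    have h1 : ∀ p : Fin m × Fin m, ∃ N : ℕ, ∀ n : ℕ, a p.2 = b (g p.1) + n → n < N := by
      intro p
      by_cases h : ∃ n : ℕ, a p.2 = b (g p.1) + n
      · obtain ⟨n0, h0⟩ := h
        refine ⟨n0 + 1, fun n hn => ?_⟩
        have h2 : b (g p.1) + (n0 : Ordinal.{u}) = b (g p.1) + n := h0.symm.trans hn
        have h3 := (add_right_inj _).1 h2
        have h4 : n0 = n := by exact_mod_cast h3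
        omega
      · exact ⟨0, fun n hn => absurd ⟨n, hn⟩ h⟩
    choose M hM using h1
    refine ⟨Finset.univ.sup M + 1, by omega, fun i j n hn => ?_⟩
    have h2 := hM (i, j) n hn
    have h3 : M (i, j) ≤ Finset.univ.sup M := Finset.le_sup (Finset.mem_univ _)
    omega
  let t : Fin 3 → Fin m → Ordinal.{u} := fun k i =>
    if InK b o (a i) then a i else if k = 2 then a i else
      b (g i) + ((N + k.1 * m + i.1 : ℕ) : Ordinal.{u})
  have tK : ∀ k i, InK b o (a i) → t k i = a i := fun k i h => if_pos h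
  have t2 : ∀ i, t 2 i = a i := fun i => by
    by_cases h : InK b o (a i)
    · exact if_pos h
    · exact (if_neg h).trans (if_pos rfl)
  have tN : ∀ k i, ¬ InK b o (a i) → k ≠ 2 →
      t k i = b (g i) + ((N + k.1 * m + i.1 : ℕ) : Ordinal.{u}) := fun k i h hk =>
    (if_neg h).trans (if_neg hk)
  -- all points at finite distance are below
  have P1 : ∀ i, ¬ InK b o (a i) → ∀ n : ℕ, b (g i) + (n : Ordinal.{u}) < a i := by
    intro i hi n
    obtain ⟨d, hd⟩ : ∃ d, a i = b (g i) + d :=
      ⟨a i - b (g i), (Ordinal.add_sub_cancel_of_le (hg i hi).1).symm⟩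
    rw [hd]
    refine (add_lt_add_iff_left _).2 ?_
    by_contra hcon
    obtain ⟨d', rfl⟩ := lt_omega0.1 ((not_lt.1 hcon).trans_lt (natCast_lt_omega0 n))
    exact hi (Or.inr ⟨g i, d', hd⟩)
  have hoi : ∀ i, ¬ InK b o (a i) → o < a i := fun i hi => not_le.1 fun h => hi (Or.inl h)
  have hobg : ∀ i, ¬ InK b o (a i) → o ≤ b (g i) := by
    intro i hi
    rw [← hf0]
    exact (hg i hi).2 f0 (by rw [hf0]; exact (hoi i hi).le)
  -- the points below `a i` are below the block
  have P2 : ∀ i, ¬ InK b o (a i) → ∀ j, InK b o (a j) → a j < a i →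
      a j < b (g i) + (N : Ordinal.{u}) := by
    intro i hi j hj hji
    have hN0 : b (g i) < b (g i) + (N : Ordinal.{u}) := by
      have := nat_add_lt (x := b (g i)) (show 0 < N by omega)
      simpa using this
    rcases hj with h | ⟨f, n, h⟩
    · exact (h.trans (hobg i hi)).trans_lt hN0
    · have h1 : b f ≤ b (g i) := (hg i hi).2 f (by
        refine le_trans ?_ hji.le
        rw [h]
        exact le_self_add)
      rcases le_or_gt (a j) (b (g i)) with h2 | h2
      · exact h2.trans_lt hN0
      · obtain ⟨d, hd⟩ : ∃ d, b (g i) = b f + d :=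
          ⟨b (g i) - b f, (Ordinal.add_sub_cancel_of_le h1).symm⟩
        rw [hd, h] at h2
        have h3 := (add_lt_add_iff_left _).1 h2
        obtain ⟨n', rfl⟩ := lt_omega0.1 (h3.trans (natCast_lt_omega0 n))
        have h4 : n' < n := by exact_mod_cast h3
        have h5 : a j = b (g i) + ((n - n' : ℕ) : Ordinal.{u}) := by
          rw [hd, h, add_assoc]
          congr 1
          have : n = n' + (n - n') := by omega
          conv_lhs => rw [this]
          push_cast
          rfl
        have h6 := hN i j _ h5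
        rw [h5]
        exact nat_add_lt h6
  have P3 : ∀ i, ¬ InK b o (a i) → ∀ f, b f < a i → b f < b (g i) + (N : Ordinal.{u}) := by
    intro i hi f hf
    have hN0 : b (g i) < b (g i) + (N : Ordinal.{u}) := by
      have := nat_add_lt (x := b (g i)) (show 0 < N by omega)
      simpa using this
    exact ((hg i hi).2 f hf.le).trans_lt hN0
  -- the elements `t k i`, `i` not in `K`
  have T1 : ∀ k i, ¬ InK b o (a i) → b (g i) + (N : Ordinal.{u}) ≤ t k i ∧ t k i ≤ a i := by
    intro k i hi
    by_cases hk : k = 2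
    · rw [hk, t2]
      exact ⟨(P1 i hi N).le, le_rfl⟩
    · rw [tN k i hi hk]
      refine ⟨?_, (P1 i hi _).le⟩
      refine (add_le_add_iff_left _).2 ?_
      exact_mod_cast (show N ≤ N + k.1 * m + i.1 by omega)
  -- comparison with `b`
  have C1 : ∀ k f i, (b f < t k i ↔ b f < a i) ∧ (t k i < b f ↔ a i < b f) := by
    intro k f i
    by_cases hi : InK b o (a i)
    · rw [tK k i hi]
      exact ⟨Iff.rfl, Iff.rfl⟩
    · have h1 := T1 k i hi
      have hne : b f ≠ a i := by
        intro h
        exact hi (Or.inr ⟨f, 0, by simpa using h.symm⟩)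
      rcases lt_or_gt_of_ne hne with h2 | h2
      · have h3 := (P3 i hi f h2).trans_le h1.1
        exact ⟨iff_of_true h3 h2, iff_of_false h3.not_gt h2.not_gt⟩
      · have h3 := h1.2.trans_lt h2
        exact ⟨iff_of_false h3.not_gt h2.not_gt, iff_of_true h3 h2⟩
  -- comparison with the elements of `K`
  have C2 : ∀ k i j, ¬ InK b o (a i) → InK b o (a j) →
      ((a j < t k i ↔ a j < a i) ∧ (t k i < a j ↔ a i < a j)) := by
    intro k i j hi hj
    have h1 := T1 k i hi
    have hne : a j ≠ a i := by
      intro h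
      rw [h] at hj
      exact hi hj
    rcases lt_or_gt_of_ne hne with h2 | h2
    · have h3 := (P2 i hi j hj h2).trans_le h1.1
      exact ⟨iff_of_true h3 h2, iff_of_false h3.not_gt h2.not_gt⟩
    · have h3 := h1.2.trans_lt h2
      exact ⟨iff_of_false h3.not_gt h2.not_gt, iff_of_true h3 h2⟩
  -- different blocks
  have C3 : ∀ k l i j, ¬ InK b o (a i) → ¬ InK b o (a j) → b (g i) < b (g j) →
      t k i < t l j := by
    intro k l i j hi hj hij
    have h1 : a i < b (g j) := by
      by_contra hcon
      exact absurd ((hg i hi).2 _ (not_lt.1 hcon)) (not_le.2 hij)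
    refine ((T1 k i hi).2.trans_lt h1).trans_le (le_trans ?_ (T1 l j hj).1)
    exact le_self_add
  -- the same block
  have C4 : ∀ k l : Fin 3, k < l → ∀ i j, ¬ InK b o (a i) → ¬ InK b o (a j) →
      b (g i) = b (g j) → t k i < t l j := by
    intro k l hkl i j hi hj hij
    have hk2 : k ≠ 2 := by
      intro h
      rw [h] at hkl
      exact absurd (Fin.le_last l) (not_le.2 hkl)
    rw [tN k i hi hk2]
    by_cases hl : l = 2
    · rw [hl, t2, hij]
      exact P1 j hj _
    · rw [tN l j hj hl, hij]
      refine nat_add_lt ?_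
      have h1 : k.1 < l.1 := hkl
      have h2 : k.1 * m + m ≤ l.1 * m := by
        have : (k.1 + 1) * m ≤ l.1 * m := Nat.mul_le_mul_right m h1
        rwa [Nat.add_mul, Nat.one_mul] at this
      have h3 := i.2
      omega
  have C5 : ∀ k i j, ¬ InK b o (a i) → ¬ InK b o (a j) → b (g i) = b (g j) →
      (t k i < t k j ↔ a i < a j) := by
    intro k i j hi hj hij
    by_cases hk : k = 2
    · rw [hk, t2, t2]
    · rw [tN k i hi hk, tN k j hj hk, hij, add_lt_add_iff_left, ha.lt_iff_lt]
      constructor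
      · intro h
        have h1 : N + k.1 * m + i.1 < N + k.1 * m + j.1 := by exact_mod_cast h
        exact Fin.lt_def.2 (by omega)
      · intro h
        have h1 := Fin.lt_def.1 h
        exact_mod_cast (show N + k.1 * m + i.1 < N + k.1 * m + j.1 by omega)
  have C5' : ∀ i j, ¬ InK b o (a i) → ¬ InK b o (a j) → b (g i) < b (g j) → a i < a j := by
    intro i j hi hj hij
    have := C3 2 2 i j hi hj hij
    rwa [t2, t2] at this
  -- the same `k`
  have D1 : ∀ k i j, (t k i < t k j ↔ a i < a j) := by
    intro k i j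
    by_cases hi : InK b o (a i)
    · by_cases hj : InK b o (a j)
      · rw [tK k i hi, tK k j hj]
      · rw [tK k i hi]
        exact (C2 k j i hj hi).1
    · by_cases hj : InK b o (a j)
      · rw [tK k j hj]
        exact (C2 k i j hi hj).2
      · rcases lt_trichotomy (b (g i)) (b (g j)) with h | h | h
        · exact iff_of_true (C3 k k i j hi hj h) (C5' i j hi hj h)
        · exact C5 k i j hi hj h
        · exact iff_of_false (C3 k k j i hj hi h).not_gt (C5' j i hj hi h).not_gt
  -- different `k`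
  have D2 : ∀ k l : Fin 3, k < l → ∀ i j,
      (t k i < t l j ↔ if InK b o (a i) ∨ InK b o (a j) then a i < a j else
        b (g i) ≤ b (g j)) ∧
      (t l j < t k i ↔ if InK b o (a i) ∨ InK b o (a j) then a j < a i else
        b (g j) < b (g i)) := by
    intro k l hkl i j
    by_cases hi : InK b o (a i)
    · rw [if_pos (Or.inl hi), if_pos (Or.inl hi)]
      by_cases hj : InK b o (a j)
      · rw [tK k i hi, tK l j hj]
        exact ⟨Iff.rfl, Iff.rfl⟩
      · rw [tK k i hi]
        exact ⟨(C2 l j i hj hi).1, (C2 l j i hj hi).2⟩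
    · by_cases hj : InK b o (a j)
      · rw [if_pos (Or.inr hj), if_pos (Or.inr hj), tK l j hj]
        exact ⟨(C2 k i j hi hj).2, (C2 k i j hi hj).1⟩
      · have hn : ¬ (InK b o (a i) ∨ InK b o (a j)) := by tauto
        rw [if_neg hn, if_neg hn]
        rcases lt_trichotomy (b (g i)) (b (g j)) with h | h | h
        · have h1 := C3 k l i j hi hj h
          exact ⟨iff_of_true h1 h.le, iff_of_false h1.not_gt h.not_gt⟩
        · have h1 := C4 k l hkl i j hi hj h
          exact ⟨iff_of_true h1 h.le, iff_of_false h1.not_gt h.not_gt⟩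
        · have h1 := C3 l k j i hj hi h
          exact ⟨iff_of_false h1.not_gt (not_le.2 h), iff_of_true h1 h⟩
  refine ⟨t, funext t2, ?_, ?_, ?_, ?_, ?_⟩
  · intro i
    by_cases hi : InK b o (a i)
    · rw [tK 0 i hi]
      exact hi
    · rw [tN 0 i hi (by decide)]
      exact Or.inr ⟨g i, _, rfl⟩
  · intro k i
    by_cases hi : InK b o (a i)
    · rw [tK k i hi]
    · exact (T1 k i hi).2
  · intro i hi k
    exact tK k i (Or.inl hi)
  · intro i hoi' k
    by_cases hi : InK b o (a i)
    · rw [tK k i hi]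
      exact hoi'
    · have hN0 : b (g i) < b (g i) + (N : Ordinal.{u}) := by
        have := nat_add_lt (x := b (g i)) (show 0 < N by omega)
        simpa using this
      exact (hobg i hi).trans_lt (hN0.trans_le (T1 k i hi).1)
  · intro k l k' l' hkl hkl'
    rintro (f | (i | i)) (f' | (j | j))
    · exact Iff.rfl
    · exact (C1 k f j).1.trans (C1 k' f j).1.symm
    · exact (C1 l f j).1.trans (C1 l' f j).1.symm
    · exact (C1 k f' i).2.trans (C1 k' f' i).2.symm
    · exact (D1 k i j).trans (D1 k' i j).symm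
    · exact (D2 k l hkl i j).1.trans (D2 k' l' hkl' i j).1.symm
    · exact (C1 l f' i).2.trans (C1 l' f' i).2.symm
    · exact (D2 k l hkl j i).2.trans (D2 k' l' hkl' j i).2.symm
    · exact (D1 l i j).trans (D1 l' i j).symm

end Pool.Agent.ZSharp
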