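import Pool.Agent.ZSharp.OLPos
import Pool.Agent.ZSharp.Inter
import Pool.Agent.ZSharp.Calc0

/-!
# The chain condition of the forcing notion
-/

set_option autoImplicit false
set_option linter.deprecated false

open FirstOrder Set Ordinal Cardinal

namespace Pool.Agent.ZSharp

universe u w

/-- Indiscernibility over small ordinals, second form. -/
theorem Sit.lowInd' {L : FirstOrder.Language.{0, 0}} {A : Type w} [L.Structure A]
    {c : Ordinal.{u} → A} {lam : Ordinal.{u}} {J : Set Ordinal.{u}} {E : A → A → Prop}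
    (S : Sit L A c lam J E) {κ I : Type} [Finite κ] [Finite I]
    {R : (κ ⊕ I → A) → Prop} (hR : Dfn L R) {γ : Ordinal.{u}} (hγ : γ < lam)
    {ξ : κ → Ordinal.{u}} (hξ : ∀ i, ξ i ≤ γ) {a b : I → Ordinal.{u}} (ha : InJ J lam a)
    (hb : InJ J lam b) (h : OE a b) (hlow : ∀ i, (a i ≤ γ ∨ b i ≤ γ) → a i = b i) :
    R (c ∘ Sum.elim ξ a) ↔ R (c ∘ Sum.elim ξ b) := by
  classical
  let g : κ ⊕ I → (κ ⊕ {i : I // a i ≤ γ}) ⊕ {i : I // γ < a i} := Sum.elim
    (fun k => Sum.inl (Sum.inl k)) (fun i => if h : a i ≤ γ then Sum.inl (Sum.inr ⟨i, h⟩)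
      else Sum.inr ⟨i, not_le.1 h⟩)
  let ξ' : κ ⊕ {i : I // a i ≤ γ} → Ordinal.{u} := Sum.elim ξ fun i => a i.1
  have e1 : ∀ b' : I → Ordinal.{u}, (∀ i, a i ≤ γ → a i = b' i) →
      (c ∘ Sum.elim ξ' (fun i : {i : I // γ < a i} => b' i.1)) ∘ g = c ∘ Sum.elim ξ b' := by
    intro b' hb'
    funext i
    rcases i with k | i
    · rfl
    · by_cases h : a i ≤ γ
      · have : g (Sum.inr i) = Sum.inl (Sum.inr ⟨i, h⟩) := dif_pos h
        rw [Function.comp_apply, this]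
        exact congrArg c (hb' i h)
      · have : g (Sum.inr i) = Sum.inr ⟨i, not_le.1 h⟩ := dif_neg h
        rw [Function.comp_apply, this]
        rfl
  rw [← e1 a fun _ _ => rfl, ← e1 b fun i hi => hlow i (Or.inl hi)]
  refine S.lowInd (R := fun v => R (v ∘ g)) (hR.relabel g) hγ ?_ (ha.comp _) (hb.comp _)
    (fun i => i.2) (fun i => ?_) (h.comp _)
  · rintro (k | i)
    · exact hξ k
    · exact i.2
  · by_contra hcon
    have h1 := hlow i.1 (Or.inr (not_lt.1 hcon))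
    have h2 := i.2
    rw [h1] at h2
    exact hcon h2

/-- The set of all `(z, (i, a))` such that `a` is the `i`-th element of `z`. -/
theorem exists_EN (reg : Cardinal.{u}) (lam : Ordinal.{u}) : ∃ EN : ZFSet.{u}, Constructible EN ∧
    (∀ z ∈ Pos reg lam, ∀ a ∈ z, ∃ ι < reg.ord,
      ZFSet.pair z (ZFSet.pair ι.toZFSet a) ∈ EN) ∧
    (∀ z i a, ZFSet.pair z (ZFSet.pair i a) ∈ EN → z ∈ Pos reg lam ∧ a ∈ z) ∧
    (∀ z i a a', ZFSet.pair z (ZFSet.pair i a) ∈ EN → ZFSet.pair z (ZFSet.pair i a') ∈ EN →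
      a = a') := by
  obtain ⟨δ, hδ⟩ := Pos_constr reg lam
  obtain ⟨κ1, -, hκ1⟩ := exists_Big (max lam δ) 0
  have hl1 : lam < κ1.ord := (le_max_left _ _).trans_lt hκ1.lt
  obtain ⟨κ, hκ0, hκ⟩ := exists_Big κ1.ord reg
  have h1κ : reg.ord < κ.ord := Cardinal.ord_lt_ord.2 hκ0
  let PL : LA κ.ord := ⟨Pos reg lam, hκ.mem (hκ1.mem (Lset_mono (le_max_right _ _) hδ))⟩
  let lL : LA κ.ord := oL (hl1.trans hκ.lt)
  let oneL : LA κ.ord := oL h1κ
  let Q : LA κ.ord → Prop := fun t => ∃ z i a w h : LA κ.ord, z.1 ∈ PL.1 ∧ i.1 ∈ oneL.1 ∧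
    a.1 ∈ z.1 ∧ OI h i z a ∧ w.1 = ZFSet.pair i.1 a.1 ∧ t.1 = ZFSet.pair z.1 w.1
  have hQ : Constructible (sepL Q) := sepL_constr inferInstance
  refine ⟨sepL Q, hQ, ?_, ?_, ?_⟩
  · intro z hz a ha
    have hzκ := Lset_trans PL.2 hz
    have haκ := Lset_trans hzκ ha
    obtain ⟨-, h2⟩ := exists_OI hκ1.lim hl1 hκ hz (zL := ⟨z, hzκ⟩) (lL := lL) rfl rfl
    obtain ⟨i, h, ⟨ι, hι, hi⟩, hoi⟩ := h2 ⟨a, haκ⟩ ha
    have hw := Lset_pair hκ.lim i.2 haκ
    refine ⟨ι, hι, ?_⟩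
    rw [mem_sepL, ← hi]
    refine ⟨Lset_pair hκ.lim hzκ hw, ⟨z, hzκ⟩, i, ⟨a, haκ⟩, ⟨_, hw⟩, h, hz, ?_, ha, hoi,
      rfl, rfl⟩
    rw [hi]
    exact Ordinal.toZFSet_mem_toZFSet_iff.2 hι
  · intro z i a h
    obtain ⟨_, z', i', a', w, h', h1, h2, h3, h4, h5, h6⟩ := mem_sepL.1 h
    obtain ⟨e1, e2⟩ := ZFSet.pair_injective h6
    rw [h5] at e2
    obtain ⟨e3, e4⟩ := ZFSet.pair_injective e2
    rw [e1, e4]
    exact ⟨h1, h3⟩
  · intro z i a b h k
    obtain ⟨_, z', i', a', w, h', h1, h2, h3, h4, h5, h6⟩ := mem_sepL.1 h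
    obtain ⟨e1, e2⟩ := ZFSet.pair_injective h6
    rw [h5] at e2
    obtain ⟨e3, e4⟩ := ZFSet.pair_injective e2
    obtain ⟨_, z'', i'', b', w', k', k1, k2, k3, k4, k5, k6⟩ := mem_sepL.1 k
    obtain ⟨f1, f2⟩ := ZFSet.pair_injective k6
    rw [k5] at f2
    obtain ⟨f3, f4⟩ := ZFSet.pair_injective f2
    have g1 : z'' = z' := Subtype.ext (f1.symm.trans e1)
    have g2 : i'' = i' := Subtype.ext (f3.symm.trans e3)
    rw [g1, g2] at k4
    rw [g1] at k3
    obtain ⟨ι, -, hi⟩ := Ordinal.mem_toZFSet_iff.1 h2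
    rw [e4, f4]
    exact OI.unique hi.symm (fun t ht => Pos_ord h1 ht) h4 k4 h3 k3

theorem Pos_chain (h0 : ZeroSharp.{u}) {reg : Cardinal.{u}} (hreg0 : ℵ₀ < reg)
    (lam : Ordinal.{u}) : LChain (Pos reg lam) (PosR reg lam) (Order.succ reg) := by
  classical
  intro X hX hXP
  obtain ⟨J, hJ⟩ := h0
  obtain ⟨EN, hEN, E1, E2, E3⟩ := exists_EN reg lam
  obtain ⟨δ1, hδ1⟩ := id hX
  obtain ⟨δ2, hδ2⟩ := hEN
  obtain ⟨κ, hκ0, hκ⟩ := exists_Big (max δ1 δ2) reg
  have h1κ : reg.ord < κ.ord := Cardinal.ord_lt_ord.2 hκ0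
  have h0l : 0 < κ.ord := zero_le.trans_lt h1κ
  have S := hJ.sit hκ.unc h0l
  let A := LA κ.ord
  let c := cc κ.ord h0l
  let XL : A := ⟨X, hκ.mem (Lset_mono (le_max_left _ _) hδ1)⟩
  let EL : A := ⟨EN, hκ.mem (Lset_mono (le_max_right _ _) hδ2)⟩
  obtain ⟨n1, e1, T1, he1, hT1, hd1⟩ := S.gen XL
  obtain ⟨n2, e2, T2, he2, hT2, hd2⟩ := S.gen EL
  -- the base points
  let F := (Fin n1 ⊕ Fin n2) ⊕ Unit
  let Bo : F → Ordinal.{u} := Sum.elim (Sum.elim e1 e2) fun _ => reg.ord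
  have hBo : InJ J κ.ord Bo := by
    rintro ((i | i) | i)
    · exact he1 i
    · exact he2 i
    · exact ⟨hJ.cardinals _ hreg0, h1κ⟩
  have hmono : StrictMono (enumOrd J) := enumOrd_strictMono hJ.not_bdd
  have hb : ∀ f, ∃ x, enumOrd J x = Bo f := fun f =>
    enumOrd_surjective hJ.not_bdd (hBo f).1
  choose b hb using hb
  let f0 : F := Sum.inr ()
  let o := b f0
  have ho : enumOrd J o = reg.ord := hb f0
  let KK : Set Ordinal.{u} := {j | ∃ x, InK b o x ∧ enumOrd J x = j}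
  have hKK : #KK < Cardinal.lift.{u + 1} (Order.succ reg) := by
    have h1 : KK ⊆ enumOrd J '' (Set.Iio (o + 1) ∪
        Set.range fun p : F × ℕ => b p.1 + (p.2 : Ordinal.{u})) := by
      rintro j ⟨x, hx | ⟨f, n, hx⟩, rfl⟩
      · exact ⟨x, Or.inl (Order.lt_add_one_iff.2 hx), rfl⟩
      · exact ⟨x, Or.inr ⟨(f, n), hx.symm⟩, rfl⟩
    refine (mk_le_mk_of_subset h1).trans_lt (mk_image_le.trans_lt ?_)
    have h2 : ℵ₀ < Cardinal.lift.{u + 1} (Order.succ reg) := by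
      rw [← lift_aleph0.{u + 1, u}, Cardinal.lift_lt]
      exact hreg0.trans (Order.lt_succ reg)
    refine (mk_union_le _ _).trans_lt (add_lt_of_lt h2.le ?_ ?_)
    · rw [Cardinal.mk_Iio_ordinal, Cardinal.lift_lt, ← Cardinal.lt_ord]
      have h3 : o ≤ reg.ord := by
        rw [← ho]
        exact hmono.le_apply
      have h4 : reg.ord < (Order.succ reg).ord :=
        Cardinal.ord_lt_ord.2 (Order.lt_succ reg)
      refine card_lim ?_ _ (h3.trans_lt h4)
      rw [← Cardinal.lift_lt.{u, u + 1}, lift_aleph0]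
      exact h2
    · exact ((Set.countable_range _).le_aleph0).trans_lt h2
  refine ⟨ZFSet.sep (fun y => ∃ h : y ∈ Lset κ.ord, Supp LST c KK ⟨y, h⟩) X,
    fun y hy => (ZFSet.mem_sep.1 hy).1, ?_, ?_⟩
  · have hℵ : ℵ₀ < Order.succ reg := hreg0.trans (Order.lt_succ reg)
    have h1 := mk_supp_lt (A := A) (L := LST) (c := c) (μ := Order.succ reg) hℵ hKK
    rw [← Cardinal.lift_lt.{u, u + 1}, ← ZFSet.cardinalMk_coe_sort]
    refine lt_of_le_of_lt ?_ h1
    refine mk_le_of_injective (f := fun y => (⟨⟨y.1, (ZFSet.mem_sep.1 y.2).2.choose⟩,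
      (ZFSet.mem_sep.1 y.2).2.choose_spec⟩ : {z : A | Supp LST c KK z})) fun y y' h => ?_
    exact Subtype.ext (congrArg (fun z => z.1.1) h)
  intro x hx
  have hxκ : x ∈ Lset κ.ord := Lset_trans XL.2 hx
  obtain ⟨n0, e0, T0, he0, hT0, hd0⟩ := S.gen ⟨x, hxκ⟩
  obtain ⟨m, st, sr, hst, hsr⟩ := exists_sort e0
  let e : Fin m → Ordinal.{u} := e0 ∘ st
  let T : (Fin m → A) → A → Prop := fun v z => T0 (v ∘ sr) z
  have hT : Dfn1 LST T := hT0.relabel sr
  have he : InJ J κ.ord e := fun i => he0 _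
  have hd : IsDef T (c ∘ e) ⟨x, hxκ⟩ := by
    intro y
    have : (c ∘ e) ∘ sr = c ∘ e0 := by
      funext i
      exact congrArg c (hsr i)
    show T0 ((c ∘ e) ∘ sr) y ↔ _
    rw [this]
    exact hd0 y
  have ha : ∀ i, ∃ x, enumOrd J x = e i := fun i => enumOrd_surjective hJ.not_bdd (he i).1
  choose a ha using ha
  have hamono : StrictMono a := fun i j hij => by
    rw [← hmono.lt_iff_lt, ha, ha]
    exact hst hij
  obtain ⟨t, ht2, htK, hta, htlow, hthigh, htOE⟩ := interleave (b := b) (o := o) (f0 := f0)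
    rfl hamono
  let es : Fin 3 → Fin m → Ordinal.{u} := fun k i => enumOrd J (t k i)
  have hes2 : es 2 = e := by
    funext i
    show enumOrd J (t 2 i) = e i
    rw [ht2, ha]
  have hesJ : ∀ k, InJ J κ.ord (es k) := by
    intro k i
    refine ⟨enumOrd_mem hJ.not_bdd _, (hmono.monotone (hta k i)).trans_lt ?_⟩
    rw [ha]
    exact (he i).2
  have hOE : ∀ k l k' l' : Fin 3, k < l → k' < l' →
      OE (Sum.elim Bo (Sum.elim (es k) (es l))) (Sum.elim Bo (Sum.elim (es k') (es l'))) := by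
    intro k l k' l' h h'
    have e3 : ∀ k l : Fin 3, Sum.elim Bo (Sum.elim (es k) (es l)) =
        enumOrd J ∘ Sum.elim b (Sum.elim (t k) (t l)) := by
      intro k l
      funext i
      rcases i with i | (i | i)
      · exact (hb i).symm
      · rfl
      · rfl
    rw [e3, e3]
    intro i j
    rw [Function.comp_apply, Function.comp_apply, Function.comp_apply, Function.comp_apply,
      hmono.lt_iff_lt, hmono.lt_iff_lt]
    exact htOE k l k' l' h h' i j
  have hOE1 : ∀ k : Fin 3, OE (Sum.elim Bo (es k)) (Sum.elim Bo (es 2)) := by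
    have k01 : OE (Sum.elim Bo (es 0)) (Sum.elim Bo (es 1)) := by
      have := (hOE 0 1 1 2 (by decide) (by decide)).comp
        (Sum.elim Sum.inl fun i => Sum.inr (Sum.inl i) : F ⊕ Fin m → F ⊕ (Fin m ⊕ Fin m))
      convert this using 1 <;>
      · funext i
        rcases i with i | i <;> rfl
    have k12 : OE (Sum.elim Bo (es 1)) (Sum.elim Bo (es 2)) := by
      have := (hOE 0 1 0 2 (by decide) (by decide)).comp
        (Sum.elim Sum.inl fun i => Sum.inr (Sum.inr i) : F ⊕ Fin m → F ⊕ (Fin m ⊕ Fin m))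
      convert this using 1 <;>
      · funext i
        rcases i with i | i <;> rfl
    intro k
    fin_cases k
    · exact k01.trans k12
    · exact k12
    · exact OE.refl _
  -- the copies of `x`
  have hR1 : ∀ k : Fin 3, ∃ z : A, IsDef T (c ∘ es k) z ∧ z.1 ∈ X := by
    let R1 : (F ⊕ Fin m → A) → Prop := fun v => ∃ z XX : A,
      IsDef T (fun q => v (Sum.inr q)) z ∧
      IsDef T1 (fun q => v (Sum.inl (Sum.inl (Sum.inl q)))) XX ∧ z.1 ∈ XX.1
    have hTi : ∀ {I : Type} (φ : Fin m → I) {f : (I → A) → A} [F0 f],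
        D0 (fun v : I → A => IsDef T (fun q => v (φ q)) (f v)) := by
      intro I φ f hf
      exact D0.def1 hT φ hf
    have hTi1 : ∀ {I : Type} (φ : Fin n1 → I) {f : (I → A) → A} [F0 f],
        D0 (fun v : I → A => IsDef T1 (fun q => v (φ q)) (f v)) := by
      intro I φ f hf
      exact D0.def1 hT1 φ hf
    have hR1 : Dfn LST R1 := (inferInstance : D0 R1).out
    intro k
    have h1 : R1 (c ∘ Sum.elim Bo (es 2)) := by
      refine ⟨⟨x, hxκ⟩, XL, ?_, hd1, hx⟩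
      have := hd
      rw [← hes2] at this
      exact this
    obtain ⟨z, XX, h2, h3, h4⟩ := (S.ind hR1 (hBo.sum (hesJ k)) (hBo.sum (hesJ 2))
      (hOE1 k)).2 h1
    have h5 : XX = XL := IsDef.unique h3 hd1
    rw [h5] at h4
    exact ⟨z, h2, h4⟩
  choose xk hxk hxkX using hR1
  have hxk2 : (xk 2).1 = x := by
    have h1 := hxk 2
    rw [hes2] at h1
    exact congrArg Subtype.val (h1.unique hd)
  have hPk : ∀ k, (xk k).1 ∈ Pos reg lam := fun k => hXP (hxkX k)
  -- the relation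
  let P2 : A → A → Ordinal.{u} → Ordinal.{u} → Prop := fun z z' ι ι' =>
    ∃ s, ZFSet.pair z.1 (ZFSet.pair ι.toZFSet s) ∈ EN ∧
      ZFSet.pair z'.1 (ZFSet.pair ι'.toZFSet (insert s s)) ∈ EN
  have hP2 : ∀ (sw : Bool) (ι ι' : Ordinal.{u}), ι < reg.ord → ι' < reg.ord →
      ∀ k l k' l' : Fin 3, k < l → k' < l' →
      (P2 (if sw then xk k else xk l) (if sw then xk l else xk k) ι ι' ↔
        P2 (if sw then xk k' else xk l') (if sw then xk l' else xk k') ι ι') := by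
    intro sw ι ι' hι hι' k l k' l' hkl hkl'
    let R2 : (Fin 2 ⊕ (F ⊕ (Fin m ⊕ Fin m)) → A) → Prop := fun v =>
      ∃ z z' en s s' w w' : A,
        IsDef T (fun q => v (Sum.inr (Sum.inr (if sw then Sum.inl q else Sum.inr q)))) z ∧
        IsDef T (fun q => v (Sum.inr (Sum.inr (if sw then Sum.inr q else Sum.inl q)))) z' ∧
        IsDef T2 (fun q => v (Sum.inr (Sum.inl (Sum.inl (Sum.inr q))))) en ∧
        w.1 = ZFSet.pair (v (Sum.inl 0)).1 s.1 ∧ w'.1 = ZFSet.pair (v (Sum.inl 1)).1 s'.1 ∧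
        ZFSet.pair z.1 w.1 ∈ en.1 ∧ ZFSet.pair z'.1 w'.1 ∈ en.1 ∧
        s'.1 = insert s.1 s.1
    have hTi : ∀ {I : Type} (φ : Fin m → I) {f : (I → A) → A} [F0 f],
        D0 (fun v : I → A => IsDef T (fun q => v (φ q)) (f v)) := by
      intro I φ f hf
      exact D0.def1 hT φ hf
    have hTi2 : ∀ {I : Type} (φ : Fin n2 → I) {f : (I → A) → A} [F0 f],
        D0 (fun v : I → A => IsDef T2 (fun q => v (φ q)) (f v)) := by
      intro I φ f hf
      exact D0.def1 hT2 φ hf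
    have hR2 : Dfn LST R2 := (inferInstance : D0 R2).out
    have key : ∀ k l : Fin 3, R2 (c ∘ Sum.elim ![ι, ι'] (Sum.elim Bo
        (Sum.elim (es k) (es l)))) ↔
        P2 (if sw then xk k else xk l) (if sw then xk l else xk k) ι ι' := by
      intro k l
      have hι1 : (c ι).1 = ι.toZFSet := cc_val h0l (hι.trans h1κ)
      have hι2 : (c ι').1 = ι'.toZFSet := cc_val h0l (hι'.trans h1κ)
      have hz1 : IsDef T (fun q => (c ∘ Sum.elim ![ι, ι'] (Sum.elim Bo
          (Sum.elim (es k) (es l)))) (Sum.inr (Sum.inr (if sw then Sum.inl q else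
            Sum.inr q)))) (if sw then xk k else xk l) := by
        cases sw
        · exact hxk l
        · exact hxk k
      have hz2 : IsDef T (fun q => (c ∘ Sum.elim ![ι, ι'] (Sum.elim Bo
          (Sum.elim (es k) (es l)))) (Sum.inr (Sum.inr (if sw then Sum.inr q else
            Sum.inl q)))) (if sw then xk l else xk k) := by
        cases sw
        · exact hxk k
        · exact hxk l
      constructor
      · rintro ⟨z, z', en, s, s', w, w', h1, h2, h3, h4, h5, h6, h7, h8⟩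
        have g1 := h1.unique hz1
        have g2 := h2.unique hz2
        have g3 : en = EL := IsDef.unique h3 hd2
        have h4' : w.1 = ZFSet.pair (c ι).1 s.1 := h4
        have h5' : w'.1 = ZFSet.pair (c ι').1 s'.1 := h5
        rw [g1, g3, h4', hι1] at h6
        rw [g2, g3, h5', hι2, h8] at h7
        exact ⟨s.1, h6, h7⟩
      · rintro ⟨s, h1, h2⟩
        have hw1 : ZFSet.pair ι.toZFSet s ∈ Lset κ.ord :=
          Lset_trans (Lset_trans EL.2 h1 |> fun h => Lset_trans h (by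
            simp [ZFSet.pair] :
            ({(if sw then xk k else xk l).1, ZFSet.pair ι.toZFSet s} : ZFSet) ∈ _))
            (by simp)
        have hw2 : ZFSet.pair ι'.toZFSet (insert s s) ∈ Lset κ.ord :=
          Lset_trans (Lset_trans EL.2 h2 |> fun h => Lset_trans h (by
            simp [ZFSet.pair] :
            ({(if sw then xk l else xk k).1, ZFSet.pair ι'.toZFSet (insert s s)} :
              ZFSet) ∈ _))
            (by simp)
        have hs1 : s ∈ Lset κ.ord :=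
          Lset_trans (Lset_trans hw1 (by simp [ZFSet.pair] :
            ({ι.toZFSet, s} : ZFSet) ∈ _)) (by simp)
        have hs2 : insert s s ∈ Lset κ.ord :=
          Lset_trans (Lset_trans hw2 (by simp [ZFSet.pair] :
            ({ι'.toZFSet, insert s s} : ZFSet) ∈ _)) (by simp)
        refine ⟨_, _, EL, ⟨s, hs1⟩, ⟨_, hs2⟩, ⟨_, hw1⟩, ⟨_, hw2⟩, hz1, hz2, hd2, ?_, ?_,
          h1, h2, rfl⟩
        · show _ = ZFSet.pair (c ι).1 s
          rw [hι1]
        · show _ = ZFSet.pair (c ι').1 (insert s s)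
          rw [hι2]
    rw [← key, ← key]
    refine S.lowInd' hR2 h1κ ?_ (hBo.sum ((hesJ k).sum (hesJ l)))
      (hBo.sum ((hesJ k').sum (hesJ l'))) (hOE k l k' l' hkl hkl') ?_
    · intro i
      fin_cases i
      · exact hι.le
      · exact hι'.le
    · have hlow : ∀ k k' : Fin 3, ∀ i, es k i ≤ reg.ord → es k i = es k' i := by
        intro k k' i h
        rw [← ho] at h
        have h1 : t k i ≤ o := (hmono.le_iff_le).1 h
        have h2 : a i ≤ o := by
          by_contra hcon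
          exact absurd (hthigh i (not_le.1 hcon) k) (not_lt.2 h1)
        show enumOrd J (t k i) = enumOrd J (t k' i)
        rw [htlow i h2 k, htlow i h2 k']
      rintro (i | (i | i)) h
      · rfl
      · rcases h with h | h
        · exact hlow k k' i h
        · exact (hlow k' k i h).symm
      · rcases h with h | h
        · exact hlow l l' i h
        · exact (hlow l' l i h).symm
  -- no consecutive elements
  have hcase : ∀ s, ¬ (s ∈ (xk 2).1 ∧ insert s s ∈ (xk 0).1) ∧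
      ¬ (s ∈ (xk 0).1 ∧ insert s s ∈ (xk 2).1) := by
    intro s
    constructor
    · rintro ⟨h1, h2⟩
      obtain ⟨ι, hι, k1⟩ := E1 _ (hPk 2) s h1
      obtain ⟨ι', hι', k2⟩ := E1 _ (hPk 0) _ h2
      have p : P2 (xk 2) (xk 0) ι ι' := ⟨s, k1, k2⟩
      obtain ⟨s1, a1, a2⟩ := (hP2 false ι ι' hι hι' 0 2 1 2 (by decide) (by decide)).1 p
      obtain ⟨s2, b1, b2⟩ := (hP2 false ι ι' hι hι' 0 2 0 1 (by decide) (by decide)).1 p
      have g1 : s1 = s := E3 _ _ _ _ a1 k1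
      have g2 : insert s2 s2 = insert s s := E3 _ _ _ _ b2 k2
      rw [g1, ← g2] at a2
      exact (mem_Pos.1 (hPk 1)).2.2.2 s2 (E2 _ _ _ b1).2 (E2 _ _ _ a2).2
    · rintro ⟨h1, h2⟩
      obtain ⟨ι, hι, k1⟩ := E1 _ (hPk 0) s h1
      obtain ⟨ι', hι', k2⟩ := E1 _ (hPk 2) _ h2
      have p : P2 (xk 0) (xk 2) ι ι' := ⟨s, k1, k2⟩
      obtain ⟨s1, a1, a2⟩ := (hP2 true ι ι' hι hι' 0 2 1 2 (by decide) (by decide)).1 p
      obtain ⟨s2, b1, b2⟩ := (hP2 true ι ι' hι hι' 0 2 0 1 (by decide) (by decide)).1 p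
      have g1 : insert s1 s1 = insert s s := E3 _ _ _ _ a2 k2
      have g2 : s2 = s := E3 _ _ _ _ b1 k1
      rw [g2, ← g1] at b2
      exact (mem_Pos.1 (hPk 1)).2.2.2 s1 (E2 _ _ _ a1).2 (E2 _ _ _ b2).2
  rw [hxk2] at hcase
  have hy : (xk 0).1 ∈ Pos reg lam := hPk 0
  have hxP := hXP hx
  refine ⟨(xk 0).1, ZFSet.mem_sep.2 ⟨hxkX 0, (xk 0).2, Fin m, inferInstance, es 0, T,
    fun i => ⟨t 0 i, htK i, rfl⟩, hT, hxk 0⟩, x ∪ (xk 0).1, ?_⟩
  have hunion : x ∪ (xk 0).1 ∈ Pos reg lam := by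
    obtain ⟨a1, a2, a3, a4⟩ := mem_Pos.1 hxP
    obtain ⟨b1, b2, b3, b4⟩ := mem_Pos.1 hy
    refine mem_Pos.2 ⟨?_, ⟨_, Lset_union hκ.lim hxκ (xk 0).2⟩, ?_, ?_⟩
    · intro s hs
      rcases ZFSet.mem_union.1 hs with h | h
      · exact a1 h
      · exact b1 h
    · exact ZFSet.card_union_le.trans_lt (Cardinal.add_lt_of_lt hreg0.le a3 b3)
    · intro s hs hs'
      rcases ZFSet.mem_union.1 hs with h | h <;> rcases ZFSet.mem_union.1 hs' with h' | h'
      · exact a4 s h h'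
      · exact (hcase s).1 ⟨h, h'⟩
      · exact (hcase s).2 ⟨h, h'⟩
      · exact b4 s h h'
  exact ⟨le_iff.2 ⟨hunion, hxP, fun s hs => ZFSet.mem_union.2 (Or.inl hs)⟩,
    le_iff.2 ⟨hunion, hy, fun s hs => ZFSet.mem_union.2 (Or.inr hs)⟩⟩

end Pool.Agent.ZSharp
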