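import Mathlib

/-!
# Closing off under small many-valued operations
-/

set_option autoImplicit false

open Set Cardinal

namespace Pool.Agent.ZSharp

universe v

theorem exists_closure {X : Type v} {κ : Cardinal.{v}} (hκ : κ.IsRegular) (hκ0 : ℵ₀ < κ)
    (F : List X → Set X) (hF : ∀ l, #(F l) < κ) (ini : Set X) (hi : Cardinal.mk ini < κ) :
    ∃ K : Set X, ini ⊆ K ∧ #K < κ ∧ ∀ l : List X, (∀ x ∈ l, x ∈ K) → F l ⊆ K := by
  classical
  let step : Set X → Set X := fun K => K ∪ ⋃ l : List K, F (l.map Subtype.val)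
  let Kn : ℕ → Set X := fun n => Nat.rec ini (fun _ K => step K) n
  have hs : ∀ n, Kn (n + 1) = step (Kn n) := fun n => rfl
  have hcard : ∀ n, #(↥(Kn n)) < κ := by
    intro n
    induction n with
    | zero => exact hi
    | succ n ih =>
      rw [hs]
      refine (mk_union_le _ _).trans_lt (add_lt_of_lt hκ.aleph0_le ih ?_)
      rw [card_iUnion_lt_iff_forall_of_isRegular hκ]
      · exact fun l => hF _
      · exact (mk_list_le_max _).trans_lt (max_lt hκ0 ih)
  have hmono : ∀ n, Kn n ⊆ Kn (n + 1) := fun n => by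
    rw [hs]
    exact subset_union_left
  have hmono' : Monotone Kn := monotone_nat_of_le_succ hmono
  refine ⟨⋃ n : ULift.{v} ℕ, Kn n.down, ?_, ?_, ?_⟩
  · exact subset_iUnion_of_subset ⟨0⟩ (le_refl ini)
  · rw [card_iUnion_lt_iff_forall_of_isRegular hκ]
    · exact fun n => hcard _
    · simpa using hκ0
  · intro l hl
    have h1 : ∀ l : List X, (∀ x ∈ l, x ∈ ⋃ n : ULift.{v} ℕ, Kn n.down) →
        ∃ n, ∀ x ∈ l, x ∈ Kn n := by
      intro l
      induction l with
      | nil => exact fun _ => ⟨0, fun x hx => by simp at hx⟩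
      | cons a l ih =>
        intro h
        obtain ⟨n, hn⟩ := ih fun x hx => h x (List.mem_cons_of_mem _ hx)
        obtain ⟨m, hm⟩ := mem_iUnion.1 (h a List.mem_cons_self)
        refine ⟨max n m.down, fun x hx => ?_⟩
        rcases List.mem_cons.1 hx with rfl | hx
        · exact hmono' (le_max_right _ _) hm
        · exact hmono' (le_max_left _ _) (hn x hx)
    obtain ⟨n, hn⟩ := h1 l hl
    refine fun y hy => mem_iUnion.2 ⟨⟨n + 1⟩, ?_⟩
    show y ∈ Kn (n + 1)
    rw [hs]
    refine Or.inr (mem_iUnion.2 ⟨l.attach.map fun x => ⟨x.1, hn x.1 x.2⟩, ?_⟩)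
    convert hy using 2
    rw [List.map_map]
    exact List.attach_map_subtype_val l

end Pool.Agent.ZSharp
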