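import Pool.Agent.ZSharp.Reduce
import Pool.Agent.ZSharp.Closure

/-!
# The chain condition, abstractly
-/

set_option autoImplicit false
set_option linter.deprecated false

open FirstOrder Set Ordinal Cardinal

namespace Pool.Agent.ZSharp

universe u v w

theorem exists_closure_tuple {X : Type v} {κ : Cardinal.{v}} (hκ : κ.IsRegular)
    (hκ0 : ℵ₀ < κ) (G : (Σ n, Fin n → X) → Set X) (hG : ∀ p, #(G p) < κ) :
    ∀ ini : Set X, Cardinal.mk ini < κ →
    ∃ K : Set X, ini ⊆ K ∧ #K < κ ∧ ∀ (n : ℕ) (e : Fin n → X), (∀ i, e i ∈ K) →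
      G ⟨n, e⟩ ⊆ K := by
  intro ini hi
  obtain ⟨K, h1, h2, h3⟩ := exists_closure hκ hκ0 (fun l => G (List.equivSigmaTuple l))
    (fun l => hG _) ini hi
  refine ⟨K, h1, h2, fun n e he => ?_⟩
  have h4 := h3 (List.equivSigmaTuple.symm ⟨n, e⟩) (by
    intro x hx
    have : x ∈ List.ofFn e := hx
    rw [List.mem_ofFn] at this
    obtain ⟨i, rfl⟩ := this
    exact he i)
  rwa [Equiv.apply_symm_apply] at h4

variable {L : FirstOrder.Language.{0, 0}} {A : Type (u + 1)} [L.Structure A]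
  {c : Ordinal.{u} → A} {lam : Ordinal.{u}} {J : Set Ordinal.{u}} {E : A → A → Prop}

theorem Sit.lim_or (S : Sit L A c lam J E) {μ : Cardinal.{u}} (hμ0 : ℵ₀ < μ)
    {g : Ordinal.{u}} (hgl : g < lam)
    (h : ¬ ∃ B : Set {x : Ordinal.{u} // x ∈ J ∧ x < lam}, #B < Cardinal.lift.{u + 1} μ ∧
      (∀ b ∈ B, b.1 < g) ∧ ∀ j ∈ J, j < g → ∃ b ∈ B, j ≤ b.1) : LimJ J g ∧ μ ≤ g.cof := by
  have hκ0 : ℵ₀ < Cardinal.lift.{u + 1} μ := by
    rw [← lift_aleph0.{u + 1, u}]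
    exact Cardinal.lift_lt.2 hμ0
  have nomax : ∀ x ∈ J, x < g → ∃ j ∈ J, j < g ∧ x < j := by
    intro x hx hxg
    by_contra hcon
    push Not at hcon
    refine h ⟨{⟨x, hx, hxg.trans hgl⟩}, ?_, ?_, ?_⟩
    · rw [mk_singleton]
      exact one_lt_aleph0.trans hκ0
    · rintro b rfl
      exact hxg
    · exact fun j hj hjg => ⟨_, rfl, hcon j hj hjg⟩
  have hne : ∃ x ∈ J, x < g := by
    by_contra hcon
    push Not at hcon
    refine h ⟨∅, ?_, ?_, ?_⟩
    · rw [mk_emptyCollection]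
      exact zero_le.trans_lt hκ0
    · intro b hb
      exact absurd hb (notMem_empty _)
    · exact fun j hj hjg => absurd hjg (not_lt.2 (hcon j hj))
  have hlim : LimJ J g := by
    intro γ hγ
    by_contra hcon
    push Not at hcon
    let s : Set Ordinal.{u} := {j | j ∈ J ∧ j < g}
    have hs : s.Nonempty := by
      obtain ⟨x, hx, hxg⟩ := hne
      exact ⟨x, hx, hxg⟩
    have hb : BddAbove s := ⟨g, fun j hj => hj.2.le⟩
    have hσ : sSup s ≤ γ := by
      refine csSup_le hs fun j hj => ?_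
      by_contra h1
      exact absurd hj.2 (not_lt.2 (hcon j hj.1 (not_le.1 h1)))
    have hlt : ∀ j ∈ s, j < sSup s := by
      intro j hj
      obtain ⟨j', h1, h2, h3⟩ := nomax j hj.1 hj.2
      exact h3.trans_le (le_csSup hb ⟨h1, h2⟩)
    have hσJ : sSup s ∈ J := by
      refine S.closed _ ?_ ?_
      · intro h0
        obtain ⟨x, hx⟩ := hs
        have := hlt x hx
        rw [h0] at this
        exact absurd this (not_lt.2 zero_le)
      · intro β hβ
        obtain ⟨x, hx, hβx⟩ := exists_lt_of_lt_csSup hs hβ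
        exact ⟨x, hx.1, hβx, hlt x hx⟩
    exact absurd (hlt _ ⟨hσJ, hσ.trans_lt hγ⟩) (lt_irrefl _)
  refine ⟨hlim, ?_⟩
  by_contra hcof
  rw [not_le] at hcof
  obtain ⟨ι, f, hf, hι⟩ := Ordinal.exists_lsub_cof g
  have hfg : ∀ i, f i < g := fun i => hf ▸ Ordinal.lt_lsub f i
  choose j hj1 hj2 hj3 using fun i => hlim (f i) (hfg i)
  refine h ⟨Set.range fun i => (⟨j i, hj1 i, (hj3 i).trans hgl⟩ :
    {x : Ordinal.{u} // x ∈ J ∧ x < lam}), ?_, ?_, ?_⟩
  · have h1 := mk_range_le_lift (f := fun i => (⟨j i, hj1 i, (hj3 i).trans hgl⟩ :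
      {x : Ordinal.{u} // x ∈ J ∧ x < lam}))
    rw [Cardinal.lift_id'.{u, u + 1}] at h1
    refine h1.trans_lt ?_
    rw [hι]
    exact Cardinal.lift_lt.2 hcof
  · rintro b ⟨i, rfl⟩
    exact hj3 i
  · intro x hx hxg
    rw [← hf, Ordinal.lt_lsub_iff] at hxg
    obtain ⟨i, hi⟩ := hxg
    exact ⟨_, ⟨i, rfl⟩, hi.trans (hj2 i).le⟩

theorem supp_aux {J0 : Set Ordinal.{u}} (n n' : ℕ) (φ : L.Formula (Fin n ⊕ Unit))
    (φ' : L.Formula (Fin n' ⊕ Unit)) (e : Fin n → J0) (e' : Fin n' → J0) (z z' : A)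
    (h1 : (⟨n, φ⟩ : Σ n, L.Formula (Fin n ⊕ Unit)) = ⟨n', φ'⟩)
    (h2 : List.ofFn e = List.ofFn e')
    (h3 : ∀ y, φ.Realize (Sum.elim (c ∘ fun i => (e i).1) fun _ => y) ↔ y = z)
    (h4 : ∀ y, φ'.Realize (Sum.elim (c ∘ fun i => (e' i).1) fun _ => y) ↔ y = z') :
    z = z' := by
  obtain ⟨rfl, h5⟩ := Sigma.mk.inj_iff.1 h1
  have h6 := eq_of_heq h5
  have h7 := List.ofFn_injective h2
  subst h6 h7
  exact (h4 z).1 ((h3 z).2 rfl)

/-- The set of elements definable from a small set is small. -/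
theorem mk_supp_lt [Countable (Σ l, L.Functions l)] [Countable (Σ l, L.Relations l)]
    {μ : Cardinal.{u}} (hμ0 : ℵ₀ < μ) {J0 : Set Ordinal.{u}}
    (hK : #J0 < Cardinal.lift.{u + 1} μ) :
    #{z : A | Supp L c J0 z} < Cardinal.lift.{u + 1} μ := by
  classical
  have hκ0 : ℵ₀ < Cardinal.lift.{u + 1} μ := by
    rw [← lift_aleph0.{u + 1, u}]
    exact Cardinal.lift_lt.2 hμ0
  have key : ∀ z : {z : A | Supp L c J0 z}, ∃ (n : ℕ) (φ : L.Formula (Fin n ⊕ Unit))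
      (e : Fin n → J0), ∀ y, φ.Realize (Sum.elim (c ∘ fun i => (e i).1) fun _ => y) ↔
        y = z.1 := by
    rintro ⟨z, I, fin, e, T, he, ⟨φ, hφ⟩, hd⟩
    obtain ⟨n, ⟨f⟩⟩ := Finite.exists_equiv_fin I
    refine ⟨n, φ.relabel (Sum.map f id), fun i => ⟨e (f.symm i), he _⟩, fun y => ?_⟩
    rw [FirstOrder.Language.Formula.realize_relabel, hφ]
    have e1 : ((Sum.elim (c ∘ fun i => e (f.symm i)) fun _ : Unit => y) ∘ Sum.map f id) ∘
        Sum.inl = c ∘ e := by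
      funext i
      simp
    have e2 := hd y
    rw [← e1] at e2
    exact e2
  choose n φ e hz using key
  let p : {z : A | Supp L c J0 z} → (Σ n, L.Formula (Fin n ⊕ Unit)) × List J0 := fun z =>
    (⟨n z, φ z⟩, List.ofFn (e z))
  have hp : Function.Injective p := fun z z' h =>
    Subtype.ext (supp_aux _ _ _ _ _ _ _ _ (Prod.ext_iff.1 h).1 (Prod.ext_iff.1 h).2
      (hz z) (hz z'))
  refine (mk_le_of_injective hp).trans_lt ?_
  rw [mk_prod]
  refine mul_lt_of_lt hκ0.le ?_ ?_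
  · refine lt_of_le_of_lt ?_ hκ0
    rw [lift_le_aleph0]
    exact mk_le_aleph0
  · rw [Cardinal.lift_id'.{0, u + 1}]
    exact (mk_list_le_max _).trans_lt (max_lt hκ0 hK)

/-- There is a small good set closed under a given countable-valued operation. -/
theorem Sit.exists_good (S : Sit L A c lam J E) [Countable (Σ l, L.Functions l)]
    [Countable (Σ l, L.Relations l)] {μ : Cardinal.{u}} (hμ : μ.IsRegular) (hμ0 : ℵ₀ < μ)
    {IP : Type} [Finite IP] {eP : IP → Ordinal.{u}} (heP : InJ J lam eP)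
    (a : A → A) :
    ∃ K : Set Ordinal.{u}, Good J lam (fun g => μ ≤ g.cof) K ∧
      #K < Cardinal.lift.{u + 1} μ ∧ (∀ i, eP i ∈ K) ∧
      ∀ s, Supp L c K s → Supp L c K (a s) := by
  classical
  have hκ0 : ℵ₀ < Cardinal.lift.{u + 1} μ := by
    rw [← lift_aleph0.{u + 1, u}]
    exact Cardinal.lift_lt.2 hμ0
  have hκ : (Cardinal.lift.{u + 1} μ).IsRegular := hμ.lift
  let X := {x : Ordinal.{u} // x ∈ J ∧ x < lam}
  -- supports
  have hsupp : ∀ z : A, ∃ s : Set X, s.Countable ∧ Supp L c (Subtype.val '' s) z := by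
    intro z
    obtain ⟨n, e, T, he, hT, hd⟩ := S.gen z
    refine ⟨Set.range fun i => (⟨e i, he i⟩ : X), Set.countable_range _, Fin n,
      inferInstance, e, T, fun i => ⟨⟨e i, he i⟩, ⟨i, rfl⟩, rfl⟩, hT, hd⟩
  choose supp hs1 hs2 using hsupp
  -- the three operations
  let FA : (Σ n, Fin n → X) → Set X := fun p =>
    ⋃ q : Σ m : ℕ, ((Fin p.1 ⊕ Fin m) → (Fin p.1 ⊕ Fin m) → Prop),
      if h : ∃ e' : Fin q.1 → X, ∀ i j, (Sum.elim (fun i => (p.2 i).1) (fun i => (e' i).1) i <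
        Sum.elim (fun i => (p.2 i).1) (fun i => (e' i).1) j) ↔ q.2 i j
      then Set.range h.choose else ∅
  let FB : (Σ n, Fin n → X) → Set X := fun p =>
    if h : ∃ g : X, p = ⟨1, fun _ => g⟩ ∧ ∃ B : Set X, #B < Cardinal.lift.{u + 1} μ ∧
      (∀ b ∈ B, b.1 < g.1) ∧ ∀ j ∈ J, j < g.1 → ∃ b ∈ B, j ≤ b.1
    then h.choose_spec.2.choose else ∅
  let FC : (Σ n, Fin n → X) → Set X := fun p =>
    ⋃ φ : L.Formula (Fin p.1 ⊕ Unit),
      if h : ∃ s, ∀ y, φ.Realize (Sum.elim (c ∘ fun i => (p.2 i).1) fun _ => y) ↔ y = s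
      then supp (a h.choose) else ∅
  have cFA : ∀ p, (FA p).Countable := by
    intro p
    refine Set.countable_iUnion fun q => ?_
    split_ifs with h
    · exact Set.countable_range _
    · exact Set.countable_empty
  have cFC : ∀ p, (FC p).Countable := by
    intro p
    refine Set.countable_iUnion fun q => ?_
    split_ifs with h
    · exact hs1 _
    · exact Set.countable_empty
  have cFB : ∀ p, #(FB p) < Cardinal.lift.{u + 1} μ := by
    intro p
    by_cases h : ∃ g : X, p = ⟨1, fun _ => g⟩ ∧ ∃ B : Set X, #B < Cardinal.lift.{u + 1} μ ∧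
      (∀ b ∈ B, b.1 < g.1) ∧ ∀ j ∈ J, j < g.1 → ∃ b ∈ B, j ≤ b.1
    · have e1 : FB p = h.choose_spec.2.choose := dif_pos h
      rw [e1]
      exact h.choose_spec.2.choose_spec.1
    · have e1 : FB p = ∅ := dif_neg h
      rw [e1, mk_emptyCollection]
      exact zero_le.trans_lt hκ0
  have hini : #(Set.range fun i => (⟨eP i, heP i⟩ : X)) < Cardinal.lift.{u + 1} μ :=
    ((Set.countable_range _).le_aleph0).trans_lt hκ0
  obtain ⟨K0, hK1, hK2, hK3⟩ := exists_closure_tuple hκ hκ0 (fun p => FA p ∪ FB p ∪ FC p)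
    (by
      intro p
      refine (mk_union_le _ _).trans_lt (add_lt_of_lt hκ0.le ?_ ?_)
      · exact (mk_union_le _ _).trans_lt (add_lt_of_lt hκ0.le
          ((cFA p).le_aleph0.trans_lt hκ0) (cFB p))
      · exact (cFC p).le_aleph0.trans_lt hκ0) _ hini
  refine ⟨Subtype.val '' K0, ⟨?_, ?_, ?_⟩, ?_, ?_, ?_⟩
  · rintro _ ⟨k, -, rfl⟩
    exact k.2
  · intro n m e e' he he'
    choose eX heX heX' using he
    let e'X : Fin m → X := fun i => ⟨e' i, he' i⟩
    let r : (Fin n ⊕ Fin m) → (Fin n ⊕ Fin m) → Prop := fun i j =>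
      Sum.elim e e' i < Sum.elim e e' j
    have h : ∃ e' : Fin m → X, ∀ i j, (Sum.elim (fun i => (eX i).1) (fun i => (e' i).1) i <
        Sum.elim (fun i => (eX i).1) (fun i => (e' i).1) j) ↔ r i j := by
      refine ⟨e'X, fun i j => ?_⟩
      have e1 : (fun i => (eX i).1) = e := funext heX'
      rw [e1]
    have hsub := hK3 n eX heX
    refine ⟨fun i => (h.choose i).1, fun i => ⟨h.choose i, ?_, rfl⟩, ?_⟩
    · apply hsub
      refine Or.inl (Or.inl (mem_iUnion.2 ⟨⟨m, r⟩, ?_⟩))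
      rw [dif_pos h]
      exact ⟨i, rfl⟩
    · have h1 := h.choose_spec
      revert h1
      generalize h.choose = w
      intro h1 i j
      have h2 := h1 i j
      have e1 : (fun i => (eX i).1) = e := funext heX'
      rw [e1] at h2
      exact h2.symm
  · rintro _ ⟨g, hg, rfl⟩
    by_cases h : ∃ B : Set X, #B < Cardinal.lift.{u + 1} μ ∧
      (∀ b ∈ B, b.1 < g.1) ∧ ∀ j ∈ J, j < g.1 → ∃ b ∈ B, j ≤ b.1
    · left
      have hsub := hK3 1 (fun _ => g) (fun _ => hg)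
      have h' : ∃ g' : X, (⟨1, fun _ => g⟩ : Σ n, Fin n → X) = ⟨1, fun _ => g'⟩ ∧
          ∃ B : Set X, #B < Cardinal.lift.{u + 1} μ ∧
          (∀ b ∈ B, b.1 < g'.1) ∧ ∀ j ∈ J, j < g'.1 → ∃ b ∈ B, j ≤ b.1 := ⟨g, rfl, h⟩
      have hFB : FB ⟨1, fun _ => g⟩ = h'.choose_spec.2.choose := dif_pos h'
      have hgg : h'.choose = g := by
        have h1 := h'.choose_spec.1
        have h2 := eq_of_heq (Sigma.mk.inj_iff.1 h1).2
        exact (congrFun h2 0).symm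
      have h3 := h'.choose_spec.2.choose_spec
      rw [← hFB] at h3
      intro j hj hjg
      obtain ⟨b, hb, hjb⟩ := h3.2.2 j hj (by rw [hgg]; exact hjg)
      refine ⟨b.1, ⟨b, hsub (Or.inl (Or.inr hb)), rfl⟩, hjb, ?_⟩
      have h4 := h3.2.1 b hb
      rw [hgg] at h4
      exact h4
    · right
      exact S.lim_or hμ0 g.2.2 h
  · exact mk_image_le.trans_lt hK2
  · exact fun i => ⟨⟨eP i, heP i⟩, hK1 ⟨i, rfl⟩, rfl⟩
  · rintro s ⟨I, fin, e, T, he, ⟨φ, hφ⟩, hd⟩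
    obtain ⟨n, ⟨f⟩⟩ := Finite.exists_equiv_fin I
    choose eX heX heX' using he
    let ψ : L.Formula (Fin n ⊕ Unit) := φ.relabel (Sum.map f id)
    have hψ : ∀ y, ψ.Realize (Sum.elim (c ∘ fun i => (eX (f.symm i)).1) fun _ => y) ↔
        y = s := by
      intro y
      rw [FirstOrder.Language.Formula.realize_relabel, hφ]
      have e1 : ((Sum.elim (c ∘ fun i => (eX (f.symm i)).1) fun _ : Unit => y) ∘
          Sum.map f id) ∘ Sum.inl = c ∘ e := by
        funext i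
        simp [heX']
      have e2 := hd y
      rw [← e1] at e2
      exact e2
    have h : ∃ s, ∀ y, ψ.Realize (Sum.elim (c ∘ fun i => (eX (f.symm i)).1) fun _ => y) ↔
        y = s := ⟨s, hψ⟩
    have hs : h.choose = s := by
      have h1 := h.choose_spec
      exact ((hψ _).1 ((h1 _).2 rfl))
    have hsub := hK3 n (fun i => eX (f.symm i)) (fun i => heX _)
    have h2 : supp (a s) ⊆ K0 := by
      refine fun x hx => hsub (Or.inr (mem_iUnion.2 ⟨ψ, ?_⟩))
      rw [dif_pos h, hs]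
      exact hx
    exact (hs2 (a s)).mono (Set.image_mono h2)

/-- The chain condition, abstractly. -/
theorem Sit.cc_final (S : Sit L A c lam J E) [Countable (Σ l, L.Functions l)]
    [Countable (Σ l, L.Relations l)] {μ : Cardinal.{u}} (hμ : μ.IsRegular) (hμ0 : ℵ₀ < μ)
    (hbig : ∀ β < lam, ∃ g < lam, β < g ∧ LimJ J g ∧ μ ≤ g.cof)
    {IP : Type} [Finite IP] {eP : IP → Ordinal.{u}} (heP : InJ J lam eP)
    {Le : (IP → A) → A → A → Prop}
    (hLe : Dfn L (fun v : IP ⊕ Fin 2 → A => Le (v ∘ Sum.inl) (v (Sum.inr 0))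
      (v (Sum.inr 1))))
    (hcc : CC L (Le (c ∘ eP)) (fun g : Ordinal.{u} => μ ≤ g.cof))
    (htr : ∀ x y z, Le (c ∘ eP) x y → Le (c ∘ eP) y z → Le (c ∘ eP) x z)
    (hrl : ∀ x y, Le (c ∘ eP) x y → Le (c ∘ eP) x x)
    (Ant : Set A) (hA : ∀ a ∈ Ant, Le (c ∘ eP) a a)
    (hA2 : ∀ a ∈ Ant, ∀ b ∈ Ant, (∃ z, Le (c ∘ eP) z a ∧ Le (c ∘ eP) z b) → a = b) :
    #Ant < Cardinal.lift.{u + 1} μ := by
  classical
  by_contra hlarge
  rw [not_lt] at hlarge
  let a : A → A := fun s => if h : ∃ a ∈ Ant, ∃ z, Le (c ∘ eP) z s ∧ Le (c ∘ eP) z a then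
    h.choose else s
  obtain ⟨K, hK, hKc, heK, hKa⟩ := S.exists_good hμ hμ0 heP a
  obtain ⟨q, hqA, hqK⟩ : ∃ q ∈ Ant, ¬ Supp L c K q := by
    by_contra hcon
    push Not at hcon
    have h1 : #Ant ≤ #{z : A | Supp L c K z} := mk_le_mk_of_subset hcon
    exact absurd (h1.trans_lt (mk_supp_lt hμ0 hKc)) (not_lt.2 hlarge)
  obtain ⟨n, e, T, he, hT, hd⟩ := S.gen q
  obtain ⟨q', hq', hq'P, hred⟩ := S.reduce hbig hLe hcc htr hrl he hT hd (hA q hqA) _ K hK
    heK rfl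
  obtain ⟨z0, hz0, hz0'⟩ := hred q' hq' hq'P hq'P
  have hex : ∃ a ∈ Ant, ∃ z, Le (c ∘ eP) z q' ∧ Le (c ∘ eP) z a := ⟨q, hqA, z0, hz0, hz0'⟩
  have ha : a q' = hex.choose := dif_pos hex
  have haA : a q' ∈ Ant := by rw [ha]; exact hex.choose_spec.1
  obtain ⟨z1, hz1, hz1'⟩ : ∃ z, Le (c ∘ eP) z q' ∧ Le (c ∘ eP) z (a q') := by
    rw [ha]; exact hex.choose_spec.2
  have haK : Supp L c K (a q') := hKa _ hq'
  obtain ⟨z2, h2, h3, h4, h5⟩ := S.elem hK heK hLe hq' haK hz1 hz1' (hrl _ _ hz1)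
  obtain ⟨z3, h6, h7⟩ := hred z2 h2 h5 h3
  have h8 : a q' = q := hA2 _ haA _ hqA ⟨z3, htr _ _ _ h6 h4, h7⟩
  rw [h8] at haK
  exact hqK haK

end Pool.Agent.ZSharp
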