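import Pool.Agent.ZSharp.Force
import Pool.Agent.ZSharp.Final

/-!
# Small sets of names which are closed enough
-/

set_option autoImplicit false

open Set Cardinal FirstOrder

namespace Pool.Agent.ZSharp

universe u

variable {C : Type (u + 1)} {le : C → C → Prop}

/-- Two conditions are compatible. -/
def Cpt (le : C → C → Prop) (a b : C) : Prop := ∃ r, le r a ∧ le r b

/-- A maximal antichain inside a set of conditions. -/
theorem exists_maxAntichain (h : IsPre le) (S : Set C) :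
    ∃ A ⊆ S, (∀ a ∈ A, ∀ b ∈ A, Cpt le a b → a = b) ∧ ∀ s ∈ S, ∃ a ∈ A, Cpt le s a := by
  obtain ⟨A, hA⟩ := zorn_subset {A : Set C | A ⊆ S ∧ ∀ a ∈ A, ∀ b ∈ A, Cpt le a b → a = b}
    (by
      intro c hc hchain
      refine ⟨⋃₀ c, ⟨?_, ?_⟩, fun s hs => subset_sUnion_of_mem hs⟩
      · exact sUnion_subset fun s hs => (hc hs).1
      · rintro a ⟨s, hs, ha⟩ b ⟨t, ht, hb⟩ hab
        rcases hchain.total hs ht with hst | hts
        · exact (hc ht).2 a (hst ha) b hb hab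
        · exact (hc hs).2 a ha b (hts hb) hab)
  refine ⟨A, hA.1.1, hA.1.2, fun s hs => ?_⟩
  by_contra hcon
  push Not at hcon
  have hsA : s ∉ A := fun h1 => hcon s h1 ⟨s, h.refl s, h.refl s⟩
  have h2 : insert s A ∈ {A : Set C | A ⊆ S ∧ ∀ a ∈ A, ∀ b ∈ A, Cpt le a b → a = b} := by
    refine ⟨insert_subset hs hA.1.1, ?_⟩
    rintro a (rfl | ha) b (rfl | hb) hab
    · rfl
    · exact absurd hab (hcon b hb)
    · obtain ⟨r, h1, h2⟩ := hab
      exact absurd ⟨r, h2, h1⟩ (hcon a ha)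
    · exact hA.1.2 a ha b hb hab
  exact hsA (hA.2 h2 (subset_insert s A) (mem_insert s A))

instance : Countable (Σ l, LStar.Functions l) := by
  have : IsEmpty (Σ l, LStar.Functions l) := ⟨fun x => Empty.elim x.2⟩
  infer_instance

instance : Countable (Σ l, LStar.Relations l) := by
  refine Function.Injective.countable (f := fun x : (Σ l, LStar.Relations l) =>
    match x with
    | ⟨_, StarRel.mem⟩ => (0 : ℕ)
    | ⟨_, StarRel.lt⟩ => 1
    | ⟨_, StarRel.gnd⟩ => 2) ?_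
  rintro ⟨_, ⟨⟩⟩ ⟨_, ⟨⟩⟩ h <;> first | rfl | (exact absurd h (by decide))

theorem exists_closed [Small.{u} C] (h : IsPre le) {μ : Cardinal.{u}} (hμ : μ.IsRegular)
    (hμ0 : ℵ₀ < μ) (hcc : ∀ A : Set C, (∀ a ∈ A, ∀ b ∈ A, Cpt le a b → a = b) →
      #A < Cardinal.lift.{u + 1} μ) (W : VGRel le) (Q : ZFSet.{u} → Prop)
    {D : PName C → C → Prop} (hD : RegCls le D) (x0 : PName C) :
    ∃ M : Set (PName C), #M < Cardinal.lift.{u + 1} μ ∧ x0 ∈ M ∧
      (∀ (n : ℕ) (φ : LStar.BoundedFormula Empty (n + 1)) (v : Fin n → PName C),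
      (∀ i, v i ∈ M) → ∀ p x, D x p → (∀ q, le q p → ¬ Force W Q D φ (Fin.snoc v x) q) →
      ∃ r, le r p ∧ ∃ τ ∈ M, D τ r ∧ ∀ q, le q r → ¬ Force W Q D φ (Fin.snoc v τ) q) ∧
      ∀ τ ∈ M, ∀ (y : ZFSet.{u}) (p : C), Q y → FEq le τ (check y) p → check y ∈ M := by
  classical
  have hκ0 : ℵ₀ < Cardinal.lift.{u + 1} μ := by
    rw [← lift_aleph0.{u + 1, u}]
    exact Cardinal.lift_lt.2 hμ0
  have hκ : (Cardinal.lift.{u + 1} μ).IsRegular := hμ.lift
  -- witnesses
  let Bad : (n : ℕ) → LStar.BoundedFormula Empty (n + 1) → (Fin n → PName C) → C →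
      PName C → Prop := fun n φ v p x => D x p ∧ ∀ q, le q p →
        ¬ Force W Q D φ (Fin.snoc v x) q
  have hW : ∀ (n : ℕ) (φ : LStar.BoundedFormula Empty (n + 1)) (v : Fin n → PName C),
      ∃ B : Set (PName C), #B < Cardinal.lift.{u + 1} μ ∧ ∀ p x, Bad n φ v p x →
        ∃ r, le r p ∧ ∃ τ ∈ B, Bad n φ v r τ := by
    intro n φ v
    obtain ⟨A, hAS, hA1, hA2⟩ := exists_maxAntichain h {p | ∃ x, Bad n φ v p x}
    have h1 : ∀ a : A, ∃ x, Bad n φ v a.1 x := fun a => hAS a.2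
    choose w hw using h1
    refine ⟨Set.range w, (mk_range_le.trans_lt (hcc A hA1)), fun p x hpx => ?_⟩
    obtain ⟨a, ha, r, hrp, hra⟩ := hA2 p ⟨x, hpx⟩
    refine ⟨r, hrp, w ⟨a, ha⟩, ⟨_, rfl⟩, (hD.reg _).mono _ _ hra (hw ⟨a, ha⟩).1,
      fun q hq => (hw ⟨a, ha⟩).2 q (h.trans _ _ _ hq hra)⟩
  choose B hB1 hB2 using hW
  -- ground model values
  let GV : PName C → Set (PName C) := fun τ =>
    {σ | ∃ y, Q y ∧ σ = check y ∧ ∃ p, FEq le τ (check y) p}
  have hGV : ∀ τ, #(GV τ) < Cardinal.lift.{u + 1} μ := by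
    intro τ
    have h1 : ∀ σ : GV τ, ∃ p : C, FEq le τ σ.1 p := by
      rintro ⟨σ, y, -, rfl, p, hp⟩
      exact ⟨p, hp⟩
    choose w hw using h1
    have hwc : ∀ a b : GV τ, Cpt le (w a) (w b) → a = b := by
      rintro a b ⟨r, h2, h3⟩
      obtain ⟨y, -, hy, -⟩ := a.2
      obtain ⟨z, -, hz, -⟩ := b.2
      have h4 : FEq le a.1 b.1 r := ((hw a).mono h h2).symm.trans h ((hw b).mono h h3)
      rw [hy, hz, check_eq_iff h] at h4
      exact Subtype.ext (by rw [hy, hz, h4])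
    have h2 : #(Set.range w) < Cardinal.lift.{u + 1} μ := by
      refine hcc _ ?_
      rintro _ ⟨a, rfl⟩ _ ⟨b, rfl⟩ hab
      rw [hwc a b hab]
    refine lt_of_le_of_lt ?_ h2
    refine mk_le_of_injective (f := fun a => (⟨w a, a, rfl⟩ : Set.range w)) fun a b hab => ?_
    have h5 : w a = w b := congrArg Subtype.val hab
    exact hwc a b ⟨w a, h.refl _, by rw [h5]; exact h.refl _⟩
  obtain ⟨M, hM1, hM2, hM3⟩ := exists_closure_tuple hκ hκ0
    (fun p : (Σ n, Fin n → PName C) => (⋃ φ : LStar.BoundedFormula Empty (p.1 + 1),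
      B p.1 φ p.2) ∪ ⋃ i : Fin p.1, GV (p.2 i)) (by
      intro p
      refine (mk_union_le _ _).trans_lt (add_lt_of_lt hκ0.le ?_ ?_)
      · have hc : Countable (LStar.BoundedFormula Empty (p.1 + 1)) :=
          Function.Injective.countable (f := fun φ =>
            (⟨p.1 + 1, φ⟩ : Σ n, LStar.BoundedFormula Empty n)) fun a b hab => by
              simpa using hab
        have h1 : #(⋃ φ : ULift.{u + 1} (LStar.BoundedFormula Empty (p.1 + 1)),
            B p.1 φ.down p.2) < Cardinal.lift.{u + 1} μ := by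
          rw [card_iUnion_lt_iff_forall_of_isRegular hκ]
          · exact fun φ => hB1 _ _ _
          · exact (mk_le_aleph0_iff.2 inferInstance).trans_lt hκ0
        refine lt_of_le_of_lt (mk_le_mk_of_subset ?_) h1
        exact iUnion_subset fun φ => subset_iUnion_of_subset ⟨φ⟩ (le_refl _)
      · have h1 : #(⋃ i : ULift.{u + 1} (Fin p.1), GV (p.2 i.down)) <
            Cardinal.lift.{u + 1} μ := by
          rw [card_iUnion_lt_iff_forall_of_isRegular hκ]
          · exact fun i => hGV _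
          · exact (mk_le_aleph0_iff.2 inferInstance).trans_lt hκ0
        refine lt_of_le_of_lt (mk_le_mk_of_subset ?_) h1
        exact iUnion_subset fun i => subset_iUnion_of_subset ⟨i⟩ (le_refl _)) {x0} (by
      rw [mk_singleton]
      exact one_lt_aleph0.trans hκ0)
  refine ⟨M, hM2, hM1 rfl, ?_, ?_⟩
  · intro n φ v hv p x hx hx'
    obtain ⟨r, hr, τ, hτ, h1, h2⟩ := hB2 n φ v p x ⟨hx, hx'⟩
    exact ⟨r, hr, τ, hM3 n v hv (Or.inl (mem_iUnion.2 ⟨φ, hτ⟩)), h1, h2⟩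
  · intro τ hτ y p hy hp
    exact hM3 1 (fun _ => τ) (fun _ => hτ) (Or.inr (mem_iUnion.2 ⟨0, y, hy, rfl, p, hp⟩))

end Pool.Agent.ZSharp
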