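import Pool.Agent.ZSharp.ChainP

/-!
# The forcing notion collapses `κ`
-/

set_option autoImplicit false
set_option linter.deprecated false

open FirstOrder Set Ordinal Cardinal

namespace Pool.Agent.ZSharp

universe u

theorem Constructible.inter {x y : ZFSet.{u}} (hx : Constructible x)
    (hy : Constructible y) : Constructible (x ∩ y) := by
  obtain ⟨α, hα⟩ := hx
  obtain ⟨β, hβ⟩ := hy
  obtain ⟨κ, -, hκ⟩ := exists_Big (max α β) 0
  let X : LA κ.ord := ⟨x, hκ.mem (Lset_mono (le_max_left _ _) hα)⟩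
  let Y : LA κ.ord := ⟨y, hκ.mem (Lset_mono (le_max_right _ _) hβ)⟩
  let Q : LA κ.ord → Prop := fun t => t.1 ∈ X.1 ∧ t.1 ∈ Y.1
  have hQ : Constructible (sepL Q) := sepL_constr inferInstance
  have h1 : x ∩ y = sepL Q := by
    ext t
    rw [mem_sepL, ZFSet.mem_inter]
    constructor
    · rintro ⟨h1, h2⟩
      exact ⟨Lset_trans X.2 h1, h1, h2⟩
    · rintro ⟨_, h1, h2⟩
      exact ⟨h1, h2⟩
  rw [h1]
  exact hQ

theorem Constructible.union {x y : ZFSet.{u}} (hx : Constructible x)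
    (hy : Constructible y) : Constructible (x ∪ y) := by
  obtain ⟨α, hα⟩ := hx
  obtain ⟨β, hβ⟩ := hy
  obtain ⟨κ, -, hκ⟩ := exists_Big (max α β) 0
  exact ⟨_, Lset_union hκ.lim (hκ.mem (Lset_mono (le_max_left _ _) hα))
    (hκ.mem (Lset_mono (le_max_right _ _) hβ))⟩

/-- `X` is definable from indiscernibles which are `≤ γ` or `≥ reg`. -/
def SupS (J : Set Ordinal.{u}) (reg θ : Cardinal.{u}) (h0 : 0 < θ.ord) (γ : Ordinal.{u})
    (X : LA θ.ord) : Prop :=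
  Supp LST (cc θ.ord h0) {j | j ∈ J ∧ j < θ.ord ∧ (j ≤ γ ∨ reg.ord ≤ j)} X

/-- `s` agrees below `η` with a set definable from indiscernibles `≤ γ` or `≥ reg`. -/
def Cap (J : Set Ordinal.{u}) (reg θ : Cardinal.{u}) (h0 : 0 < θ.ord)
    (γ η : Ordinal.{u}) (s : ZFSet.{u}) : Prop :=
  ∃ X : LA θ.ord, SupS J reg θ h0 γ X ∧ ∀ ξ < η, (ξ.toZFSet ∈ s ↔ ξ.toZFSet ∈ X.1)

section

variable {J : Set Ordinal.{u}} {reg θ : Cardinal.{u}} {h0 : 0 < θ.ord}

theorem Cap.mono {γ γ' η : Ordinal.{u}} {s : ZFSet.{u}} (h : Cap J reg θ h0 γ η s)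
    (hγ : γ ≤ γ') : Cap J reg θ h0 γ' η s := by
  obtain ⟨X, hX, h1⟩ := h
  have hK : {j | j ∈ J ∧ j < θ.ord ∧ (j ≤ γ ∨ reg.ord ≤ j)} ⊆
      {j | j ∈ J ∧ j < θ.ord ∧ (j ≤ γ' ∨ reg.ord ≤ j)} := fun j hj =>
    ⟨hj.1, hj.2.1, hj.2.2.imp (fun h => h.trans hγ) id⟩
  exact ⟨X, Supp.mono hK hX, h1⟩

theorem Cap.down {γ η η' : Ordinal.{u}} {s : ZFSet.{u}} (h : Cap J reg θ h0 γ η s)
    (hη : η' ≤ η) : Cap J reg θ h0 γ η' s := by
  obtain ⟨X, hX, h1⟩ := h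
  exact ⟨X, hX, fun ξ hξ => h1 ξ (hξ.trans_le hη)⟩

theorem Cap.congr {γ η : Ordinal.{u}} {s s' : ZFSet.{u}} (h : Cap J reg θ h0 γ η s)
    (hs : ∀ ξ < η, (ξ.toZFSet ∈ s ↔ ξ.toZFSet ∈ s')) : Cap J reg θ h0 γ η s' := by
  obtain ⟨X, hX, h1⟩ := h
  exact ⟨X, hX, fun ξ hξ => (hs ξ hξ).symm.trans (h1 ξ hξ)⟩

/-- Constructible sets are captured at each stage by smaller parameters. -/
theorem Cap.exists (hJ : IsSilver J) (hθ : Big reg.ord θ) {s : ZFSet.{u}}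
    (hs : Constructible s) {η : Ordinal.{u}} (hη0 : 0 < η) (hη : η ≤ reg.ord) :
    ∃ γ < η, Cap J reg θ h0 γ η s := by
  classical
  have S := hJ.sit hθ.unc h0
  have hrθ : reg.ord < θ.ord := hθ.lt
  have hc := hs.inter (Constructible.ord η)
  have hsub : s ∩ η.toZFSet ⊆ Lset reg.ord := fun t ht =>
    Lset_mono hη (ord_subset_Lset η (ZFSet.mem_inter.1 ht).2)
  let X0 : LA θ.ord := ⟨s ∩ η.toZFSet, hθ.sub _ hc hsub⟩
  obtain ⟨n, e, T, he, hT, hd⟩ := S.gen X0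
  obtain ⟨m, t, r, ht, hr⟩ := exists_sort (fun i : {i : Fin n // η ≤ e i} => e i)
  have h00 : (0 : Ordinal.{u}) < θ.ord := h0
  let y : Fin m → Ordinal.{u} := blk J reg.ord 0
  have hym : StrictMono y := S.blk_mono reg.ord 0
  have hyJ : InJ J θ.ord y := S.blk_inJ hrθ h00
  have hyr : ∀ k, reg.ord ≤ y k := fun k => S.le_blk reg.ord 0 k
  let e' : Fin n → Ordinal.{u} := fun i => if h : η ≤ e i then y (r ⟨i, h⟩) else e i
  have e'h : ∀ i (h : η ≤ e i), e' i = y (r ⟨i, h⟩) := fun i h => dif_pos h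
  have e'l : ∀ i, ¬ η ≤ e i → e' i = e i := fun i h => dif_neg h
  have he' : InJ J θ.ord e' := by
    intro i
    by_cases h : η ≤ e i
    · rw [e'h i h]
      exact hyJ _
    · rw [e'l i h]
      exact he i
  have hOE : OE e e' := by
    intro i j
    by_cases hi : η ≤ e i
    · by_cases hj : η ≤ e j
      · rw [e'h i hi, e'h j hj]
        have h1 := hr ⟨i, hi⟩
        have h2 := hr ⟨j, hj⟩
        rw [← h1, ← h2, hym.lt_iff_lt]
        exact ht.lt_iff_lt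
      · rw [e'h i hi, e'l j hj]
        exact iff_of_false (not_lt.2 ((not_le.1 hj).le.trans hi))
          (not_lt.2 (((not_le.1 hj).le.trans hη).trans (hyr _)))
    · by_cases hj : η ≤ e j
      · rw [e'l i hi, e'h j hj]
        exact iff_of_true ((not_le.1 hi).trans_le hj)
          (((not_le.1 hi).trans_le hη).trans_le (hyr _))
      · rw [e'l i hi, e'l j hj]
  obtain ⟨X, hX⟩ := (S.isDef_iff hT he he' hOE).1 ⟨X0, hd⟩
  -- the bound
  obtain ⟨γ, hγ, hγe⟩ : ∃ γ < η, ∀ i, e i < η → e i ≤ γ := by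
    by_cases h : ∃ i, e i < η
    · obtain ⟨i0, hi0⟩ := h
      obtain ⟨i1, hi1, hmax⟩ := Finset.exists_max_image
        (Finset.univ.filter fun i => e i < η) e
        ⟨i0, Finset.mem_filter.2 ⟨Finset.mem_univ _, hi0⟩⟩
      refine ⟨e i1, (Finset.mem_filter.1 hi1).2, fun i hi => ?_⟩
      exact hmax i (Finset.mem_filter.2 ⟨Finset.mem_univ _, hi⟩)
    · exact ⟨0, hη0, fun i hi => absurd ⟨i, hi⟩ h⟩
  refine ⟨γ, hγ, X, ⟨Fin n, inferInstance, e', T, fun i => ⟨(he' i).1, (he' i).2, ?_⟩, hT,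
    hX⟩, fun ξ hξ => ?_⟩
  · by_cases h : η ≤ e i
    · rw [e'h i h]
      exact Or.inr (hyr _)
    · rw [e'l i h]
      exact Or.inl (hγe i (not_le.1 h))
  · let R : (Unit ⊕ Fin n → LA θ.ord) → Prop := fun v => ∃ z : LA θ.ord,
      IsDef T (fun q => v (Sum.inr q)) z ∧ (v (Sum.inl ())).1 ∈ z.1
    have hTi : ∀ {I : Type} (φ : Fin n → I) {f : (I → LA θ.ord) → LA θ.ord} [F0 f],
        D0 (fun v : I → LA θ.ord => IsDef T (fun q => v (φ q)) (f v)) := by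
      intro I φ f hf
      exact D0.def1 hT φ hf
    have hR : Dfn LST R := (inferInstance : D0 R).out
    have hξθ : ξ < θ.ord := (hξ.trans_le hη).trans hrθ
    have key : ∀ (b : Fin n → Ordinal.{u}) (Z : LA θ.ord), IsDef T (cc θ.ord h0 ∘ b) Z →
        (R (cc θ.ord h0 ∘ Sum.elim (fun _ => ξ) b) ↔ ξ.toZFSet ∈ Z.1) := by
      intro b Z hZ
      have h1 : (cc θ.ord h0 ξ).1 = ξ.toZFSet := cc_val h0 hξθ
      constructor
      · rintro ⟨z, h2, h3⟩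
        have h4 : z = Z := IsDef.unique h2 hZ
        rw [← h4, ← h1]
        exact h3
      · intro h2
        refine ⟨Z, hZ, ?_⟩
        show (cc θ.ord h0 ξ).1 ∈ Z.1
        rw [h1]
        exact h2
    have hmax : max ξ γ < η := max_lt hξ hγ
    have h1 := S.lowInd' hR (γ := max ξ γ) ((hmax.trans_le hη).trans hrθ)
      (ξ := fun _ : Unit => ξ) (fun _ => le_max_left _ _) he he' hOE (by
        intro i hi
        by_cases h : η ≤ e i
        · exfalso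
          rcases hi with hi | hi
          · exact absurd (hi.trans_lt hmax) (not_lt.2 h)
          · rw [e'h i h] at hi
            exact absurd (hi.trans_lt hmax) (not_lt.2 (hη.trans (hyr _)))
        · exact (e'l i h).symm)
    rw [key e X0 hd, key e' X hX] at h1
    rw [← h1]
    show _ ↔ ξ.toZFSet ∈ s ∩ η.toZFSet
    rw [ZFSet.mem_inter, Ordinal.toZFSet_mem_toZFSet_iff]
    tauto

/-- Sets supported by `γ` do not separate indiscernibles between `γ` and `reg`. -/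
theorem SupS.sep (hJ : IsSilver J) (hθ : Big reg.ord θ) {γ : Ordinal.{u}} {X : LA θ.ord}
    (hX : SupS J reg θ h0 γ X) {δ δ' : Ordinal.{u}} (hδ : δ ∈ J) (hδ' : δ' ∈ J)
    (h1 : γ < δ) (h2 : δ < reg.ord) (h1' : γ < δ') (h2' : δ' < reg.ord) :
    δ.toZFSet ∈ X.1 ↔ δ'.toZFSet ∈ X.1 := by
  have S := hJ.sit hθ.unc h0
  have hrθ : reg.ord < θ.ord := hθ.lt
  obtain ⟨I, fin, e, T, he, hT, hd⟩ := hX
  let R : (I ⊕ Unit → LA θ.ord) → Prop := fun v => ∃ z : LA θ.ord,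
    IsDef T (fun q => v (Sum.inl q)) z ∧ (v (Sum.inr ())).1 ∈ z.1
  have hTi : ∀ {I' : Type} (φ : I → I') {f : (I' → LA θ.ord) → LA θ.ord} [F0 f],
      D0 (fun v : I' → LA θ.ord => IsDef T (fun q => v (φ q)) (f v)) := by
    intro I φ f hf
    exact D0.def1 hT φ hf
  have hR : Dfn LST R := (inferInstance : D0 R).out
  have key : ∀ δ < reg.ord, (R (cc θ.ord h0 ∘ Sum.elim e (fun _ => δ)) ↔
      δ.toZFSet ∈ X.1) := by
    intro δ hδ
    have h3 : (cc θ.ord h0 δ).1 = δ.toZFSet := cc_val h0 (hδ.trans hrθ)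
    constructor
    · rintro ⟨z, h4, h5⟩
      have h6 : z = X := IsDef.unique h4 hd
      rw [← h6, ← h3]
      exact h5
    · intro h4
      refine ⟨X, hd, ?_⟩
      show (cc θ.ord h0 δ).1 ∈ X.1
      rw [h3]
      exact h4
  rw [← key δ h2, ← key δ' h2']
  have heJ : InJ J θ.ord e := fun i => ⟨(he i).1, (he i).2.1⟩
  refine S.ind hR (heJ.sum fun _ => ⟨hδ, h2.trans hrθ⟩)
    (heJ.sum fun _ => ⟨hδ', h2'.trans hrθ⟩) ?_
  rintro (i | i) (j | j)
  · exact Iff.rfl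
  · rcases (he i).2.2 with h | h
    · exact iff_of_true (h.trans_lt h1) (h.trans_lt h1')
    · exact iff_of_false (not_lt.2 (h2.le.trans h)) (not_lt.2 (h2'.le.trans h))
  · rcases (he j).2.2 with h | h
    · exact iff_of_false (not_lt.2 (h.trans h1.le)) (not_lt.2 (h.trans h1'.le))
    · exact iff_of_true (h2.trans_le h) (h2'.trans_le h)
  · exact iff_of_false (lt_irrefl _) (lt_irrefl _)

end

/-- All ordinals below `η` are decided by `q`. -/
def Full (q : ZFSet.{u}) (η : Ordinal.{u}) : Prop :=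
  ∀ ξ < η, ξ.toZFSet ∉ q → ((ξ + 1).toZFSet ∈ q ∨ ∃ ζ, ζ + 1 = ξ ∧ ζ.toZFSet ∈ q)

/-- `α` is a limit ordinal. -/
def Lm (α : Ordinal.{u}) : Prop := α ≠ 0 ∧ ∀ ζ < α, ζ + 1 < α

theorem Full.down {q : ZFSet.{u}} {η η' : Ordinal.{u}} (h : Full q η) (hη : η' ≤ η) :
    Full q η' := fun ξ hξ => h ξ (hξ.trans_le hη)

theorem Full.agree {reg : Cardinal.{u}} {lam : Ordinal.{u}} {q r : ZFSet.{u}}
    {η : Ordinal.{u}} (h : Full q η) (hr : r ∈ Pos reg lam) (hqr : q ⊆ r) :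
    ∀ ξ < η, (ξ.toZFSet ∈ q ↔ ξ.toZFSet ∈ r) := by
  intro ξ hξ
  refine ⟨fun h1 => hqr h1, fun h1 => ?_⟩
  by_contra h2
  rcases h ξ hξ h2 with h3 | ⟨ζ, rfl, h3⟩
  · exact Pos_no_both hr h1 (hqr h3)
  · exact Pos_no_both hr (hqr h3) h1

/-- Fullness only depends on the part below a limit. -/
theorem Full.congr {q q' : ZFSet.{u}} {η : Ordinal.{u}} (h : Full q η) (hη : Lm η)
    (ha : ∀ ξ < η, (ξ.toZFSet ∈ q ↔ ξ.toZFSet ∈ q')) : Full q' η := by
  intro ξ hξ h1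
  rcases h ξ hξ (fun h2 => h1 ((ha ξ hξ).1 h2)) with h3 | ⟨ζ, rfl, h3⟩
  · exact Or.inl ((ha _ (hη.2 ξ hξ)).1 h3)
  · exact Or.inr ⟨ζ, rfl, (ha ζ ((lt_add_one ζ).trans hξ)).1 h3⟩

theorem exists_bound_Pos {reg : Cardinal.{u}} (hreg : reg.IsRegular) (hreg0 : ℵ₀ < reg)
    {lam : Ordinal.{u}} {p : ZFSet.{u}} (hp : p ∈ Pos reg lam) :
    ∃ δ0 < reg.ord, ∀ α < reg.ord, α.toZFSet ∈ p → α < δ0 := by
  let s : Set Ordinal.{u} := {α | α < reg.ord ∧ α.toZFSet ∈ p}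
  have hs : #s < Cardinal.lift.{u + 1} reg := by
    refine lt_of_le_of_lt ?_ (card_lt_iff.1 (mem_Pos.1 hp).2.2.1)
    exact mk_le_of_injective (f := fun α : s => (⟨α.1.toZFSet, α.2.2⟩ : {t | t ∈ p}))
      fun α β h => Subtype.ext (Ordinal.toZFSet_injective (congrArg Subtype.val h))
  have hl := card_lim hreg0
  have h2 : sSup (Order.succ '' s) < reg.ord := by
    refine Ordinal.sSup_lt_of_lt_cof ?_ ?_
    · refine Cardinal.mk_image_le.trans_lt ?_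
      rw [← Ordinal.lift_cof, hreg.cof_ord]
      exact hs
    · rintro _ ⟨α, hα, rfl⟩
      rw [Order.succ_eq_add_one]
      exact hl α hα.1
  refine ⟨_, h2, fun α hα hαp => ?_⟩
  refine (Order.lt_succ α).trans_le (le_csSup ?_ ⟨α, ⟨hα, hαp⟩, rfl⟩)
  refine ⟨reg.ord, ?_⟩
  rintro _ ⟨β, hβ, rfl⟩
  exact Order.succ_le_of_lt hβ.1

theorem exists_full (hz : ZeroSharp.{u}) {reg : Cardinal.{u}} (hreg : reg.IsRegular)
    (hreg0 : ℵ₀ < reg) {lam : Ordinal.{u}} (hlam : reg.ord ≤ lam) {p : ZFSet.{u}}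
    (hp : p ∈ Pos reg lam) {η : Ordinal.{u}} (hη : η < reg.ord) :
    ∃ r ∈ Pos reg lam, p ⊆ r ∧ Full r η := by
  obtain ⟨δ1, hδ1⟩ := Pos_constr reg lam
  obtain ⟨κ, hκ1, hκ⟩ := exists_Big δ1 reg
  let PL : LA κ.ord := ⟨Pos reg lam, hκ.mem hδ1⟩
  let Q : LA κ.ord → Prop := fun t => ∃ e p : LA κ.ord, p.1 ∈ PL.1 ∧ e.1 ∈ p.1 ∧
    t.1 = ZFSet.pair e.1 p.1
  have hQ : Constructible (sepL Q) := sepL_constr inferInstance
  have hE : ∀ ξ : Ordinal.{u}, ∀ t, ZFSet.pair ξ.toZFSet t ∈ sepL Q ↔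
      t ∈ Pos reg lam ∧ ξ.toZFSet ∈ t := by
    intro ξ t
    rw [mem_sepL]
    constructor
    · rintro ⟨_, e, p, h1, h2, h3⟩
      obtain ⟨h4, h5⟩ := ZFSet.pair_injective h3
      rw [h4, h5]
      exact ⟨h1, h2⟩
    · rintro ⟨h1, h2⟩
      have k1 := Lset_trans PL.2 h1
      have k2 := Lset_trans k1 h2
      exact ⟨Lset_pair hκ.lim k2 k1, ⟨_, k2⟩, ⟨_, k1⟩, h1, h2, rfl⟩
  obtain ⟨q, hq, hpq, hdec⟩ := exists_dec hz (Pos_constr reg lam)
    (fun z hz t ht => Pos_ord hz ht) hQ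
    (fun ζ hζ _ g hg hm x hx hxg => Pos_union hreg hζ hg hm hx hxg) hp hη
  refine ⟨q, hq, hpq, fun ξ hξ hξq => ?_⟩
  by_contra hcon
  push Not at hcon
  obtain ⟨h1, h2⟩ := hcon
  have h3 : insert ξ.toZFSet q ∈ Pos reg lam :=
    Pos_insert hreg0.le hq ((hξ.trans hη).trans_le hlam) h1 h2
  rcases hdec ξ hξ with ⟨t, ht, -, htq⟩ | h4
  · exact hξq (htq ((hE ξ t).1 ht).2)
  · exact h4 _ h3 (sub_insert _ _) ⟨_, (hE ξ _).2 ⟨h3, ZFSet.mem_insert _ _⟩, h3,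
      fun _ h => h⟩

/-- A condition can be extended to separate two large indiscernibles. -/
theorem exists_sepr {J : Set Ordinal.{u}} (hJ : IsSilver J) {reg : Cardinal.{u}}
    (hreg : reg.IsRegular) (hreg0 : ℵ₀ < reg) {lam : Ordinal.{u}} (hlam : reg.ord ≤ lam)
    {p : ZFSet.{u}} (hp : p ∈ Pos reg lam) {γ : Ordinal.{u}} (hγ : γ < reg.ord) :
    ∃ r ∈ Pos reg lam, p ⊆ r ∧ ∃ δ ∈ J, ∃ δ' ∈ J, γ < δ ∧ δ < δ' ∧ δ' < reg.ord ∧
      δ.toZFSet ∈ r ∧ (δ' + 1).toZFSet ∈ r := by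
  obtain ⟨δ0, hδ0, hb⟩ := exists_bound_Pos hreg hreg0 hp
  have hl := card_lim hreg0
  let x : Ordinal.{u} := max γ δ0 + 1
  have hx : x < reg.ord := hl _ (max_lt hγ hδ0)
  have hm := enumOrd_strictMono hJ.not_bdd
  let δ := enumOrd J x
  let δ' := enumOrd J (x + 1)
  have h1 : x ≤ δ := id_le_enumOrd hJ.not_bdd x
  have hδδ' : δ < δ' := hm (lt_add_one x)
  have hδ' : δ' < reg.ord := hJ.enum_lt hreg0 (hl _ hx)
  have hγδ : γ < δ := ((le_max_left _ _).trans_lt (lt_add_one _)).trans_le h1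
  have hδ0δ : δ0 < δ := ((le_max_right _ _).trans_lt (lt_add_one _)).trans_le h1
  have hno : ∀ ξ, δ0 ≤ ξ → ξ < reg.ord → ξ.toZFSet ∉ p := fun ξ h2 h3 h4 =>
    absurd (hb ξ h3 h4) (not_lt.2 h2)
  have hr1 : insert δ.toZFSet p ∈ Pos reg lam := by
    refine Pos_insert hreg0.le hp ((hδδ'.trans hδ').trans_le hlam) ?_ ?_
    · exact hno _ (hδ0δ.le.trans (lt_add_one _).le) (hl _ (hδδ'.trans hδ'))
    · intro β hβ
      refine hno β ?_ ?_
      · rw [← Order.lt_add_one_iff, hβ]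
        exact hδ0δ
      · exact ((lt_add_one β).trans_eq hβ).trans (hδδ'.trans hδ')
  have hr2 : insert (δ' + 1).toZFSet (insert δ.toZFSet p) ∈ Pos reg lam := by
    refine Pos_insert hreg0.le hr1 ((hl _ hδ').trans_le hlam) ?_ ?_
    · intro h2
      rcases ZFSet.mem_insert_iff.1 h2 with h3 | h3
      · have h4 := Ordinal.toZFSet_injective h3
        have h5 : δ < δ' + 1 + 1 := (hδδ'.trans (lt_add_one _)).trans (lt_add_one _)
        rw [h4] at h5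
        exact lt_irrefl _ h5
      · exact hno _ ((hδ0δ.trans hδδ').le.trans ((lt_add_one _).le.trans
          (lt_add_one _).le)) (hl _ (hl _ hδ')) h3
    · intro β hβ h2
      have h3 : β = δ' := by simpa using hβ
      rw [h3] at h2
      rcases ZFSet.mem_insert_iff.1 h2 with h4 | h4
      · exact absurd (Ordinal.toZFSet_injective h4) hδδ'.ne'
      · exact hno _ (hδ0δ.trans hδδ').le hδ' h4
  exact ⟨_, hr2, fun _ h => ZFSet.mem_insert_of_mem _ (ZFSet.mem_insert_of_mem _ h), δ,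
    enumOrd_mem hJ.not_bdd _, δ', enumOrd_mem hJ.not_bdd _, hγδ, hδδ', hδ',
    ZFSet.mem_insert_of_mem _ (ZFSet.mem_insert _ _), ZFSet.mem_insert _ _⟩

/-- `q` decides that the `n`-th point of the cofinal sequence is `α`. -/
def DD (J : Set Ordinal.{u}) (reg θ : Cardinal.{u}) (h0 : 0 < θ.ord) :
    ℕ → ZFSet.{u} → Ordinal.{u} → Prop
  | 0, _, α => α = 0
  | n + 1, q, α => ∃ β, DD J reg θ h0 n q β ∧ α < reg.ord ∧ Lm α ∧ Full q α ∧
    ¬ Cap J reg θ h0 β α q ∧ ∀ ξ < α, Lm ξ → Cap J reg θ h0 β ξ q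

section

variable {J : Set Ordinal.{u}} {reg θ : Cardinal.{u}} {h0 : 0 < θ.ord}

theorem DD.unique : ∀ {n : ℕ} {q : ZFSet.{u}} {α α' : Ordinal.{u}},
    DD J reg θ h0 n q α → DD J reg θ h0 n q α' → α = α'
  | 0, _, _, _, h, h' => h.trans h'.symm
  | n + 1, q, α, α', ⟨β, h1, _, h3, _, h5, h6⟩, ⟨β', k1, _, k3, _, k5, k6⟩ => by
    have hββ := DD.unique h1 k1
    subst hββ
    rcases lt_trichotomy α α' with h | h | h
    · exact absurd (k6 α h h3) h5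
    · exact h
    · exact absurd (h6 α' h k3) k5

theorem DD.step_lt (hJ : IsSilver J) (hθ : Big reg.ord θ) {n : ℕ} {q : ZFSet.{u}}
    (hq : Constructible q) {α β : Ordinal.{u}} (h : DD J reg θ h0 (n + 1) q α)
    (hβ : DD J reg θ h0 n q β) : β < α := by
  obtain ⟨β', h1, h2, h3, h4, h5, h6⟩ := h
  have hββ := DD.unique h1 hβ
  subst hββ
  by_contra hcon
  obtain ⟨γ, hγ, h7⟩ := Cap.exists (h0 := h0) hJ hθ hq (pos_iff_ne_zero.2 h3.1) h2.le
  exact h5 (h7.mono (hγ.le.trans (not_lt.1 hcon)))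

theorem DD.congr (hJ : IsSilver J) (hθ : Big reg.ord θ) : ∀ {n : ℕ} {q q' : ZFSet.{u}}
    {α β : Ordinal.{u}}, Constructible q → DD J reg θ h0 n q β → β ≤ α →
    (∀ ξ < α, (ξ.toZFSet ∈ q ↔ ξ.toZFSet ∈ q')) → DD J reg θ h0 n q' β
  | 0, _, _, _, _, _, h, _, _ => h
  | n + 1, q, q', α, β, hq, h, hβ, ha => by
    obtain ⟨β', h1, h2, h3, h4, h5, h6⟩ := id h
    have hlt : β' < β := DD.step_lt hJ hθ hq h h1
    refine ⟨β', DD.congr hJ hθ hq h1 (hlt.le.trans hβ) ha, h2, h3,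
      h4.congr h3 fun ξ hξ => ha ξ (hξ.trans_le hβ), fun h7 => h5 ?_, fun ξ hξ hl => ?_⟩
    · exact h7.congr fun ξ hξ => (ha ξ (hξ.trans_le hβ)).symm
    · exact (h6 ξ hξ hl).congr fun ζ hζ => ha ζ ((hζ.trans hξ).trans_le hβ)

theorem DD.mono (hJ : IsSilver J) (hθ : Big reg.ord θ) {lam : Ordinal.{u}} {n : ℕ}
    {q q' : ZFSet.{u}} {α : Ordinal.{u}} (hq : q ∈ Pos reg lam) (hq' : q' ∈ Pos reg lam)
    (hqq : q ⊆ q') (h : DD J reg θ h0 n q α) : DD J reg θ h0 n q' α := by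
  rcases n with _ | n
  · exact h
  · obtain ⟨β', h1, h2, h3, h4, h5, h6⟩ := id h
    exact DD.congr hJ hθ (mem_Pos.1 hq).2.1 h le_rfl (h4.agree hq' hqq)

theorem DD.restrict (hJ : IsSilver J) (hθ : Big reg.ord θ) {lam : Ordinal.{u}} {n : ℕ}
    {q r : ZFSet.{u}} {α i : Ordinal.{u}} (hr : r ∈ Pos reg lam)
    (hqr : q ⊆ r) (hi : Full q i) (h : DD J reg θ h0 n r α) (hα : α ≤ i) :
    DD J reg θ h0 n q α :=
  DD.congr hJ hθ (mem_Pos.1 hr).2.1 h hα fun ξ hξ => (hi.agree hr hqr ξ hξ).symm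

/-- The sequence is cofinal. -/
theorem DD.dense (hz : ZeroSharp.{u}) (hJ : IsSilver J) (hreg : reg.IsRegular)
    (hreg0 : ℵ₀ < reg) (hθ : Big reg.ord θ) {lam : Ordinal.{u}} (hlam : reg.ord ≤ lam)
    {q : ZFSet.{u}} (hq : q ∈ Pos reg lam) {i : Ordinal.{u}} (hi : i < reg.ord) :
    ∃ r ∈ Pos reg lam, q ⊆ r ∧ ∃ n α, i ≤ α ∧ DD J reg θ h0 n r α := by
  classical
  by_contra hcon
  push Not at hcon
  obtain ⟨q1, hq1, hqq1, hfull⟩ := exists_full hz hreg hreg0 hlam hq hi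
  have hlt : ∀ r ∈ Pos reg lam, q1 ⊆ r → ∀ n α, DD J reg θ h0 n r α → α < i := by
    intro r hr hqr n α h
    by_contra h1
    exact hcon r hr (fun _ h => hqr (hqq1 h)) n α (not_lt.1 h1) h
  have hq1c := (mem_Pos.1 hq1).2.1
  by_cases hall : ∀ n, ∃ α, DD J reg θ h0 n q1 α
  · choose a ha using hall
    have hai : ∀ n, a n < i := fun n => hlt q1 hq1 (fun _ h => h) n _ (ha n)
    have hstep : ∀ n, a n < a (n + 1) := fun n => DD.step_lt hJ hθ hq1c (ha (n + 1)) (ha n)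
    let σ := ⨆ n, a n
    have hbdd : BddAbove (Set.range a) := ⟨i, by
      rintro _ ⟨n, rfl⟩
      exact (hai n).le⟩
    have haσ : ∀ n, a n < σ := fun n => (hstep n).trans_le (le_ciSup hbdd (n + 1))
    have hσi : σ ≤ i := ciSup_le fun n => (hai n).le
    obtain ⟨γ, hγ, hcap⟩ := Cap.exists (h0 := h0) hJ hθ hq1c (pos_of_gt (haσ 0))
      (hσi.trans hi.le)
    obtain ⟨n, hn⟩ := exists_lt_of_lt_ciSup hγ
    obtain ⟨β', h1, h2, h3, h4, h5, h6⟩ := ha (n + 1)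
    have hββ := DD.unique h1 (ha n)
    subst hββ
    exact h5 ((hcap.mono hn.le).down (haσ (n + 1)).le)
  · push Not at hall
    have hex : ∃ n, ∀ α, ¬ DD J reg θ h0 n q1 α := hall
    obtain ⟨n, hn, hmin⟩ : ∃ n, (∀ α, ¬ DD J reg θ h0 n q1 α) ∧
        ∀ k < n, ∃ α, DD J reg θ h0 k q1 α := by
      refine ⟨Nat.find hex, Nat.find_spec hex, fun k hk => ?_⟩
      have := Nat.find_min hex hk
      push Not at this
      exact this
    rcases n with _ | n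
    · exact hn 0 rfl
    obtain ⟨β, hβ⟩ := hmin n (Nat.lt_succ_self n)
    have hβi : β < i := hlt q1 hq1 (fun _ h => h) n β hβ
    obtain ⟨r0, hr0, hq1r0, δ, hδJ, δ', hδ'J, hβδ, hδδ', hδ'r, h1, h2⟩ :=
      exists_sepr hJ hreg hreg0 hlam hq1 (hβi.trans hi)
    -- a limit above
    have hωr : ω < reg.ord := by
      rw [Cardinal.lt_ord]
      simpa using hreg0
    have hη : δ' + ω < reg.ord := isPrincipal_add_ord hreg0.le hδ'r hωr
    obtain ⟨r, hr, hr0r, hrf⟩ := exists_full hz hreg hreg0 hlam hr0 hη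
    have hLm : Lm (δ' + ω) := by
      constructor
      · intro h
        have h3 : δ' < δ' + ω := lt_add_of_pos_right _ omega0_pos
        rw [h] at h3
        exact absurd h3 (not_lt.2 zero_le)
      · intro ζ hζ
        rcases lt_or_ge ζ δ' with h3 | h3
        · exact (add_le_add_left (Order.add_one_le_of_lt h3) 0 |> fun _ =>
            (Order.add_one_le_of_lt h3)).trans_lt (lt_add_of_pos_right _ omega0_pos)
        · obtain ⟨d, rfl⟩ : ∃ d, ζ = δ' + d :=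
            ⟨ζ - δ', (Ordinal.add_sub_cancel_of_le h3).symm⟩
          have h4 : d < ω := (add_lt_add_iff_left _).1 hζ
          rw [add_assoc]
          refine (add_lt_add_iff_left _).2 ?_
          obtain ⟨k, rfl⟩ := lt_omega0.1 h4
          exact_mod_cast natCast_lt_omega0 (k + 1)
    have hncap : ¬ Cap J reg θ h0 β (δ' + ω) r := by
      rintro ⟨X, hX, hag⟩
      have hd' : δ' < δ' + ω := lt_add_of_pos_right _ omega0_pos
      have k1 := (hag δ (hδδ'.trans hd')).1 (hr0r h1)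
      have k2 := (hX.sep hJ hθ hδJ hδ'J hβδ (hδδ'.trans hδ'r) (hβδ.trans hδδ') hδ'r).1 k1
      have k3 := (hag δ' hd').2 k2
      exact Pos_no_both hr k3 (hr0r h2)
    let s : Set Ordinal.{u} := {η | Lm η ∧ ¬ Cap J reg θ h0 β η r}
    have hs : sInf s ∈ s := csInf_mem ⟨_, hLm, hncap⟩
    have hs' : sInf s ≤ δ' + ω := csInf_le' ⟨hLm, hncap⟩
    have hq1r : q1 ⊆ r := fun _ h => hr0r (hq1r0 h)
    have hDD : DD J reg θ h0 (n + 1) r (sInf s) := by
      refine ⟨β, DD.mono hJ hθ hq1 hr hq1r hβ, hs'.trans_lt hη, hs.1, hrf.down hs', hs.2,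
        fun ξ hξ hl => ?_⟩
      by_contra h3
      exact absurd (csInf_le' (s := s) ⟨hl, h3⟩) (not_le.2 hξ)
    have h3 := hlt r hr hq1r _ _ hDD
    exact hn _ (DD.restrict hJ hθ hr hq1r hfull hDD h3.le)

/-- `q` decides that the `n`-th value of the surjection onto `reg` is `ι`. -/
def VV (J : Set Ordinal.{u}) (reg θ : Cardinal.{u}) (h0 : 0 < θ.ord) (n : ℕ)
    (q : ZFSet.{u}) (ι : Ordinal.{u}) : Prop :=
  ∃ α, DD J reg θ h0 n q α ∧ (α + ω * ι).toZFSet ∈ q ∧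
    ∀ ι' < ι, (α + ω * ι' + 1).toZFSet ∈ q

theorem VV.mono (hJ : IsSilver J) (hθ : Big reg.ord θ) {lam : Ordinal.{u}} {n : ℕ}
    {q q' : ZFSet.{u}} {ι : Ordinal.{u}} (hq : q ∈ Pos reg lam) (hq' : q' ∈ Pos reg lam)
    (hqq : q ⊆ q') (h : VV J reg θ h0 n q ι) : VV J reg θ h0 n q' ι := by
  obtain ⟨α, h1, h2, h3⟩ := h
  exact ⟨α, h1.mono hJ hθ hq hq' hqq, hqq h2, fun ι' hι => hqq (h3 ι' hι)⟩

theorem VV.unique {lam : Ordinal.{u}} {n : ℕ} {q : ZFSet.{u}} {ι ι' : Ordinal.{u}}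
    (hq : q ∈ Pos reg lam) (h : VV J reg θ h0 n q ι) (h' : VV J reg θ h0 n q ι') :
    ι = ι' := by
  obtain ⟨α, h1, h2, h3⟩ := h
  obtain ⟨α', k1, k2, k3⟩ := h'
  have hαα := h1.unique k1
  subst hαα
  rcases lt_trichotomy ι ι' with h | h | h
  · exact (Pos_no_both hq h2 (k3 ι h)).elim
  · exact h
  · exact (Pos_no_both hq k2 (h3 ι' h)).elim

end

theorem Lm_add {α ι : Ordinal.{u}} (hα : Lm α) : Lm (α + ω * ι) := by
  have hpos : ∀ β : Ordinal.{u}, α ≤ α + β := fun β => le_self_add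
  refine ⟨fun h => ?_, fun ζ hζ => ?_⟩
  · have h1 := hpos (ω * ι)
    rw [h] at h1
    exact hα.1 (nonpos_iff_eq_zero.1 h1)
  · rcases lt_or_ge ζ α with h | h
    · exact (hα.2 ζ h).trans_le (hpos _)
    · obtain ⟨d, rfl⟩ : ∃ d, ζ = α + d := ⟨ζ - α, (Ordinal.add_sub_cancel_of_le h).symm⟩
      have h1 : d < ω * ι := (add_lt_add_iff_left _).1 hζ
      rw [add_assoc]
      refine (add_lt_add_iff_left _).2 ?_
      have h2 : d / ω < ι := (lt_mul_iff_div_lt omega0_ne_zero).1 h1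
      obtain ⟨k, hk⟩ := lt_omega0.1 (mod_lt d omega0_ne_zero)
      have h3 := div_add_mod d ω
      have h4 : d + 1 = ω * (d / ω) + ((k + 1 : ℕ) : Ordinal.{u}) := by
        conv_lhs => rw [← h3, hk, add_assoc]
        push_cast
        rfl
      rw [h4]
      calc ω * (d / ω) + ((k + 1 : ℕ) : Ordinal.{u}) < ω * (d / ω) + ω :=
            (add_lt_add_iff_left _).2 (natCast_lt_omega0 _)
        _ = ω * Order.succ (d / ω) := (mul_succ _ _).symm
        _ ≤ ω * ι := by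
            have := Order.succ_le_of_lt h2
            gcongr

/-- The values cover `reg`. -/
theorem VV.dense {J : Set Ordinal.{u}} {reg θ : Cardinal.{u}} {h0 : 0 < θ.ord}
    (hz : ZeroSharp.{u}) (hJ : IsSilver J) (hreg : reg.IsRegular)
    (hreg0 : ℵ₀ < reg) (hθ : Big reg.ord θ) {lam : Ordinal.{u}} (hlam : reg.ord ≤ lam)
    {q : ZFSet.{u}} (hq : q ∈ Pos reg lam) {ι : Ordinal.{u}} (hι : ι < reg.ord) :
    ∃ r ∈ Pos reg lam, q ⊆ r ∧ ∃ n, VV J reg θ h0 n r ι := by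
  classical
  have hl := card_lim hreg0
  obtain ⟨δ0, hδ0, hb⟩ := exists_bound_Pos hreg hreg0 hq
  obtain ⟨r1, hr1, hqr1, n, α, hiα, hDD⟩ := DD.dense (h0 := h0) hz hJ hreg hreg0 hθ hlam hq
    (hl _ hδ0)
  have hα : α < reg.ord ∧ Lm α := by
    rcases n with _ | n
    · have h1 : α = 0 := hDD
      rw [h1] at hiα
      exact absurd hiα (not_le.2 (zero_le.trans_lt (lt_add_one _)))
    · obtain ⟨_, _, h2, h3, _⟩ := hDD
      exact ⟨h2, h3⟩
  obtain ⟨hαr, hαL⟩ := hα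
  have hωr : ω < reg.ord := by
    rw [Cardinal.lt_ord]
    simpa using hreg0
  let ζ : Ordinal.{u} := α + ω * ι
  have hζr : ζ < reg.ord := isPrincipal_add_ord hreg0.le hαr
    (isPrincipal_mul_ord hreg0.le hωr hι)
  have hζL : Lm ζ := Lm_add hαL
  have hαζ : α ≤ ζ := le_self_add
  obtain ⟨hr1s, hr1c, hr1k, hr1n⟩ := mem_Pos.1 hr1
  obtain ⟨δ1, hδ1⟩ := id hr1c
  obtain ⟨κ, hκ1, hκ⟩ := exists_Big δ1 reg
  have hrκ : reg.ord < κ.ord := Cardinal.ord_lt_ord.2 hκ1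
  let rL : LA κ.ord := ⟨r1, hκ.mem hδ1⟩
  let aL : LA κ.ord := oL (hαr.trans hrκ)
  let zL : LA κ.ord := oL (hζr.trans hrκ)
  let gL : LA κ.ord := oL hrκ
  let Q : LA κ.ord → Prop := fun t => (t.1 ∈ rL.1 ∧ (t.1 ∈ aL.1 ∨ ¬ t.1 ∈ gL.1)) ∨
    t.1 = zL.1 ∨ ∃ x : LA κ.ord, ((∃ y : LA κ.ord, y.1 ∈ x.1) ∧
      ∀ y w : LA κ.ord, y.1 ∈ x.1 → w.1 = insert y.1 y.1 → w.1 ∈ x.1) ∧
      ¬ x.1 ∈ aL.1 ∧ x.1 ∈ zL.1 ∧ t.1 = insert x.1 x.1
  have hQ : Constructible (sepL Q) := sepL_constr inferInstance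
  have hmem : ∀ τ : Ordinal.{u}, τ.toZFSet ∈ sepL Q ↔
      (τ.toZFSet ∈ r1 ∧ (τ < α ∨ reg.ord ≤ τ)) ∨ τ = ζ ∨
        ∃ ξ, Lm ξ ∧ α ≤ ξ ∧ ξ < ζ ∧ τ = ξ + 1 := by
    intro τ
    rw [mem_sepL]
    constructor
    · rintro ⟨ht, ⟨h1, h2⟩ | h1 | ⟨x, ⟨⟨y, hy⟩, h2⟩, h3, h4, h5⟩⟩
      · refine Or.inl ⟨h1, h2.imp (fun h => Ordinal.toZFSet_mem_toZFSet_iff.1 h)
          fun h => ?_⟩
        by_contra hcon
        exact h (Ordinal.toZFSet_mem_toZFSet_iff.2 (not_le.1 hcon))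
      · exact Or.inr (Or.inl (Ordinal.toZFSet_injective h1))
      · right
        right
        obtain ⟨ξ, hξ, hx⟩ := Ordinal.mem_toZFSet_iff.1 h4
        rw [← hx] at h3 h5 hy h2
        refine ⟨ξ, ⟨?_, ?_⟩, ?_, hξ, ?_⟩
        · rintro rfl
          rw [Ordinal.toZFSet_zero] at hy
          exact ZFSet.notMem_empty _ hy
        · intro ν hν
          have hνκ : ν < κ.ord := (hν.trans hξ).trans (hζr.trans hrκ)
          have h6 := h2 (oL hνκ) (oL (hκ.lim ν hνκ))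
            (Ordinal.toZFSet_mem_toZFSet_iff.2 hν) (Ordinal.toZFSet_add_one ν)
          exact Ordinal.toZFSet_mem_toZFSet_iff.1 h6
        · by_contra hcon
          exact h3 (Ordinal.toZFSet_mem_toZFSet_iff.2 (not_le.1 hcon))
        · rw [← Ordinal.toZFSet_add_one] at h5
          exact Ordinal.toZFSet_injective h5
    · rintro (⟨h1, h2⟩ | h1 | ⟨ξ, h1, h2, h3, h4⟩)
      · refine ⟨Lset_trans rL.2 h1, Or.inl ⟨h1, h2.imp
          (fun h => Ordinal.toZFSet_mem_toZFSet_iff.2 h) fun h h3 => ?_⟩⟩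
        exact absurd (Ordinal.toZFSet_mem_toZFSet_iff.1 h3) (not_lt.2 h)
      · rw [h1]
        exact ⟨zL.2, Or.inr (Or.inl rfl)⟩
      · rw [h4]
        have hξκ : ξ < κ.ord := h3.trans (hζr.trans hrκ)
        refine ⟨(toZFSet_mem_Lset_iff _ _).2 (hκ.lim ξ hξκ), Or.inr (Or.inr
          ⟨oL hξκ, ⟨⟨oL (pos_of_gt hξκ |> fun _ => ((pos_iff_ne_zero.2 h1.1).trans hξκ)),
            Ordinal.toZFSet_mem_toZFSet_iff.2 (pos_iff_ne_zero.2 h1.1)⟩, ?_⟩, ?_,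
            Ordinal.toZFSet_mem_toZFSet_iff.2 h3, Ordinal.toZFSet_add_one ξ⟩)⟩
        · intro y w hy hw
          obtain ⟨ν, hν, hy'⟩ := Ordinal.mem_toZFSet_iff.1 hy
          rw [hw, ← hy', ← Ordinal.toZFSet_add_one]
          exact Ordinal.toZFSet_mem_toZFSet_iff.2 (h1.2 ν hν)
        · intro h5
          exact absurd (Ordinal.toZFSet_mem_toZFSet_iff.1 h5) (not_lt.2 h2)
  have hsub : ∀ t ∈ sepL Q, ∃ τ < lam, t = τ.toZFSet := by
    intro t ht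
    obtain ⟨ht', h1⟩ := mem_sepL.1 ht
    have hot : ∃ τ, t = Ordinal.toZFSet τ := by
      rcases h1 with ⟨h1, -⟩ | h1 | ⟨x, -, -, h4, h5⟩
      · obtain ⟨τ, -, h⟩ := Ordinal.mem_toZFSet_iff.1 (hr1s h1)
        exact ⟨τ, h.symm⟩
      · exact ⟨ζ, h1⟩
      · obtain ⟨ξ, hξ, hx⟩ := Ordinal.mem_toZFSet_iff.1 h4
        refine ⟨ξ + 1, ?_⟩
        rw [Ordinal.toZFSet_add_one, hx]
        exact h5
    obtain ⟨τ, rfl⟩ := hot
    refine ⟨τ, ?_, rfl⟩
    rcases (hmem τ).1 ht with ⟨h2, -⟩ | h2 | ⟨ξ, h2, h3, h4, h5⟩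
    · exact Ordinal.toZFSet_mem_toZFSet_iff.1 (hr1s h2)
    · rw [h2]
      exact hζr.trans_le hlam
    · rw [h5]
      exact (hl _ (h4.trans hζr)).trans_le hlam
  have hr3 : sepL Q ∈ Pos reg lam := by
    refine mem_Pos.2 ⟨fun t ht => ?_, hQ, ?_, ?_⟩
    · obtain ⟨τ, hτ, rfl⟩ := hsub t ht
      exact Ordinal.toZFSet_mem_toZFSet_iff.2 hτ
    · have h1 : sepL Q ⊆ r1 ∪ (ζ + 1).toZFSet := by
        intro t ht
        obtain ⟨τ, hτ, rfl⟩ := hsub t ht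
        rw [ZFSet.mem_union, Ordinal.toZFSet_mem_toZFSet_iff]
        rcases (hmem τ).1 ht with ⟨h2, -⟩ | h2 | ⟨ξ, h2, h3, h4, h5⟩
        · exact Or.inl h2
        · rw [h2]
          exact Or.inr (lt_add_one _)
        · rw [h5]
          exact Or.inr ((hζL.2 ξ h4).trans (lt_add_one _))
      refine (ZFSet.card_mono h1).trans_lt (ZFSet.card_union_le.trans_lt
        (Cardinal.add_lt_of_lt hreg0.le hr1k ?_))
      rw [Ordinal.card_toZFSet]
      exact Cardinal.lt_ord.1 (hl _ hζr)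
    · intro t ht hs
      obtain ⟨τ, hτ, rfl⟩ := hsub t ht
      rw [← Ordinal.toZFSet_add_one] at hs
      rcases (hmem τ).1 ht with ⟨h2, h2'⟩ | h2 | ⟨ξ, h2, h3, h4, h5⟩
      · rcases (hmem _).1 hs with ⟨k2, -⟩ | k2 | ⟨ξ', k2, k3, k4, k5⟩
        · exact Pos_no_both hr1 h2 k2
        · have h6 : τ < ζ := by
            rw [← k2]
            exact lt_add_one τ
          have h7 := hζL.2 τ h6
          rw [k2] at h7
          exact lt_irrefl _ h7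
        · have h6 : τ = ξ' := by simpa using k5
          rw [h6] at h2'
          rcases h2' with h7 | h7
          · exact absurd k3 (not_le.2 h7)
          · exact absurd (k4.trans hζr) (not_lt.2 h7)
      · rw [h2] at hs
        rcases (hmem _).1 hs with ⟨-, k2 | k2⟩ | k2 | ⟨ξ', k2, k3, k4, k5⟩
        · exact absurd (hαζ.trans (lt_add_one _).le) (not_le.2 k2)
        · exact absurd (hl _ hζr) (not_lt.2 k2)
        · exact absurd k2 (lt_add_one _).ne'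
        · have h6 : ζ = ξ' := by simpa using k5
          exact absurd h6 k4.ne'
      · rw [h5] at hs
        rcases (hmem _).1 hs with ⟨-, k2 | k2⟩ | k2 | ⟨ξ', k2, k3, k4, k5⟩
        · exact absurd (h3.trans ((lt_add_one _).le.trans (lt_add_one _).le)) (not_le.2 k2)
        · exact absurd (hl _ (hl _ (h4.trans hζr))) (not_lt.2 k2)
        · have h6 := hζL.2 _ (hζL.2 ξ h4)
          rw [k2] at h6
          exact lt_irrefl _ h6
        · have h6 : ξ + 1 = ξ' := by simpa using k5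
          have h7 := k2.2 ξ (by rw [← h6]; exact lt_add_one ξ)
          rw [← h6] at h7
          exact lt_irrefl _ h7
  refine ⟨sepL Q, hr3, ?_, n, α, ?_, ?_, ?_⟩
  · intro t ht
    obtain ⟨τ, hτ, rfl⟩ := Ordinal.mem_toZFSet_iff.1 ((mem_Pos.1 hq).1 ht)
    refine (hmem τ).2 (Or.inl ⟨hqr1 ht, ?_⟩)
    rcases lt_or_ge τ reg.ord with h1 | h1
    · exact Or.inl (((hb τ h1 ht).trans (lt_add_one _)).trans_le hiα)
    · exact Or.inr h1
  · refine DD.congr hJ hθ hr1c hDD le_rfl fun ξ hξ => ?_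
    rw [hmem]
    constructor
    · exact fun h => Or.inl ⟨h, Or.inl hξ⟩
    · rintro (⟨h, -⟩ | h | ⟨ξ', -, h3, -, h5⟩)
      · exact h
      · rw [h] at hξ
        exact absurd hαζ (not_le.2 hξ)
      · rw [h5] at hξ
        exact absurd (h3.trans (lt_add_one _).le) (not_le.2 hξ)
  · exact (hmem _).2 (Or.inr (Or.inl rfl))
  · intro ι' hι'
    refine (hmem _).2 (Or.inr (Or.inr ⟨α + ω * ι', Lm_add hαL, le_self_add, ?_, rfl⟩))
    refine (add_lt_add_iff_left _).2 ?_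
    exact mul_lt_mul_of_pos_left hι' omega0_pos

end Pool.Agent.ZSharp
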