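import Pool.Agent.ZSharp.Defs
import Pool.Agent.ZSharp.Final

/-!
# The constructible hierarchy as an instance of the abstract situation
-/

set_option autoImplicit false

open FirstOrder Set Ordinal Cardinal

namespace Pool.Agent.ZSharp

universe u

theorem mem_DefPow {A X : ZFSet.{u}} : X ∈ DefPow A ↔ X ⊆ A ∧
    (Set.univ : Set {x : ZFSet.{u} // x ∈ A}).Definable₁ LST {x | x.1 ∈ X} := by
  rw [DefPow, ZFSet.mem_sep, ZFSet.mem_powerset]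

theorem mem_Lset {α : Ordinal.{u}} {x : ZFSet.{u}} :
    x ∈ Lset α ↔ ∃ β < α, x ∈ DefPow (Lset β) := by
  rw [Lset, ZFSet.mem_iUnion]
  constructor
  · rintro ⟨β, hβ⟩
    exact ⟨β.1, β.2, hβ⟩
  · rintro ⟨β, hβ, h⟩
    exact ⟨⟨β, hβ⟩, h⟩

theorem Lset_mono {α β : Ordinal.{u}} (h : α ≤ β) {x : ZFSet.{u}} (hx : x ∈ Lset α) :
    x ∈ Lset β := by
  rw [mem_Lset] at hx ⊢
  obtain ⟨γ, hγ, hx⟩ := hx
  exact ⟨γ, hγ.trans_le h, hx⟩

theorem Lset_trans {α : Ordinal.{u}} {x y : ZFSet.{u}} (hx : x ∈ Lset α) (hy : y ∈ x) :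
    y ∈ Lset α := by
  obtain ⟨β, hβ, h⟩ := mem_Lset.1 hx
  exact Lset_mono hβ.le ((mem_DefPow.1 h).1 hy)

theorem Constructible.mem {x y : ZFSet.{u}} (hx : Constructible x) (hy : y ∈ x) :
    Constructible y := by
  obtain ⟨α, hα⟩ := hx
  exact ⟨α, Lset_trans hα hy⟩

section

variable {M : ZFSet.{u}}

/-- The symbol of the membership relation. -/
def memSym : LST.Relations 2 := SetRel.mem

theorem dfn_mem : Dfn LST (fun v : Fin 2 → {x : ZFSet.{u} // x ∈ M} =>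
    (v 0).1 ∈ (v 1).1) :=
  ⟨memSym.formula₂ (FirstOrder.Language.Term.var 0) (FirstOrder.Language.Term.var 1),
    fun v => FirstOrder.Language.Formula.realize_rel₂.trans Iff.rfl⟩

theorem dfn_mem' {I : Type} (i j : I) : Dfn LST (fun v : I → {x : ZFSet.{u} // x ∈ M} =>
    (v i).1 ∈ (v j).1) :=
  (dfn_mem.relabel ![i, j]).congr fun _ => Iff.rfl

/-- A set definable over `L_λ` with parameters is in `L_{λ+1}`. -/
theorem mem_of_dfn {lam : Ordinal.{u}} {X : ZFSet.{u}} (hX : X ⊆ Lset lam) {I : Type}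
    {R : (I → {x : ZFSet.{u} // x ∈ Lset lam}) → {x : ZFSet.{u} // x ∈ Lset lam} → Prop}
    (hR : Dfn1 LST R) (p : I → {x : ZFSet.{u} // x ∈ Lset lam})
    (h : ∀ y : {x : ZFSet.{u} // x ∈ Lset lam}, y.1 ∈ X ↔ R p y) : X ∈ Lset (lam + 1) := by
  rw [mem_Lset]
  refine ⟨lam, lt_add_one lam, mem_DefPow.2 ⟨hX, ?_⟩⟩
  obtain ⟨φ, hφ⟩ := hR
  rw [Set.Definable₁, Set.definable_iff_exists_formula_sum]
  refine ⟨φ.relabel (Sum.map (fun i => ⟨p i, mem_univ _⟩) (fun _ => (0 : Fin 1))), ?_⟩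
  ext v
  have h1 := hφ ((Sum.elim (Subtype.val : ↥(Set.univ : Set {x : ZFSet.{u} // x ∈ Lset lam}) →
    {x : ZFSet.{u} // x ∈ Lset lam}) v) ∘
    (Sum.map (fun i => ⟨p i, mem_univ _⟩) (fun _ => (0 : Fin 1))))
  rw [← FirstOrder.Language.Formula.realize_relabel] at h1
  show (v 0).1 ∈ X ↔ _
  rw [h]
  exact h1.symm

end

theorem isOrdinal_iff_dfn {lam : Ordinal.{u}} {x : ZFSet.{u}} (hx : x ∈ Lset lam) :
    ZFSet.IsOrdinal x ↔ (∀ y : {x : ZFSet.{u} // x ∈ Lset lam}, ∀ z :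
      {x : ZFSet.{u} // x ∈ Lset lam}, y.1 ∈ x → z.1 ∈ y.1 → z.1 ∈ x) ∧
      (∀ y z w : {x : ZFSet.{u} // x ∈ Lset lam}, y.1 ∈ z.1 → z.1 ∈ w.1 → w.1 ∈ x →
        y.1 ∈ w.1) := by
  constructor
  · intro h
    exact ⟨fun y z hy hz => h.mem_trans hz hy, fun y z w h1 h2 h3 => h.mem_trans' h1 h2 h3⟩
  · rintro ⟨h1, h2⟩
    refine ⟨fun y hy z hz => ?_, fun {y z w} hyz hzw hwx => ?_⟩
    · have hy' := Lset_trans hx hy
      exact h1 ⟨y, hy'⟩ ⟨z, Lset_trans hy' hz⟩ hy hz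
    · have hw := Lset_trans hx hwx
      have hz := Lset_trans hw hzw
      exact h2 ⟨y, Lset_trans hz hyz⟩ ⟨z, hz⟩ ⟨w, hw⟩ hyz hzw hwx

theorem dfn_isOrdinal {lam : Ordinal.{u}} : Dfn1 LST (fun (_ : Empty →
    {x : ZFSet.{u} // x ∈ Lset lam}) (x : {x : ZFSet.{u} // x ∈ Lset lam}) =>
      ZFSet.IsOrdinal x.1) := by
  refine Dfn.congr (R := fun v => (∀ y : {x : ZFSet.{u} // x ∈ Lset lam}, ∀ z :
      {x : ZFSet.{u} // x ∈ Lset lam}, y.1 ∈ (v (Sum.inr ())).1 → z.1 ∈ y.1 →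
        z.1 ∈ (v (Sum.inr ())).1) ∧
      (∀ y z w : {x : ZFSet.{u} // x ∈ Lset lam}, y.1 ∈ z.1 → z.1 ∈ w.1 →
        w.1 ∈ (v (Sum.inr ())).1 → y.1 ∈ w.1)) ?_
    (fun v => (isOrdinal_iff_dfn (v (Sum.inr ())).2).symm)
  refine Dfn.and ?_ ?_
  · refine Dfn.all (Dfn.all ?_)
    exact (dfn_mem' (Sum.inl (Sum.inr ())) (Sum.inl (Sum.inl (Sum.inr ())))).imp
      ((dfn_mem' (Sum.inr ()) (Sum.inl (Sum.inr ()))).imp
      (dfn_mem' (Sum.inr ()) (Sum.inl (Sum.inl (Sum.inr ())))))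
  · refine Dfn.all (Dfn.all (Dfn.all ?_))
    exact (dfn_mem' (Sum.inl (Sum.inl (Sum.inr ()))) (Sum.inl (Sum.inr ()))).imp
      ((dfn_mem' (Sum.inl (Sum.inr ())) (Sum.inr ())).imp
      ((dfn_mem' (Sum.inr ()) (Sum.inl (Sum.inl (Sum.inl (Sum.inr ()))))).imp
      (dfn_mem' (Sum.inl (Sum.inl (Sum.inr ()))) (Sum.inr ()))))

theorem toZFSet_mem_Lset_iff (β : Ordinal.{u}) :
    ∀ α : Ordinal.{u}, α.toZFSet ∈ Lset β ↔ α < β := by
  induction β using WellFoundedLT.induction with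
  | ind β ih =>
  intro α
  constructor
  · intro h
    obtain ⟨γ, hγ, h⟩ := mem_Lset.1 h
    have h1 := (mem_DefPow.1 h).1
    by_contra hcon
    have h2 : γ < α := hγ.trans_le (not_lt.1 hcon)
    have h3 : γ.toZFSet ∈ Lset γ := h1 (Ordinal.toZFSet_mem_toZFSet_iff.2 h2)
    exact absurd ((ih γ hγ γ).1 h3) (lt_irrefl _)
  · intro h
    refine Lset_mono (Order.succ_le_of_lt h) ?_
    rw [Order.succ_eq_add_one]
    have h0 : ∀ x, x ∈ α.toZFSet ↔ x ∈ Lset α ∧ ZFSet.IsOrdinal x := by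
      intro x
      constructor
      · intro hx
        obtain ⟨γ, hγ, rfl⟩ := Ordinal.mem_toZFSet_iff.1 hx
        exact ⟨(ih α h γ).2 hγ, ZFSet.isOrdinal_toZFSet γ⟩
      · rintro ⟨hx, ho⟩
        rw [← ho.toZFSet_rank_eq] at hx ⊢
        exact Ordinal.toZFSet_mem_toZFSet_iff.2 ((ih α h _).1 hx)
    refine mem_of_dfn (fun x hx => ((h0 x).1 hx).1) dfn_isOrdinal (fun e => e.elim)
      fun y => ?_
    rw [h0]
    exact and_iff_right y.2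

end Pool.Agent.ZSharp
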