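import Pool.Agent.ZSharp.Low

/-!
# The one gap lemma
-/

set_option autoImplicit false

open FirstOrder Set Ordinal

namespace Pool.Agent.ZSharp

universe u v w

variable {L : FirstOrder.Language.{0, 0}} {A : Type w} [L.Structure A]
  {c : Ordinal.{u} → A} {lam : Ordinal.{u}} {J : Set Ordinal.{u}} {E : A → A → Prop}

/-- `g` is a limit of `J`. -/
def LimJ (J : Set Ordinal.{u}) (g : Ordinal.{u}) : Prop := ∀ γ < g, ∃ j ∈ J, γ < j ∧ j < g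

theorem exists_seq {g γ : Ordinal.{u}} (hg : LimJ J g) (hγ : γ < g) :
    ∃ f : ℕ → Ordinal.{u}, StrictMono f ∧ ∀ k, f k ∈ J ∧ γ < f k ∧ f k < g := by
  classical
  choose! nx h1 h2 h3 using hg
  let f : ℕ → Ordinal.{u} := fun k => Nat.rec (nx γ) (fun _ x => nx x) k
  have hf : ∀ k, f k ∈ J ∧ γ < f k ∧ f k < g := by
    intro k
    induction k with
    | zero => exact ⟨h1 γ hγ, h2 γ hγ, h3 γ hγ⟩
    | succ k ih =>
      exact ⟨h1 _ ih.2.2, ih.2.1.trans (h2 _ ih.2.2), h3 _ ih.2.2⟩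
  exact ⟨f, strictMono_nat_of_lt_succ fun k => h2 _ (hf k).2.2, hf⟩

theorem exists_move {g γ : Ordinal.{u}} (hg : LimJ J g) (hγ : γ < g) {W : Type} [Finite W]
    (w0 : W → Ordinal.{u}) :
    ∃ w' : W → Ordinal.{u}, OE w0 w' ∧ ∀ i, w' i ∈ J ∧ γ < w' i ∧ w' i < g := by
  obtain ⟨f, hf, hf'⟩ := exists_seq hg hγ
  obtain ⟨n, t, r, ht, hr⟩ := exists_sort w0
  refine ⟨fun i => f (r i), fun i j => ?_, fun i => hf' _⟩
  rw [← hr i, ← hr j, hf.lt_iff_lt]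
  exact (ht.lt_iff_lt (a := r i) (b := r j)).trans Iff.rfl

theorem Sit.limJ_lam (S : Sit L A c lam J E) : LimJ J lam := fun γ hγ =>
  ⟨enumOrd J (γ + 1), enumOrd_mem S.not_bdd _,
    (lt_add_one γ).trans_le (id_le_enumOrd S.not_bdd _),
    S.enum_lt _ (S.add_lt _ hγ _ (one_lt_omega0.trans S.omega_lt))⟩

theorem exists_le_bound {W : Type} [Finite W] {g : Ordinal.{u}} (hg : 0 < g)
    {a : W → Ordinal.{u}} (ha : ∀ i, a i < g) : ∃ γ < g, ∀ i, a i ≤ γ := by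
  obtain ⟨n, t, r, ht, hr⟩ := exists_sort a
  rcases n with _ | n
  · exact ⟨0, hg, fun q => (r q).elim0⟩
  · refine ⟨a (t (Fin.last n)), ha _, fun q => ?_⟩
    rw [← hr q]
    exact ht.monotone (Fin.le_last _)

/-- The chain condition of a definable order, in the form in which it is used. -/
def CC (L : FirstOrder.Language.{0, 0}) {A : Type w} [L.Structure A] (le : A → A → Prop)
    (big : Ordinal.{u} → Prop) : Prop :=
  ∀ {I : Type} [Finite I] (R : (I → A) → A → Prop), Dfn1 L R → ∀ p : I → A,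
    (∀ y, R p y → le y y) → ∃ Y : Set A, (∀ y ∈ Y, R p y) ∧
      (∀ x, R p x → ∃ y ∈ Y, ∃ z, le z x ∧ le z y) ∧
      ∀ g, big g → ∀ f : A → Ordinal.{u}, (∀ y ∈ Y, f y < g) → ∃ γ < g, ∀ y ∈ Y, f y ≤ γ

theorem dfn_le {C : Type} {Le : (C → A) → A → A → Prop}
    (hLe : Dfn L (fun v : C ⊕ Fin 2 → A => Le (v ∘ Sum.inl) (v (Sum.inr 0))
      (v (Sum.inr 1)))) {idx : Type} (gL : C → idx) (i j : idx) :
    Dfn L (fun v : idx → A => Le (v ∘ gL) (v i) (v j)) :=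
  (hLe.relabel (Sum.elim gL ![i, j])).congr fun _ => Iff.rfl

theorem dfn_inc {C : Type} {Le : (C → A) → A → A → Prop}
    (hLe : Dfn L (fun v : C ⊕ Fin 2 → A => Le (v ∘ Sum.inl) (v (Sum.inr 0))
      (v (Sum.inr 1)))) {idx : Type} (gL : C → idx) (i j : idx) :
    Dfn L (fun v : idx → A => ¬ ∃ z, Le (v ∘ gL) z (v i) ∧ Le (v ∘ gL) z (v j)) := by
  refine Dfn.not (Dfn.ex (R := fun (v : idx → A) z =>
    Le (v ∘ gL) z (v i) ∧ Le (v ∘ gL) z (v j)) ?_)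
  exact (dfn_le hLe (idx := idx ⊕ Unit) (fun x => Sum.inl (gL x)) (Sum.inr ())
    (Sum.inl i)).and (dfn_le hLe (idx := idx ⊕ Unit) (fun x => Sum.inl (gL x)) (Sum.inr ())
    (Sum.inl j))

theorem dfn_all2 {IU IV idx : Type} {U : (IU → A) → A → Prop} {V : (IV → A) → A → Prop}
    (hU : Dfn1 L U) (hV : Dfn1 L V) (gU : IU → idx) (gV : IV → idx)
    {Q : (idx → A) → A → A → Prop}
    (hQ : Dfn L (fun v : (idx ⊕ Unit) ⊕ Unit → A =>
      Q (fun i => v (Sum.inl (Sum.inl i))) (v (Sum.inl (Sum.inr ()))) (v (Sum.inr ())))) :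
    Dfn L (fun v : idx → A => ∀ a b, U (v ∘ gU) a → V (v ∘ gV) b → Q v a b) := by
  refine Dfn.all (R := fun (v : idx → A) a => ∀ b, U (v ∘ gU) a → V (v ∘ gV) b → Q v a b)
    (Dfn.all (R := fun (v : idx ⊕ Unit → A) b => U ((v ∘ Sum.inl) ∘ gU) (v (Sum.inr ())) →
      V ((v ∘ Sum.inl) ∘ gV) b → Q (v ∘ Sum.inl) (v (Sum.inr ())) b) ?_)
  exact (hU.at (K := (idx ⊕ Unit) ⊕ Unit) (fun i => Sum.inl (Sum.inl (gU i)))
    (Sum.inl (Sum.inr ()))).imp ((hV.at (K := (idx ⊕ Unit) ⊕ Unit)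
    (fun i => Sum.inl (Sum.inl (gV i))) (Sum.inr ())).imp hQ)

theorem Sit.core (S : Sit L A c lam J E) {C W D K : Type} [Finite C] [Finite W] [Finite D]
    [Finite K] {Le : (C ⊕ D → A) → A → A → Prop}
    (hLe : Dfn L (fun v : (C ⊕ D) ⊕ Fin 2 → A => Le (v ∘ Sum.inl) (v (Sum.inr 0))
      (v (Sum.inr 1))))
    {U : ((C ⊕ W) ⊕ D → A) → A → Prop} (hU : Dfn1 L U)
    {T : ((C ⊕ K) ⊕ D → A) → A → Prop} (hT : Dfn1 L T)
    {c0 : C → Ordinal.{u}} {w0 : W → Ordinal.{u}} {d0 : D → Ordinal.{u}}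
    {j0 : K → Ordinal.{u}} (hc : InJ J lam c0) (hw : InJ J lam w0) (hd : InJ J lam d0)
    (hj : InJ J lam j0) {g : Ordinal.{u}} (h0g : 0 < g) (hgl : g < lam) (hg : LimJ J g)
    (hcw : ∀ i k, c0 i < w0 k) (hcj : ∀ i k, c0 i < j0 k) (hwj : ∀ i k, w0 i < j0 k)
    (hcg : ∀ i, c0 i < g) (hwg : ∀ i, w0 i < g) (hjg : ∀ i, j0 i < g) (hgd : ∀ i, g ≤ d0 i)
    {big : Ordinal.{u} → Prop} (hbig : big g) (hcc : CC L (Le (c ∘ Sum.elim c0 d0)) big)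
    (htr : ∀ x y z, Le (c ∘ Sum.elim c0 d0) x y → Le (c ∘ Sum.elim c0 d0) y z →
      Le (c ∘ Sum.elim c0 d0) x z)
    {s : K → W} (hs : OE (w0 ∘ s) j0) {s0 q1 q2 : A}
    (hs0 : IsDef U (c ∘ Sum.elim (Sum.elim c0 w0) d0) s0)
    (hq1 : IsDef T (c ∘ Sum.elim (Sum.elim c0 j0) d0) q1)
    (hq2 : IsDef T (c ∘ Sum.elim (Sum.elim c0 (w0 ∘ s)) d0) q2)
    (hss : Le (c ∘ Sum.elim c0 d0) s0 s0) (hsq : Le (c ∘ Sum.elim c0 d0) s0 q2) :
    ∃ z, Le (c ∘ Sum.elim c0 d0) z s0 ∧ Le (c ∘ Sum.elim c0 d0) z q1 := by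
  classical
  by_contra hno
  -- the relation `Phi`
  let gU1 : (C ⊕ W) ⊕ D → (C ⊕ W) ⊕ (W ⊕ D) := Sum.map id Sum.inr
  let gU2 : (C ⊕ W) ⊕ D → (C ⊕ W) ⊕ (W ⊕ D) :=
    Sum.elim (Sum.elim (fun i => Sum.inl (Sum.inl i)) (fun i => Sum.inr (Sum.inl i)))
      (fun i => Sum.inr (Sum.inr i))
  let gL : C ⊕ D → (C ⊕ W) ⊕ (W ⊕ D) :=
    Sum.elim (fun i => Sum.inl (Sum.inl i)) (fun i => Sum.inr (Sum.inr i))
  let Phi : ((C ⊕ W) ⊕ (W ⊕ D) → A) → Prop := fun v => ∀ a b, U (v ∘ gU1) a → U (v ∘ gU2) b →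
    ¬ ∃ z, Le (v ∘ gL) z a ∧ Le (v ∘ gL) z b
  have hPhi : Dfn L Phi := dfn_all2 hU hU gU1 gU2 (dfn_inc hLe
    (idx := (((C ⊕ W) ⊕ (W ⊕ D)) ⊕ Unit) ⊕ Unit) (fun i => Sum.inl (Sum.inl (gL i)))
    (Sum.inl (Sum.inr ())) (Sum.inr ()))
  have PhiAt : ∀ (w1 w2 : W → Ordinal.{u}) (d1 : D → Ordinal.{u}),
      Phi (c ∘ Sum.elim (Sum.elim c0 w1) (Sum.elim w2 d1)) ↔
      ∀ a b, U (c ∘ Sum.elim (Sum.elim c0 w1) d1) a → U (c ∘ Sum.elim (Sum.elim c0 w2) d1) b →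
        ¬ ∃ z, Le (c ∘ Sum.elim c0 d1) z a ∧ Le (c ∘ Sum.elim c0 d1) z b := by
    intro w1 w2 d1
    have e1 : (c ∘ Sum.elim (Sum.elim c0 w1) (Sum.elim w2 d1)) ∘ gU1
        = c ∘ Sum.elim (Sum.elim c0 w1) d1 := by
      funext i; rcases i with (i | i) | i <;> rfl
    have e2 : (c ∘ Sum.elim (Sum.elim c0 w1) (Sum.elim w2 d1)) ∘ gU2
        = c ∘ Sum.elim (Sum.elim c0 w2) d1 := by
      funext i; rcases i with (i | i) | i <;> rfl
    have e3 : (c ∘ Sum.elim (Sum.elim c0 w1) (Sum.elim w2 d1)) ∘ gL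
        = c ∘ Sum.elim c0 d1 := by
      funext i; rcases i with i | i <;> rfl
    simp only [Phi, e1, e2, e3]
  -- a second tuple `w2`
  obtain ⟨β0, hβ0, hβ0'⟩ := exists_le_bound h0g (a := Sum.elim c0 w0) (by
    rintro (i | i)
    · exact hcg i
    · exact hwg i)
  obtain ⟨w2, hw2, hw2'⟩ := exists_move hg hβ0 w0
  have hw2J : InJ J lam w2 := fun i => ⟨(hw2' i).1, (hw2' i).2.2.trans hgl⟩
  -- F2
  let gT2 : (C ⊕ K) ⊕ D → (C ⊕ W) ⊕ D := Sum.map (Sum.map id s) id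
  let gL2 : C ⊕ D → (C ⊕ W) ⊕ D := Sum.map Sum.inl id
  let F2 : ((C ⊕ W) ⊕ D → A) → Prop := fun v => ∀ a b, U (v ∘ id) a → T (v ∘ gT2) b →
    Le (v ∘ gL2) a b
  have hF2 : Dfn L F2 := dfn_all2 hU hT id gT2 (dfn_le hLe
    (idx := (((C ⊕ W) ⊕ D) ⊕ Unit) ⊕ Unit) (fun i => Sum.inl (Sum.inl (gL2 i)))
    (Sum.inl (Sum.inr ())) (Sum.inr ()))
  have F2At : ∀ (w1 : W → Ordinal.{u}),
      F2 (c ∘ Sum.elim (Sum.elim c0 w1) d0) ↔
      ∀ a b, U (c ∘ Sum.elim (Sum.elim c0 w1) d0) a →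
        T (c ∘ Sum.elim (Sum.elim c0 (w1 ∘ s)) d0) b → Le (c ∘ Sum.elim c0 d0) a b := by
    intro w1
    have e2 : (c ∘ Sum.elim (Sum.elim c0 w1) d0) ∘ gT2
        = c ∘ Sum.elim (Sum.elim c0 (w1 ∘ s)) d0 := by
      funext i; rcases i with (i | i) | i <;> rfl
    have e3 : (c ∘ Sum.elim (Sum.elim c0 w1) d0) ∘ gL2 = c ∘ Sum.elim c0 d0 := by
      funext i; rcases i with i | i <;> rfl
    simp only [F2, e2, e3, Function.comp_id]
  have oe1 : ∀ w1 : W → Ordinal.{u}, OE w0 w1 → (∀ i k, c0 i < w1 k) → (∀ i k, w1 i < d0 k) →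
      OE (Sum.elim (Sum.elim c0 w0) d0) (Sum.elim (Sum.elim c0 w1) d0) := by
    intro w1 h1 h2 h3
    refine OE.sum (OE.sum (OE.refl _) h1 hcw h2) (OE.refl _) ?_ ?_
    · rintro (i | i) k
      · exact (hcg i).trans_le (hgd k)
      · exact (hwg i).trans_le (hgd k)
    · rintro (i | i) k
      · exact (hcg i).trans_le (hgd k)
      · exact h3 i k
  have hcw2 : ∀ i k, c0 i < w2 k := fun i k => (hβ0' (Sum.inl i)).trans_lt (hw2' k).2.1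
  have hww2 : ∀ i k, w0 i < w2 k := fun i k => (hβ0' (Sum.inr i)).trans_lt (hw2' k).2.1
  have hw2d : ∀ i k, w2 i < d0 k := fun i k => (hw2' i).2.2.trans_le (hgd k)
  have F2w2 : ∀ a b, U (c ∘ Sum.elim (Sum.elim c0 w2) d0) a →
        T (c ∘ Sum.elim (Sum.elim c0 (w2 ∘ s)) d0) b → Le (c ∘ Sum.elim c0 d0) a b := by
    rw [← F2At]
    refine (S.ind hF2 ((hc.sum hw).sum hd) ((hc.sum hw2J).sum hd)
      (oe1 w2 hw2 hcw2 hw2d)).1 ((F2At w0).2 ?_)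
    intro a b ha hb
    rw [(hs0 a).1 ha, (hq2 b).1 hb]
    exact hsq
  -- F3
  let gU3 : (C ⊕ W) ⊕ D → (C ⊕ W) ⊕ (K ⊕ D) := Sum.map id Sum.inr
  let gT3 : (C ⊕ K) ⊕ D → (C ⊕ W) ⊕ (K ⊕ D) :=
    Sum.elim (Sum.elim (fun i => Sum.inl (Sum.inl i)) (fun i => Sum.inr (Sum.inl i)))
      (fun i => Sum.inr (Sum.inr i))
  let gL3 : C ⊕ D → (C ⊕ W) ⊕ (K ⊕ D) :=
    Sum.elim (fun i => Sum.inl (Sum.inl i)) (fun i => Sum.inr (Sum.inr i))
  let F3 : ((C ⊕ W) ⊕ (K ⊕ D) → A) → Prop := fun v => ∀ a b, U (v ∘ gU3) a → T (v ∘ gT3) b →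
    ¬ ∃ z, Le (v ∘ gL3) z a ∧ Le (v ∘ gL3) z b
  have hF3 : Dfn L F3 := dfn_all2 hU hT gU3 gT3 (dfn_inc hLe
    (idx := (((C ⊕ W) ⊕ (K ⊕ D)) ⊕ Unit) ⊕ Unit) (fun i => Sum.inl (Sum.inl (gL3 i)))
    (Sum.inl (Sum.inr ())) (Sum.inr ()))
  have F3At : ∀ (j1 : K → Ordinal.{u}),
      F3 (c ∘ Sum.elim (Sum.elim c0 w0) (Sum.elim j1 d0)) ↔
      ∀ a b, U (c ∘ Sum.elim (Sum.elim c0 w0) d0) a → T (c ∘ Sum.elim (Sum.elim c0 j1) d0) b →
        ¬ ∃ z, Le (c ∘ Sum.elim c0 d0) z a ∧ Le (c ∘ Sum.elim c0 d0) z b := by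
    intro j1
    have e1 : (c ∘ Sum.elim (Sum.elim c0 w0) (Sum.elim j1 d0)) ∘ gU3
        = c ∘ Sum.elim (Sum.elim c0 w0) d0 := by
      funext i; rcases i with (i | i) | i <;> rfl
    have e2 : (c ∘ Sum.elim (Sum.elim c0 w0) (Sum.elim j1 d0)) ∘ gT3
        = c ∘ Sum.elim (Sum.elim c0 j1) d0 := by
      funext i; rcases i with (i | i) | i <;> rfl
    have e3 : (c ∘ Sum.elim (Sum.elim c0 w0) (Sum.elim j1 d0)) ∘ gL3
        = c ∘ Sum.elim c0 d0 := by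
      funext i; rcases i with i | i <;> rfl
    simp only [F3, e1, e2, e3]
  have oeF3 : OE (Sum.elim (Sum.elim c0 w0) (Sum.elim j0 d0))
      (Sum.elim (Sum.elim c0 w0) (Sum.elim (w2 ∘ s) d0)) := by
    refine OE.sum (OE.refl _) (OE.sum (hs.symm.trans (hw2.comp s)) (OE.refl _)
      (fun i k => (hjg i).trans_le (hgd k)) (fun i k => hw2d _ k)) ?_ ?_
    · rintro (i | i) (k | k)
      · exact hcj i k
      · exact (hcg i).trans_le (hgd k)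
      · exact hwj i k
      · exact (hwg i).trans_le (hgd k)
    · rintro (i | i) (k | k)
      · exact hcw2 i (s k)
      · exact (hcg i).trans_le (hgd k)
      · exact hww2 i (s k)
      · exact (hwg i).trans_le (hgd k)
  have F3w2 : ∀ a b, U (c ∘ Sum.elim (Sum.elim c0 w0) d0) a →
      T (c ∘ Sum.elim (Sum.elim c0 (w2 ∘ s)) d0) b →
        ¬ ∃ z, Le (c ∘ Sum.elim c0 d0) z a ∧ Le (c ∘ Sum.elim c0 d0) z b := by
    rw [← F3At]
    refine (S.ind hF3 ((hc.sum hw).sum (hj.sum hd)) ((hc.sum hw).sum ((hw2J.comp s).sum hd))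
      oeF3).1 ((F3At j0).2 ?_)
    intro a b ha hb
    rw [(hs0 a).1 ha, (hq1 b).1 hb]
    exact hno
  -- the element defined by `T` at `w2`
  obtain ⟨b', hb'⟩ : ∃ x, IsDef T (c ∘ Sum.elim (Sum.elim c0 (w2 ∘ s)) d0) x := by
    refine (S.isDef_iff hT ((hc.sum (hw.comp s)).sum hd) ((hc.sum (hw2J.comp s)).sum hd)
      ?_).1 ⟨q2, hq2⟩
    refine OE.sum (OE.sum (OE.refl _) (hw2.comp s) (fun i k => hcw i (s k))
      (fun i k => hcw2 i (s k))) (OE.refl _) ?_ ?_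
    · rintro (i | i) k
      · exact (hcg i).trans_le (hgd k)
      · exact (hwg _).trans_le (hgd k)
    · rintro (i | i) k
      · exact (hcg i).trans_le (hgd k)
      · exact hw2d _ k
  have Phi0 : Phi (c ∘ Sum.elim (Sum.elim c0 w0) (Sum.elim w2 d0)) := by
    rw [PhiAt]
    rintro a b ha hb ⟨z, hz1, hz2⟩
    exact F3w2 a b' ha hb'.holds ⟨z, hz1, htr _ _ _ hz2 (F2w2 b b' hb hb'.holds)⟩
  -- the upper copies
  obtain ⟨ws, hws, hws'⟩ := exists_move S.limJ_lam hgl w0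
  have hwsJ : InJ J lam ws := fun i => ⟨(hws' i).1, (hws' i).2.2⟩
  obtain ⟨β1, hβ1, hβ1'⟩ := S.exists_bound (a := Sum.elim ws (fun _ : Unit => g)) (by
    rintro (i | i)
    · exact (hws' i).2.2
    · exact hgl)
  obtain ⟨dp, hdp, hdp'⟩ := exists_move S.limJ_lam hβ1 d0
  have hdpJ : InJ J lam dp := fun i => ⟨(hdp' i).1, (hdp' i).2.2⟩
  have hwsdp : ∀ i k, ws i < dp k := fun i k => (hβ1' (Sum.inl i)).trans (hdp' k).2.1
  have hgdp : ∀ k, g < dp k := fun k => (hβ1' (Sum.inr ())).trans (hdp' k).2.1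
  -- the definable set
  let IX := ((C ⊕ D) ⊕ Unit) ⊕ (W ⊕ D)
  let p : IX → A := Sum.elim (Sum.elim (c ∘ Sum.elim c0 d0) (fun _ => c g))
    (c ∘ Sum.elim ws dp)
  let hUX : (C ⊕ W) ⊕ D → (IX ⊕ Unit) ⊕ W :=
    Sum.elim (Sum.elim (fun i => Sum.inl (Sum.inl (Sum.inl (Sum.inl (Sum.inl i)))))
      (fun i => Sum.inr i)) (fun i => Sum.inl (Sum.inl (Sum.inl (Sum.inl (Sum.inr i)))))
  let hPX : (C ⊕ W) ⊕ (W ⊕ D) → (IX ⊕ Unit) ⊕ W :=
    Sum.elim (Sum.elim (fun i => Sum.inl (Sum.inl (Sum.inl (Sum.inl (Sum.inl i)))))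
      (fun i => Sum.inr i)) (fun i => Sum.inl (Sum.inl (Sum.inr i)))
  let hLX : C ⊕ D → (IX ⊕ Unit) ⊕ W := fun i => Sum.inl (Sum.inl (Sum.inl (Sum.inl i)))
  let R : (IX → A) → A → Prop := fun v y => ∃ w : W → A,
    ((∀ i, E (w i) (v (Sum.inl (Sum.inr ())))) ∧
      U (Sum.elim (Sum.elim v (fun _ => y)) w ∘ hUX) y) ∧
      Phi (Sum.elim (Sum.elim v (fun _ => y)) w ∘ hPX) ∧
      Le (Sum.elim (Sum.elim v (fun _ => y)) w ∘ hLX) y y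
  have hR : Dfn1 L R := by
    refine (Dfn.exs (R := fun v : (IX ⊕ Unit) ⊕ W → A =>
      ((∀ i, E (v (Sum.inr i)) (v (Sum.inl (Sum.inl (Sum.inl (Sum.inr ())))))) ∧
      U (v ∘ hUX) (v (Sum.inl (Sum.inr ())))) ∧
      Phi (v ∘ hPX) ∧
      Le (v ∘ hLX) (v (Sum.inl (Sum.inr ()))) (v (Sum.inl (Sum.inr ())))) ?_).congr
      fun v => ?_
    · refine ((Dfn.finAll fun i => ?_).and (hU.at hUX _)).and ((hPhi.relabel hPX).and
        (dfn_le hLe hLX _ _))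
      exact (S.defE.relabel ![Sum.inr i, Sum.inl (Sum.inl (Sum.inl (Sum.inr ())))]).congr
        fun _ => Iff.rfl
    · have e1 : ∀ w : W → A, Sum.elim (Sum.elim (v ∘ Sum.inl)
          (fun _ : Unit => v (Sum.inr ()))) w = Sum.elim v w := by
        intro w
        funext i
        rcases i with (i | i) | i <;> rfl
      simp only [R, e1]
      exact Iff.rfl
  have RAt : ∀ (w1 : W → Ordinal.{u}) (y : A), (∀ i, w1 i < g) →
      U (c ∘ Sum.elim (Sum.elim c0 w1) d0) y →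
      Phi (c ∘ Sum.elim (Sum.elim c0 w1) (Sum.elim ws dp)) →
      Le (c ∘ Sum.elim c0 d0) y y → R p y := by
    intro w1 y h1 h2 h3 h4
    refine ⟨c ∘ w1, ⟨fun i => (S.E_iff _ ((h1 i).trans hgl) _ hgl).2 (h1 i), ?_⟩, ?_, ?_⟩
    · convert h2 using 1
      funext i; rcases i with (i | i) | i <;> rfl
    · convert h3 using 1
      funext i; rcases i with (i | i) | (i | i) <;> rfl
    · exact h4
  have RAt' : ∀ y : A, R p y → ∃ (w1 : W → Ordinal.{u}), (∀ i, w1 i < g) ∧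
      U (c ∘ Sum.elim (Sum.elim c0 w1) d0) y ∧
      Phi (c ∘ Sum.elim (Sum.elim c0 w1) (Sum.elim ws dp)) := by
    rintro y ⟨w, ⟨h1, h2⟩, h3, -⟩
    have h1' : ∀ i, ∃ α < g, w i = c α := fun i => S.E_ord _ hgl _ (h1 i)
    choose w1 hw1 hw1' using h1'
    have hww : w = c ∘ w1 := funext hw1'
    subst hww
    refine ⟨w1, hw1, ?_, ?_⟩
    · convert h2 using 1
      funext i; rcases i with (i | i) | i <;> rfl
    · convert h3 using 1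
      funext i; rcases i with (i | i) | (i | i) <;> rfl
  obtain ⟨Y, hY1, hY2, hY3⟩ := hcc R hR p (by
    rintro y ⟨w, -, -, h⟩
    exact h)
  have hY4 : ∀ y ∈ Y, ∃ γ < g, ∃ w1 : W → Ordinal.{u}, (∀ i, w1 i ≤ γ) ∧
      U (c ∘ Sum.elim (Sum.elim c0 w1) d0) y ∧
      Phi (c ∘ Sum.elim (Sum.elim c0 w1) (Sum.elim ws dp)) := by
    intro y hy
    obtain ⟨w1, h1, h2, h3⟩ := RAt' y (hY1 y hy)
    obtain ⟨γ, hγ, h4⟩ := exists_le_bound h0g h1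
    exact ⟨γ, hγ, w1, h4, h2, h3⟩
  choose! f hf1 hf2 using hY4
  obtain ⟨γ1, hγ1, hγ1'⟩ := hY3 g hbig f hf1
  obtain ⟨γ2, hγ2, hγ2'⟩ := exists_le_bound h0g hcg
  have hγ : max γ1 γ2 < g := max_lt hγ1 hγ2
  obtain ⟨w', hw', hw''⟩ := exists_move hg hγ w0
  have hw'J : InJ J lam w' := fun i => ⟨(hw'' i).1, (hw'' i).2.2.trans hgl⟩
  have hcw' : ∀ i k, c0 i < w' k := fun i k =>
    ((hγ2' i).trans (le_max_right _ _)).trans_lt (hw'' k).2.1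
  have hw'd : ∀ i k, w' i < d0 k := fun i k => (hw'' i).2.2.trans_le (hgd k)
  -- the element `s'`
  obtain ⟨s', hs', hs''⟩ : ∃ a, IsDef U (c ∘ Sum.elim (Sum.elim c0 w') d0) a ∧
      Le (c ∘ Sum.elim c0 d0) a a := by
    let P : ((C ⊕ W) ⊕ D → A) → Prop := fun v => ∃ a, IsDef U v a ∧ Le (v ∘ gL2) a a
    have hP : Dfn L P := Dfn.ex (R := fun (v : (C ⊕ W) ⊕ D → A) a =>
      IsDef U v a ∧ Le (v ∘ gL2) a a) ((hU.isDef.at (K := ((C ⊕ W) ⊕ D) ⊕ Unit) Sum.inl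
        (Sum.inr ())).and (dfn_le hLe (fun i => Sum.inl (gL2 i)) (Sum.inr ()) (Sum.inr ())))
    have e3 : ∀ w1 : W → Ordinal.{u}, (c ∘ Sum.elim (Sum.elim c0 w1) d0) ∘ gL2
        = c ∘ Sum.elim c0 d0 := by
      intro w1
      funext i; rcases i with i | i <;> rfl
    have h1 : P (c ∘ Sum.elim (Sum.elim c0 w0) d0) := ⟨s0, hs0, by rw [e3]; exact hss⟩
    obtain ⟨a, ha, ha'⟩ := (S.ind hP ((hc.sum hw).sum hd) ((hc.sum hw'J).sum hd)
      (oe1 w' hw' hcw' hw'd)).1 h1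
    rw [e3] at ha'
    exact ⟨a, ha, ha'⟩
  have Phi1 : Phi (c ∘ Sum.elim (Sum.elim c0 w') (Sum.elim ws dp)) := by
    refine (S.ind hPhi ((hc.sum hw).sum (hw2J.sum hd)) ((hc.sum hw'J).sum (hwsJ.sum hdpJ))
      ?_).1 Phi0
    refine OE.sum (OE.sum (OE.refl _) hw' hcw hcw') (OE.sum (hw2.symm.trans hws) hdp hw2d
      hwsdp) ?_ ?_
    · rintro (i | i) (k | k)
      · exact hcw2 i k
      · exact (hcg i).trans_le (hgd k)
      · exact hww2 i k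
      · exact (hwg i).trans_le (hgd k)
    · rintro (i | i) (k | k)
      · exact (hcg i).trans (hws' k).2.1
      · exact (hcg i).trans (hgdp k)
      · exact (hw'' i).2.2.trans (hws' k).2.1
      · exact (hw'' i).2.2.trans (hgdp k)
  have hRs : R p s' := RAt w' s' (fun i => (hw'' i).2.2) hs'.holds Phi1 hs''
  obtain ⟨y, hy, z, hz1, hz2⟩ := hY2 s' hRs
  obtain ⟨w1, h1, h2, h3⟩ := hf2 y hy
  have h4 : ∀ i, w1 i ≤ max γ1 γ2 := fun i => ((h1 i).trans (hγ1' y hy)).trans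
    (le_max_left _ _)
  have h5 : ∀ i, Sum.elim c0 w1 i ≤ max γ1 γ2 := by
    rintro (i | i)
    · exact (hγ2' i).trans (le_max_right _ _)
    · exact h4 i
  have h6 := (S.lowInd hPhi (hγ.trans hgl) h5 (hwsJ.sum hdpJ) (hw'J.sum hd) (by
    rintro (i | i)
    · exact hγ.trans (hws' i).2.1
    · exact hγ.trans (hgdp i)) (by
    rintro (i | i)
    · exact (hw'' i).2.1
    · exact hγ.trans_le (hgd i)) (OE.sum (hws.symm.trans hw') hdp.symm hwsdp hw'd)).1 h3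
  rw [PhiAt] at h6
  exact h6 y s' h2 hs'.holds ⟨z, hz2, hz1⟩

end Pool.Agent.ZSharp
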