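import Mathlib

/-!
# The constructible hierarchy, Silver indiscernibles, chain conditions

`V` is the universe `ZFSet` of sets.
-/

set_option autoImplicit false

open Set Cardinal

namespace Pool.Agent.ZSharp

universe u

/-- The only relation symbol of the language of set theory: a binary one. -/
inductive SetRel : ℕ → Type
  | mem : SetRel 2

/-- The language of set theory. -/
def LST : FirstOrder.Language.{0, 0} := ⟨fun _ => Empty, SetRel⟩

/-- The structure `(A, ∈)` for a set `A`. -/
instance memStr (A : ZFSet.{u}) : LST.Structure {x : ZFSet.{u} // x ∈ A} where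
  funMap := fun f => f.elim
  RelMap := fun r => match r with
    | SetRel.mem => fun v => (v 0).1 ∈ (v 1).1

/-- `Def(A)`: the subsets of `A` which are first order definable over `(A, ∈)` with
parameters from `A`. -/
noncomputable def DefPow (A : ZFSet.{u}) : ZFSet.{u} :=
  ZFSet.sep (fun X => (Set.univ : Set {x : ZFSet.{u} // x ∈ A}).Definable₁ LST
    {x | x.1 ∈ X}) A.powerset

/-- The constructible hierarchy: `L_α` is the union of the sets `Def(L_β)` for `β < α`. -/
noncomputable def Lset (α : Ordinal.{u}) : ZFSet.{u} :=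
  ZFSet.iUnion (fun β : Set.Iio α => DefPow (Lset β.1))
termination_by α
decreasing_by exact β.2

/-- `x` is constructible, i.e. belongs to `L`. -/
def Constructible (x : ZFSet.{u}) : Prop := ∃ α : Ordinal.{u}, x ∈ Lset α

/-- `J` is a club class of Silver indiscernibles (the statement of Silver's theorem on `0^♯`):
`J` is a closed unbounded class of ordinals which contains all uncountable cardinals, and for
every uncountable cardinal `κ`, `J ∩ κ` has size `κ`, is a set of order indiscernibles for
`(L_κ, ∈)`, and every element of `L_κ` is definable in `(L_κ, ∈)` from elements of `J ∩ κ`. -/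
structure IsSilver (J : Set Ordinal.{u}) : Prop where
  unbounded : ∀ α, ∃ j ∈ J, α < j
  closed : ∀ α, α ≠ 0 → (∀ β < α, ∃ j ∈ J, β < j ∧ j < α) → α ∈ J
  cardinals : ∀ κ : Cardinal.{u}, ℵ₀ < κ → κ.ord ∈ J
  size : ∀ κ : Cardinal.{u}, ℵ₀ < κ →
    #{j : Ordinal.{u} // j ∈ J ∧ j < κ.ord} = Cardinal.lift.{u + 1} κ
  indiscernible : ∀ κ : Cardinal.{u}, ℵ₀ < κ → ∀ (n : ℕ) (φ : LST.Formula (Fin n))
    (a b : Fin n → Ordinal.{u}) (x y : Fin n → {x : ZFSet.{u} // x ∈ Lset κ.ord}),
    StrictMono a → StrictMono b → (∀ i, a i ∈ J) → (∀ i, b i ∈ J) →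
    (∀ i, (x i).1 = (a i).toZFSet) → (∀ i, (y i).1 = (b i).toZFSet) →
    (φ.Realize x ↔ φ.Realize y)
  generates : ∀ κ : Cardinal.{u}, ℵ₀ < κ → ∀ z : {x : ZFSet.{u} // x ∈ Lset κ.ord},
    Set.Definable₁ {x : {x : ZFSet.{u} // x ∈ Lset κ.ord} | ∃ j ∈ J, x.1 = j.toZFSet} LST {z}

/-- `0^♯` exists. -/
def ZeroSharp : Prop := ∃ J : Set Ordinal.{u}, IsSilver J

/-- `p ≤ q` in the order given by the set `R` of ordered pairs, for `p, q ∈ P`. -/
def Le (P R p q : ZFSet.{u}) : Prop := p ∈ P ∧ q ∈ P ∧ ZFSet.pair p q ∈ R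

/-- `(P, R)` is a forcing notion: `R` is a reflexive and transitive relation on `P`. -/
structure IsForcing (P R : ZFSet.{u}) : Prop where
  refl : ∀ p ∈ P, Le P R p p
  trans : ∀ p q r, Le P R p q → Le P R q r → Le P R p r

/-- `p` and `q` are compatible. -/
def Compatible (P R p q : ZFSet.{u}) : Prop := ∃ r, Le P R r p ∧ Le P R r q

/-- The `μ`-chain condition for constructible sets: every constructible set `X` of
conditions has a subset `Y` of size less than `μ` which is predense in `X`. -/
def LChain (P R : ZFSet.{u}) (μ : Cardinal.{u}) : Prop :=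
  ∀ X : ZFSet.{u}, Constructible X → X ⊆ P → ∃ Y : ZFSet.{u}, Y ⊆ X ∧
    Y.card < μ ∧ ∀ x ∈ X, ∃ y ∈ Y, Compatible P R x y

/-- The conditions of the forcing notion `(P, R)`. -/
abbrev Cond (P : ZFSet.{u}) : Type (u + 1) := {p : ZFSet.{u} // p ∈ P}

/-- The order of the forcing notion `(P, R)`. -/
def leP (P R : ZFSet.{u}) (p q : Cond P) : Prop := Le P R p.1 q.1

end Pool.Agent.ZSharp
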