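import Mathlib

/-!
# Relations definable without parameters, on tuples indexed by arbitrary types
-/

set_option autoImplicit false

open FirstOrder Set

namespace Pool.Agent.ZSharp

universe u v w

variable {L : FirstOrder.Language.{0, 0}} {A : Type w} [L.Structure A]

/-- The relation `R` on tuples indexed by `I` is definable without parameters. -/
def Dfn (L : FirstOrder.Language.{0, 0}) {A : Type w} [L.Structure A] {I : Type} (R : (I → A) → Prop) :
    Prop :=
  ∃ φ : L.Formula I, ∀ v, φ.Realize v ↔ R v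

theorem Dfn.congr {I : Type} {R S : (I → A) → Prop} (h : Dfn L R) (e : ∀ v, R v ↔ S v) :
    Dfn L S := by
  obtain ⟨φ, hφ⟩ := h
  exact ⟨φ, fun v => (hφ v).trans (e v)⟩

theorem Dfn.not {I : Type} {R : (I → A) → Prop} (h : Dfn L R) : Dfn L (fun v => ¬ R v) := by
  obtain ⟨φ, hφ⟩ := h
  exact ⟨φ.not, fun v => by simp [hφ]⟩

theorem Dfn.and {I : Type} {R S : (I → A) → Prop} (h : Dfn L R) (k : Dfn L S) :
    Dfn L (fun v => R v ∧ S v) := by
  obtain ⟨φ, hφ⟩ := h
  obtain ⟨ψ, hψ⟩ := k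
  exact ⟨φ ⊓ ψ, fun v => by simp [hφ, hψ]⟩

theorem Dfn.imp {I : Type} {R S : (I → A) → Prop} (h : Dfn L R) (k : Dfn L S) :
    Dfn L (fun v => R v → S v) := by
  obtain ⟨φ, hφ⟩ := h
  obtain ⟨ψ, hψ⟩ := k
  exact ⟨φ.imp ψ, fun v => by simp [hφ, hψ]⟩

theorem Dfn.iff {I : Type} {R S : (I → A) → Prop} (h : Dfn L R) (k : Dfn L S) :
    Dfn L (fun v => R v ↔ S v) :=
  ((h.imp k).and (k.imp h)).congr fun _ => by tauto

theorem Dfn.or {I : Type} {R S : (I → A) → Prop} (h : Dfn L R) (k : Dfn L S) :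
    Dfn L (fun v => R v ∨ S v) :=
  ((h.not).imp k).congr fun _ => by tauto

theorem Dfn.relabel {I K : Type} {R : (I → A) → Prop} (h : Dfn L R) (g : I → K) :
    Dfn L (fun v : K → A => R (v ∘ g)) := by
  obtain ⟨φ, hφ⟩ := h
  exact ⟨φ.relabel g, fun v => by rw [FirstOrder.Language.Formula.realize_relabel, hφ]⟩

theorem Dfn.exs {I K : Type} [Finite K] {R : (I ⊕ K → A) → Prop} (h : Dfn L R) :
    Dfn L (fun v : I → A => ∃ w : K → A, R (Sum.elim v w)) := by
  obtain ⟨φ, hφ⟩ := h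
  exact ⟨φ.iExs K, fun v => by simp [hφ]⟩

theorem Dfn.alls {I K : Type} [Finite K] {R : (I ⊕ K → A) → Prop} (h : Dfn L R) :
    Dfn L (fun v : I → A => ∀ w : K → A, R (Sum.elim v w)) :=
  (h.not.exs.not).congr fun v => by simp

/-- One existential quantifier over an element. -/
theorem Dfn.ex {I : Type} {R : (I → A) → A → Prop}
    (h : Dfn L (fun v : I ⊕ Unit → A => R (v ∘ Sum.inl) (v (Sum.inr ())))) :
    Dfn L (fun v : I → A => ∃ x : A, R v x) :=
  h.exs.congr fun v => by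
    constructor
    · rintro ⟨w, hw⟩
      exact ⟨w (), by simpa using hw⟩
    · rintro ⟨x, hx⟩
      exact ⟨fun _ => x, by simpa using hx⟩

theorem Dfn.all {I : Type} {R : (I → A) → A → Prop}
    (h : Dfn L (fun v : I ⊕ Unit → A => R (v ∘ Sum.inl) (v (Sum.inr ())))) :
    Dfn L (fun v : I → A => ∀ x : A, R v x) :=
  ((Dfn.ex (R := fun v x => ¬ R v x) h.not).not).congr fun v => by simp

theorem Dfn.eq {I : Type} (i j : I) : Dfn L (fun v : I → A => v i = v j) :=
  ⟨(FirstOrder.Language.Term.var i).equal (FirstOrder.Language.Term.var j), fun v => by simp⟩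

theorem Dfn.true {I : Type} : Dfn L (fun _ : I → A => True) :=
  ⟨⊤, fun v => by simp⟩

theorem Dfn.finAll {I K : Type} [Finite K] {R : K → (I → A) → Prop} (h : ∀ k, Dfn L (R k)) :
    Dfn L (fun v : I → A => ∀ k, R k v) := by
  choose φ hφ using h
  exact ⟨FirstOrder.Language.Formula.iInf φ, fun v => by simp [hφ]⟩

/-- A relation with one distinguished last variable. -/
def Dfn1 (L : FirstOrder.Language.{0, 0}) {A : Type w} [L.Structure A] {I : Type}
    (R : (I → A) → A → Prop) : Prop :=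
  Dfn L (fun v : I ⊕ Unit → A => R (v ∘ Sum.inl) (v (Sum.inr ())))

theorem Dfn1.relabel {I K : Type} {R : (I → A) → A → Prop} (h : Dfn1 L R) (g : I → K) :
    Dfn1 L (fun (v : K → A) x => R (v ∘ g) x) :=
  (Dfn.relabel h (Sum.map g id)).congr fun _ => Iff.rfl

/-- Substitute a variable for the distinguished one. -/
theorem Dfn1.at {I K : Type} {R : (I → A) → A → Prop} (h : Dfn1 L R) (g : I → K) (k : K) :
    Dfn L (fun v : K → A => R (v ∘ g) (v k)) :=
  (Dfn.relabel h (Sum.elim g fun _ => k)).congr fun _ => Iff.rfl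

/-- The element `x` is the one defined by `R` at the tuple `v`. -/
def IsDef {I : Type} (R : (I → A) → A → Prop) (v : I → A) (x : A) : Prop := ∀ y, R v y ↔ y = x

theorem Dfn1.isDef {I : Type} {R : (I → A) → A → Prop} (h : Dfn1 L R) : Dfn1 L (IsDef R) :=
  Dfn.all (R := fun (v : I ⊕ Unit → A) y => R (v ∘ Sum.inl) y ↔ y = v (Sum.inr ()))
    (((h.at (K := (I ⊕ Unit) ⊕ Unit) (fun i => Sum.inl (Sum.inl i)) (Sum.inr ())).iff
      (Dfn.eq (Sum.inr ()) (Sum.inl (Sum.inr ())))).congr fun _ => Iff.rfl)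

theorem IsDef.unique {I : Type} {R : (I → A) → A → Prop} {v : I → A} {x y : A}
    (h : IsDef R v x) (k : IsDef R v y) : x = y :=
  (k x).1 ((h x).2 rfl)

theorem IsDef.holds {I : Type} {R : (I → A) → A → Prop} {v : I → A} {x : A}
    (h : IsDef R v x) : R v x := (h x).2 rfl

end Pool.Agent.ZSharp
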