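import Pool.Agent.ZSharp.WO

/-!
# Deciding a name for a subset of a small ordinal
-/

set_option autoImplicit false
set_option linter.deprecated false

open FirstOrder Set Ordinal Cardinal

namespace Pool.Agent.ZSharp

universe u

/-- `q` is below some `t` with `(ξ, t) ∈ E`; the order is reverse inclusion on `P`. -/
def InN (P E : ZFSet.{u}) (ξ : Ordinal.{u}) (q : ZFSet.{u}) : Prop :=
  ∃ t, ZFSet.pair ξ.toZFSet t ∈ E ∧ t ∈ P ∧ t ⊆ q

/-- `q` decides `ξ ∈ Ė`. -/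
def Dec (P E : ZFSet.{u}) (ξ : Ordinal.{u}) (q : ZFSet.{u}) : Prop :=
  InN P E ξ q ∨ ∀ r ∈ P, q ⊆ r → ¬ InN P E ξ r

theorem Dec.mono {P E : ZFSet.{u}} {ξ : Ordinal.{u}} {q r : ZFSet.{u}} (h : Dec P E ξ q)
    (hqr : q ⊆ r) : Dec P E ξ r := by
  rcases h with ⟨t, h1, h2, h3⟩ | h
  · exact Or.inl ⟨t, h1, h2, fun _ hx => hqr (h3 hx)⟩
  · exact Or.inr fun s hs hrs => h s hs fun _ hx => hrs (hqr hx)

/-- `n` is the least extension of `w` deciding `ξ ∈ Ė`. -/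
def NxV (P E W : ZFSet.{u}) (ξ : Ordinal.{u}) (w n : ZFSet.{u}) : Prop :=
  n ∈ P ∧ w ⊆ n ∧ Dec P E ξ n ∧ ∀ n' ∈ P, w ⊆ n' → Dec P E ξ n' → n' ≠ n →
    ZFSet.pair n n' ∈ W

/-- The least extension of `w` deciding `ξ ∈ Ė`. -/
noncomputable def nx (P E W : ZFSet.{u}) (ξ : Ordinal.{u}) (w : ZFSet.{u}) : ZFSet.{u} := by
  classical
  exact if h : ∃ n, NxV P E W ξ w n then h.choose else ∅

/-- The sequence of extensions. -/
noncomputable def fq (P E W p : ZFSet.{u}) (ζ : Ordinal.{u}) : ZFSet.{u} :=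
  p ∪ ZFSet.iUnion (fun η : Set.Iio ζ => nx P E W η.1 (fq P E W p η.1))
termination_by ζ
decreasing_by exact η.2

theorem mem_fq {P E W p : ZFSet.{u}} {ζ : Ordinal.{u}} {t : ZFSet.{u}} :
    t ∈ fq P E W p ζ ↔ t ∈ p ∨ ∃ η < ζ, t ∈ nx P E W η (fq P E W p η) := by
  rw [fq, ZFSet.mem_union, ZFSet.mem_iUnion]
  refine or_congr Iff.rfl ?_
  constructor
  · rintro ⟨η, h⟩
    exact ⟨η.1, η.2, h⟩
  · rintro ⟨η, hη, h⟩
    exact ⟨⟨η, hη⟩, h⟩

section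

variable {θ : Ordinal.{u}}

/-- `InN` over `L_θ`. -/
def InD (P E e q : LA θ) : Prop :=
  ∃ t : LA θ, ZFSet.pair e.1 t.1 ∈ E.1 ∧ t.1 ∈ P.1 ∧ t.1 ⊆ q.1

instance InD.dp {I : Type} {P E : LA θ} {f g : (I → LA θ) → LA θ} [FT f] [FT g] :
    DP (fun v => InD P E (f v) (g v)) :=
  DP.sub2 (Q := InD P E) (by unfold InD; infer_instance) ‹_› ‹_›

/-- `Dec` over `L_θ`. -/
def DecD (P E e q : LA θ) : Prop :=
  InD P E e q ∨ ∀ r : LA θ, r.1 ∈ P.1 → q.1 ⊆ r.1 → ¬ InD P E e r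

instance DecD.dp {I : Type} {P E : LA θ} {f g : (I → LA θ) → LA θ} [FT f] [FT g] :
    DP (fun v => DecD P E (f v) (g v)) :=
  DP.sub2 (Q := DecD P E) (by unfold DecD; infer_instance) ‹_› ‹_›

/-- `NxV` over `L_θ`. -/
def NxD (P E W e w n : LA θ) : Prop :=
  n.1 ∈ P.1 ∧ w.1 ⊆ n.1 ∧ DecD P E e n ∧ ∀ n' : LA θ, n'.1 ∈ P.1 → w.1 ⊆ n'.1 →
    DecD P E e n' → ¬ n'.1 = n.1 → ZFSet.pair n.1 n'.1 ∈ W.1

instance NxD.dp {I : Type} {P E W : LA θ} {f g h : (I → LA θ) → LA θ} [FT f] [FT g] [FT h] :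
    DP (fun v => NxD P E W (f v) (g v) (h v)) :=
  DP.sub3 (Q := NxD P E W) (by unfold NxD; infer_instance) ‹_› ‹_› ‹_›

/-- The step of the recursion for `fq`. -/
def StD (P E W p h y : LA θ) : Prop :=
  ∀ t : LA θ, t.1 ∈ y.1 ↔ (t.1 ∈ p.1 ∨ ∃ e w n : LA θ, ZFSet.pair e.1 w.1 ∈ h.1 ∧
    NxD P E W e w n ∧ t.1 ∈ n.1)

theorem InD_iff {P E e q : LA θ} {ξ : Ordinal.{u}} (he : e.1 = ξ.toZFSet) :
    InD P E e q ↔ InN P.1 E.1 ξ q.1 := by
  constructor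
  · rintro ⟨t, h1, h2, h3⟩
    exact ⟨t.1, by rw [← he]; exact h1, h2, h3⟩
  · rintro ⟨t, h1, h2, h3⟩
    exact ⟨⟨t, Lset_trans P.2 h2⟩, by rw [he]; exact h1, h2, h3⟩

theorem DecD_iff {P E e q : LA θ} {ξ : Ordinal.{u}} (he : e.1 = ξ.toZFSet) :
    DecD P E e q ↔ Dec P.1 E.1 ξ q.1 := by
  refine or_congr (InD_iff he) ?_
  constructor
  · intro h r hr hqr hi
    exact h ⟨r, Lset_trans P.2 hr⟩ hr hqr ((InD_iff he).2 hi)
  · intro h r hr hqr hi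
    exact h r.1 hr hqr ((InD_iff he).1 hi)

theorem NxD_iff {P E W e w n : LA θ} {ξ : Ordinal.{u}} (he : e.1 = ξ.toZFSet) :
    NxD P E W e w n ↔ NxV P.1 E.1 W.1 ξ w.1 n.1 := by
  refine and_congr Iff.rfl (and_congr Iff.rfl (and_congr (DecD_iff he) ?_))
  constructor
  · intro h n' h1 h2 h3 h4
    exact h ⟨n', Lset_trans P.2 h1⟩ h1 h2 ((DecD_iff he).2 h3) h4
  · intro h n' h1 h2 h3 h4
    exact h n'.1 h1 h2 ((DecD_iff he).1 h3) h4

end

theorem exists_dec (h0 : ZeroSharp.{u}) {reg : Cardinal.{u}} {P E p : ZFSet.{u}}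
    (hP : Constructible P)
    (hPo : ∀ z ∈ P, ∀ t ∈ z, t.IsOrdinal) (hE : Constructible E)
    (hcl : ∀ ζ < reg.ord, ζ ≠ 0 → ∀ g : Ordinal.{u} → ZFSet.{u}, (∀ η < ζ, g η ∈ P) →
      (∀ η η', η ≤ η' → η' < ζ → g η ⊆ g η') → ∀ x, Constructible x →
      (∀ t, t ∈ x ↔ ∃ η < ζ, t ∈ g η) → x ∈ P)
    (hp : p ∈ P) {β : Ordinal.{u}} (hβ : β < reg.ord) :
    ∃ q ∈ P, p ⊆ q ∧ ∀ ξ < β, Dec P E ξ q := by
  classical
  obtain ⟨δ1, hδ1⟩ := id hP
  obtain ⟨δ2, hδ2⟩ := id hE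
  obtain ⟨W, ⟨δ3, hW⟩, hWa, hWl⟩ := exists_wo h0 δ1
  obtain ⟨κ1, hκ1β, hκ1⟩ := exists_Big (max δ1 (max δ2 δ3)) β.card
  have hP1 : P ∈ Lset κ1.ord := hκ1.mem (Lset_mono (le_max_left _ _) hδ1)
  have hE1 : E ∈ Lset κ1.ord := hκ1.mem (Lset_mono
    ((le_max_left _ _).trans (le_max_right _ _)) hδ2)
  have hW1 : W ∈ Lset κ1.ord := hκ1.mem (Lset_mono
    ((le_max_right _ _).trans (le_max_right _ _)) hW)
  have hβ1 : β < κ1.ord := Cardinal.lt_ord.2 hκ1β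
  -- the least extension
  have hnx0 : ∀ ξ, ∀ w ∈ P, ∃ n, NxV P E W ξ w n := by
    intro ξ w hw
    let Z : Set ZFSet.{u} := {n | n ∈ P ∧ w ⊆ n ∧ Dec P E ξ n}
    have hne : Z.Nonempty := by
      by_cases h : ∃ r ∈ P, w ⊆ r ∧ InN P E ξ r
      · obtain ⟨r, hr, hwr, hi⟩ := h
        exact ⟨r, hr, hwr, Or.inl hi⟩
      · refine ⟨w, hw, fun _ h => h, Or.inr fun r hr hwr hi => h ⟨r, hr, hwr, hi⟩⟩
    obtain ⟨z, hz, h1⟩ := hWl Z hne (fun z hz => Lset_trans hδ1 hz.1)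
      (fun z hz => hPo z hz.1)
    exact ⟨z, hz.1, hz.2.1, hz.2.2, fun n' a b c d => h1 n' ⟨a, b, c⟩ d⟩
  have hnx : ∀ ξ, ∀ w ∈ P, NxV P E W ξ w (nx P E W ξ w) := by
    intro ξ w hw
    have h := hnx0 ξ w hw
    rw [nx, dif_pos h]
    exact h.choose_spec
  have hnxu : ∀ ξ, ∀ w ∈ P, ∀ n, NxV P E W ξ w n → n = nx P E W ξ w := by
    intro ξ w hw n hn
    by_contra hne
    have h1 := hnx ξ w hw
    have h2 := hn.2.2.2 _ h1.1 h1.2.1 h1.2.2.1 (Ne.symm hne)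
    have h3 := h1.2.2.2 _ hn.1 hn.2.1 hn.2.2.1 hne
    exact hWa _ _ h2 h3
  have hval : ∀ ζ, ζ ≤ β → (∀ η < ζ, fq P E W p η ∈ P) → ∀ κ, Big κ1.ord κ →
      ∀ (PL EL WL pL h y : LA κ.ord), PL.1 = P → EL.1 = E → WL.1 = W → pL.1 = p →
      h.1 = gr (fq P E W p) ζ →
      (StD PL EL WL pL h y ↔ y.1 = fq P E W p ζ) := by
    intro ζ hζβ hζ κ hκ PL EL WL pL h y hPL hEL hWL hpL hh
    have key : ∀ t : ZFSet.{u}, (t ∈ pL.1 ∨ ∃ e w n : LA κ.ord,
        ZFSet.pair e.1 w.1 ∈ h.1 ∧ NxD PL EL WL e w n ∧ t ∈ n.1) ↔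
        t ∈ fq P E W p ζ := by
      intro t
      rw [mem_fq, hpL]
      refine or_congr Iff.rfl ?_
      constructor
      · rintro ⟨e, w, n, h1, h2, h3⟩
        rw [hh] at h1
        obtain ⟨η, hη, h4⟩ := mem_gr.1 h1
        obtain ⟨h5, h6⟩ := ZFSet.pair_injective h4
        rw [NxD_iff h5, hPL, hEL, hWL, h6] at h2
        refine ⟨η, hη, ?_⟩
        rw [← hnxu η _ (hζ η hη) n.1 h2]
        exact h3
      · rintro ⟨η, hη, h1⟩
        have h2 := hnx η _ (hζ η hη)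
        have hηκ : η < κ.ord := ((hη.trans_le hζβ).trans hβ1).trans hκ.lt
        have hPκ : ∀ x ∈ P, x ∈ Lset κ.ord := fun x hx => hκ.mem (Lset_trans hP1 hx)
        refine ⟨oL hηκ, ⟨_, hPκ _ (hζ η hη)⟩, ⟨_, hPκ _ h2.1⟩, ?_, ?_, h1⟩
        · rw [hh]
          exact pair_mem_gr.2 ⟨hη, rfl⟩
        · rw [NxD_iff (ξ := η) rfl, hPL, hEL, hWL]
          exact h2
    constructor
    · intro hst
      ext t
      constructor
      · intro ht
        exact (key t).1 ((hst ⟨t, Lset_trans y.2 ht⟩).1 ht)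
      · intro ht
        have h1 := (key t).2 ht
        have h2 : t ∈ Lset κ.ord := by
          rcases h1 with h1 | ⟨e, w, n, -, -, h1⟩
          · exact Lset_trans pL.2 h1
          · exact Lset_trans n.2 h1
        exact (hst ⟨t, h2⟩).2 h1
    · intro hy t
      rw [hy]
      exact (key t.1).symm
  have hSt : ∀ κ, Big κ1.ord κ → ∃ PL EL WL pL : LA κ.ord, PL.1 = P ∧ EL.1 = E ∧
      WL.1 = W ∧ pL.1 = p := fun κ hκ =>
    ⟨⟨P, hκ.mem hP1⟩, ⟨E, hκ.mem hE1⟩, ⟨W, hκ.mem hW1⟩, ⟨p, hκ.mem (Lset_trans hP1 hp)⟩,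
      rfl, rfl, rfl, rfl⟩
  have main : ∀ ζ ≤ β, fq P E W p ζ ∈ P := by
    intro ζ
    induction ζ using WellFoundedLT.induction with
    | ind ζ ih =>
    intro hζβ
    have hζ : ∀ η < ζ, fq P E W p η ∈ P := fun η hη => ih η hη (hη.le.trans hζβ)
    by_cases hζ0 : ζ = 0
    · have h1 : fq P E W p ζ = p := by
        ext t
        rw [mem_fq, hζ0]
        constructor
        · rintro (h | ⟨η, hη, -⟩)
          · exact h
          · exact absurd hη (not_lt.2 zero_le)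
        · exact Or.inl
      rw [h1]
      exact hp
    have hgr : Constructible (gr (fq P E W p) ζ) := by
      refine rec_constr (γ := κ1.ord) hκ1.lim (hζβ.trans hβ1.le) (f := fq P E W p)
        (fun η hη => Lset_trans hP1 (hζ η hη))
        (fun κ => fun _ h y => ∃ PL EL WL pL : LA κ.ord, (PL.1 = P ∧ EL.1 = E ∧ WL.1 = W ∧
          pL.1 = p) ∧ StD PL EL WL pL h y) ?_ ?_ ζ le_rfl
      · intro κ hκ
        obtain ⟨PL, EL, WL, pL, h1, h2, h3, h4⟩ := hSt κ hκ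
        refine DP.congr (R := fun v : Fin 3 → LA κ.ord => StD PL EL WL pL (v 1) (v 2)) ?_ ?_
        · unfold StD
          infer_instance
        · intro v
          constructor
          · intro h
            exact ⟨PL, EL, WL, pL, ⟨h1, h2, h3, h4⟩, h⟩
          · rintro ⟨PL', EL', WL', pL', ⟨k1, k2, k3, k4⟩, h⟩
            have e1 : PL' = PL := Subtype.ext (k1.trans h1.symm)
            have e2 : EL' = EL := Subtype.ext (k2.trans h2.symm)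
            have e3 : WL' = WL := Subtype.ext (k3.trans h3.symm)
            have e4 : pL' = pL := Subtype.ext (k4.trans h4.symm)
            rw [← e1, ← e2, ← e3, ← e4]
            exact h
      · intro κ hκ η hη z h y _ hh
        constructor
        · rintro ⟨PL, EL, WL, pL, ⟨h1, h2, h3, h4⟩, hst⟩
          exact (hval η (hη.le.trans hζβ) (fun ξ hξ => hζ ξ (hξ.trans hη)) κ hκ PL EL WL pL
            h y h1 h2 h3 h4 hh).1 hst
        · intro hy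
          obtain ⟨PL, EL, WL, pL, h1, h2, h3, h4⟩ := hSt κ hκ
          exact ⟨PL, EL, WL, pL, ⟨h1, h2, h3, h4⟩,
            (hval η (hη.le.trans hζβ) (fun ξ hξ => hζ ξ (hξ.trans hη)) κ hκ PL EL WL pL
            h y h1 h2 h3 h4 hh).2 hy⟩
    -- `f ζ` is constructible
    have hfc : Constructible (fq P E W p ζ) := by
      obtain ⟨δ, hδ⟩ := hgr
      obtain ⟨κ, -, hκ⟩ := exists_Big (max δ κ1.ord) 0
      have hκ' : Big κ1.ord κ := hκ.of_le (le_max_right _ _)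
      obtain ⟨PL, EL, WL, pL, h1, h2, h3, h4⟩ := hSt κ hκ'
      let h : LA κ.ord := ⟨_, hκ.mem (Lset_mono (le_max_left _ _) hδ)⟩
      let Q : LA κ.ord → Prop := fun t => (t.1 ∈ pL.1 ∨ ∃ e w n : LA κ.ord,
        ZFSet.pair e.1 w.1 ∈ h.1 ∧ NxD PL EL WL e w n ∧ t.1 ∈ n.1)
      have hQ : sepL Q ∈ Lset (κ.ord + 1) := sepL_mem inferInstance
      obtain ⟨κ', -, hκ2⟩ := exists_Big (κ.ord + 1) 0
      -- use the step relation in `L_κ'`
      have hκ3 : Big κ1.ord κ' := hκ2.of_le (hκ'.lt.le.trans (lt_add_one _).le)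
      have h5 : sepL Q = fq P E W p ζ := by
        ext t
        rw [mem_sepL, mem_fq, ← h4]
        constructor
        · rintro ⟨_, h6 | ⟨e, w, n, h6, h7, h8⟩⟩
          · exact Or.inl h6
          · obtain ⟨η, hη, h9⟩ := mem_gr.1 h6
            obtain ⟨h10, h11⟩ := ZFSet.pair_injective h9
            rw [NxD_iff h10, h1, h2, h3, h11] at h7
            right
            refine ⟨η, hη, ?_⟩
            rw [h4, ← hnxu η _ (hζ η hη) n.1 h7]
            exact h8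
        · rintro (h6 | ⟨η, hη, h6⟩)
          · exact ⟨Lset_trans pL.2 h6, Or.inl h6⟩
          · rw [h4] at h6
            have h7 := hnx η _ (hζ η hη)
            have hηκ : η < κ.ord := ((hη.trans_le hζβ).trans hβ1).trans hκ'.lt
            have hPκ : ∀ x ∈ P, x ∈ Lset κ.ord := fun x hx => hκ'.mem (Lset_trans hP1 hx)
            refine ⟨Lset_trans (hPκ _ h7.1) h6, Or.inr ⟨oL hηκ, ⟨_, hPκ _ (hζ η hη)⟩,
              ⟨_, hPκ _ h7.1⟩, pair_mem_gr.2 ⟨hη, rfl⟩, ?_, h6⟩⟩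
            rw [NxD_iff (ξ := η) rfl, h1, h2, h3]
            exact h7
      rw [← h5]
      exact ⟨_, hQ⟩
    refine hcl ζ (hζβ.trans_lt hβ) hζ0 (fun η => nx P E W η (fq P E W p η)) ?_ ?_ _ hfc ?_
    · intro η hη
      exact (hnx η _ (hζ η hη)).1
    · intro η η' hηη' hη'
      rcases hηη'.lt_or_eq with h | rfl
      · intro t ht
        exact (hnx η' _ (hζ η' hη')).2.1 (mem_fq.2 (Or.inr ⟨η, h, ht⟩))
      · exact fun _ h => h
    · intro t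
      rw [mem_fq]
      constructor
      · rintro (h | h)
        · have h00 : (0 : Ordinal.{u}) < ζ := pos_iff_ne_zero.2 hζ0
          exact ⟨0, h00, (hnx 0 _ (hζ 0 h00)).2.1 (mem_fq.2 (Or.inl h))⟩
        · exact h
      · exact Or.inr
  refine ⟨fq P E W p β, main β le_rfl, fun t ht => mem_fq.2 (Or.inl ht), fun ξ hξ => ?_⟩
  exact (hnx ξ _ (main ξ hξ.le)).2.2.1.mono fun t ht => mem_fq.2 (Or.inr ⟨ξ, hξ, ht⟩)

end Pool.Agent.ZSharp
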