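import Pool.Agent.ZSharp.Dist

/-!
# Increasing enumerations of constructible sets of ordinals
-/

set_option autoImplicit false
set_option linter.deprecated false

open FirstOrder Set Ordinal Cardinal

namespace Pool.Agent.ZSharp

universe u

/-- The set of ordinals in `z`, and the ordinals above `lam`. -/
def enS (lam : Ordinal.{u}) (z : ZFSet.{u}) : Set Ordinal.{u} :=
  {α | α.toZFSet ∈ z} ∪ Set.Ici lam

/-- The increasing enumeration of `z`. -/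
noncomputable def en (lam : Ordinal.{u}) (z : ZFSet.{u}) (ζ : Ordinal.{u}) : ZFSet.{u} :=
  (enumOrd (enS lam z) ζ).toZFSet

theorem enS_not_bdd (lam : Ordinal.{u}) (z : ZFSet.{u}) : ¬ BddAbove (enS lam z) := by
  rintro ⟨b, hb⟩
  have h1 : max lam b + 1 ∈ enS lam z := Or.inr (Set.mem_Ici.2
    ((le_max_left _ _).trans (lt_add_one _).le))
  exact absurd (hb h1) (not_le.2 ((le_max_right _ _).trans_lt (lt_add_one _)))

theorem exists_en_stage (lam : Ordinal.{u}) (z : ZFSet.{u}) : ∃ δ ≤ lam,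
    enumOrd (enS lam z) δ = lam ∧
    (∀ ζ < δ, (enumOrd (enS lam z) ζ).toZFSet ∈ z ∧ enumOrd (enS lam z) ζ < lam) := by
  have hb := enS_not_bdd lam z
  obtain ⟨δ, hδ⟩ := enumOrd_surjective hb (show lam ∈ enS lam z from
    Or.inr (Set.mem_Ici.2 le_rfl))
  refine ⟨δ, ?_, hδ, fun ζ hζ => ?_⟩
  · have h1 := le_enumOrd_self hb (a := δ)
    rwa [hδ] at h1
  · have h1 : enumOrd (enS lam z) ζ < lam := (enumOrd_strictMono hb hζ).trans_eq hδ
    rcases enumOrd_mem hb ζ with h | h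
    · exact ⟨h, h1⟩
    · exact absurd h1 (not_lt.2 h)

section

variable {θ : Ordinal.{u}}

/-- `h` is an order isomorphism from `i` onto `z ∩ a`. -/
def OI (h i z a : LA θ) : Prop :=
  (∀ e t : LA θ, ZFSet.pair e.1 t.1 ∈ h.1 → e.1 ∈ i.1 → t.1 ∈ z.1 ∧ t.1 ∈ a.1) ∧
  (∀ e : LA θ, e.1 ∈ i.1 → ∃ t : LA θ, ZFSet.pair e.1 t.1 ∈ h.1) ∧
  (∀ t : LA θ, t.1 ∈ z.1 → t.1 ∈ a.1 → ∃ e : LA θ, e.1 ∈ i.1 ∧ ZFSet.pair e.1 t.1 ∈ h.1) ∧
  (∀ e t e' t' : LA θ, ZFSet.pair e.1 t.1 ∈ h.1 → ZFSet.pair e'.1 t'.1 ∈ h.1 →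
    e.1 ∈ i.1 → e'.1 ∈ i.1 → (e.1 ∈ e'.1 ↔ t.1 ∈ t'.1))

instance OI.dp {I : Type} {f g h k : (I → LA θ) → LA θ} [FT f] [FT g] [FT h] [FT k] :
    DP (fun v => OI (f v) (g v) (h v) (k v)) :=
  DP.sub4 (Q := OI) (by unfold OI; infer_instance) ‹_› ‹_› ‹_› ‹_›

/-- The step of the enumeration. -/
def EnD (z h y : LA θ) : Prop :=
  y.1 ∈ z.1 ∧ (∀ e w : LA θ, ZFSet.pair e.1 w.1 ∈ h.1 → w.1 ∈ y.1) ∧
    ∀ y' : LA θ, y'.1 ∈ z.1 → (∀ e w : LA θ, ZFSet.pair e.1 w.1 ∈ h.1 → w.1 ∈ y'.1) →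
      (y.1 ∈ y'.1 ∨ y.1 = y'.1)

theorem OI.agree {h h' i z a a' : LA θ} {ι : Ordinal.{u}} (hi : i.1 = ι.toZFSet)
    (hz : ∀ t ∈ z.1, t.IsOrdinal) (h1 : OI h i z a) (h2 : OI h' i z a')
    {α α' : Ordinal.{u}} (ha : a.1 = α.toZFSet) (ha' : a'.1 = α'.toZFSet) :
    ∀ η < ι, ∀ t t' : LA θ, ZFSet.pair η.toZFSet t.1 ∈ h.1 →
      ZFSet.pair η.toZFSet t'.1 ∈ h'.1 → t.1 = t'.1 := by
  have aux : ∀ {h h' a a' : LA θ} {α α' : Ordinal.{u}}, OI h i z a → OI h' i z a' →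
      a.1 = α.toZFSet → a'.1 = α'.toZFSet → ∀ η < ι, (∀ η' < η, ∀ t t' : LA θ,
      ZFSet.pair η'.toZFSet t.1 ∈ h.1 → ZFSet.pair η'.toZFSet t'.1 ∈ h'.1 → t.1 = t'.1) →
      ∀ t t' : LA θ, ZFSet.pair η.toZFSet t.1 ∈ h.1 →
      ZFSet.pair η.toZFSet t'.1 ∈ h'.1 → ¬ t.1 ∈ t'.1 := by
    intro h h' a a' α α' h1 h2 ha ha' η hη ih t t' ht ht' hlt
    have hηi : η.toZFSet ∈ i.1 := by
      rw [hi]
      exact Ordinal.toZFSet_mem_toZFSet_iff.2 hη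
    let e : LA θ := ⟨η.toZFSet, Lset_trans i.2 hηi⟩
    have k1 := h1.1 e t ht hηi
    have k2 := h2.1 e t' ht' hηi
    have k3 : t.1 ∈ a'.1 := by
      rw [ha'] at k2 ⊢
      exact (ZFSet.isOrdinal_toZFSet α').mem_trans hlt k2.2
    obtain ⟨e1, he1, hp1⟩ := h2.2.2.1 t k1.1 k3
    have k4 : e1.1 ∈ e.1 := (h2.2.2.2 e1 t e t' hp1 ht' he1 hηi).2 hlt
    obtain ⟨η1, hη1, k5⟩ := Ordinal.mem_toZFSet_iff.1 k4
    obtain ⟨t1, ht1⟩ := h1.2.1 e1 he1
    have k6 : t1.1 = t.1 := ih η1 hη1 t1 t (by rw [k5]; exact ht1) (by rw [k5]; exact hp1)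
    have k7 := (h1.2.2.2 e1 t1 e t ht1 ht he1 hηi).1 k4
    rw [k6] at k7
    exact ZFSet.mem_irrefl _ k7
  intro η
  induction η using WellFoundedLT.induction with
  | ind η ih =>
  intro hη t t' ht ht'
  have hηi : η.toZFSet ∈ i.1 := by
    rw [hi]
    exact Ordinal.toZFSet_mem_toZFSet_iff.2 hη
  let e : LA θ := ⟨η.toZFSet, Lset_trans i.2 hηi⟩
  have n1 := aux h1 h2 ha ha' η hη (fun η' hη' => ih η' hη' (hη'.trans hη)) t t' ht ht'
  have n2 := aux h2 h1 ha' ha η hη (fun η' hη' t t' p q =>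
    (ih η' hη' (hη'.trans hη) t' t q p).symm) t' t ht' ht
  have o1 := hz _ (h1.1 e t ht hηi).1
  have o2 := hz _ (h2.1 e t' ht' hηi).1
  rw [← o1.toZFSet_rank_eq, ← o2.toZFSet_rank_eq] at n1 n2 ⊢
  rw [Ordinal.toZFSet_mem_toZFSet_iff] at n1 n2
  rw [le_antisymm (not_lt.1 n2) (not_lt.1 n1)]

theorem OI.unique {h h' i z a a' : LA θ} {ι : Ordinal.{u}} (hi : i.1 = ι.toZFSet)
    (hz : ∀ t ∈ z.1, t.IsOrdinal) (h1 : OI h i z a) (h2 : OI h' i z a')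
    (ha : a.1 ∈ z.1) (ha' : a'.1 ∈ z.1) : a.1 = a'.1 := by
  have aux : ∀ {h h' a a' : LA θ}, OI h i z a → OI h' i z a' → a.1 ∈ z.1 → a'.1 ∈ z.1 →
      ¬ a.1 ∈ a'.1 := by
    intro h h' a a' h1 h2 ha ha' hlt
    have o1 := (hz _ ha).toZFSet_rank_eq.symm
    have o2 := (hz _ ha').toZFSet_rank_eq.symm
    obtain ⟨e, he, hp⟩ := h2.2.2.1 a ha hlt
    obtain ⟨t, ht⟩ := h1.2.1 e he
    have he' := he
    rw [hi] at he'
    obtain ⟨η, hη, k5⟩ := Ordinal.mem_toZFSet_iff.1 he'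
    have k6 := OI.agree hi hz h1 h2 o1 o2 η hη t a (by rw [k5]; exact ht)
      (by rw [k5]; exact hp)
    have k7 := (h1.1 e t ht he).2
    rw [k6] at k7
    exact ZFSet.mem_irrefl _ k7
  have n1 := aux h1 h2 ha ha'
  have n2 := aux h2 h1 ha' ha
  rw [← (hz _ ha).toZFSet_rank_eq, ← (hz _ ha').toZFSet_rank_eq] at n1 n2 ⊢
  rw [Ordinal.toZFSet_mem_toZFSet_iff] at n1 n2
  rw [le_antisymm (not_lt.1 n2) (not_lt.1 n1)]

/-- A set with an order isomorphism from a small ordinal is small. -/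
theorem OI.card_lt {h i z a : LA θ} {ι : Ordinal.{u}} (hi : i.1 = ι.toZFSet)
    {reg : Cardinal.{u}} (hι : ι < reg.ord) (hz : ∀ t ∈ z.1, t.IsOrdinal) (hza : ∀ t ∈ z.1, t ∈ a.1)
    (h1 : OI h i z a) : z.1.card < reg := by
  have key : ∀ t : {t // t ∈ z.1}, ∃ η : Set.Iio ι, ZFSet.pair η.1.toZFSet t.1 ∈ h.1 := by
    intro t
    obtain ⟨e, he, hp⟩ := h1.2.2.1 ⟨t.1, Lset_trans z.2 t.2⟩ t.2 (hza _ t.2)
    rw [hi] at he
    obtain ⟨η, hη, k5⟩ := Ordinal.mem_toZFSet_iff.1 he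
    exact ⟨⟨η, hη⟩, by rw [k5]; exact hp⟩
  choose f hf using key
  have hinj : Function.Injective f := by
    intro t t' htt
    have p1 := hf t
    have p2 := hf t'
    rw [← htt] at p2
    have hηi : (f t).1.toZFSet ∈ i.1 := by
      rw [hi]
      exact Ordinal.toZFSet_mem_toZFSet_iff.2 (f t).2
    let e : LA θ := ⟨_, Lset_trans i.2 hηi⟩
    let T : LA θ := ⟨t.1, Lset_trans z.2 t.2⟩
    let T' : LA θ := ⟨t'.1, Lset_trans z.2 t'.2⟩
    have n1 := (h1.2.2.2 e T e T' p1 p2 hηi hηi).not.1 (ZFSet.mem_irrefl _)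
    have n2 := (h1.2.2.2 e T' e T p2 p1 hηi hηi).not.1 (ZFSet.mem_irrefl _)
    have o1 := (hz _ t.2).toZFSet_rank_eq
    have o2 := (hz _ t'.2).toZFSet_rank_eq
    refine Subtype.ext ?_
    change ¬ t.1 ∈ t'.1 at n1
    change ¬ t'.1 ∈ t.1 at n2
    rw [← o1, ← o2] at n1 n2 ⊢
    rw [Ordinal.toZFSet_mem_toZFSet_iff] at n1 n2
    rw [le_antisymm (not_lt.1 n2) (not_lt.1 n1)]
  have h2 := mk_le_of_injective hinj
  rw [ZFSet.cardinalMk_coe_sort, Cardinal.mk_Iio_ordinal, Cardinal.lift_le] at h2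
  exact h2.trans_lt (Cardinal.lt_ord.1 hι)

end

theorem en_constr {lam : Ordinal.{u}} {z : ZFSet.{u}} (hz : z ⊆ lam.toZFSet)
    (hzc : Constructible z) {δ : Ordinal.{u}} (hδl : δ ≤ lam)
    (hδ : ∀ ζ < δ, (enumOrd (enS lam z) ζ).toZFSet ∈ z ∧ enumOrd (enS lam z) ζ < lam) :
    ∀ ζ ≤ δ, Constructible (gr (en lam z) ζ) := by
  obtain ⟨δ1, hδ1⟩ := hzc
  obtain ⟨κ1, -, hκ1⟩ := exists_Big (max δ1 lam) 0
  have hz1 : z ∈ Lset κ1.ord := hκ1.mem (Lset_mono (le_max_left _ _) hδ1)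
  have hl1 : lam < κ1.ord := (le_max_right _ _).trans_lt hκ1.lt
  have hb := enS_not_bdd lam z
  refine rec_constr (γ := κ1.ord) hκ1.lim (hδl.trans hl1.le) (f := en lam z)
    (fun ζ hζ => Lset_trans hz1 (hδ ζ hζ).1)
    (fun κ => fun _ h y => ∃ zL : LA κ.ord, zL.1 = z ∧ EnD zL h y) ?_ ?_
  · intro κ hκ
    let zL : LA κ.ord := ⟨z, hκ.mem hz1⟩
    refine DP.congr (R := fun v : Fin 3 → LA κ.ord => EnD zL (v 1) (v 2)) ?_ ?_
    · unfold EnD
      infer_instance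
    · intro v
      constructor
      · intro h
        exact ⟨zL, rfl, h⟩
      · rintro ⟨zL', hz', h⟩
        have : zL' = zL := Subtype.ext hz'
        rwa [← this]
  · intro κ hκ ζ hζ _ h y _ hh
    let zL : LA κ.ord := ⟨z, hκ.mem hz1⟩
    have hlκ : lam < κ.ord := hl1.trans hκ.lt
    have hζδ := hδ ζ hζ
    have habove : ∀ α : Ordinal.{u}, (∀ e w : LA κ.ord, ZFSet.pair e.1 w.1 ∈ h.1 →
        w.1 ∈ α.toZFSet) ↔ ∀ η < ζ, enumOrd (enS lam z) η < α := by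
      intro α
      constructor
      · intro h1 η hη
        have hηκ : η < κ.ord := ((hη.trans hζ).trans_le hδl).trans hlκ
        have h2 := h1 (oL hηκ) (oL ((hδ η (hη.trans hζ)).2.trans hlκ)) (by
          rw [hh]
          exact pair_mem_gr.2 ⟨hη, rfl⟩)
        exact Ordinal.toZFSet_mem_toZFSet_iff.1 h2
      · intro h1 e w hew
        rw [hh] at hew
        obtain ⟨η, hη, h2⟩ := mem_gr.1 hew
        rw [(ZFSet.pair_injective h2).2]
        exact Ordinal.toZFSet_mem_toZFSet_iff.2 (h1 η hη)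
    have hstep : EnD zL h y ↔ y.1 = en lam z ζ := by
      constructor
      · rintro ⟨h1, h2, h3⟩
        obtain ⟨α, hα, hy⟩ := Ordinal.mem_toZFSet_iff.1 (hz h1)
        rw [← hy] at h1 h2
        have h4 : enumOrd (enS lam z) ζ ≤ α :=
          enumOrd_le_of_forall_lt (Or.inl h1) ((habove α).1 h2)
        have h5 := h3 (oL (hζδ.2.trans hlκ)) hζδ.1 ((habove _).2 fun η hη =>
          enumOrd_strictMono hb hη)
        rw [← hy] at h5 ⊢
        rcases h5 with h5 | h5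
        · exact absurd (Ordinal.toZFSet_mem_toZFSet_iff.1 h5) (not_lt.2 h4)
        · exact h5
      · intro hy
        refine ⟨by rw [hy]; exact hζδ.1, by
          rw [hy]; exact (habove _).2 fun η hη => enumOrd_strictMono hb hη,
          fun y' h1 h2 => ?_⟩
        obtain ⟨α, hα, hy'⟩ := Ordinal.mem_toZFSet_iff.1 (hz h1)
        rw [← hy'] at h1 h2
        have h4 : enumOrd (enS lam z) ζ ≤ α :=
          enumOrd_le_of_forall_lt (Or.inl h1) ((habove α).1 h2)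
        rw [hy, ← hy', en]
        rcases h4.lt_or_eq with h5 | h5
        · left
          exact Ordinal.toZFSet_mem_toZFSet_iff.2 h5
        · right
          rw [h5]
    constructor
    · rintro ⟨zL', hz', h1⟩
      have : zL' = zL := Subtype.ext hz'
      rw [this] at h1
      exact hstep.1 h1
    · intro hy
      exact ⟨zL, rfl, hstep.2 hy⟩

theorem OI_gr {lam : Ordinal.{u}} {z : ZFSet.{u}} (hz : z ⊆ lam.toZFSet)
    {δ : Ordinal.{u}} (hδl : δ ≤ lam)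
    (hδ : ∀ ζ < δ, (enumOrd (enS lam z) ζ).toZFSet ∈ z ∧ enumOrd (enS lam z) ζ < lam)
    {θ : Ordinal.{u}} (hlθ : lam < θ) {i : Ordinal.{u}} (hi : i ≤ δ)
    {hL iL zL aL : LA θ} (hh : hL.1 = gr (en lam z) i) (hiL : iL.1 = i.toZFSet)
    (hzL : zL.1 = z) (haL : aL.1 = (enumOrd (enS lam z) i).toZFSet) : OI hL iL zL aL := by
  have hb := enS_not_bdd lam z
  refine ⟨?_, ?_, ?_, ?_⟩
  · intro e t het he
    rw [hh] at het
    obtain ⟨η, hη, h2⟩ := mem_gr.1 het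
    rw [(ZFSet.pair_injective h2).2, hzL, haL]
    exact ⟨(hδ η (hη.trans_le hi)).1,
      Ordinal.toZFSet_mem_toZFSet_iff.2 (enumOrd_strictMono hb hη)⟩
  · intro e he
    rw [hiL] at he
    obtain ⟨η, hη, h2⟩ := Ordinal.mem_toZFSet_iff.1 he
    refine ⟨oL ((hδ η (hη.trans_le hi)).2.trans hlθ), ?_⟩
    rw [hh, ← h2]
    exact pair_mem_gr.2 ⟨hη, rfl⟩
  · intro t ht hta
    rw [hzL] at ht
    obtain ⟨α, hα, h2⟩ := Ordinal.mem_toZFSet_iff.1 (hz ht)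
    rw [← h2] at ht hta
    rw [haL, Ordinal.toZFSet_mem_toZFSet_iff] at hta
    obtain ⟨η, hη⟩ := enumOrd_surjective hb (show α ∈ enS lam z from Or.inl ht)
    have hηi : η < i := by
      rw [← hη] at hta
      exact (enumOrd_lt_enumOrd hb).1 hta
    refine ⟨oL (((hηi.trans_le hi).trans_le hδl).trans hlθ), ?_, ?_⟩
    · rw [hiL]
      exact Ordinal.toZFSet_mem_toZFSet_iff.2 hηi
    · rw [hh, ← h2]
      refine pair_mem_gr.2 ⟨hηi, ?_⟩
      rw [en, hη]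
  · intro e t e' t' h1 h2 he he'
    rw [hh] at h1 h2
    obtain ⟨η, hη, h1⟩ := mem_gr.1 h1
    obtain ⟨η', hη', h2⟩ := mem_gr.1 h2
    rw [(ZFSet.pair_injective h1).1, (ZFSet.pair_injective h1).2,
      (ZFSet.pair_injective h2).1, (ZFSet.pair_injective h2).2, en, en,
      Ordinal.toZFSet_mem_toZFSet_iff, Ordinal.toZFSet_mem_toZFSet_iff,
      enumOrd_lt_enumOrd hb]

/-- The enumeration of a small set is of small length. -/
theorem en_stage_lt {reg : Cardinal.{u}} {lam : Ordinal.{u}} {z : ZFSet.{u}}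
    (hzc : z.card < reg)
    {δ : Ordinal.{u}}
    (hδ : ∀ ζ < δ, (enumOrd (enS lam z) ζ).toZFSet ∈ z ∧ enumOrd (enS lam z) ζ < lam) :
    δ < reg.ord := by
  have hb := enS_not_bdd lam z
  have h1 : #(Set.Iio δ) ≤ #{t // t ∈ z} := by
    refine mk_le_of_injective (f := fun ζ : Set.Iio δ =>
      (⟨(enumOrd (enS lam z) ζ.1).toZFSet, (hδ ζ.1 ζ.2).1⟩ : {t // t ∈ z}))
      fun a b hab => ?_
    have h2 := Ordinal.toZFSet_injective (congrArg Subtype.val hab)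
    exact Subtype.ext (enumOrd_injective hb h2)
  rw [ZFSet.cardinalMk_coe_sort, Cardinal.mk_Iio_ordinal, Cardinal.lift_le] at h1
  rw [Cardinal.lt_ord]
  exact h1.trans_lt hzc

end Pool.Agent.ZSharp
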