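import Pool.Agent.ZSharp.Names

/-!
# The forcing relation for formulas, elementary submodels, hereditarily small sets
-/

set_option autoImplicit false

open Set Cardinal FirstOrder

namespace Pool.Agent.ZSharp

universe u

variable {C : Type (u + 1)}

/-- Regular truth values. -/
structure RegVal (le : C → C → Prop) (A : C → Prop) : Prop where
  mono : ∀ p q, le q p → A p → A q
  loc : ∀ p, (∀ q, le q p → ∃ r, le r q ∧ A r) → A p

/-- A class of `V[G]`. -/
structure RegCls (le : C → C → Prop) (D : PName C → C → Prop) : Prop where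
  reg : ∀ x, RegVal le (D x)
  congr : ∀ x x' p, FEq le x x' p → D x p → D x' p

variable {le : C → C → Prop}

theorem RegVal.not_iff (h : IsPre le) {A : C → Prop} (hA : RegVal le A) {p : C}
    (hp : ¬ A p) : ∃ q, le q p ∧ ∀ r, le r q → ¬ A r := by
  by_contra hcon
  push Not at hcon
  exact hp (hA.loc p fun q hq => hcon q hq)

theorem RegCls.mem (h : IsPre le) (N : PName C) : RegCls le (fun x => FMem le x N) :=
  ⟨fun _ => ⟨fun _ _ hq hp => hp.mono h hq, fun _ hp => FMem.loc h hp⟩,
    fun _ _ _ hx hp => hp.congr_left h hx⟩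

theorem interp_reg [Small.{u} C] (h : IsPre le) (W : VGRel le) (Q : ZFSet.{u} → Prop) {n : ℕ}
    (R : LStar.Relations n) (v : Fin n → PName C) : RegVal le (interp W Q R v) := by
  cases R with
  | mem => exact ⟨fun _ _ hq hp => FMem.mono h hq hp, fun _ hp => FMem.loc h hp⟩
  | lt => exact ⟨fun _ _ hq hp => W.mono _ _ _ _ hq hp, fun _ hp => W.loc _ _ _ hp⟩
  | gnd =>
    refine ⟨fun p q hq hp r hr => hp r (h.trans _ _ _ hr hq), fun p hp q hq => ?_⟩
    obtain ⟨r, hr, h1⟩ := hp q hq
    obtain ⟨r', hr', h2⟩ := h1 r (h.refl r)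
    exact ⟨r', h.trans _ _ _ hr' hr, h2⟩

theorem interp_congr [Small.{u} C] (h : IsPre le) (W : VGRel le) (Q : ZFSet.{u} → Prop)
    {n : ℕ} (R : LStar.Relations n) {v v' : Fin n → PName C} {p : C}
    (hv : ∀ i, FEq le (v i) (v' i) p) (hp : interp W Q R v p) : interp W Q R v' p := by
  cases R with
  | mem => exact (FMem.congr_left h (hv 0) hp).congr_right h (hv 1)
  | lt => exact W.congr _ _ _ _ _ (hv 0) (hv 1) hp
  | gnd =>
    intro q hq
    obtain ⟨r, hr, y, hy, h1⟩ := hp q hq
    exact ⟨r, hr, y, hy, ((hv 0).symm.mono h (h.trans _ _ _ hr hq)).trans h h1⟩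

theorem tval_congr (h : IsPre le) {n : ℕ} {v v' : Fin n → PName C} {p : C}
    (hv : ∀ i, FEq le (v i) (v' i) p) : ∀ t, FEq le (tval v t) (tval v' t) p
  | .var (Sum.inl e) => e.elim
  | .var (Sum.inr i) => hv i
  | .func f _ => Empty.elim f

theorem force_reg [Small.{u} C] (h : IsPre le) (W : VGRel le) (Q : ZFSet.{u} → Prop)
    {D : PName C → C → Prop} (hD : RegCls le D) {n : ℕ}
    (φ : LStar.BoundedFormula Empty n) : ∀ v, RegVal le (Force W Q D φ v) := by
  induction φ with
  | falsum =>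
    intro v
    refine ⟨fun _ _ _ hp => hp, fun p hp => ?_⟩
    obtain ⟨r, -, h1⟩ := hp p (h.refl p)
    exact h1
  | equal t₁ t₂ =>
    intro v
    exact ⟨fun _ _ hq hp => FEq.mono h hq hp, fun _ hp => FEq.loc h hp⟩
  | rel R ts =>
    intro v
    exact interp_reg h W Q R _
  | imp φ ψ ih1 ih2 =>
    intro v
    refine ⟨fun p q hq hp r hr => hp r (h.trans _ _ _ hr hq), fun p hp q hq hq' => ?_⟩
    refine (ih2 v).loc q fun r hr => ?_
    obtain ⟨r', hr', h1⟩ := hp r (h.trans _ _ _ hr hq)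
    exact ⟨r', hr', h1 r' (h.refl r') ((ih1 v).mono _ _ (h.trans _ _ _ hr' hr) hq')⟩
  | all φ ih =>
    intro v
    refine ⟨fun p q hq hp x r hr => hp x r (h.trans _ _ _ hr hq), fun p hp x q hq hx => ?_⟩
    refine (ih _).loc q fun r hr => ?_
    obtain ⟨r', hr', h1⟩ := hp r (h.trans _ _ _ hr hq)
    exact ⟨r', hr', h1 x r' (h.refl r') ((hD.reg x).mono _ _ (h.trans _ _ _ hr' hr) hx)⟩

theorem force_congr [Small.{u} C] (h : IsPre le) (W : VGRel le) (Q : ZFSet.{u} → Prop)
    {D : PName C → C → Prop} {n : ℕ} (φ : LStar.BoundedFormula Empty n) :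
    ∀ (v v' : Fin n → PName C) (p : C), (∀ i, FEq le (v i) (v' i) p) →
      Force W Q D φ v p → Force W Q D φ v' p := by
  induction φ with
  | falsum => exact fun _ _ _ _ hp => hp
  | equal t₁ t₂ =>
    intro v v' p hv hp
    exact ((tval_congr h hv t₁).symm.trans h hp).trans h (tval_congr h hv t₂)
  | rel R ts =>
    intro v v' p hv hp
    exact interp_congr h W Q R (fun i => tval_congr h hv _) hp
  | imp φ ψ ih1 ih2 =>
    intro v v' p hv hp q hq hq'
    have hv' : ∀ i, FEq le (v i) (v' i) q := fun i => (hv i).mono h hq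
    exact ih2 v v' q hv' (hp q hq (ih1 v' v q (fun i => (hv' i).symm) hq'))
  | all φ ih =>
    intro v v' p hv hp x q hq hx
    refine ih (Fin.snoc v x) (Fin.snoc v' x) q (fun i => ?_) (hp x q hq hx)
    refine Fin.lastCases ?_ (fun i => ?_) i
    · simpa using FEq.refl h x q
    · simpa using (hv i).mono h hq

/-- Finitely many dense monotone conditions can be met simultaneously. -/
theorem fin_dense (h : IsPre le) {n : ℕ} {A : Fin n → C → Prop} {p : C}
    (hm : ∀ i q r, le r q → A i q → A i r)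
    (hd : ∀ i q, le q p → ∃ r, le r q ∧ A i r) : ∃ r, le r p ∧ ∀ i, A i r := by
  induction n with
  | zero => exact ⟨p, h.refl p, fun i => i.elim0⟩
  | succ n ih =>
    obtain ⟨r, hr, h1⟩ := ih (A := fun i => A i.castSucc) (fun i => hm i.castSucc)
      (fun i => hd i.castSucc)
    obtain ⟨r', hr', h2⟩ := hd (Fin.last n) r hr
    exact ⟨r', h.trans _ _ _ hr' hr, Fin.lastCases h2 fun i => hm _ _ _ hr' (h1 i)⟩

/-- The name of the set of all `τ_G` in `D`, where `τ ∈ M`. -/
noncomputable def hull (M : Set (PName C)) [Small.{u} M] [Small.{u} C]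
    (D : PName C → C → Prop) : PName C :=
  .mk (Shrink.{u} {i : M × C // D i.1.1 i.2})
    (fun i => ((equivShrink {i : M × C // D i.1.1 i.2}).symm i).1.1.1)
    (fun i => ((equivShrink {i : M × C // D i.1.1 i.2}).symm i).1.2)

theorem mem_hull_iff (h : IsPre le) {M : Set (PName C)} [Small.{u} M] [Small.{u} C]
    {D : PName C → C → Prop} (hD : RegCls le D) {x : PName C} {p : C} :
    FMem le x (hull M D) p ↔ ∀ q, le q p → ∃ r, le r q ∧ ∃ τ ∈ M, D τ r ∧ FEq le x τ r := by
  constructor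
  · intro hp q hq
    obtain ⟨r, hr, j, hj, h1⟩ := hp q hq
    refine ⟨r, hr, _, ((equivShrink {i : M × C // D i.1.1 i.2}).symm j).1.1.2, ?_, h1⟩
    exact (hD.reg _).mono _ _ hj ((equivShrink {i : M × C // D i.1.1 i.2}).symm j).2
  · intro hp q hq
    obtain ⟨r, hr, τ, hτ, h1, h2⟩ := hp q hq
    refine ⟨r, hr, equivShrink _ ⟨(⟨τ, hτ⟩, r), h1⟩, ?_, ?_⟩
    · show le r ((equivShrink {i : M × C // D i.1.1 i.2}).symm (equivShrink _ _)).1.2
      rw [Equiv.symm_apply_apply]
      exact h.refl r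
    · show FEq le x ((equivShrink {i : M × C // D i.1.1 i.2}).symm
        (equivShrink _ _)).1.1.1 r
      rw [Equiv.symm_apply_apply]
      exact h2

/-- The Tarski-Vaught criterion in `V[G]`. -/
theorem hull_elem (h : IsPre le) {M : Set (PName C)} [Small.{u} M] [Small.{u} C]
    (W : VGRel le) (Q : ZFSet.{u} → Prop) {D : PName C → C → Prop} (hD : RegCls le D)
    (hM : ∀ (n : ℕ) (φ : LStar.BoundedFormula Empty (n + 1)) (v : Fin n → PName C),
      (∀ i, v i ∈ M) → ∀ p x, D x p → (∀ q, le q p → ¬ Force W Q D φ (Fin.snoc v x) q) →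
      ∃ r, le r p ∧ ∃ τ ∈ M, D τ r ∧ ∀ q, le q r → ¬ Force W Q D φ (Fin.snoc v τ) q)
    (p : C) : FElem W Q D (hull M D) p := by
  have hsub : ∀ x q, FMem le x (hull M D) q → D x q := by
    intro x q hx
    refine (hD.reg x).loc q fun r hr => ?_
    obtain ⟨r', hr', τ, -, h1, h2⟩ := (mem_hull_iff h hD).1 hx r hr
    exact ⟨r', hr', hD.congr _ _ _ h2.symm h1⟩
  refine ⟨fun x q _ hx => hsub x q hx, ?_⟩
  intro n φ
  induction φ with
  | falsum => exact fun _ _ _ _ => Iff.rfl
  | equal t₁ t₂ => exact fun _ _ _ _ => Iff.rfl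
  | rel R ts => exact fun _ _ _ _ => Iff.rfl
  | imp φ ψ ih1 ih2 =>
    intro v q hq hv
    refine forall_congr' fun r => imp_congr_right fun hr => ?_
    have hr' := h.trans _ _ _ hr hq
    rw [ih1 v r hr' fun i => (hv i).mono h hr, ih2 v r hr' fun i => (hv i).mono h hr]
  | @all n φ ih =>
    intro v q hq hv
    have hsn : ∀ (x : PName C) (r : C), le r q → FMem le x (hull M D) r →
        ∀ i, FMem le ((Fin.snoc v x : Fin (n + 1) → PName C) i) (hull M D) r := by
      intro x r hr hx i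
      refine Fin.lastCases ?_ (fun i => ?_) i
      · simpa using hx
      · simpa using (hv i).mono h hr
    constructor
    · intro hall x r hr hx
      exact (ih _ r (h.trans _ _ _ hr hq) (hsn x r hr hx)).1 (hall x r hr (hsub x r hx))
    · intro hall x r hr hx
      by_contra hcon
      obtain ⟨r1, hr1, h1⟩ := (force_reg h W Q hD φ _).not_iff h hcon
      -- replace the parameters by elements of `M`
      obtain ⟨r2, hr2, h2⟩ := fin_dense h (A := fun i s => ∃ τ ∈ M, FEq le (v i) τ s)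
        (p := r1) (fun i s s' hs' ⟨τ, hτ, h3⟩ => ⟨τ, hτ, h3.mono h hs'⟩) (fun i s hs => by
          obtain ⟨s', hs', τ, hτ, -, h3⟩ := (mem_hull_iff h hD).1 (hv i) s
            (h.trans _ _ _ hs (h.trans _ _ _ hr1 hr))
          exact ⟨s', hs', τ, hτ, h3⟩)
      choose τ hτ hvτ using h2
      have hr2r := h.trans _ _ _ hr2 hr1
      obtain ⟨r3, hr3, σ, hσ, h4, h5⟩ := hM n φ τ hτ r2 x
        ((hD.reg x).mono _ _ hr2r hx) (fun s hs hf => by
          refine h1 s (h.trans _ _ _ hs hr2) ?_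
          refine force_congr h W Q φ _ _ _ (fun i => ?_) hf
          refine Fin.lastCases ?_ (fun i => ?_) i
          · simpa using FEq.refl h x s
          · simpa using ((hvτ i).mono h hs).symm)
      have hr3q := h.trans _ _ _ hr3 (h.trans _ _ _ hr2r hr)
      have hσN : FMem le σ (hull M D) r3 := (mem_hull_iff h hD).2 fun s hs =>
        ⟨s, h.refl s, σ, hσ, (hD.reg σ).mono _ _ hs h4, FEq.refl h σ s⟩
      have h6 := (ih _ r3 (h.trans _ _ _ hr3q hq) (hsn σ r3 hr3q hσN)).2
        (hall σ r3 hr3q hσN)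
      refine h5 r3 (h.refl r3) (force_congr h W Q φ _ _ _ (fun i => ?_) h6)
      refine Fin.lastCases ?_ (fun i => ?_) i
      · simpa using FEq.refl h σ r3
      · simpa using (hvτ i).mono h hr3

end Pool.Agent.ZSharp
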