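import Mathlib

/-!
# Names, the forcing relation and the property `(*)`

`C` is the type of conditions and `le` the order; `V` is the universe `ZFSet`.
-/

set_option autoImplicit false

open Set Cardinal FirstOrder

namespace Pool.Agent.ZSharp

universe u

/-- Names: a name is a set of pairs (name, condition), the set being indexed by a type `ι`
of the universe `u` (i.e. by a set of `V`). -/
inductive PName (C : Type (u + 1)) : Type (u + 1)
  | mk (ι : Type u) (el : ι → PName C) (cond : ι → C) : PName C

variable {C : Type (u + 1)}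

/-- `p` forces `x = y`: for all `(a, s) ∈ x` and `q ≤ p, s` there are `r ≤ q` and
`(b, t) ∈ y` with `r ≤ t` such that `r` forces `a = b`; and symmetrically. -/
def FEq (le : C → C → Prop) : PName C → PName C → C → Prop
  | .mk ι a s, .mk κ b t => fun p =>
    (∀ (i : ι) (q : C), le q p → le q (s i) →
      ∃ r, le r q ∧ ∃ j : κ, le r (t j) ∧ FEq le (a i) (b j) r) ∧
    (∀ (j : κ) (q : C), le q p → le q (t j) →
      ∃ r, le r q ∧ ∃ i : ι, le r (s i) ∧ FEq le (a i) (b j) r)

/-- The index type of a name. -/
def PName.Idx : PName C → Type u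
  | .mk ι _ _ => ι

/-- The names in a name. -/
def PName.el : (x : PName C) → x.Idx → PName C
  | .mk _ a _ => a

/-- The conditions in a name. -/
def PName.cond : (x : PName C) → x.Idx → C
  | .mk _ _ s => s

/-- `p` forces `x ∈ y`: densely below `p` there are conditions `r` and `(b, t) ∈ y` with
`r ≤ t` such that `r` forces `x = b`. -/
def FMem (le : C → C → Prop) (x y : PName C) (p : C) : Prop :=
  ∀ q, le q p → ∃ r, le r q ∧ ∃ j : y.Idx, le r (y.cond j) ∧ FEq le x (y.el j) r

/-- The canonical name of a (pre-)set of the ground model. -/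
noncomputable def chk [Small.{u} C] : PSet.{u} → PName C
  | .mk α A => .mk (α × Shrink.{u} C) (fun i => chk (A i.1))
    (fun i => (equivShrink C).symm i.2)

/-- The canonical name of an element of the ground model. -/
noncomputable def check [Small.{u} C] (y : ZFSet.{u}) : PName C := chk y.out

/-- The relation symbols of the language of the structure
`(H(χ)^{V[G]}, ∈, <, H(χ)^V)`. -/
inductive StarRel : ℕ → Type
  | mem : StarRel 2
  | lt : StarRel 2
  | gnd : StarRel 1

/-- The language of the structure `(H(χ)^{V[G]}, ∈, <, H(χ)^V)`. -/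
def LStar : FirstOrder.Language.{0, 0} := ⟨fun _ => Empty, StarRel⟩

/-- `p` forces that `x` is an element of the ground model with the property `Q`. -/
def FGround [Small.{u} C] (le : C → C → Prop) (Q : ZFSet.{u} → Prop) (x : PName C) (p : C) :
    Prop :=
  ∀ q, le q p → ∃ r, le r q ∧ ∃ y, Q y ∧ FEq le x (check y) r

/-- A binary relation of `V[G]`: its truth value at names, which is monotone, local
and respects equality. -/
structure VGRel (le : C → C → Prop) where
  val : PName C → PName C → C → Prop
  mono : ∀ x y p q, le q p → val x y p → val x y q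
  loc : ∀ x y p, (∀ q, le q p → ∃ r, le r q ∧ val x y r) → val x y p
  congr : ∀ x x' y y' p, FEq le x x' p → FEq le y y' p → val x y p → val x' y' p

/-- The value of a term (a variable). -/
def tval {n : ℕ} (v : Fin n → PName C) : LStar.Term (Empty ⊕ Fin n) → PName C
  | .var (Sum.inl e) => e.elim
  | .var (Sum.inr i) => v i
  | .func f _ => Empty.elim f

/-- The interpretation of the three symbols. -/
def interp [Small.{u} C] {le : C → C → Prop} (W : VGRel le) (Q : ZFSet.{u} → Prop) {n : ℕ}
    (R : LStar.Relations n) (v : Fin n → PName C) : C → Prop :=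
  match n, R, v with
  | _, StarRel.mem, v => FMem le (v 0) (v 1)
  | _, StarRel.lt, v => W.val (v 0) (v 1)
  | _, StarRel.gnd, v => FGround le Q (v 0)

/-- `p` forces that `φ(v)` holds in the structure `(D, ∈, W, Q)`, where `D` is a class of
`V[G]` given by its truth values. -/
def Force [Small.{u} C] {le : C → C → Prop} (W : VGRel le) (Q : ZFSet.{u} → Prop)
    (D : PName C → C → Prop) :
    {n : ℕ} → LStar.BoundedFormula Empty n → (Fin n → PName C) → C → Prop
  | _, .falsum, _ => fun _ => False
  | _, .equal t₁ t₂, v => FEq le (tval v t₁) (tval v t₂)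
  | _, .rel R ts, v => interp W Q R (fun i => tval v (ts i))
  | _, .imp φ ψ, v => fun p => ∀ q, le q p → Force W Q D φ v q → Force W Q D ψ v q
  | _, .all φ, v => fun p => ∀ (x : PName C) (q : C), le q p → D x q →
      Force W Q D φ (Fin.snoc v x) q

/-- `p` forces that `N` is an elementary substructure of `(D, ∈, W, Q)`. -/
def FElem [Small.{u} C] {le : C → C → Prop} (W : VGRel le) (Q : ZFSet.{u} → Prop)
    (D : PName C → C → Prop) (N : PName C) (p : C) : Prop :=
  (∀ x q, le q p → FMem le x N q → D x q) ∧
  ∀ (n : ℕ) (φ : LStar.BoundedFormula Empty n) (v : Fin n → PName C) (q : C), le q p →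
    (∀ i, FMem le (v i) N q) →
    (Force W Q D φ v q ↔ Force W Q (fun x => FMem le x N) φ v q)

/-- `y ∈ H(χ)` in the ground model: `y` is an element of a transitive set of size `< χ`. -/
def HeredV (χ : Cardinal.{u}) (y : ZFSet.{u}) : Prop :=
  ∃ t : ZFSet.{u}, t.IsTransitive ∧ y ∈ t ∧ t.card < χ

/-- `p` forces that `t` is transitive. -/
def FTrans (le : C → C → Prop) (t : PName C) (p : C) : Prop :=
  ∀ y w q, le q p → FMem le y t q → FMem le w y q → FMem le w t q

/-- `p` forces that `t` is of size `< χ`: densely below `p` there are a condition `r`, an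
ordinal `α < χ` and a relation `F` of `V[G]` such that `r` forces that `F` is functional
(`F(b, y)` and `F(b, y')` imply `y = y'`) and every `y ∈ t` is the value of `F` at some
ordinal `β < α`. -/
def FSmall [Small.{u} C] (le : C → C → Prop) (χ : Cardinal.{u}) (t : PName C) (p : C) :
    Prop :=
  ∀ q, le q p → ∃ r, le r q ∧ ∃ α : Ordinal.{u}, α < χ.ord ∧ ∃ F : VGRel le,
    (∀ b y y' s, le s r → F.val b y s → F.val b y' s → FEq le y y' s) ∧
    (∀ y s, le s r → FMem le y t s → ∃ s', le s' s ∧ ∃ β < α,
      F.val (check β.toZFSet) y s')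

/-- `p` forces `x ∈ H(χ)`: `x` is an element of a transitive set of size `< χ`. -/
def FHered [Small.{u} C] (le : C → C → Prop) (χ : Cardinal.{u}) (x : PName C) (p : C) :
    Prop :=
  ∀ q, le q p → ∃ r, le r q ∧ ∃ t : PName C,
    FTrans le t r ∧ FMem le x t r ∧ FSmall le χ t r

/-- The property `(*)`, with a bound on the size: whenever `p` forces `x ∈ H(χ)^{V[G]}`,
where `χ ≥ ℵ_2^V`, and `<` is a binary relation of `V[G]`, there is a name `N` such that
`p` forces: `N` is an elementary substructure of `(H(χ)^{V[G]}, ∈, <, H(χ)^V)`, `x ∈ N`,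
`N ∩ H(χ)^V = T` for a set `T ∈ V` of size less than `μ` in `V`, and all elements of `N` are
among the values `τ_G` of fewer than `μ` names `τ ∈ M`, `M` a set in `V`. -/
def StarProp [Small.{u} C] (le : C → C → Prop) (μ : Cardinal.{u}) : Prop :=
  ∀ (χ : Cardinal.{u}), ℵ_ 2 ≤ χ → ∀ (W : VGRel le) (x : PName C) (p : C),
    FHered le χ x p → ∃ (N : PName C) (T : ZFSet.{u}) (M : Set (PName C)),
      FElem W (HeredV χ) (FHered le χ) N p ∧ FMem le x N p ∧
      (∀ y q, le q p → (FMem le y N q ∧ FGround le (HeredV χ) y q ↔
        FMem le y (check T) q)) ∧ T.card < μ ∧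
      (∀ y q, le q p → FMem le y N q → ∃ r, le r q ∧ ∃ τ ∈ M, FEq le y τ r) ∧
      #M < Cardinal.lift.{u + 1} μ

end Pool.Agent.ZSharp
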