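import Pool.Agent.ZSharp.Rec
import Pool.Agent.ZSharp.BF

/-!
# The back-and-forth relations over `L_m` form a constructible set
-/

set_option autoImplicit false
set_option linter.deprecated false

open FirstOrder Set Ordinal Cardinal

namespace Pool.Agent.ZSharp

universe u

theorem nn_zero : nn.{u} 0 = ∅ := by
  ext t
  rw [nn, Ordinal.mem_toZFSet_iff]
  constructor
  · rintro ⟨γ, hγ, -⟩
    exact absurd hγ (by simp)
  · intro h
    exact absurd h (ZFSet.notMem_empty _)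

theorem nn_mem_nn {m n : ℕ} : nn.{u} m ∈ nn n ↔ m < n := by
  rw [nn, nn, Ordinal.toZFSet_mem_toZFSet_iff]
  exact_mod_cast Iff.rfl

theorem mem_nn {n : ℕ} {t : ZFSet.{u}} : t ∈ nn n ↔ ∃ m < n, t = nn m := by
  constructor
  · intro h
    rw [nn, Ordinal.mem_toZFSet_iff] at h
    obtain ⟨γ, hγ, rfl⟩ := h
    obtain ⟨m, rfl⟩ := lt_omega0.1 (hγ.trans (natCast_lt_omega0 n))
    exact ⟨m, by exact_mod_cast hγ, rfl⟩
  · rintro ⟨m, hm, rfl⟩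
    exact nn_mem_nn.2 hm

theorem nn_succ_eq {n : ℕ} {t : ZFSet.{u}} : nn (n + 1) = insert t t ↔ t = nn n := by
  constructor
  · intro h
    have h1 : t ∈ nn (n + 1) := by
      rw [h]
      exact ZFSet.mem_insert _ _
    obtain ⟨k, hk, rfl⟩ := mem_nn.1 h1
    rw [← nn_succ] at h
    have := nn_inj h
    rw [Nat.succ_injective this]
  · rintro rfl
    exact nn_succ n

/-- The `n`-th back-and-forth relation. -/
noncomputable def Gn (m : Ordinal.{u}) (ζ : Ordinal.{u}) : ZFSet.{u} :=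
  ZFSet.sep (fun t => ∃ n : ℕ, ζ = n ∧ ∃ x ∈ Lset m, ∃ y ∈ Lset m, t = ZFSet.pair x y ∧
    BF (Lset m) n x y) (Lset m)

variable {m : Ordinal.{u}}

theorem mem_Gn (hm : ∀ α < m, α + 1 < m) {n : ℕ} {t : ZFSet.{u}} : t ∈ Gn m n ↔
    ∃ x ∈ Lset m, ∃ y ∈ Lset m, t = ZFSet.pair x y ∧ BF (Lset m) n x y := by
  rw [Gn, ZFSet.mem_sep]
  constructor
  · rintro ⟨-, k, hk, h⟩
    obtain rfl : n = k := by exact_mod_cast hk
    exact h
  · rintro ⟨x, hx, y, hy, rfl, h⟩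
    exact ⟨Lset_pair hm hx hy, n, rfl, x, hx, y, hy, rfl, h⟩

theorem pair_mem_Gn (hm : ∀ α < m, α + 1 < m) {n : ℕ} {x y : ZFSet.{u}} (hx : x ∈ Lset m)
    (hy : y ∈ Lset m) : ZFSet.pair x y ∈ Gn m n ↔ BF (Lset m) n x y := by
  rw [mem_Gn hm]
  constructor
  · rintro ⟨x', -, y', -, h, h'⟩
    obtain ⟨rfl, rfl⟩ := ZFSet.pair_injective h
    exact h'
  · intro h
    exact ⟨x, hx, y, hy, rfl, h⟩

section

variable {θ : Ordinal.{u}}

/-- Atomic agreement, over `L_θ`. -/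
def BF0' (M x y : LA θ) : Prop :=
  ∀ i j c d c' d' : LA θ, i.1 ∈ M.1 → j.1 ∈ M.1 → c.1 ∈ M.1 → d.1 ∈ M.1 → c'.1 ∈ M.1 →
    d'.1 ∈ M.1 → ZFSet.pair i.1 c.1 ∈ x.1 → ZFSet.pair j.1 d.1 ∈ x.1 →
    ZFSet.pair i.1 c'.1 ∈ y.1 → ZFSet.pair j.1 d'.1 ∈ y.1 →
    ((c.1 ∈ d.1 ↔ c'.1 ∈ d'.1) ∧ (c.1 = d.1 ↔ c'.1 = d'.1))

theorem BF0'_iff (M x y : LA θ) : BF0' M x y ↔ BF0 M.1 x.1 y.1 := by
  constructor
  · intro h i hi j hj c hc d hd c' hc' d' hd'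
    exact h ⟨i, Lset_trans M.2 hi⟩ ⟨j, Lset_trans M.2 hj⟩ ⟨c, Lset_trans M.2 hc⟩
      ⟨d, Lset_trans M.2 hd⟩ ⟨c', Lset_trans M.2 hc'⟩ ⟨d', Lset_trans M.2 hd'⟩ hi hj hc hd
      hc' hd'
  · intro h i j c d c' d' hi hj hc hd hc' hd'
    exact h i.1 hi j.1 hj c.1 hc d.1 hd c'.1 hc' d'.1 hd'

instance BF0'.dp {I : Type} {f g h : (I → LA θ) → LA θ} [FT f] [FT g] [FT h] :
    DP (fun v => BF0' (f v) (g v) (h v)) :=
  DP.sub3 (Q := BF0') (by unfold BF0'; infer_instance) ‹_› ‹_› ‹_›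

/-- The clauses of the recursion. -/
def BFCl (M z h a b : LA θ) : Prop :=
  ((¬ ∃ t : LA θ, t.1 ∈ z.1) ∧ BF0' M a b) ∨
  ∃ n g : LA θ, z.1 = insert n.1 n.1 ∧ ZFSet.pair n.1 g.1 ∈ h.1 ∧
    (∀ c : LA θ, c.1 ∈ M.1 → ∃ c' u v : LA θ, c'.1 ∈ M.1 ∧
      u.1 = insert (ZFSet.pair n.1 c.1) a.1 ∧ v.1 = insert (ZFSet.pair n.1 c'.1) b.1 ∧
      ZFSet.pair u.1 v.1 ∈ g.1) ∧
    (∀ c' : LA θ, c'.1 ∈ M.1 → ∃ c u v : LA θ, c.1 ∈ M.1 ∧
      u.1 = insert (ZFSet.pair n.1 c.1) a.1 ∧ v.1 = insert (ZFSet.pair n.1 c'.1) b.1 ∧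
      ZFSet.pair u.1 v.1 ∈ g.1)

/-- The step of the recursion. -/
def BFStep (M z h y : LA θ) : Prop :=
  ∀ t : LA θ, t.1 ∈ y.1 ↔ ∃ a b : LA θ, a.1 ∈ M.1 ∧ b.1 ∈ M.1 ∧ t.1 = ZFSet.pair a.1 b.1 ∧
    BFCl M z h a b

theorem BFStep.dp (M : LA θ) : DP (fun v : Fin 3 → LA θ => BFStep M (v 0) (v 1) (v 2)) := by
  unfold BFStep BFCl
  infer_instance

end

theorem Lset_mem_succ (α : Ordinal.{u}) : Lset α ∈ Lset (α + 1) :=
  mem_of_dfn (I := Empty) (R := fun _ _ => True) (fun _ h => h) Dfn.true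
    (fun e => e.elim) (fun y => iff_of_true y.2 trivial)

theorem Gn_constr (hm : ∀ α < m, α + 1 < m) (hω : ω < m) (n : ℕ) :
    Constructible (Gn m n) := by
  induction n with
  | zero =>
    obtain ⟨κ, -, hκ⟩ := exists_Big (m + 1) 0
    let M : LA κ.ord := ⟨Lset m, hκ.mem (Lset_mem_succ m)⟩
    have h1 : Constructible (sepL (θ := κ.ord) fun t => ∃ a b : LA κ.ord, a.1 ∈ M.1 ∧
        b.1 ∈ M.1 ∧ t.1 = ZFSet.pair a.1 b.1 ∧ BF0' M a b) := sepL_constr inferInstance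
    have h2 : Gn m (0 : ℕ) = sepL (θ := κ.ord) fun t => ∃ a b : LA κ.ord, a.1 ∈ M.1 ∧
        b.1 ∈ M.1 ∧ t.1 = ZFSet.pair a.1 b.1 ∧ BF0' M a b := by
      ext t
      rw [mem_Gn hm, mem_sepL]
      constructor
      · rintro ⟨x, hx, y, hy, rfl, h⟩
        refine ⟨hκ.mem (Lset_mono (lt_add_one m).le (Lset_pair hm hx hy)),
          ⟨x, Lset_trans M.2 hx⟩, ⟨y, Lset_trans M.2 hy⟩, hx, hy, rfl, ?_⟩
        exact (BF0'_iff _ _ _).2 h
      · rintro ⟨ht, a, b, ha, hb, hab, h⟩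
        exact ⟨a.1, ha, b.1, hb, hab, (BF0'_iff _ _ _).1 h⟩
    rw [h2]
    exact h1
  | succ n ih =>
    obtain ⟨κ, -, hκ⟩ := exists_Big (m + 1) 0
    let M : LA κ.ord := ⟨Lset m, hκ.mem (Lset_mem_succ m)⟩
    have hmκ : ∀ x ∈ Lset m, x ∈ Lset κ.ord := fun x hx => Lset_trans M.2 hx
    let g : LA κ.ord := ⟨Gn m n, hκ.sub _ ih fun t ht =>
      Lset_mono (lt_add_one m).le (ZFSet.mem_sep.1 ht).1⟩
    have hnn : nn.{u} n ∈ Lset m :=
      (toZFSet_mem_Lset_iff _ _).2 ((natCast_lt_omega0 n).trans hω)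
    let N : LA κ.ord := ⟨nn n, hmκ _ hnn⟩
    have h1 : Constructible (sepL (θ := κ.ord) fun t => ∃ a b : LA κ.ord, a.1 ∈ M.1 ∧
        b.1 ∈ M.1 ∧ t.1 = ZFSet.pair a.1 b.1 ∧ 
        (∀ c : LA κ.ord, c.1 ∈ M.1 → ∃ c' u v : LA κ.ord, c'.1 ∈ M.1 ∧
          u.1 = insert (ZFSet.pair N.1 c.1) a.1 ∧ v.1 = insert (ZFSet.pair N.1 c'.1) b.1 ∧
          ZFSet.pair u.1 v.1 ∈ g.1) ∧
        (∀ c' : LA κ.ord, c'.1 ∈ M.1 → ∃ c u v : LA κ.ord, c.1 ∈ M.1 ∧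
          u.1 = insert (ZFSet.pair N.1 c.1) a.1 ∧ v.1 = insert (ZFSet.pair N.1 c'.1) b.1 ∧
          ZFSet.pair u.1 v.1 ∈ g.1)) := sepL_constr inferInstance
    convert h1 using 1
    ext t
    rw [mem_Gn hm, mem_sepL]
    have hins : ∀ c ∈ Lset m, ∀ a ∈ Lset m, insert (ZFSet.pair (nn n) c) a ∈ Lset m :=
      fun c hc a ha => Lset_insert hm (Lset_pair hm hnn hc) ha
    constructor
    · rintro ⟨x, hx, y, hy, rfl, h⟩
      refine ⟨hκ.mem (Lset_mono (lt_add_one m).le (Lset_pair hm hx hy)),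
        ⟨x, hmκ _ hx⟩, ⟨y, hmκ _ hy⟩, hx, hy, rfl, ?_, ?_⟩
      · intro c hc
        obtain ⟨c', hc', hb⟩ := h.1 c.1 hc
        exact ⟨⟨c', hmκ _ hc'⟩, ⟨_, hmκ _ (hins _ hc _ hx)⟩, ⟨_, hmκ _ (hins _ hc' _ hy)⟩,
          hc', rfl, rfl, (pair_mem_Gn hm (hins _ hc _ hx) (hins _ hc' _ hy)).2 hb⟩
      · intro c' hc'
        obtain ⟨c, hc, hb⟩ := h.2 c'.1 hc'
        exact ⟨⟨c, hmκ _ hc⟩, ⟨_, hmκ _ (hins _ hc _ hx)⟩, ⟨_, hmκ _ (hins _ hc' _ hy)⟩,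
          hc, rfl, rfl, (pair_mem_Gn hm (hins _ hc _ hx) (hins _ hc' _ hy)).2 hb⟩
    · rintro ⟨ht, a, b, ha, hb, hab, h3, h4⟩
      refine ⟨a.1, ha, b.1, hb, hab, ?_, ?_⟩
      · intro c hc
        obtain ⟨c', u', v', hc', hu, hv, huv⟩ := h3 ⟨c, hmκ _ hc⟩ hc
        rw [hu, hv] at huv
        exact ⟨c'.1, hc', (pair_mem_Gn hm (hins _ hc _ ha) (hins _ hc' _ hb)).1 huv⟩
      · intro c' hc'
        obtain ⟨c, u', v', hc, hu, hv, huv⟩ := h4 ⟨c', hmκ _ hc'⟩ hc'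
        rw [hu, hv] at huv
        exact ⟨c.1, hc, (pair_mem_Gn hm (hins _ hc _ ha) (hins _ hc' _ hb)).1 huv⟩

/-- The sequence of the back-and-forth relations is constructible. -/
theorem GBF_constr (hm : ∀ α < m, α + 1 < m) (hω : ω < m) :
    Constructible (gr (Gn m) ω) := by
  obtain ⟨κ1, -, hκ1⟩ := exists_Big (m + 1) 0
  have hmω : ω < κ1.ord := hω.trans ((lt_add_one m).trans hκ1.lt)
  refine rec_constr (γ := κ1.ord) hκ1.lim hmω.le (f := Gn m) ?_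
    (fun κ => fun z h y => ∃ M : LA κ.ord, M.1 = Lset m ∧ BFStep M z h y) ?_ ?_ ω le_rfl
  · intro ζ hζ
    obtain ⟨n, rfl⟩ := lt_omega0.1 hζ
    exact hκ1.sub _ (Gn_constr hm hω n) fun t ht =>
      Lset_mono (lt_add_one m).le (ZFSet.mem_sep.1 ht).1
  · intro κ hκ
    let M : LA κ.ord := ⟨Lset m, hκ.mem (hκ1.mem (Lset_mem_succ m))⟩
    refine (BFStep.dp M).congr fun v => ?_
    constructor
    · intro h
      exact ⟨M, rfl, h⟩
    · rintro ⟨M', hM', h⟩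
      have : M' = M := Subtype.ext hM'
      rwa [← this]
  · intro κ hκ ζ hζ z h y hz hh
    obtain ⟨n, rfl⟩ := lt_omega0.1 hζ
    let M : LA κ.ord := ⟨Lset m, hκ.mem (hκ1.mem (Lset_mem_succ m))⟩
    have hmκ : ∀ x ∈ Lset m, x ∈ Lset κ.ord := fun x hx => Lset_trans M.2 hx
    have hcl : ∀ a b : LA κ.ord, a.1 ∈ M.1 → b.1 ∈ M.1 →
        (BFCl M z h a b ↔ BF (Lset m) n a.1 b.1) := by
      intro a b ha hb
      rcases n with _ | n
      · constructor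
        · rintro (⟨-, h1⟩ | ⟨n, g, h1, -⟩)
          · exact (BF0'_iff _ _ _).1 h1
          · exfalso
            have h2 : n.1 ∈ z.1 := by
              rw [h1]
              exact ZFSet.mem_insert _ _
            rw [hz] at h2
            exact ZFSet.notMem_empty n.1 (by rw [← nn_zero]; exact h2)
        · intro h1
          refine Or.inl ⟨?_, (BF0'_iff _ _ _).2 h1⟩
          rintro ⟨t, ht⟩
          rw [hz] at ht
          exact ZFSet.notMem_empty t.1 (by rw [← nn_zero]; exact ht)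
      · have hnn : nn.{u} n ∈ Lset m :=
          (toZFSet_mem_Lset_iff _ _).2 ((natCast_lt_omega0 n).trans hω)
        have hins : ∀ c ∈ Lset m, ∀ a ∈ Lset m, insert (ZFSet.pair (nn n) c) a ∈ Lset m :=
          fun c hc a ha => Lset_insert hm (Lset_pair hm hnn hc) ha
        constructor
        · rintro (⟨h1, -⟩ | ⟨k, g, h1, h2, h3, h4⟩)
          · exfalso
            refine h1 ⟨⟨nn n, hmκ _ hnn⟩, ?_⟩
            rw [hz]
            exact nn_mem_nn.2 (Nat.lt_succ_self n)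
          · rw [hz] at h1
            have hk : k.1 = nn n := nn_succ_eq.1 h1
            rw [hk, hh] at h2
            have hg : g.1 = Gn m n := (pair_mem_gr (η := (n : Ordinal.{u})).1 h2).2
            constructor
            · intro c hc
              obtain ⟨c', u', v', hc', hu, hv, huv⟩ := h3 ⟨c, hmκ _ hc⟩ hc
              rw [hu, hv, hg, hk] at huv
              exact ⟨c'.1, hc', (pair_mem_Gn hm (hins _ hc _ ha) (hins _ hc' _ hb)).1 huv⟩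
            · intro c' hc'
              obtain ⟨c, u', v', hc, hu, hv, huv⟩ := h4 ⟨c', hmκ _ hc'⟩ hc'
              rw [hu, hv, hg, hk] at huv
              exact ⟨c.1, hc, (pair_mem_Gn hm (hins _ hc _ ha) (hins _ hc' _ hb)).1 huv⟩
        · intro h0
          right
          have hgc : Gn m n ∈ Lset κ.ord := by
            refine hκ.mem (hκ1.sub _ (Gn_constr hm hω n) fun t ht =>
              Lset_mono (lt_add_one m).le (ZFSet.mem_sep.1 ht).1)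
          refine ⟨⟨nn n, hmκ _ hnn⟩, ⟨Gn m n, hgc⟩, ?_, ?_, ?_, ?_⟩
          · rw [hz]
            exact nn_succ_eq.2 rfl
          · rw [hh]
            refine (pair_mem_gr (η := (n : Ordinal.{u}))).2 ⟨?_, rfl⟩
            exact_mod_cast Nat.lt_succ_self n
          · intro c hc
            obtain ⟨c', hc', hb'⟩ := h0.1 c.1 hc
            exact ⟨⟨c', hmκ _ hc'⟩, ⟨_, hmκ _ (hins _ hc _ ha)⟩,
              ⟨_, hmκ _ (hins _ hc' _ hb)⟩,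
              hc', rfl, rfl, (pair_mem_Gn hm (hins _ hc _ ha) (hins _ hc' _ hb)).2 hb'⟩
          · intro c' hc'
            obtain ⟨c, hc, hb'⟩ := h0.2 c'.1 hc'
            exact ⟨⟨c, hmκ _ hc⟩, ⟨_, hmκ _ (hins _ hc _ ha)⟩, ⟨_, hmκ _ (hins _ hc' _ hb)⟩,
              hc, rfl, rfl, (pair_mem_Gn hm (hins _ hc _ ha) (hins _ hc' _ hb)).2 hb'⟩
    constructor
    · rintro ⟨M', hM', h1⟩
      have hMM : M' = M := Subtype.ext hM'
      subst hMM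
      ext t
      rw [mem_Gn hm]
      constructor
      · intro ht
        obtain ⟨a, b, ha, hb, hab, hc⟩ := (h1 ⟨t, Lset_trans y.2 ht⟩).1 ht
        exact ⟨a.1, ha, b.1, hb, hab, (hcl a b ha hb).1 hc⟩
      · rintro ⟨a, ha, b, hb, rfl, hc⟩
        exact (h1 ⟨_, hmκ _ (Lset_pair hm ha hb)⟩).2 ⟨⟨a, hmκ _ ha⟩, ⟨b, hmκ _ hb⟩, ha, hb,
          rfl, (hcl _ _ ha hb).2 hc⟩
    · intro hy
      refine ⟨M, rfl, fun t => ?_⟩
      rw [hy, mem_Gn hm]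
      constructor
      · rintro ⟨a, ha, b, hb, hab, hc⟩
        exact ⟨⟨a, hmκ _ ha⟩, ⟨b, hmκ _ hb⟩, ha, hb, hab, (hcl _ _ ha hb).2 hc⟩
      · rintro ⟨a, b, ha, hb, hab, hc⟩
        exact ⟨a.1, ha, b.1, hb, hab, (hcl a b ha hb).1 hc⟩

end Pool.Agent.ZSharp
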