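import Pool.Agent.ZSharp.Concrete

/-!
# Silver indiscernibles give the abstract situation
-/

set_option autoImplicit false

open FirstOrder Set Ordinal Cardinal

namespace Pool.Agent.ZSharp

universe u

/-- The ordinals in `L_λ`. -/
noncomputable def cc (lam : Ordinal.{u}) (h0 : 0 < lam) (α : Ordinal.{u}) :
    {x : ZFSet.{u} // x ∈ Lset lam} := by
  classical
  exact if h : α < lam then ⟨α.toZFSet, (toZFSet_mem_Lset_iff _ _).2 h⟩
    else ⟨(0 : Ordinal.{u}).toZFSet, (toZFSet_mem_Lset_iff _ _).2 h0⟩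

theorem cc_val {lam : Ordinal.{u}} (h0 : 0 < lam) {α : Ordinal.{u}} (h : α < lam) :
    (cc lam h0 α).1 = α.toZFSet := by
  rw [cc, dif_pos h]

instance : Countable (Σ l, LST.Functions l) := by
  have : IsEmpty (Σ l, LST.Functions l) := ⟨fun x => x.2.elim⟩
  infer_instance

instance : Countable (Σ l, LST.Relations l) := by
  refine Function.Injective.countable (f := fun _ : (Σ l, LST.Relations l) => (0 : ℕ)) ?_
  rintro ⟨_, ⟨⟩⟩ ⟨_, ⟨⟩⟩ _
  rfl

theorem IsSilver.not_bdd {J : Set Ordinal.{u}} (hJ : IsSilver J) : ¬ BddAbove J := fun h => by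
  obtain ⟨b, hb⟩ := h
  obtain ⟨j, hj, hbj⟩ := hJ.unbounded b
  exact absurd (hb hj) (not_le.2 hbj)

theorem IsSilver.enum_lt {J : Set Ordinal.{u}} (hJ : IsSilver J) {κ : Cardinal.{u}}
    (hκ : ℵ₀ < κ) {i : Ordinal.{u}} (hi : i < κ.ord) : enumOrd J i < κ.ord := by
  by_contra hcon
  rw [not_lt] at hcon
  have h1 := hJ.size κ hκ
  have h2 : #{j : Ordinal.{u} // j ∈ J ∧ j < κ.ord} ≤ #(Set.Iio i) := by
    have h3 : ∀ j : {j : Ordinal.{u} // j ∈ J ∧ j < κ.ord}, ∃ k : Set.Iio i,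
        enumOrd J k.1 = j.1 := by
      intro j
      obtain ⟨k, hk⟩ := enumOrd_surjective hJ.not_bdd j.2.1
      refine ⟨⟨k, ?_⟩, hk⟩
      have h4 : enumOrd J k < enumOrd J i := by
        rw [hk]
        exact j.2.2.trans_le hcon
      exact (enumOrd_lt_enumOrd hJ.not_bdd).1 h4
    choose f hf using h3
    refine mk_le_of_injective (f := f) fun a b hab => ?_
    refine Subtype.ext ?_
    rw [← hf a, ← hf b, hab]
  rw [h1, Cardinal.mk_Iio_ordinal] at h2
  have h3 : κ ≤ i.card := Cardinal.lift_le.1 h2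
  exact absurd (Cardinal.lt_ord.1 hi) (not_lt.2 h3)

theorem IsSilver.sit {J : Set Ordinal.{u}} (hJ : IsSilver J) {κ : Cardinal.{u}}
    (hκ : ℵ₀ < κ) (h0 : 0 < κ.ord) :
    Sit LST {x : ZFSet.{u} // x ∈ Lset κ.ord} (cc κ.ord h0) κ.ord J
      (fun x y => x.1 ∈ y.1) where
  defE := dfn_mem
  E_iff := fun α hα β hβ => by
    rw [cc_val h0 hα, cc_val h0 hβ, Ordinal.toZFSet_mem_toZFSet_iff]
  E_ord := fun β hβ x hx => by
    rw [cc_val h0 hβ] at hx
    obtain ⟨α, hα, h⟩ := Ordinal.mem_toZFSet_iff.1 hx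
    refine ⟨α, hα, Subtype.ext ?_⟩
    rw [cc_val h0 (hα.trans hβ), h]
  unbdd := hJ.unbounded
  closed := hJ.closed
  enum_lt := fun i hi => hJ.enum_lt hκ hi
  add_lt := fun i hi j hj => isPrincipal_add_ord hκ.le hi hj
  omega_mul_lt := fun i hi => isPrincipal_mul_ord hκ.le (by
    rw [Cardinal.lt_ord]; simpa using hκ) hi
  omega_lt := by rw [Cardinal.lt_ord]; simpa using hκ
  indisc := by
    rintro n R ⟨φ, hφ⟩ a b ha hb haJ hbJ
    rw [← hφ, ← hφ]
    exact hJ.indiscernible κ hκ n φ a b _ _ ha hb (fun i => (haJ i).1) (fun i => (hbJ i).1)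
      (fun i => cc_val h0 (haJ i).2) (fun i => cc_val h0 (hbJ i).2)
  gen := by
    intro z
    have h1 := hJ.generates κ hκ z
    rw [Set.Definable₁, Set.definable_iff_finitely_definable] at h1
    obtain ⟨A0, hA0, h2⟩ := h1
    rw [Set.definable_iff_exists_formula_sum] at h2
    obtain ⟨φ, hφ⟩ := h2
    have h3 : ∀ x : A0, ∃ j : Ordinal.{u}, j ∈ J ∧ x.1.1 = j.toZFSet := by
      intro x
      obtain ⟨j, hj, hj'⟩ := hA0 x.2
      exact ⟨j, hj, hj'⟩
    choose j hj hj' using h3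
    have hjl : ∀ x, j x < κ.ord := by
      intro x
      have := x.1.2
      rw [hj' x, toZFSet_mem_Lset_iff] at this
      exact this
    obtain ⟨n, ⟨f⟩⟩ := Finite.exists_equiv_fin A0
    refine ⟨n, fun i => j (f.symm i), fun v y => φ.Realize (Sum.elim (fun x => v (f x))
      fun _ => y), fun i => ⟨hj _, hjl _⟩, ⟨φ.relabel (Sum.map f fun _ => ()), fun v => ?_⟩,
      fun y => ?_⟩
    · rw [FirstOrder.Language.Formula.realize_relabel]
      refine iff_of_eq (congrArg φ.Realize ?_)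
      funext x
      rcases x with x | x <;> rfl
    · have h4 : (fun _ : Fin 1 => y) ∈ {x : Fin 1 → {x : ZFSet.{u} // x ∈ Lset κ.ord} |
          x 0 ∈ ({z} : Set _)} ↔ y = z := Iff.rfl
      rw [← h4, hφ]
      show φ.Realize _ ↔ φ.Realize _
      refine iff_of_eq (congrArg φ.Realize ?_)
      funext x
      rcases x with x | x
      · refine Subtype.ext ?_
        show (cc κ.ord h0 (j (f.symm (f x)))).1 = x.1.1
        rw [cc_val h0 (hjl _), Equiv.symm_apply_apply, hj']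
      · rfl

end Pool.Agent.ZSharp
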