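import Pool.Agent.ZSharp.GBF

/-!
# Keys: every element of `L_κ` is isolated by a finite set of ordinals
-/

set_option autoImplicit false
set_option linter.deprecated false

open FirstOrder Set Ordinal Cardinal

namespace Pool.Agent.ZSharp

universe u

/-- The ordering of finite sets of ordinals by the largest difference. -/
def CLt (F F' : Finset Ordinal.{u}) : Prop :=
  ∃ α ∈ F', α ∉ F ∧ ∀ β, α < β → (β ∈ F ↔ β ∈ F')

theorem CLt.wf : WellFounded CLt.{u} := by
  classical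
  let ind : Finset Ordinal.{u} → (Ordinal.{u} →₀ ℕ) := fun F =>
    Finsupp.indicator F (fun _ _ => 1)
  have hind : ∀ F α, ind F α = if α ∈ F then 1 else 0 := by
    intro F α
    by_cases h : α ∈ F
    · rw [if_pos h]
      exact Finsupp.indicator_of_mem h _
    · rw [if_neg h]
      exact Finsupp.indicator_of_notMem h _
  have h1 : WellFounded (Finsupp.Lex (fun a b : Ordinal.{u} => b < a)
      (fun a b : ℕ => a < b)) := by
    refine Finsupp.Lex.wellFounded' (fun n => Nat.not_lt_zero n) wellFounded_lt ?_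
    exact wellFounded_lt
  refine Subrelation.wf ?_ (InvImage.wf ind h1)
  rintro F F' ⟨α, h2, h3, h4⟩
  refine ⟨α, fun β hβ => ?_, ?_⟩
  · rw [hind, hind]
    simp only [h4 β hβ]
  · show ind F α < ind F' α
    rw [hind, hind, if_pos h2, if_neg h3]
    exact Nat.zero_lt_one

theorem CLt.tri {F F' : Finset Ordinal.{u}} (h : F ≠ F') : CLt F F' ∨ CLt F' F := by
  classical
  have hne : (symmDiff F F').Nonempty := by
    rw [Finset.nonempty_iff_ne_empty]
    intro h1
    exact h (symmDiff_eq_bot.1 h1)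
  have h1 := Finset.max'_mem _ hne
  have h2 : ∀ β, (symmDiff F F').max' hne < β → (β ∈ F ↔ β ∈ F') := by
    intro β hβ
    by_contra hcon
    have h3 : β ∈ symmDiff F F' := by
      rw [Finset.mem_symmDiff]
      tauto
    exact absurd (Finset.le_max' _ _ h3) (not_le.2 hβ)
  rcases Finset.mem_symmDiff.1 h1 with ⟨h3, h4⟩ | ⟨h3, h4⟩
  · exact Or.inr ⟨_, h3, h4, fun β hβ => (h2 β hβ).symm⟩
  · exact Or.inl ⟨_, h3, h4, h2⟩

/-- The ordering of keys. -/
def KLt (k k' : Finset Ordinal.{u} × ℕ) : Prop := CLt k.1 k'.1 ∨ (k.1 = k'.1 ∧ k.2 < k'.2)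

theorem KLt.wf : WellFounded KLt.{u} := by
  refine Subrelation.wf ?_ (WellFounded.prod_lex CLt.wf (wellFounded_lt (α := ℕ)))
  rintro ⟨F, n⟩ ⟨F', n'⟩ (h | ⟨h1, h2⟩)
  · exact Prod.Lex.left _ _ h
  · obtain rfl : F = F' := h1
    exact Prod.Lex.right _ h2

theorem KLt.tri {k k' : Finset Ordinal.{u} × ℕ} (h : k ≠ k') : KLt k k' ∨ KLt k' k := by
  by_cases h1 : k.1 = k'.1
  · have h2 : k.2 ≠ k'.2 := fun h2 => h (Prod.ext h1 h2)
    rcases lt_or_gt_of_ne h2 with h3 | h3
    · exact Or.inl (Or.inr ⟨h1, h3⟩)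
    · exact Or.inr (Or.inr ⟨h1.symm, h3⟩)
  · exact (CLt.tri h1).imp Or.inl Or.inl

/-- The set of ordinals given by `F`. -/
noncomputable def fs (F : Finset Ordinal.{u}) : ZFSet.{u} :=
  ZFSet.range (fun α : F => α.1.toZFSet)

theorem mem_fs {F : Finset Ordinal.{u}} {t : ZFSet.{u}} : t ∈ fs F ↔
    ∃ α ∈ F, t = α.toZFSet := by
  rw [fs, ZFSet.mem_range]
  constructor
  · rintro ⟨α, rfl⟩
    exact ⟨α.1, α.2, rfl⟩
  · rintro ⟨α, h, rfl⟩
    exact ⟨⟨α, h⟩, rfl⟩

theorem ord_mem_fs {F : Finset Ordinal.{u}} {α : Ordinal.{u}} : α.toZFSet ∈ fs F ↔ α ∈ F := by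
  rw [mem_fs]
  constructor
  · rintro ⟨β, hβ, h⟩
    rwa [Ordinal.toZFSet_injective h]
  · exact fun h => ⟨α, h, rfl⟩

theorem fs_inj {F F' : Finset Ordinal.{u}} (h : fs F = fs F') : F = F' := by
  ext α
  rw [← ord_mem_fs, h, ord_mem_fs]

/-- The assignment given by `F`. -/
noncomputable def asg (F : Finset Ordinal.{u}) : ZFSet.{u} :=
  ZFSet.range (fun α : F => ZFSet.pair (ZFSet.pair α.1.toZFSet α.1.toZFSet) α.1.toZFSet)

theorem mem_asg {F : Finset Ordinal.{u}} {t : ZFSet.{u}} : t ∈ asg F ↔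
    ∃ α ∈ F, t = ZFSet.pair (ZFSet.pair α.toZFSet α.toZFSet) α.toZFSet := by
  rw [asg, ZFSet.mem_range]
  constructor
  · rintro ⟨α, rfl⟩
    exact ⟨α.1, α.2, rfl⟩
  · rintro ⟨α, h, rfl⟩
    exact ⟨⟨α, h⟩, rfl⟩

variable {m : Ordinal.{u}}

theorem empty_mem (hm : 0 < m) : (∅ : ZFSet.{u}) ∈ Lset m := by
  have h1 := (toZFSet_mem_Lset_iff m 0).2 hm
  have h2 : (0 : Ordinal.{u}).toZFSet = ∅ := by
    have := nn_zero.{u}
    rw [nn] at this
    exact_mod_cast this
  rwa [h2] at h1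

theorem fs_mem (hm : ∀ α < m, α + 1 < m) (hm0 : 0 < m) {F : Finset Ordinal.{u}}
    (hF : ∀ α ∈ F, α < m) : fs F ∈ Lset m := by
  classical
  induction F using Finset.induction_on with
  | empty =>
    have : fs (∅ : Finset Ordinal.{u}) = ∅ := by
      ext t
      rw [mem_fs]
      simp
    rw [this]
    exact empty_mem hm0
  | insert α F _ ih =>
    have : fs (insert α F) = insert α.toZFSet (fs F) := by
      ext t
      rw [mem_fs, ZFSet.mem_insert_iff, mem_fs]
      simp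
    rw [this]
    exact Lset_insert hm ((toZFSet_mem_Lset_iff _ _).2 (hF α (Finset.mem_insert_self _ _)))
      (ih fun β hβ => hF β (Finset.mem_insert_of_mem hβ))

theorem asg_mem (hm : ∀ α < m, α + 1 < m) (hm0 : 0 < m) {F : Finset Ordinal.{u}}
    (hF : ∀ α ∈ F, α < m) : asg F ∈ Lset m := by
  classical
  induction F using Finset.induction_on with
  | empty =>
    have : asg (∅ : Finset Ordinal.{u}) = ∅ := by
      ext t
      rw [mem_asg]
      simp
    rw [this]
    exact empty_mem hm0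
  | insert α F _ ih =>
    have : asg (insert α F) = insert (ZFSet.pair (ZFSet.pair α.toZFSet α.toZFSet)
        α.toZFSet) (asg F) := by
      ext t
      rw [mem_asg, ZFSet.mem_insert_iff, mem_asg]
      simp
    rw [this]
    have h1 := (toZFSet_mem_Lset_iff m α).2 (hF α (Finset.mem_insert_self _ _))
    exact Lset_insert hm (Lset_pair hm (Lset_pair hm h1 h1) h1)
      (ih fun β hβ => hF β (Finset.mem_insert_of_mem hβ))

/-- The key `(F, N)` isolates `z`. -/
def Isol (m : Ordinal.{u}) (F : Finset Ordinal.{u}) (N : ℕ) (z : ZFSet.{u}) : Prop :=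
  (∀ α ∈ F, α < m) ∧ z ∈ Lset m ∧ ∀ z' ∈ Lset m,
    BF (Lset m) N (insert (ZFSet.pair (nn N) z) (asg F))
      (insert (ZFSet.pair (nn N) z') (asg F)) → z' = z

theorem pair_self_ne_nn (x : ZFSet.{u}) (k : ℕ) : ZFSet.pair x x ≠ nn k := by
  intro h
  have h1 : ({x} : ZFSet.{u}) ∈ nn k := by
    rw [← h]
    simp [ZFSet.pair]
  obtain ⟨j, hj, h2⟩ := mem_nn.1 h1
  have h3 : nn.{u} 0 ∈ nn k := nn_mem_nn.2 (by omega)
  rw [← h] at h3
  have h4 : nn.{u} 0 = {x} := by
    simpa [ZFSet.pair] using h3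
  have h5 : x ∈ nn.{u} 0 := by
    rw [h4]
    exact ZFSet.mem_singleton.2 rfl
  rw [nn_zero] at h5
  exact ZFSet.notMem_empty _ h5

theorem isol_finite (m : Ordinal.{u}) (F : Finset Ordinal.{u}) (N : ℕ) :
    {z | Isol m F N z}.Finite := by
  classical
  obtain ⟨k, ⟨e⟩⟩ : ∃ k, Nonempty (F ≃ Fin k) := ⟨F.card, ⟨F.equivFin⟩⟩
  let idx : Option (Fin k) → ZFSet.{u} := fun o => o.elim (nn N)
    (fun i => ZFSet.pair (e.symm i).1.toZFSet (e.symm i).1.toZFSet)
  have hidx : Function.Injective idx := by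
    rintro (_ | i) (_ | j) h
    · rfl
    · exact absurd h.symm (pair_self_ne_nn _ _)
    · exact absurd h (pair_self_ne_nn _ _)
    · have h1 := (ZFSet.pair_injective h).1
      have h2 := Ordinal.toZFSet_injective h1
      have h3 : e.symm i = e.symm j := Subtype.ext h2
      rw [e.symm.injective h3]
  obtain ⟨Θ, _, τ, hτ⟩ := BF.finite (Lset m) N (Option (Fin k)) idx hidx (by
    rintro (_ | i) j hj h
    · exact absurd (nn_inj h) hj.ne'
    · exact pair_self_ne_nn _ _ h)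
  by_cases hF : ∀ α ∈ F, α < m
  · let f : {x : ZFSet.{u} // x ∈ Lset m} → Option (Fin k) → {x : ZFSet.{u} // x ∈ Lset m} :=
      fun z o => o.elim z (fun i => ⟨(e.symm i).1.toZFSet,
        (toZFSet_mem_Lset_iff _ _).2 (hF _ (e.symm i).2)⟩)
    have hcode : ∀ z, code idx (fun o => (f z o).1) =
        insert (ZFSet.pair (nn N) z.1) (asg F) := by
      intro z
      ext t
      rw [ZFSet.mem_insert_iff, code, ZFSet.mem_range, mem_asg]
      constructor
      · rintro ⟨_ | i, rfl⟩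
        · exact Or.inl rfl
        · exact Or.inr ⟨(e.symm i).1, (e.symm i).2, rfl⟩
      · rintro (rfl | ⟨α, hα, rfl⟩)
        · exact ⟨none, rfl⟩
        · refine ⟨some (e ⟨α, hα⟩), ?_⟩
          show ZFSet.pair (ZFSet.pair (e.symm (e ⟨α, hα⟩)).1.toZFSet
            (e.symm (e ⟨α, hα⟩)).1.toZFSet) (e.symm (e ⟨α, hα⟩)).1.toZFSet = _
          rw [Equiv.symm_apply_apply]
    have hfin : Finite {z | Isol m F N z} := by
      refine Finite.of_injective (β := Θ) (fun z => τ (f ⟨z.1, z.2.2.1⟩)) fun z z' h => ?_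
      have h1 := hτ _ _ h
      rw [hcode, hcode] at h1
      exact (Subtype.ext (z.2.2.2 z'.1 z'.2.2.1 h1)).symm
    exact Set.toFinite _
  · refine Set.Finite.subset Set.finite_empty ?_
    rintro z ⟨h, -⟩
    exact hF h

theorem exists_key {J : Set Ordinal.{u}} (hJ : IsSilver J) {κ : Cardinal.{u}} (hκ : ℵ₀ < κ)
    {z : ZFSet.{u}} (hz : z ∈ Lset κ.ord) : ∃ F N, Isol κ.ord F N z := by
  classical
  have h0 : 0 < κ.ord := omega0_pos.trans (by rw [Cardinal.lt_ord]; simpa using hκ)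
  have hωκ : ω < κ.ord := by rw [Cardinal.lt_ord]; simpa using hκ
  have S := hJ.sit hκ h0
  obtain ⟨n, e, T, he, ⟨φ, hφ⟩, hd⟩ := S.gen ⟨z, hz⟩
  have hM : ∀ n, nn.{u} n ∈ Lset κ.ord := fun n =>
    (toZFSet_mem_Lset_iff _ _).2 ((natCast_lt_omega0 n).trans hωκ)
  obtain ⟨N, hN⟩ := BF.formula (M := Lset κ.ord) hM φ
  refine ⟨Finset.univ.image e, N, fun α hα => ?_, hz, fun z' hz' hb => ?_⟩
  · obtain ⟨i, -, rfl⟩ := Finset.mem_image.1 hα
    exact (he i).2
  · let v : LA κ.ord → (Fin n ⊕ Unit) ⊕ Fin 0 → LA κ.ord := fun y =>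
      Sum.elim (Sum.elim (cc κ.ord h0 ∘ e) fun _ => y) (fun i => i.elim0)
    let ι : (Fin n ⊕ Unit) ⊕ Fin 0 → ZFSet.{u} :=
      Sum.elim (Sum.elim (fun i => ZFSet.pair (e i).toZFSet (e i).toZFSet)
        fun _ => nn N) (fun i => i.elim0)
    have hv : ∀ y : LA κ.ord, ∀ i, ZFSet.pair (ι i) (v y i).1 ∈
        insert (ZFSet.pair (nn N) y.1) (asg (Finset.univ.image e)) := by
      rintro y ((i | i) | i)
      · refine ZFSet.mem_insert_of_mem _ (mem_asg.2 ⟨e i,
          Finset.mem_image_of_mem _ (Finset.mem_univ _), ?_⟩)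
        show ZFSet.pair _ (cc κ.ord h0 (e i)).1 = _
        rw [cc_val h0 (he i).2]
        rfl
      · exact ZFSet.mem_insert _ _
      · exact i.elim0
    have h1 := hN N le_rfl _ _ ι (v ⟨z, hz⟩) (v ⟨z', hz'⟩) ?_ (hv _) (hv _) hb
    · have e1 : ∀ y : LA κ.ord, (FirstOrder.Language.BoundedFormula.Realize φ
          (v y ∘ Sum.inl) (v y ∘ Sum.inr) ↔ T (cc κ.ord h0 ∘ e) y) := by
        intro y
        have e2 : v y ∘ Sum.inl = Sum.elim (cc κ.ord h0 ∘ e) fun _ => y := rfl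
        have e3 : v y ∘ Sum.inr = default := Subsingleton.elim _ _
        rw [e2, e3]
        exact hφ _
      rw [e1, e1] at h1
      have h2 := (hd ⟨z', hz'⟩).1 (h1.1 hd.holds)
      exact congrArg Subtype.val h2
    · rintro ((i | i) | i)
      · have h2 : (e i).toZFSet ∈ Lset κ.ord := (toZFSet_mem_Lset_iff _ _).2 (he i).2
        exact Lset_pair (card_lim hκ) h2 h2
      · exact hM N
      · exact i.elim0

end Pool.Agent.ZSharp
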