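import Pool.Agent.ZSharp.Main

/-!
# Closure properties of `L_θ`, definability of basic notions
-/

set_option autoImplicit false
set_option linter.deprecated false

open FirstOrder Set Ordinal Cardinal

namespace Pool.Agent.ZSharp

universe u

/-- The elements of `L_θ`. -/
abbrev LA (lam : Ordinal.{u}) : Type (u + 1) := {x : ZFSet.{u} // x ∈ Lset lam}

section closure

variable {lam : Ordinal.{u}}

theorem Lset_level (hl : ∀ α < lam, α + 1 < lam) {x : ZFSet.{u}} (hx : x ∈ Lset lam) :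
    ∃ α < lam, x ∈ Lset α := by
  obtain ⟨β, hβ, h⟩ := mem_Lset.1 hx
  exact ⟨β + 1, hl β hβ, mem_Lset.2 ⟨β, lt_add_one β, h⟩⟩

theorem Lset_level2 (hl : ∀ α < lam, α + 1 < lam) {x y : ZFSet.{u}} (hx : x ∈ Lset lam)
    (hy : y ∈ Lset lam) : ∃ α < lam, x ∈ Lset α ∧ y ∈ Lset α := by
  obtain ⟨α, hα, h1⟩ := Lset_level hl hx
  obtain ⟨β, hβ, h2⟩ := Lset_level hl hy
  exact ⟨max α β, max_lt hα hβ, Lset_mono (le_max_left _ _) h1,
    Lset_mono (le_max_right _ _) h2⟩

theorem Lset_upair (hl : ∀ α < lam, α + 1 < lam) {x y : ZFSet.{u}} (hx : x ∈ Lset lam)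
    (hy : y ∈ Lset lam) : ({x, y} : ZFSet.{u}) ∈ Lset lam := by
  obtain ⟨α, hα, h1, h2⟩ := Lset_level2 hl hx hy
  refine Lset_mono (hl α hα).le (mem_of_dfn (lam := α) (I := Fin 2)
    (R := fun v z => z = v 0 ∨ z = v 1) ?_ ?_ ![⟨x, h1⟩, ⟨y, h2⟩] ?_)
  · intro z hz
    rcases ZFSet.mem_pair.1 hz with rfl | rfl
    · exact h1
    · exact h2
  · exact (Dfn.eq (Sum.inr ()) (Sum.inl 0)).or (Dfn.eq (Sum.inr ()) (Sum.inl 1))
  · intro z
    rw [ZFSet.mem_pair]
    have e1 : z.1 = x ↔ z = ⟨x, h1⟩ := ⟨fun h => Subtype.ext h, fun h => congrArg Subtype.val h⟩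
    have e2 : z.1 = y ↔ z = ⟨y, h2⟩ := ⟨fun h => Subtype.ext h, fun h => congrArg Subtype.val h⟩
    exact or_congr e1 e2

theorem Lset_singleton (hl : ∀ α < lam, α + 1 < lam) {x : ZFSet.{u}} (hx : x ∈ Lset lam) :
    ({x} : ZFSet.{u}) ∈ Lset lam := by
  have h1 := Lset_upair hl hx hx
  rwa [ZFSet.pair_eq_singleton] at h1

theorem Lset_pair (hl : ∀ α < lam, α + 1 < lam) {x y : ZFSet.{u}} (hx : x ∈ Lset lam)
    (hy : y ∈ Lset lam) : ZFSet.pair x y ∈ Lset lam :=
  Lset_upair hl (Lset_singleton hl hx) (Lset_upair hl hx hy)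

theorem Lset_union (hl : ∀ α < lam, α + 1 < lam) {x y : ZFSet.{u}} (hx : x ∈ Lset lam)
    (hy : y ∈ Lset lam) : x ∪ y ∈ Lset lam := by
  obtain ⟨α, hα, h1, h2⟩ := Lset_level2 hl hx hy
  refine Lset_mono (hl α hα).le (mem_of_dfn (lam := α) (I := Fin 2)
    (R := fun v z => z.1 ∈ (v 0).1 ∨ z.1 ∈ (v 1).1) ?_ ?_ ![⟨x, h1⟩, ⟨y, h2⟩] ?_)
  · intro z hz
    rcases ZFSet.mem_union.1 hz with h | h
    · exact Lset_trans h1 h
    · exact Lset_trans h2 h
  · exact (dfn_mem' (Sum.inr ()) (Sum.inl 0)).or (dfn_mem' (Sum.inr ()) (Sum.inl 1))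
  · intro z
    rw [ZFSet.mem_union]
    rfl

theorem Lset_insert (hl : ∀ α < lam, α + 1 < lam) {x y : ZFSet.{u}} (hx : x ∈ Lset lam)
    (hy : y ∈ Lset lam) : insert x y ∈ Lset lam := by
  have h1 := Lset_union hl (Lset_singleton hl hx) hy
  have h2 : insert x y = {x} ∪ y := by
    ext z
    simp
  rwa [h2]

end closure

theorem card_lim {κ : Cardinal.{u}} (hκ : ℵ₀ < κ) : ∀ α < κ.ord, α + 1 < κ.ord := by
  intro α hα
  exact isPrincipal_add_ord hκ.le hα (by rw [Cardinal.lt_ord]; simpa using one_lt_aleph0.trans hκ)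

/-- There are cardinals `κ` such that all constructible subsets of `a` are in `L_κ`. -/
theorem exists_big (a : ZFSet.{u}) (ν : Cardinal.{u}) : ∃ κ : Cardinal.{u}, ν < κ ∧ ℵ₀ < κ ∧
    ∀ x : ZFSet.{u}, Constructible x → x ⊆ a → x ∈ Lset κ.ord := by
  classical
  let f : Shrink.{u} a.powerset → Ordinal.{u} := fun i =>
    if h : Constructible ((equivShrink a.powerset).symm i).1 then h.choose else 0
  let κ : Cardinal.{u} := Order.succ (max (Ordinal.lsub f).card (max ν ℵ₀))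
  have h1 : max (Ordinal.lsub f).card (max ν ℵ₀) < κ := Order.lt_succ _
  refine ⟨κ, ((le_max_left _ _).trans (le_max_right _ _)).trans_lt h1,
    ((le_max_right _ _).trans (le_max_right _ _)).trans_lt h1, fun x hx hxa => ?_⟩
  have h2 : Ordinal.lsub f < κ.ord := Cardinal.lt_ord.2 ((le_max_left _ _).trans_lt h1)
  have h3 : f (equivShrink a.powerset ⟨x, ZFSet.mem_powerset.2 hxa⟩) = hx.choose := by
    have h4 : Constructible ((equivShrink a.powerset).symm
        (equivShrink a.powerset ⟨x, ZFSet.mem_powerset.2 hxa⟩)).1 := by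
      rw [Equiv.symm_apply_apply]
      exact hx
    have h5 : ∀ y : ZFSet.{u}, ∀ hy : Constructible y, y = x → hy.choose = hx.choose := by
      rintro y hy rfl
      rfl
    exact (dif_pos h4).trans (h5 _ h4 (by rw [Equiv.symm_apply_apply]))
  have h6 : hx.choose < κ.ord := by
    rw [← h3]
    exact (Ordinal.lt_lsub f _).trans h2
  exact Lset_mono h6.le hx.choose_spec

section dfn

variable {lam : Ordinal.{u}}

/-- The last variable. -/
abbrev vz {I : Type} : I ⊕ Unit := Sum.inr ()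

/-- The old variables. -/
abbrev vs {I : Type} (i : I) : I ⊕ Unit := Sum.inl i

theorem dfn_sub {I : Type} (i j : I) : Dfn LST (fun v : I → LA lam =>
    (v i).1 ⊆ (v j).1) := by
  refine Dfn.congr (R := fun v => ∀ t : LA lam, t.1 ∈ (v i).1 → t.1 ∈ (v j).1) ?_ ?_
  · exact Dfn.all ((dfn_mem' vz (vs i)).imp (dfn_mem' vz (vs j)))
  · intro v
    constructor
    · intro h t ht
      exact h ⟨t, Lset_trans (v i).2 ht⟩ ht
    · intro h t ht
      exact h ht

theorem eqPair_iff {x y z : LA lam} : z.1 = ZFSet.pair x.1 y.1 ↔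
    ∃ a b : LA lam, (∀ t, t.1 ∈ a.1 ↔ t = x) ∧ (∀ t, t.1 ∈ b.1 ↔ (t = x ∨ t = y)) ∧
      (∀ t, t.1 ∈ z.1 ↔ (t = a ∨ t = b)) := by
  constructor
  · intro h
    have ha : ({x.1} : ZFSet) ∈ Lset lam := Lset_trans z.2 (by rw [h]; simp [ZFSet.pair])
    have hb : ({x.1, y.1} : ZFSet) ∈ Lset lam := Lset_trans z.2 (by
      rw [h]; simp [ZFSet.pair])
    refine ⟨⟨_, ha⟩, ⟨_, hb⟩, fun t => ?_, fun t => ?_, fun t => ?_⟩
    · exact ZFSet.mem_singleton.trans Subtype.ext_iff.symm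
    · exact ZFSet.mem_pair.trans (or_congr Subtype.ext_iff.symm Subtype.ext_iff.symm)
    · rw [h]
      exact ZFSet.mem_pair.trans (or_congr (Subtype.ext_iff (a2 := ⟨_, ha⟩)).symm
        (Subtype.ext_iff (a2 := ⟨_, hb⟩)).symm)
  · rintro ⟨a, b, ha, hb, hz⟩
    have ea : a.1 = {x.1} := by
      ext t
      rw [ZFSet.mem_singleton]
      constructor
      · intro ht
        exact congrArg Subtype.val ((ha ⟨t, Lset_trans a.2 ht⟩).1 ht)
      · rintro rfl
        exact (ha x).2 rfl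
    have eb : b.1 = {x.1, y.1} := by
      ext t
      rw [ZFSet.mem_pair]
      constructor
      · intro ht
        exact ((hb ⟨t, Lset_trans b.2 ht⟩).1 ht).imp (congrArg Subtype.val)
          (congrArg Subtype.val)
      · rintro (rfl | rfl)
        · exact (hb x).2 (Or.inl rfl)
        · exact (hb y).2 (Or.inr rfl)
    ext t
    rw [ZFSet.pair, ZFSet.mem_pair, ← ea, ← eb]
    constructor
    · intro ht
      exact ((hz ⟨t, Lset_trans z.2 ht⟩).1 ht).imp (congrArg Subtype.val)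
        (congrArg Subtype.val)
    · rintro (rfl | rfl)
      · exact (hz a).2 (Or.inl rfl)
      · exact (hz b).2 (Or.inr rfl)

theorem dfn_eqPair {I : Type} (k i j : I) : Dfn LST (fun v : I → LA lam =>
    (v k).1 = ZFSet.pair (v i).1 (v j).1) := by
  refine Dfn.congr ?_ (fun v => eqPair_iff.symm)
  refine Dfn.ex (Dfn.ex (Dfn.and (Dfn.all ?_) (Dfn.and (Dfn.all ?_) (Dfn.all ?_))))
  · exact (dfn_mem' vz (vs (vs vz))).iff (Dfn.eq vz (vs (vs (vs i))))
  · exact (dfn_mem' vz (vs vz)).iff ((Dfn.eq vz (vs (vs (vs i)))).or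
      (Dfn.eq vz (vs (vs (vs j)))))
  · exact (dfn_mem' vz (vs (vs (vs k)))).iff ((Dfn.eq vz (vs (vs vz))).or
      (Dfn.eq vz (vs vz)))

/-- `v u = v x ∪ {(v n, v c)}`. -/
theorem dfn_ins {I : Type} (u' n c x : I) : Dfn LST (fun v : I → LA lam =>
    (v u').1 = insert (ZFSet.pair (v n).1 (v c).1) (v x).1) := by
  refine Dfn.congr (R := fun v => (∃ w : LA lam, w.1 = ZFSet.pair (v n).1 (v c).1 ∧
    w.1 ∈ (v u').1) ∧ ∀ t : LA lam, t.1 ∈ (v u').1 ↔
      (t.1 = ZFSet.pair (v n).1 (v c).1 ∨ t.1 ∈ (v x).1)) ?_ ?_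
  · refine Dfn.and (Dfn.ex ((dfn_eqPair vz (vs n) (vs c)).and (dfn_mem' vz (vs u'))))
      (Dfn.all ((dfn_mem' vz (vs u')).iff ((dfn_eqPair vz (vs n) (vs c)).or
        (dfn_mem' vz (vs x)))))
  · intro v
    constructor
    · rintro ⟨⟨w, hw, hw'⟩, h⟩
      ext t
      rw [ZFSet.mem_insert_iff]
      constructor
      · intro ht
        exact (h ⟨t, Lset_trans (v u').2 ht⟩).1 ht
      · rintro (rfl | ht)
        · rw [← hw]
          exact hw'
        · exact (h ⟨t, Lset_trans (v x).2 ht⟩).2 (Or.inr ht)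
    · intro h
      have h1 : ZFSet.pair (v n).1 (v c).1 ∈ (v u').1 := by
        rw [h]
        exact ZFSet.mem_insert _ _
      refine ⟨⟨⟨_, Lset_trans (v u').2 h1⟩, rfl, h1⟩, fun t => ?_⟩
      rw [h, ZFSet.mem_insert_iff]

/-- `v j = v i ∪ {v i}`. -/
theorem dfn_succ {I : Type} (j i : I) : Dfn LST (fun v : I → LA lam =>
    (v j).1 = insert (v i).1 (v i).1) := by
  refine Dfn.congr (R := fun v => (v i).1 ∈ (v j).1 ∧ ∀ t : LA lam, t.1 ∈ (v j).1 ↔
    (t = v i ∨ t.1 ∈ (v i).1)) ?_ ?_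
  · exact (dfn_mem' i j).and (Dfn.all ((dfn_mem' vz (vs j)).iff ((Dfn.eq vz (vs i)).or
      (dfn_mem' vz (vs i)))))
  · intro v
    constructor
    · rintro ⟨h0, h⟩
      ext t
      rw [ZFSet.mem_insert_iff]
      constructor
      · intro ht
        exact ((h ⟨t, Lset_trans (v j).2 ht⟩).1 ht).imp (congrArg Subtype.val) id
      · rintro (rfl | ht)
        · exact h0
        · exact (h ⟨t, Lset_trans (v i).2 ht⟩).2 (Or.inr ht)
    · intro h
      refine ⟨by rw [h]; exact ZFSet.mem_insert _ _, fun t => ?_⟩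
      rw [h, ZFSet.mem_insert_iff]
      exact or_congr Subtype.ext_iff.symm Iff.rfl

end dfn

end Pool.Agent.ZSharp
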