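import Pool.Agent.ZSharp.Remark2

/-!
# Indiscernibility over small ordinals
-/

set_option autoImplicit false

open FirstOrder Set Ordinal

namespace Pool.Agent.ZSharp

universe u v w

variable {L : FirstOrder.Language.{0, 0}} {A : Type w} [L.Structure A]
  {c : Ordinal.{u} → A} {lam : Ordinal.{u}} {J : Set Ordinal.{u}} {E : A → A → Prop}

theorem Sit.lowDef (S : Sit L A c lam J E) {γ ξ : Ordinal.{u}} (hγ : γ < lam) (hξ : ξ ≤ γ) :
    ∃ (Q : Type) (_ : Finite Q) (m : ℕ) (e : Q → Ordinal.{u})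
      (T : (Q ⊕ Fin m → A) → A → Prop), InJ J lam e ∧ (∀ q, e q ≤ γ) ∧ Dfn1 L T ∧
      ∀ x : Fin m → Ordinal.{u}, StrictMono x → InJ J lam x → (∀ k, γ < x k) →
        IsDef T (c ∘ Sum.elim e x) (c ξ) := by
  classical
  obtain ⟨n, e0, T0, he0, hT0, hd0⟩ := S.gen (c ξ)
  obtain ⟨m, t, r, ht, hr⟩ := exists_sort (fun i : {i : Fin n // γ < e0 i} => e0 i)
  let g : Fin n → {i : Fin n // e0 i ≤ γ} ⊕ Fin m := fun i =>
    if h : e0 i ≤ γ then Sum.inl ⟨i, h⟩ else Sum.inr (r ⟨i, not_le.1 h⟩)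
  let e : {i : Fin n // e0 i ≤ γ} → Ordinal.{u} := fun i => e0 i
  let x0 : Fin m → Ordinal.{u} := fun k => e0 (t k)
  have hg : Sum.elim e x0 ∘ g = e0 := by
    funext i
    by_cases h : e0 i ≤ γ
    · simp [g, h, e]
    · simp only [g, h, Function.comp_apply, dite_false, Sum.elim_inr, x0]
      exact hr ⟨i, not_le.1 h⟩
  have hT : Dfn1 L (fun (v : {i : Fin n // e0 i ≤ γ} ⊕ Fin m → A) x => T0 (v ∘ g) x) :=
    hT0.relabel g
  have heJ : InJ J lam e := fun i => he0 i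
  have hx0J : InJ J lam x0 := fun k => he0 _
  have hx0γ : ∀ k, γ < x0 k := fun k => (t k).2
  have hd : IsDef (fun (v : {i : Fin n // e0 i ≤ γ} ⊕ Fin m → A) x => T0 (v ∘ g) x)
      (c ∘ Sum.elim e x0) (c ξ) := by
    intro y
    have : (c ∘ Sum.elim e x0) ∘ g = c ∘ e0 := by
      rw [Function.comp_assoc, hg]
    simp only [this]
    exact hd0 y
  refine ⟨{i : Fin n // e0 i ≤ γ}, inferInstance, m, e, _, heJ, fun q => q.2, hT,
    fun x hx hxJ hxγ => ?_⟩
  exact S.remark hT heJ ⟨ht, hx0J, fun q k => q.2.trans_lt (hx0γ k)⟩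
    (fun k => hξ.trans_lt (hx0γ k)) (hξ.trans_lt hγ) hd
    ⟨hx, hxJ, fun q k => q.2.trans_lt (hxγ k)⟩

/-- Indiscernibility of the large indiscernibles over small ordinals. -/
theorem Sit.lowInd (S : Sit L A c lam J E) {κ I : Type} [Finite κ] [Finite I]
    {R : (κ ⊕ I → A) → Prop} (hR : Dfn L R) {γ : Ordinal.{u}} (hγ : γ < lam)
    {ξ : κ → Ordinal.{u}} (hξ : ∀ i, ξ i ≤ γ) {a b : I → Ordinal.{u}} (ha : InJ J lam a)
    (hb : InJ J lam b) (haγ : ∀ i, γ < a i) (hbγ : ∀ i, γ < b i) (h : OE a b) :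
    R (c ∘ Sum.elim ξ a) ↔ R (c ∘ Sum.elim ξ b) := by
  classical
  choose Q finQ m e T he heγ hT hd using fun i => S.lowDef hγ (hξ i)
  let eS : (Σ i, Q i) → Ordinal.{u} := fun p => e p.1 p.2
  obtain ⟨β, hβ, hβa⟩ := S.exists_bound (a := Sum.elim (Sum.elim eS (Sum.elim a b))
    (fun _ : Unit => γ)) (by
      rintro ((p | (i | i)) | _)
      · exact (he p.1 p.2).2
      · exact (ha i).2
      · exact (hb i).2
      · exact hγ)
  let hS : (Σ i, Fin (m i)) → Ordinal.{u} := fun p => blk J β (m := m p.1) 0 p.2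
  have h0l : (0 : Ordinal.{u}) < lam := zero_le.trans_lt S.omega_lt
  have hhJ : InJ J lam hS := fun p => S.blk_inJ hβ h0l p.2
  have heJ : InJ J lam eS := fun p => he p.1 p.2
  have hhβ : ∀ p, β ≤ hS p := fun p => S.le_blk β 0 p.2
  let idx := ((Σ i, Q i) ⊕ I) ⊕ (Σ i, Fin (m i))
  let g : (i : κ) → Q i ⊕ Fin (m i) → idx := fun i =>
    Sum.elim (fun q => Sum.inl (Sum.inl ⟨i, q⟩)) (fun k => Sum.inr ⟨i, k⟩)
  let gI : I → idx := fun i => Sum.inl (Sum.inr i)
  let P : (idx → A) → Prop := fun v =>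
    ∃ u : κ → A, (∀ i, IsDef (T i) (v ∘ g i) (u i)) ∧ R (Sum.elim u (v ∘ gI))
  have hP : Dfn L P := by
    refine Dfn.exs (R := fun w : idx ⊕ κ → A =>
      (∀ i, IsDef (T i) ((w ∘ Sum.inl) ∘ g i) ((w ∘ Sum.inr) i)) ∧
        R (Sum.elim (w ∘ Sum.inr) ((w ∘ Sum.inl) ∘ gI))) ?_ |>.congr fun v => ?_
    · refine (Dfn.finAll fun i => (hT i).isDef.at (K := idx ⊕ κ) (fun q => Sum.inl (g i q))
        (Sum.inr i)).and ((hR.relabel (Sum.elim (Sum.inr : κ → idx ⊕ κ)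
          (fun i => Sum.inl (gI i)))).congr fun v => ?_)
      refine iff_of_eq (congrArg R ?_)
      funext i
      rcases i with i | i <;> rfl
    · exact Iff.rfl
  have key : ∀ a' : I → Ordinal.{u}, InJ J lam a' →
      (P (c ∘ Sum.elim (Sum.elim eS a') hS) ↔ R (c ∘ Sum.elim ξ a')) := by
    intro a' ha'
    have e1 : ∀ i, IsDef (T i) ((c ∘ Sum.elim (Sum.elim eS a') hS) ∘ g i) (c (ξ i)) := by
      intro i
      have e2 : (c ∘ Sum.elim (Sum.elim eS a') hS) ∘ g i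
          = c ∘ Sum.elim (e i) (blk J β (m := m i) 0) := by
        funext q
        rcases q with q | q <;> rfl
      rw [e2]
      refine hd i _ (S.blk_mono β 0) (S.blk_inJ hβ h0l) fun k => ?_
      exact (hβa (Sum.inr ())).trans_le (S.le_blk β 0 k)
    have e3 : (c ∘ Sum.elim (Sum.elim eS a') hS) ∘ gI = c ∘ a' := rfl
    constructor
    · rintro ⟨u, hu, hRu⟩
      have : u = c ∘ ξ := by
        funext i
        exact (hu i).unique (e1 i)
      rw [this, e3, ← comp_sum] at hRu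
      exact hRu
    · intro hRa
      refine ⟨c ∘ ξ, e1, ?_⟩
      rw [e3, ← comp_sum]
      exact hRa
  rw [← key a ha, ← key b hb]
  have : Finite idx := inferInstance
  refine S.ind hP ((heJ.sum ha).sum hhJ) ((heJ.sum hb).sum hhJ) ?_
  refine OE.sum (OE.sum (OE.refl _) h (fun p i => (heγ p.1 p.2).trans_lt (haγ i))
    (fun p i => (heγ p.1 p.2).trans_lt (hbγ i))) (OE.refl _) ?_ ?_
  · rintro (p | i) q
    · exact (hβa (Sum.inl (Sum.inl p))).trans_le (hhβ q)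
    · exact (hβa (Sum.inl (Sum.inr (Sum.inl i)))).trans_le (hhβ q)
  · rintro (p | i) q
    · exact (hβa (Sum.inl (Sum.inl p))).trans_le (hhβ q)
    · exact (hβa (Sum.inl (Sum.inr (Sum.inr i)))).trans_le (hhβ q)

end Pool.Agent.ZSharp
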