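import Pool.Agent.ZSharp.Inst

/-!
# Absoluteness of the chain condition
-/

set_option autoImplicit false

open FirstOrder Set Ordinal Cardinal

namespace Pool.Agent.ZSharp

universe u

/-- Above every cardinal there is a strong limit cardinal. -/
theorem exists_limit (ν : Cardinal.{u}) : ∃ κ : Cardinal.{u}, ν < κ ∧ ℵ₀ < κ ∧
    κ.IsStrongLimit := by
  refine ⟨ℶ_ (ν.ord + ω), ?_, ?_, ?_⟩
  · exact (Cardinal.le_beth_ord ν).trans_lt (Cardinal.beth_lt_beth.2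
      (lt_add_of_pos_right _ omega0_pos))
  · refine (Cardinal.aleph0_le_beth 0).trans_lt (Cardinal.beth_lt_beth.2 ?_)
    exact omega0_pos.trans_le le_add_self
  · rw [Cardinal.isStrongLimit_beth]
    exact (isSuccLimit_add _ isSuccLimit_omega0).isSuccPrelimit

section

variable {lam : Ordinal.{u}}

theorem pair_mem_iff {x y r : {x : ZFSet.{u} // x ∈ Lset lam}} :
    ZFSet.pair x.1 y.1 ∈ r.1 ↔ ∃ z : {x : ZFSet.{u} // x ∈ Lset lam}, z.1 ∈ r.1 ∧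
      ∃ a b : {x : ZFSet.{u} // x ∈ Lset lam}, (∀ t, t.1 ∈ a.1 ↔ t = x) ∧
        (∀ t, t.1 ∈ b.1 ↔ (t = x ∨ t = y)) ∧ (∀ t, t.1 ∈ z.1 ↔ (t = a ∨ t = b)) := by
  constructor
  · intro h
    have hz := Lset_trans r.2 h
    have ha : ({x.1} : ZFSet) ∈ Lset lam := Lset_trans hz (by simp [ZFSet.pair])
    have hb : ({x.1, y.1} : ZFSet) ∈ Lset lam := Lset_trans hz (by simp [ZFSet.pair])
    refine ⟨⟨_, hz⟩, h, ⟨_, ha⟩, ⟨_, hb⟩, fun t => ?_, fun t => ?_, fun t => ?_⟩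
    · exact ZFSet.mem_singleton.trans Subtype.ext_iff.symm
    · exact ZFSet.mem_pair.trans (or_congr Subtype.ext_iff.symm Subtype.ext_iff.symm)
    · exact ZFSet.mem_pair.trans (or_congr (Subtype.ext_iff (a2 := ⟨_, ha⟩)).symm
        (Subtype.ext_iff (a2 := ⟨_, hb⟩)).symm)
  · rintro ⟨z, hz, a, b, ha, hb, hzt⟩
    have ea : a.1 = {x.1} := by
      ext t
      rw [ZFSet.mem_singleton]
      constructor
      · intro ht
        have := (ha ⟨t, Lset_trans a.2 ht⟩).1 ht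
        exact congrArg Subtype.val this
      · rintro rfl
        exact (ha x).2 rfl
    have eb : b.1 = {x.1, y.1} := by
      ext t
      rw [ZFSet.mem_pair]
      constructor
      · intro ht
        have := (hb ⟨t, Lset_trans b.2 ht⟩).1 ht
        exact this.imp (congrArg Subtype.val) (congrArg Subtype.val)
      · rintro (rfl | rfl)
        · exact (hb x).2 (Or.inl rfl)
        · exact (hb y).2 (Or.inr rfl)
    have ez : z.1 = ZFSet.pair x.1 y.1 := by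
      ext t
      rw [ZFSet.pair, ZFSet.mem_pair, ← ea, ← eb]
      constructor
      · intro ht
        have := (hzt ⟨t, Lset_trans z.2 ht⟩).1 ht
        exact this.imp (congrArg Subtype.val) (congrArg Subtype.val)
      · rintro (rfl | rfl)
        · exact (hzt a).2 (Or.inl rfl)
        · exact (hzt b).2 (Or.inr rfl)
    rw [← ez]
    exact hz

theorem dfn_pair {I : Type} (i j k : I) : Dfn LST (fun v : I →
    {x : ZFSet.{u} // x ∈ Lset lam} => ZFSet.pair (v i).1 (v j).1 ∈ (v k).1) := by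
  refine Dfn.congr ?_ (fun v => pair_mem_iff.symm)
  refine Dfn.ex ((dfn_mem' (Sum.inr ()) (Sum.inl k)).and (Dfn.ex (Dfn.ex ?_)))
  refine Dfn.and (Dfn.all ?_) (Dfn.and (Dfn.all ?_) (Dfn.all ?_))
  · exact (dfn_mem' (Sum.inr ()) (Sum.inl (Sum.inl (Sum.inr ())))).iff
      (Dfn.eq (Sum.inr ()) (Sum.inl (Sum.inl (Sum.inl (Sum.inl i)))))
  · exact (dfn_mem' (Sum.inr ()) (Sum.inl (Sum.inr ()))).iff
      ((Dfn.eq (Sum.inr ()) (Sum.inl (Sum.inl (Sum.inl (Sum.inl i))))).or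
      (Dfn.eq (Sum.inr ()) (Sum.inl (Sum.inl (Sum.inl (Sum.inl j))))))
  · exact (dfn_mem' (Sum.inr ()) (Sum.inl (Sum.inl (Sum.inl (Sum.inr ()))))).iff
      ((Dfn.eq (Sum.inr ()) (Sum.inl (Sum.inl (Sum.inr ())))).or
      (Dfn.eq (Sum.inr ()) (Sum.inl (Sum.inr ()))))

end

theorem chain_absolute (h0 : ZeroSharp.{u}) {P R : ZFSet.{u}} (hP : Constructible P)
    (hR : Constructible R) (hf : IsForcing P R) {μ : Cardinal.{u}} (hμ : μ.IsRegular)
    (hμ0 : ℵ₀ < μ) (hcc : LChain P R μ) (Ant : Set ZFSet.{u}) (hA : ∀ a ∈ Ant, a ∈ P)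
    (hA2 : ∀ a ∈ Ant, ∀ b ∈ Ant, Compatible P R a b → a = b) :
    #Ant < Cardinal.lift.{u + 1} μ := by
  classical
  obtain ⟨J, hJ⟩ := h0
  obtain ⟨α, hα⟩ := hP
  obtain ⟨β, hβ⟩ := hR
  obtain ⟨κ, hκ1, hκ0, hκs⟩ := exists_limit (max μ (max α β).card)
  have hμκ : μ < κ := (le_max_left _ _).trans_lt hκ1
  have hαβ : max α β < κ.ord := Cardinal.lt_ord.2 ((le_max_right _ _).trans_lt hκ1)
  have hPκ : P ∈ Lset κ.ord := Lset_mono ((le_max_left _ _).trans hαβ.le) hα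
  have hRκ : R ∈ Lset κ.ord := Lset_mono ((le_max_right _ _).trans hαβ.le) hβ
  have h0l : 0 < κ.ord := zero_le.trans_lt hαβ
  have S := hJ.sit hκ0 h0l
  have hbig : ∀ β < κ.ord, ∃ g < κ.ord, β < g ∧ LimJ J g ∧ μ ≤ g.cof := by
    intro β hβ
    have h1 : max μ β.card < κ := max_lt hμκ (Cardinal.lt_ord.1 hβ)
    have h2 : Order.succ (max μ β.card) < κ := hκs.isSuccLimit.succ_lt h1
    have h3 : ℵ₀ ≤ max μ β.card := hμ0.le.trans (le_max_left _ _)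
    have h4 : (Order.succ (max μ β.card)).IsRegular := isRegular_succ h3
    refine ⟨(Order.succ (max μ β.card)).ord, Cardinal.ord_lt_ord.2 h2, ?_, ?_, ?_⟩
    · exact Cardinal.lt_ord.2 ((le_max_right _ _).trans_lt (Order.lt_succ _))
    · intro γ hγ
      have h5 : ℵ₀ < Order.succ (max μ β.card) := h3.trans_lt (Order.lt_succ _)
      have h6 : γ + 1 < (Order.succ (max μ β.card)).ord :=
        isPrincipal_add_ord h5.le hγ (by
          rw [Cardinal.lt_ord]; simpa using one_lt_aleph0.trans h5)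
      exact ⟨enumOrd J (γ + 1), enumOrd_mem hJ.not_bdd _,
        (lt_add_one γ).trans_le (id_le_enumOrd hJ.not_bdd _), hJ.enum_lt h5 h6⟩
    · rw [h4.cof_ord]
      exact (le_max_left _ _).trans (Order.le_succ _)
  -- the parameters
  let A := {x : ZFSet.{u} // x ∈ Lset κ.ord}
  obtain ⟨n1, e1, T1, he1, hT1, hd1⟩ := S.gen ⟨P, hPκ⟩
  obtain ⟨n2, e2, T2, he2, hT2, hd2⟩ := S.gen ⟨R, hRκ⟩
  let LeA : (Fin n1 ⊕ Fin n2 → A) → A → A → Prop := fun v x y =>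
    ∃ p r, (IsDef T1 (v ∘ Sum.inl) p ∧ IsDef T2 (v ∘ Sum.inr) r) ∧
      x.1 ∈ p.1 ∧ y.1 ∈ p.1 ∧ ZFSet.pair x.1 y.1 ∈ r.1
  have hLe : Dfn LST (fun v : (Fin n1 ⊕ Fin n2) ⊕ Fin 2 → A =>
      LeA (v ∘ Sum.inl) (v (Sum.inr 0)) (v (Sum.inr 1))) := by
    refine Dfn.ex (Dfn.ex ?_)
    refine (((hT1.isDef.at (K := (((Fin n1 ⊕ Fin n2) ⊕ Fin 2) ⊕ Unit) ⊕ Unit)
      (fun i => Sum.inl (Sum.inl (Sum.inl (Sum.inl i)))) (Sum.inl (Sum.inr ()))).and
      (hT2.isDef.at (K := (((Fin n1 ⊕ Fin n2) ⊕ Fin 2) ⊕ Unit) ⊕ Unit)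
      (fun i => Sum.inl (Sum.inl (Sum.inl (Sum.inr i)))) (Sum.inr ()))).and
      ((dfn_mem' (Sum.inl (Sum.inl (Sum.inr 0))) (Sum.inl (Sum.inr ()))).and
      ((dfn_mem' (Sum.inl (Sum.inl (Sum.inr 1))) (Sum.inl (Sum.inr ()))).and
      (dfn_pair (Sum.inl (Sum.inl (Sum.inr 0))) (Sum.inl (Sum.inl (Sum.inr 1)))
        (Sum.inr ())))))
  have hLeA : ∀ x y : A, LeA (cc κ.ord h0l ∘ Sum.elim e1 e2) x y ↔ Le P R x.1 y.1 := by
    intro x y
    have k1 : (cc κ.ord h0l ∘ Sum.elim e1 e2) ∘ Sum.inl = cc κ.ord h0l ∘ e1 := rfl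
    have k2 : (cc κ.ord h0l ∘ Sum.elim e1 e2) ∘ Sum.inr = cc κ.ord h0l ∘ e2 := rfl
    constructor
    · rintro ⟨p, r, ⟨hp, hr⟩, h⟩
      rw [k1] at hp
      rw [k2] at hr
      rw [hp.unique hd1, hr.unique hd2] at h
      exact h
    · intro h
      exact ⟨⟨P, hPκ⟩, ⟨R, hRκ⟩, ⟨by rw [k1]; exact hd1, by rw [k2]; exact hd2⟩, h⟩
  have hCC : CC LST (LeA (cc κ.ord h0l ∘ Sum.elim e1 e2))
      (fun g : Ordinal.{u} => μ ≤ g.cof) := by
    intro I _ R' hR' p hp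
    let X : ZFSet.{u} := ZFSet.sep (fun y => ∃ h : y ∈ Lset κ.ord, R' p ⟨y, h⟩) (Lset κ.ord)
    have hX : ∀ y : A, y.1 ∈ X ↔ R' p y := by
      intro y
      rw [ZFSet.mem_sep]
      constructor
      · rintro ⟨-, h, h'⟩
        exact h'
      · intro h
        exact ⟨y.2, y.2, h⟩
    have hXP : X ⊆ P := by
      intro y hy
      have hy' : y ∈ Lset κ.ord := (ZFSet.mem_sep.1 hy).1
      exact ((hLeA _ _).1 (hp ⟨y, hy'⟩ ((hX ⟨y, hy'⟩).1 hy))).1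
    obtain ⟨Y, hYX, hYc, hYp⟩ := hcc X ⟨_, mem_of_dfn
      (fun y hy => (ZFSet.mem_sep.1 hy).1) hR' p hX⟩ hXP
    refine ⟨{y : A | y.1 ∈ Y}, fun y hy => (hX y).1 (hYX hy), ?_, ?_⟩
    · intro x hx
      obtain ⟨y, hy, r, hr1, hr2⟩ := hYp x.1 ((hX x).2 hx)
      have hy' : y ∈ Lset κ.ord := (ZFSet.mem_sep.1 (hYX hy)).1
      exact ⟨⟨y, hy'⟩, hy, ⟨r, Lset_trans hPκ hr1.1⟩, (hLeA _ _).2 hr1, (hLeA _ _).2 hr2⟩
    · intro g hg f hfg
      have hc : #(f '' {y : A | y.1 ∈ Y}) < (Ordinal.lift.{u + 1} g).cof := by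
        have h1 : #{y : A | y.1 ∈ Y} ≤ Cardinal.lift.{u + 1} Y.card := by
          rw [← ZFSet.cardinalMk_coe_sort]
          refine mk_le_of_injective (f := fun y => (⟨y.1.1, y.2⟩ : {y : ZFSet.{u} // y ∈ Y}))
            fun a b h => Subtype.ext (Subtype.ext ?_)
          exact congrArg (fun w : {y : ZFSet.{u} // y ∈ Y} => w.1) h
        rw [← Ordinal.lift_cof]
        exact (mk_image_le.trans h1).trans_lt ((Cardinal.lift_lt.2 hYc).trans_le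
          (Cardinal.lift_le.2 hg))
      refine ⟨sSup (f '' {y : A | y.1 ∈ Y}), Ordinal.sSup_lt_of_lt_cof hc ?_, ?_⟩
      · rintro _ ⟨y, hy, rfl⟩
        exact hfg y hy
      · intro y hy
        refine le_csSup ⟨g, ?_⟩ ⟨y, hy, rfl⟩
        rintro _ ⟨y, hy, rfl⟩
        exact (hfg y hy).le
  have key := S.cc_final hμ hμ0 hbig (eP := Sum.elim e1 e2)
    (InJ.sum (fun i => he1 i) (fun i => he2 i)) hLe hCC
    (fun x y z hxy hyz => by
      rw [hLeA] at hxy hyz ⊢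
      exact hf.trans _ _ _ hxy hyz)
    (fun x y hxy => by
      rw [hLeA] at hxy ⊢
      exact hf.refl _ hxy.1)
    {y : A | y.1 ∈ Ant} (fun a ha => (hLeA _ _).2 (hf.refl _ (hA _ ha)))
    (by
      rintro a ha b hb ⟨z, hz1, hz2⟩
      rw [hLeA] at hz1 hz2
      exact Subtype.ext (hA2 a.1 ha b.1 hb ⟨z.1, hz1, hz2⟩))
  refine lt_of_le_of_lt ?_ key
  exact mk_le_of_injective (f := fun a : Ant => (⟨⟨a.1, Lset_trans hPκ (hA _ a.2)⟩, a.2⟩ :
    {y : A | y.1 ∈ Ant})) fun a b h => Subtype.ext (congrArg (fun x => x.1.1) h)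

end Pool.Agent.ZSharp
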