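import Pool.Agent.ZSharp.ForceDefs

/-!
# Names and the forcing relation

`C` is the type of conditions, `le` the order.
-/

set_option autoImplicit false

open Set Cardinal

namespace Pool.Agent.ZSharp

universe u

variable {C : Type (u + 1)} {le : C → C → Prop}

theorem FEq.iff {x y : PName C} {p : C} : FEq le x y p ↔
    (∀ (i : x.Idx) (q : C), le q p → le q (x.cond i) →
      ∃ r, le r q ∧ ∃ j : y.Idx, le r (y.cond j) ∧ FEq le (x.el i) (y.el j) r) ∧
    (∀ (j : y.Idx) (q : C), le q p → le q (y.cond j) →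
      ∃ r, le r q ∧ ∃ i : x.Idx, le r (x.cond i) ∧ FEq le (x.el i) (y.el j) r) := by
  cases x
  cases y
  exact Iff.rfl

/-- The axioms of a preorder. -/
structure IsPre (le : C → C → Prop) : Prop where
  refl : ∀ p, le p p
  trans : ∀ p q r, le p q → le q r → le p r

theorem FEq.mono (h : IsPre le) {x y : PName C} {p q : C} (hq : le q p) (hp : FEq le x y p) :
    FEq le x y q := by
  rw [FEq.iff] at hp ⊢
  exact ⟨fun i r hr => hp.1 i r (h.trans _ _ _ hr hq), fun i r hr =>
    hp.2 i r (h.trans _ _ _ hr hq)⟩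

theorem FEq.loc (h : IsPre le) {x y : PName C} {p : C}
    (hp : ∀ q, le q p → ∃ r, le r q ∧ FEq le x y r) : FEq le x y p := by
  rw [FEq.iff]
  constructor
  · intro i q hq hqi
    obtain ⟨r, hr, h1⟩ := hp q hq
    obtain ⟨r', hr', h2⟩ := (FEq.iff.1 h1).1 i r (h.refl r) (h.trans _ _ _ hr hqi)
    exact ⟨r', h.trans _ _ _ hr' hr, h2⟩
  · intro i q hq hqi
    obtain ⟨r, hr, h1⟩ := hp q hq
    obtain ⟨r', hr', h2⟩ := (FEq.iff.1 h1).2 i r (h.refl r) (h.trans _ _ _ hr hqi)
    exact ⟨r', h.trans _ _ _ hr' hr, h2⟩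

theorem FEq.refl (h : IsPre le) (x : PName C) : ∀ p, FEq le x x p := by
  induction x with
  | mk ι a s ih =>
    intro p
    exact ⟨fun i q _ hqi => ⟨q, h.refl q, i, hqi, ih i q⟩,
      fun i q _ hqi => ⟨q, h.refl q, i, hqi, ih i q⟩⟩

theorem FEq.symm {x : PName C} : ∀ {y : PName C} {p : C}, FEq le x y p → FEq le y x p := by
  induction x with
  | mk ι a s ih =>
    intro y p hp
    cases y with
    | mk κ b t =>
      refine ⟨fun i q hq hqi => ?_, fun i q hq hqi => ?_⟩
      · obtain ⟨r, hr, j, hj, h1⟩ := hp.2 i q hq hqi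
        exact ⟨r, hr, j, hj, ih j h1⟩
      · obtain ⟨r, hr, j, hj, h1⟩ := hp.1 i q hq hqi
        exact ⟨r, hr, j, hj, ih i h1⟩

theorem FEq.trans (h : IsPre le) {x : PName C} : ∀ {y z : PName C} {p : C}, FEq le x y p →
    FEq le y z p → FEq le x z p := by
  induction x with
  | mk ι a s ih =>
    intro y z p hp hp'
    cases y with
    | mk κ b t =>
    cases z with
    | mk κ' b' t' =>
      refine ⟨fun i q hq hqi => ?_, fun i q hq hqi => ?_⟩
      · obtain ⟨r, hr, j, hj, h1⟩ := hp.1 i q hq hqi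
        obtain ⟨r', hr', k, hk, h2⟩ := hp'.1 j r (h.trans _ _ _ hr hq) hj
        exact ⟨r', h.trans _ _ _ hr' hr, k, hk, ih i (h1.mono h hr') h2⟩
      · obtain ⟨r, hr, j, hj, h1⟩ := hp'.2 i q hq hqi
        obtain ⟨r', hr', k, hk, h2⟩ := hp.2 j r (h.trans _ _ _ hr hq) hj
        exact ⟨r', h.trans _ _ _ hr' hr, k, hk, ih k h2 (h1.mono h hr')⟩

theorem FMem.mono (h : IsPre le) {x y : PName C} {p q : C} (hq : le q p)
    (hp : FMem le x y p) : FMem le x y q := fun r hr => hp r (h.trans _ _ _ hr hq)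

theorem FMem.loc (h : IsPre le) {x y : PName C} {p : C}
    (hp : ∀ q, le q p → ∃ r, le r q ∧ FMem le x y r) : FMem le x y p := by
  intro q hq
  obtain ⟨r, hr, h1⟩ := hp q hq
  obtain ⟨r', hr', h2⟩ := h1 r (h.refl r)
  exact ⟨r', h.trans _ _ _ hr' hr, h2⟩

theorem FMem.congr_left (h : IsPre le) {x x' y : PName C} {p : C} (hx : FEq le x x' p)
    (hp : FMem le x y p) : FMem le x' y p := by
  intro q hq
  obtain ⟨r, hr, j, hj, h1⟩ := hp q hq
  exact ⟨r, hr, j, hj, (hx.symm.mono h (h.trans _ _ _ hr hq)).trans h h1⟩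

theorem FMem.congr_right (h : IsPre le) {x y y' : PName C} {p : C} (hy : FEq le y y' p)
    (hp : FMem le x y p) : FMem le x y' p := by
  intro q hq
  obtain ⟨r, hr, j, hj, h1⟩ := hp q hq
  obtain ⟨r', hr', k, hk, h2⟩ := (FEq.iff.1 hy).1 j r (h.trans _ _ _ hr hq) hj
  exact ⟨r', h.trans _ _ _ hr' hr, k, hk, (h1.mono h hr').trans h h2⟩

theorem chk_eq_iff [Small.{u} C] (h : IsPre le) {x : PSet.{u}} : ∀ {y : PSet.{u}} {p : C},
    FEq le (chk x) (chk y) p ↔ PSet.Equiv x y := by
  induction x with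
  | mk α A ih =>
    intro y p
    cases y with
    | mk β B =>
      constructor
      · intro hp
        constructor
        · intro a
          obtain ⟨r, -, j, -, h1⟩ := hp.1 (a, equivShrink C p) p (h.refl p) (by
            simpa using h.refl p)
          exact ⟨j.1, (ih a).1 h1⟩
        · intro b
          obtain ⟨r, -, j, -, h1⟩ := hp.2 (b, equivShrink C p) p (h.refl p) (by
            simpa using h.refl p)
          exact ⟨j.1, (ih j.1).1 h1⟩
      · rintro ⟨h1, h2⟩
        refine ⟨fun i q _ _ => ?_, fun i q _ _ => ?_⟩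
        · obtain ⟨b, hb⟩ := h1 i.1
          exact ⟨q, h.refl q, (b, equivShrink C q), by simpa using h.refl q, (ih i.1).2 hb⟩
        · obtain ⟨a, ha⟩ := h2 i.1
          exact ⟨q, h.refl q, (a, equivShrink C q), by simpa using h.refl q, (ih a).2 ha⟩

theorem check_eq_iff [Small.{u} C] (h : IsPre le) {y z : ZFSet.{u}} {p : C} :
    FEq le (check y) (check z) p ↔ y = z := by
  rw [check, check, chk_eq_iff h]
  constructor
  · intro h1
    rw [← ZFSet.mk_out y, ← ZFSet.mk_out z]
    exact ZFSet.sound h1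
  · rintro rfl
    exact PSet.Equiv.refl _

theorem check_injective [Small.{u} C] (h : IsPre le) (p : C) :
    Function.Injective (check (C := C)) := by
  intro y z hyz
  rw [← check_eq_iff (le := le) h (p := p), hyz]
  exact FEq.refl h _ _

theorem mem_chk_iff [Small.{u} C] (h : IsPre le) {x : PName C} {p : C} (Y : PSet.{u}) :
    FMem le x (chk Y) p ↔
      ∀ q, le q p → ∃ r, le r q ∧ ∃ a : Y.Type, FEq le x (chk (Y.Func a)) r := by
  cases Y with
  | mk β B =>
    constructor
    · intro hp q hq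
      obtain ⟨r, hr, j, -, h1⟩ := hp q hq
      exact ⟨r, hr, j.1, h1⟩
    · intro hp q hq
      obtain ⟨r, hr, a, h1⟩ := hp q hq
      refine ⟨r, hr, (a, equivShrink C r), ?_, h1⟩
      show le r ((equivShrink C).symm (equivShrink C r))
      rw [Equiv.symm_apply_apply]
      exact h.refl r

theorem mem_check_iff [Small.{u} C] (h : IsPre le) {x : PName C} {y : ZFSet.{u}} {p : C} :
    FMem le x (check y) p ↔ ∀ q, le q p → ∃ r, le r q ∧ ∃ z ∈ y, FEq le x (check z) r := by
  rw [check, mem_chk_iff h]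
  refine forall_congr' fun q => imp_congr_right fun _ => exists_congr fun r =>
    and_congr_right fun _ => ?_
  constructor
  · rintro ⟨a, ha⟩
    refine ⟨ZFSet.mk (y.out.Func a), ?_, ?_⟩
    · have h1 := ZFSet.mk_mem_iff.2 (PSet.func_mem y.out a)
      rwa [ZFSet.mk_out] at h1
    · refine ha.trans h ((chk_eq_iff h).2 ?_)
      exact (ZFSet.exact (ZFSet.mk_out _)).symm
  · rintro ⟨z, hz, h1⟩
    have h2 : z.out ∈ y.out := by
      rw [← ZFSet.mk_mem_iff, ZFSet.mk_out, ZFSet.mk_out]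
      exact hz
    obtain ⟨a, ha⟩ := h2
    exact ⟨a, h1.trans h ((chk_eq_iff h).2 ha)⟩

end Pool.Agent.ZSharp
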