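import Pool.Agent.ZSharp.Defs

/-!
# Non-triviality and the ordinal `o^L(P)`
-/

set_option autoImplicit false

open Set Cardinal

namespace Pool.Agent.ZSharp

universe u

/-- `(P, R)` is non-trivial: no filter `G` on `P` which is a set of `V` is generic over `V`. -/
def NonTrivial (P R : ZFSet.{u}) : Prop :=
  ∀ G : Set ZFSet.{u}, (∀ g ∈ G, g ∈ P) →
    (∀ g ∈ G, ∀ h ∈ G, ∃ k ∈ G, Le P R k g ∧ Le P R k h) →
    ∃ D : Set ZFSet.{u}, (∀ p ∈ P, ∃ q ∈ D, Le P R q p) ∧ ∀ g ∈ G, g ∉ D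

/-- `q` forces `ξ ∈ Ė`, where `Ė = {ξ : (ξ, t) ∈ E for some t ∈ G}`. -/
def ForcesIn (P R E : ZFSet.{u}) (ξ : Ordinal.{u}) (q : ZFSet.{u}) : Prop :=
  ∀ r, Le P R r q → ∃ s, Le P R s r ∧ ∃ t, ZFSet.pair ξ.toZFSet t ∈ E ∧ Le P R s t

/-- `q` forces `ξ ∉ Ė`. -/
def ForcesOut (P R E : ZFSet.{u}) (ξ : Ordinal.{u}) (q : ZFSet.{u}) : Prop :=
  ∀ r, Le P R r q → ∀ t, ZFSet.pair ξ.toZFSet t ∈ E → ¬ Le P R r t

/-- Forcing with `(P, R)` over `L` adds a new subset of `β`: for some constructible `E`, some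
condition `p` forces that the subset `{ξ < β : ξ ∈ Ė}` of `β` is not equal to any
constructible set `x`. -/
def AddsSubset (P R : ZFSet.{u}) (β : Ordinal.{u}) : Prop :=
  ∃ E, Constructible E ∧ ∃ p ∈ P, ∀ x, Constructible x → ∀ q, Le P R q p →
    ¬ ∀ ξ < β, (ξ.toZFSet ∈ x → ForcesIn P R E ξ q) ∧
      (ξ.toZFSet ∉ x → ForcesOut P R E ξ q)

/-- `o^L(P) = α`: the least `β` such that forcing with `(P, R)` over `L` adds a new subset
of `β` is `α`. -/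
def OLIs (P R : ZFSet.{u}) (α : Ordinal.{u}) : Prop :=
  AddsSubset P R α ∧ ∀ β < α, ¬ AddsSubset P R β

end Pool.Agent.ZSharp
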