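import Pool.Agent.ZSharp.PosDef
import Pool.Agent.ZSharp.OLDefs

/-!
# Non-triviality and `o^L` of the forcing notion
-/

set_option autoImplicit false
set_option linter.deprecated false

open FirstOrder Set Ordinal Cardinal

namespace Pool.Agent.ZSharp

universe u

theorem Pos_no_both {reg : Cardinal.{u}} {lam : Ordinal.{u}} {r : ZFSet.{u}} (hr : r ∈ Pos reg lam)
    {δ : Ordinal.{u}} (h1 : δ.toZFSet ∈ r) (h2 : (δ + 1).toZFSet ∈ r) : False := by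
  rw [Ordinal.toZFSet_add_one] at h2
  exact (mem_Pos.1 hr).2.2.2 _ h1 h2

theorem sub_insert (x y : ZFSet.{u}) : y ⊆ insert x y := fun _ h =>
  ZFSet.mem_insert_of_mem _ h

theorem Pos_nontrivial {reg : Cardinal.{u}} (hreg : reg.IsRegular) (hreg0 : ℵ₀ < reg)
    {lam : Ordinal.{u}} (hlam : reg.ord ≤ lam) :
    NonTrivial (Pos reg lam) (PosR reg lam) := by
  classical
  intro G hG hdir
  refine ⟨{p | p ∈ Pos reg lam ∧ p ∉ G}, fun p hp => ?_, fun g hg hgD => hgD.2 hg⟩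
  obtain ⟨δ, -, h1, h2⟩ := Pos_split hreg hreg0 hlam hp
  by_cases h3 : insert δ.toZFSet p ∈ G
  · by_cases h4 : insert (δ + 1).toZFSet p ∈ G
    · exfalso
      obtain ⟨k, -, k1, k2⟩ := hdir _ h3 _ h4
      rw [le_iff] at k1 k2
      exact Pos_no_both k1.1 (k1.2.2 (ZFSet.mem_insert _ _)) (k2.2.2 (ZFSet.mem_insert _ _))
    · exact ⟨_, ⟨h2, h4⟩, le_iff.2 ⟨h2, hp, sub_insert _ _⟩⟩
  · exact ⟨_, ⟨h1, h3⟩, le_iff.2 ⟨h1, hp, sub_insert _ _⟩⟩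

theorem Pos_not_adds (h0 : ZeroSharp.{u}) {reg : Cardinal.{u}} (hreg : reg.IsRegular)
    {lam : Ordinal.{u}} {β : Ordinal.{u}}
    (hβ : β < reg.ord) : ¬ AddsSubset (Pos reg lam) (PosR reg lam) β := by
  rintro ⟨E, hE, p, hp, h⟩
  obtain ⟨q, hq, hpq, hdec⟩ := exists_dec h0 (Pos_constr reg lam)
    (fun z hz t ht => Pos_ord hz ht) hE
    (fun ζ hζ _ g hg hm x hx hxg => Pos_union hreg hζ hg hm hx hxg) hp hβ
  -- the set of elements forced in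
  obtain ⟨δ1, hδ1⟩ := Pos_constr reg lam
  obtain ⟨δ2, hδ2⟩ := id hE
  obtain ⟨κ, hκβ, hκ⟩ := exists_Big (max δ1 δ2) β.card
  have hβκ : β < κ.ord := Cardinal.lt_ord.2 hκβ
  let PL : LA κ.ord := ⟨Pos reg lam, hκ.mem (Lset_mono (le_max_left _ _) hδ1)⟩
  let EL : LA κ.ord := ⟨E, hκ.mem (Lset_mono (le_max_right _ _) hδ2)⟩
  let qL : LA κ.ord := ⟨q, Lset_trans PL.2 hq⟩
  let bL : LA κ.ord := oL hβκ
  let Q : LA κ.ord → Prop := fun t => t.1 ∈ bL.1 ∧ InD PL EL t qL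
  have hQ : Constructible (sepL Q) := sepL_constr inferInstance
  have hx : ∀ ξ < β, (ξ.toZFSet ∈ sepL Q ↔ InN (Pos reg lam) E ξ q) := by
    intro ξ hξ
    rw [mem_sepL]
    constructor
    · rintro ⟨_, _, h2⟩
      exact (InD_iff (P := PL) (E := EL) (q := qL) rfl).1 h2
    · intro h2
      exact ⟨(toZFSet_mem_Lset_iff _ _).2 (hξ.trans hβκ),
        Ordinal.toZFSet_mem_toZFSet_iff.2 hξ,
        (InD_iff (P := PL) (E := EL) (q := qL) rfl).2 h2⟩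
  refine h _ hQ q (le_iff.2 ⟨hq, hp, hpq⟩) fun ξ hξ => ⟨fun h1 => ?_, fun h1 => ?_⟩
  · obtain ⟨t, k1, k2, k3⟩ := (hx ξ hξ).1 h1
    intro r hr
    rw [le_iff] at hr
    exact ⟨r, le_iff.2 ⟨hr.1, hr.1, fun _ h => h⟩, t, k1, le_iff.2 ⟨hr.1, k2, fun _ h =>
      hr.2.2 (k3 h)⟩⟩
  · rw [hx ξ hξ] at h1
    rcases hdec ξ hξ with h2 | h2
    · exact absurd h2 h1
    · intro r hr t ht hrt
      rw [le_iff] at hr hrt
      exact h2 r hr.1 hr.2.2 ⟨t, ht, hrt.2.1, hrt.2.2⟩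

theorem Pos_adds {reg : Cardinal.{u}} (hreg : reg.IsRegular) (hreg0 : ℵ₀ < reg)
    {lam : Ordinal.{u}} (hlam : reg.ord ≤ lam) :
    AddsSubset (Pos reg lam) (PosR reg lam) reg.ord := by
  obtain ⟨δ1, hδ1⟩ := Pos_constr reg lam
  obtain ⟨κ, hκ1, hκ⟩ := exists_Big δ1 reg
  let PL : LA κ.ord := ⟨Pos reg lam, hκ.mem hδ1⟩
  let Q : LA κ.ord → Prop := fun t => ∃ e p : LA κ.ord, p.1 ∈ PL.1 ∧ e.1 ∈ p.1 ∧
    t.1 = ZFSet.pair e.1 p.1
  have hQ : Constructible (sepL Q) := sepL_constr inferInstance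
  have hE : ∀ ξ : Ordinal.{u}, ∀ t, ZFSet.pair ξ.toZFSet t ∈ sepL Q ↔
      t ∈ Pos reg lam ∧ ξ.toZFSet ∈ t := by
    intro ξ t
    rw [mem_sepL]
    constructor
    · rintro ⟨_, e, p, h1, h2, h3⟩
      obtain ⟨h4, h5⟩ := ZFSet.pair_injective h3
      rw [h4, h5]
      exact ⟨h1, h2⟩
    · rintro ⟨h1, h2⟩
      have k1 := Lset_trans PL.2 h1
      have k2 := Lset_trans k1 h2
      exact ⟨Lset_pair hκ.lim k2 k1, ⟨_, k2⟩, ⟨_, k1⟩, h1, h2, rfl⟩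
  refine ⟨sepL Q, hQ, ∅, Pos_empty hreg0.le lam, fun x _ q hq hcon => ?_⟩
  rw [le_iff] at hq
  obtain ⟨δ, hδ, h1, h2⟩ := Pos_split hreg hreg0 hlam hq.1
  obtain ⟨h3, h4⟩ := hcon δ hδ
  by_cases hx : δ.toZFSet ∈ x
  · obtain ⟨s, hs, t, ht, hst⟩ := h3 hx _ (le_iff.2 ⟨h2, hq.1, sub_insert _ _⟩)
    rw [hE] at ht
    rw [le_iff] at hs hst
    exact Pos_no_both hs.1 (hst.2.2 ht.2) (hs.2.2 (ZFSet.mem_insert _ _))
  · exact h4 hx _ (le_iff.2 ⟨h1, hq.1, sub_insert _ _⟩) _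
      ((hE δ _).2 ⟨h1, ZFSet.mem_insert _ _⟩) (le_iff.2 ⟨h1, h1, fun _ h => h⟩)

theorem Pos_OL (h0 : ZeroSharp.{u}) {reg : Cardinal.{u}} (hreg : reg.IsRegular)
    (hreg0 : ℵ₀ < reg) {lam : Ordinal.{u}} (hlam : reg.ord ≤ lam) :
    OLIs (Pos reg lam) (PosR reg lam) reg.ord :=
  ⟨Pos_adds hreg hreg0 hlam, fun _ hβ => Pos_not_adds h0 hreg hβ⟩

/-- Dense sets are large. -/
theorem Pos_dense_card {reg ρ : Cardinal.{u}} (hreg0 : ℵ₀ ≤ reg) (hρ : reg < ρ)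
    {D : ZFSet.{u}} (hD : D ⊆ Pos reg ρ.ord)
    (hDd : ∀ p ∈ Pos reg ρ.ord, ∃ q ∈ D, Le (Pos reg ρ.ord) (PosR reg ρ.ord) q p) :
    ρ ≤ D.card := by
  by_contra hcon
  rw [not_le] at hcon
  -- every ordinal below `ρ` is in some element of `D`
  have h1 : ∀ α : Set.Iio ρ.ord, ∃ q : {q // q ∈ D}, α.1.toZFSet ∈ q.1 := by
    intro α
    have h2 : insert α.1.toZFSet ∅ ∈ Pos reg ρ.ord :=
      Pos_insert hreg0 (Pos_empty hreg0 _) α.2 (ZFSet.notMem_empty _)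
        fun _ _ => ZFSet.notMem_empty _
    obtain ⟨q, hq, hle⟩ := hDd _ h2
    exact ⟨⟨q, hq⟩, (le_iff.1 hle).2.2 (ZFSet.mem_insert _ _)⟩
  choose f hf using h1
  have h2 : #(Set.Iio ρ.ord) ≤ #{q // q ∈ D} * Cardinal.lift.{u + 1} reg := by
    refine Cardinal.mk_le_mk_mul_of_mk_preimage_le (c := Cardinal.lift.{u + 1} reg) f
      fun q => ?_
    refine le_trans ?_ (card_lt_iff.1 (mem_Pos.1 (hD q.2)).2.2.1).le
    have h3 : ∀ α : (f ⁻¹' {q}), α.1.1.toZFSet ∈ q.1 := by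
      rintro ⟨α, hα⟩
      have h4 : f α = q := hα
      have h5 := hf α
      rw [h4] at h5
      exact h5
    exact mk_le_of_injective (f := fun α : (f ⁻¹' {q}) => (⟨α.1.1.toZFSet, h3 α⟩ :
      {t | t ∈ q.1})) fun α β h => Subtype.ext (Subtype.ext (Ordinal.toZFSet_injective
        (congrArg Subtype.val h)))
  rw [ZFSet.cardinalMk_coe_sort, Cardinal.mk_Iio_ordinal, Cardinal.card_ord,
    ← Cardinal.lift_mul, Cardinal.lift_le] at h2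
  exact absurd h2 (not_le.2 (Cardinal.mul_lt_of_lt (hreg0.trans hρ.le) hcon hρ))

end Pool.Agent.ZSharp
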