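import Pool.Agent.ZSharp.EnumO

/-!
# The forcing notion
-/

set_option autoImplicit false
set_option linter.deprecated false

open FirstOrder Set Ordinal Cardinal

namespace Pool.Agent.ZSharp

universe u

theorem card_lt_iff {reg : Cardinal.{u}} {x : ZFSet.{u}} : x.card < reg ↔
    #{t | t ∈ x} < Cardinal.lift.{u + 1} reg := by
  show _ ↔ #{t // t ∈ x} < _
  rw [ZFSet.cardinalMk_coe_sort, Cardinal.lift_lt]

theorem Constructible.insert {x y : ZFSet.{u}} (hx : Constructible x)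
    (hy : Constructible y) : Constructible (insert x y) := by
  obtain ⟨α, hα⟩ := hx
  obtain ⟨β, hβ⟩ := hy
  obtain ⟨κ, -, hκ⟩ := exists_Big (max α β) 0
  exact ⟨_, Lset_insert hκ.lim (hκ.mem (Lset_mono (le_max_left _ _) hα))
    (hκ.mem (Lset_mono (le_max_right _ _) hβ))⟩

theorem Constructible.ord (α : Ordinal.{u}) : Constructible α.toZFSet :=
  ⟨α + 1, (toZFSet_mem_Lset_iff _ _).2 (lt_add_one α)⟩

/-- The conditions: constructible sets of ordinals below `lam`, of size `< reg` in `V`,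
which do not contain two consecutive ordinals. -/
noncomputable def Pos (reg : Cardinal.{u}) (lam : Ordinal.{u}) : ZFSet.{u} :=
  ZFSet.sep (fun p => Constructible p ∧ p.card < reg ∧ ∀ t ∈ p, insert t t ∉ p)
    (ZFSet.powerset lam.toZFSet)

theorem mem_Pos {reg : Cardinal.{u}} {lam : Ordinal.{u}} {p : ZFSet.{u}} : p ∈ Pos reg lam ↔ p ⊆ lam.toZFSet ∧
    Constructible p ∧ p.card < reg ∧ ∀ t ∈ p, insert t t ∉ p := by
  rw [Pos, ZFSet.mem_sep, ZFSet.mem_powerset]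

/-- Reverse inclusion. -/
noncomputable def PosR (reg : Cardinal.{u}) (lam : Ordinal.{u}) : ZFSet.{u} :=
  ZFSet.sep (fun t => ∃ q p, t = ZFSet.pair q p ∧ p ⊆ q) (ZFSet.prod (Pos reg lam) (Pos reg lam))

theorem pair_mem_PosR {reg : Cardinal.{u}} {lam : Ordinal.{u}} {p q : ZFSet.{u}} :
    ZFSet.pair q p ∈ PosR reg lam ↔ q ∈ Pos reg lam ∧ p ∈ Pos reg lam ∧ p ⊆ q := by
  rw [PosR, ZFSet.mem_sep, ZFSet.pair_mem_prod]
  constructor
  · rintro ⟨⟨h1, h2⟩, q', p', h3, h4⟩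
    obtain ⟨rfl, rfl⟩ := ZFSet.pair_injective h3
    exact ⟨h1, h2, h4⟩
  · rintro ⟨h1, h2, h3⟩
    exact ⟨⟨h1, h2⟩, q, p, rfl, h3⟩

theorem le_iff {reg : Cardinal.{u}} {lam : Ordinal.{u}} {p q : ZFSet.{u}} :
    Le (Pos reg lam) (PosR reg lam) q p ↔ q ∈ Pos reg lam ∧ p ∈ Pos reg lam ∧ p ⊆ q := by
  rw [Le, pair_mem_PosR]
  tauto

theorem Pos_ord {reg : Cardinal.{u}} {lam : Ordinal.{u}} {p t : ZFSet.{u}} (hp : p ∈ Pos reg lam) (ht : t ∈ p) :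
    t.IsOrdinal := by
  obtain ⟨α, -, rfl⟩ := Ordinal.mem_toZFSet_iff.1 ((mem_Pos.1 hp).1 ht)
  exact ZFSet.isOrdinal_toZFSet α

theorem ord_subset_Lset (lam : Ordinal.{u}) : lam.toZFSet ⊆ Lset lam := by
  intro t ht
  obtain ⟨α, hα, rfl⟩ := Ordinal.mem_toZFSet_iff.1 ht
  exact (toZFSet_mem_Lset_iff _ _).2 hα

/-- The enumerations of the conditions belong to `L_κ`. -/
theorem exists_OI {reg : Cardinal.{u}} {lam γ : Ordinal.{u}} (hγ : ∀ α < γ, α + 1 < γ) (hlγ : lam < γ)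
    {κ : Cardinal.{u}} (hκ : Big γ κ) {z : ZFSet.{u}} (hz : z ∈ Pos reg lam)
    {zL lL : LA κ.ord} (hzL : zL.1 = z) (hlL : lL.1 = lam.toZFSet) :
    (∃ i h : LA κ.ord, (∃ ι < reg.ord, i.1 = ι.toZFSet) ∧ OI h i zL lL) ∧
    ∀ a : LA κ.ord, a.1 ∈ z → ∃ i h : LA κ.ord, (∃ ι < reg.ord, i.1 = ι.toZFSet) ∧
      OI h i zL a := by
  obtain ⟨h1, h2, h3, h4⟩ := mem_Pos.1 hz
  obtain ⟨δ, hδl, hδ', hδ⟩ := exists_en_stage lam z
  have hδ1 := en_stage_lt h3 hδ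
  have hb := enS_not_bdd lam z
  have hcon := en_constr h1 h2 hδl hδ
  have hδκ : δ < κ.ord := (hδl.trans_lt hlγ).trans hκ.lt
  have hgr : ∀ i ≤ δ, gr (en lam z) i ∈ Lset κ.ord := by
    intro i hi
    refine hκ.sub _ (hcon i hi) fun t ht => ?_
    obtain ⟨η, hη, rfl⟩ := mem_gr.1 ht
    have hηδ := hη.trans_le hi
    exact Lset_pair hγ ((toZFSet_mem_Lset_iff _ _).2 ((hηδ.trans_le hδl).trans hlγ))
      ((toZFSet_mem_Lset_iff _ _).2 ((hδ η hηδ).2.trans hlγ))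
  constructor
  · refine ⟨oL hδκ, ⟨_, hgr δ le_rfl⟩, ⟨δ, hδ1, rfl⟩, ?_⟩
    exact OI_gr h1 hδl hδ (hlγ.trans hκ.lt) le_rfl rfl rfl hzL (by rw [hlL, hδ'])
  · intro a ha
    obtain ⟨α, hα, h5⟩ := Ordinal.mem_toZFSet_iff.1 (h1 ha)
    obtain ⟨η, hη⟩ := enumOrd_surjective hb (show α ∈ enS lam z from
      Or.inl (by rw [Set.mem_setOf_eq, h5]; exact ha))
    have hηδ : η < δ := by
      rw [← hη, ← hδ'] at hα
      exact (enumOrd_lt_enumOrd hb).1 (by rwa [hδ'] at hα ⊢)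
    refine ⟨oL (hηδ.trans hδκ), ⟨_, hgr η hηδ.le⟩, ⟨η, hηδ.trans hδ1, rfl⟩, ?_⟩
    exact OI_gr h1 hδl hδ (hlγ.trans hκ.lt) hηδ.le rfl rfl hzL (by rw [← h5, hη])

theorem Pos_constr (reg : Cardinal.{u}) (lam : Ordinal.{u}) : Constructible (Pos reg lam) := by
  obtain ⟨κ1, -, hκ1⟩ := exists_Big lam 0
  obtain ⟨κ, hκ0, hκ⟩ := exists_Big κ1.ord reg
  have hlκ : lam < κ.ord := hκ1.lt.trans hκ.lt
  have h1κ : reg.ord < κ.ord := Cardinal.ord_lt_ord.2 hκ0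
  let lL : LA κ.ord := oL hlκ
  let oneL : LA κ.ord := oL h1κ
  let Q : LA κ.ord → Prop := fun p => p.1 ⊆ lL.1 ∧
    (∀ t s : LA κ.ord, t.1 ∈ p.1 → s.1 = insert t.1 t.1 → ¬ s.1 ∈ p.1) ∧
    ∃ i h : LA κ.ord, i.1 ∈ oneL.1 ∧ OI h i p lL
  have hQ : Constructible (sepL Q) := sepL_constr inferInstance
  have h1 : Pos reg lam = sepL Q := by
    ext p
    rw [mem_sepL]
    constructor
    · intro hp
      obtain ⟨k1, k2, k3, k4⟩ := mem_Pos.1 hp
      have hpκ : p ∈ Lset κ.ord := hκ.sub p k2 fun t ht =>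
        Lset_mono hκ1.lt.le (ord_subset_Lset lam (k1 ht))
      refine ⟨hpκ, k1, ?_, ?_⟩
      · intro t s ht hs hsp
        rw [hs] at hsp
        exact k4 t.1 ht hsp
      · obtain ⟨⟨i, h, ⟨ι, hι, hi⟩, hoi⟩, -⟩ := exists_OI hκ1.lim hκ1.lt hκ hp
          (zL := ⟨p, hpκ⟩) (lL := lL) rfl rfl
        refine ⟨i, h, ?_, hoi⟩
        rw [hi]
        exact Ordinal.toZFSet_mem_toZFSet_iff.2 hι
    · rintro ⟨hp, k1, k2, i, h, hi, hoi⟩
      obtain ⟨ι, hι, hi'⟩ := Ordinal.mem_toZFSet_iff.1 hi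
      refine mem_Pos.2 ⟨k1, ⟨_, hp⟩, ?_, fun t ht hs => ?_⟩
      · refine OI.card_lt hi'.symm hι (fun t ht => ?_) (fun t ht => k1 ht) hoi
        obtain ⟨α, -, rfl⟩ := Ordinal.mem_toZFSet_iff.1 (k1 ht)
        exact ZFSet.isOrdinal_toZFSet α
      · exact k2 ⟨t, Lset_trans hp ht⟩ ⟨_, Lset_trans hp hs⟩ ht rfl hs
  rw [h1]
  exact hQ

theorem PosR_constr (reg : Cardinal.{u}) (lam : Ordinal.{u}) : Constructible (PosR reg lam) := by
  obtain ⟨δ, hδ⟩ := Pos_constr reg lam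
  obtain ⟨κ, -, hκ⟩ := exists_Big δ 0
  let P : LA κ.ord := ⟨Pos reg lam, hκ.mem hδ⟩
  let Q : LA κ.ord → Prop := fun t => ∃ q p : LA κ.ord, q.1 ∈ P.1 ∧ p.1 ∈ P.1 ∧
    p.1 ⊆ q.1 ∧ t.1 = ZFSet.pair q.1 p.1
  have hQ : Constructible (sepL Q) := sepL_constr inferInstance
  have h1 : PosR reg lam = sepL Q := by
    ext t
    rw [mem_sepL, PosR, ZFSet.mem_sep, ZFSet.mem_prod]
    constructor
    · rintro ⟨⟨a, ha, b, hb, hab⟩, q, p, h2, h3⟩
      rw [h2] at hab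
      obtain ⟨rfl, rfl⟩ := ZFSet.pair_injective hab
      have ha' := Lset_trans P.2 ha
      have hb' := Lset_trans P.2 hb
      rw [h2]
      exact ⟨Lset_pair hκ.lim ha' hb', ⟨q, ha'⟩, ⟨p, hb'⟩, ha, hb, h3, rfl⟩
    · rintro ⟨ht, q, p, hq, hp, hpq, h2⟩
      exact ⟨⟨q.1, hq, p.1, hp, h2⟩, q.1, p.1, h2, hpq⟩
  rw [h1]
  exact hQ

theorem Pos_forcing (reg : Cardinal.{u}) (lam : Ordinal.{u}) : IsForcing (Pos reg lam) (PosR reg lam) where
  refl := fun p hp => le_iff.2 ⟨hp, hp, fun _ h => h⟩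
  trans := fun p q r h1 h2 => by
    rw [le_iff] at h1 h2 ⊢
    exact ⟨h1.1, h2.2.1, fun _ h => h1.2.2 (h2.2.2 h)⟩

theorem Pos_union {reg : Cardinal.{u}} (hreg : reg.IsRegular) {lam : Ordinal.{u}}
    {ζ : Ordinal.{u}} (hζ : ζ < reg.ord)
    {g : Ordinal.{u} → ZFSet.{u}} (hg : ∀ η < ζ, g η ∈ Pos reg lam)
    (hm : ∀ η η', η ≤ η' → η' < ζ → g η ⊆ g η') {x : ZFSet.{u}} (hx : Constructible x)
    (hxg : ∀ t, t ∈ x ↔ ∃ η < ζ, t ∈ g η) : x ∈ Pos reg lam := by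
  refine mem_Pos.2 ⟨?_, hx, ?_, ?_⟩
  · intro t ht
    obtain ⟨η, hη, h⟩ := (hxg t).1 ht
    exact (mem_Pos.1 (hg η hη)).1 h
  · rw [card_lt_iff]
    have h1 : {t | t ∈ x} = ⋃ η : Set.Iio ζ, {t | t ∈ g η.1} := by
      ext t
      rw [Set.mem_setOf_eq, hxg]
      simp
    rw [h1, card_iUnion_lt_iff_forall_of_isRegular hreg.lift]
    · exact fun η => card_lt_iff.1 (mem_Pos.1 (hg η.1 η.2)).2.2.1
    · rw [Cardinal.mk_Iio_ordinal, Cardinal.lift_lt]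
      exact Cardinal.lt_ord.1 hζ
  · intro t ht hs
    obtain ⟨η, hη, h⟩ := (hxg t).1 ht
    obtain ⟨η', hη', h'⟩ := (hxg _).1 hs
    rcases le_total η η' with h2 | h2
    · exact (mem_Pos.1 (hg η' hη')).2.2.2 t (hm η η' h2 hη' h) h'
    · exact (mem_Pos.1 (hg η hη)).2.2.2 t h (hm η' η h2 hη h')

/-- Adding one ordinal to a condition. -/
theorem Pos_insert {reg : Cardinal.{u}} (hreg : ℵ₀ ≤ reg) {lam : Ordinal.{u}} {p : ZFSet.{u}} (hp : p ∈ Pos reg lam)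
    {α : Ordinal.{u}} (hα : α < lam) (h1 : (α + 1).toZFSet ∉ p)
    (h2 : ∀ β : Ordinal.{u}, β + 1 = α → β.toZFSet ∉ p) :
    insert α.toZFSet p ∈ Pos reg lam := by
  obtain ⟨k1, k2, k3, k4⟩ := mem_Pos.1 hp
  refine mem_Pos.2 ⟨?_, (Constructible.ord α).insert k2, ?_, ?_⟩
  · intro t ht
    rcases ZFSet.mem_insert_iff.1 ht with rfl | ht
    · exact Ordinal.toZFSet_mem_toZFSet_iff.2 hα
    · exact k1 ht
  · exact ZFSet.card_insert_le.trans_lt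
      (Cardinal.add_lt_of_lt hreg k3 (Cardinal.one_lt_aleph0.trans_le hreg))
  · intro t ht hs
    rcases ZFSet.mem_insert_iff.1 ht with rfl | ht
    · rw [← Ordinal.toZFSet_add_one] at hs
      rcases ZFSet.mem_insert_iff.1 hs with h3 | h3
      · exact absurd (Ordinal.toZFSet_injective h3) (lt_add_one α).ne'
      · exact h1 h3
    · rcases ZFSet.mem_insert_iff.1 hs with h3 | h3
      · obtain ⟨β, -, rfl⟩ := Ordinal.mem_toZFSet_iff.1 (k1 ht)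
        rw [← Ordinal.toZFSet_add_one] at h3
        exact h2 β (Ordinal.toZFSet_injective h3) ht
      · exact k4 t ht h3

theorem Pos_empty {reg : Cardinal.{u}} (hreg : ℵ₀ ≤ reg) (lam : Ordinal.{u}) :
    (∅ : ZFSet.{u}) ∈ Pos reg lam := by
  refine mem_Pos.2 ⟨fun t ht => absurd ht (ZFSet.notMem_empty t), ?_, ?_, ?_⟩
  · rw [← Ordinal.toZFSet_zero]
    exact Constructible.ord 0
  · rw [ZFSet.card_empty]
    exact Cardinal.aleph0_pos.trans_le hreg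
  · exact fun t ht => absurd ht (ZFSet.notMem_empty t)

/-- Every condition can be extended by `δ` or by `δ + 1`. -/
theorem Pos_split {reg : Cardinal.{u}} (hreg : reg.IsRegular) (hreg0 : ℵ₀ < reg)
    {lam : Ordinal.{u}} (hlam : reg.ord ≤ lam) {p : ZFSet.{u}}
    (hp : p ∈ Pos reg lam) : ∃ δ < reg.ord, insert δ.toZFSet p ∈ Pos reg lam ∧
      insert (δ + 1).toZFSet p ∈ Pos reg lam := by
  let s : Set Ordinal.{u} := {α | α < reg.ord ∧ α.toZFSet ∈ p}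
  have hs : #s < Cardinal.lift.{u + 1} reg := by
    refine lt_of_le_of_lt ?_ (card_lt_iff.1 (mem_Pos.1 hp).2.2.1)
    exact mk_le_of_injective (f := fun α : s => (⟨α.1.toZFSet, α.2.2⟩ : {t | t ∈ p}))
      fun α β h => Subtype.ext (Ordinal.toZFSet_injective (congrArg Subtype.val h))
  have hl := card_lim hreg0
  obtain ⟨δ0, hδ0, hδ0'⟩ : ∃ δ0 < reg.ord, ∀ α ∈ s, α < δ0 := by
    have h2 : sSup (Order.succ '' s) < reg.ord := by
      refine Ordinal.sSup_lt_of_lt_cof ?_ ?_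
      · refine Cardinal.mk_image_le.trans_lt ?_
        rw [← Ordinal.lift_cof, hreg.cof_ord]
        exact hs
      · rintro _ ⟨α, hα, rfl⟩
        rw [Order.succ_eq_add_one]
        exact hl α hα.1
    refine ⟨_, h2, fun α hα => ?_⟩
    refine (Order.lt_succ α).trans_le (le_csSup ?_ ⟨α, hα, rfl⟩)
    refine ⟨reg.ord, ?_⟩
    rintro _ ⟨β, hβ, rfl⟩
    exact Order.succ_le_of_lt hβ.1
  have a1 := hl _ hδ0
  have a2 := hl _ a1
  have a3 := hl _ a2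
  have hno : ∀ α, δ0 ≤ α → α < reg.ord → α.toZFSet ∉ p := fun α h3 h4 h5 =>
    absurd (hδ0' α ⟨h4, h5⟩) (not_lt.2 h3)
  refine ⟨δ0 + 1, a1, Pos_insert hreg0.le hp (a1.trans_le hlam) ?_ ?_,
    Pos_insert hreg0.le hp (a2.trans_le hlam) ?_ ?_⟩
  · exact hno _ ((lt_add_one _).le.trans (lt_add_one _).le) a2
  · intro β hβ
    have : β = δ0 := by simpa using hβ
    rw [this]
    exact hno _ le_rfl hδ0
  · exact hno _ ((lt_add_one _).le.trans ((lt_add_one _).le.trans (lt_add_one _).le)) a3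
  · intro β hβ
    have : β = δ0 + 1 := by simpa using hβ
    rw [this]
    exact hno _ (lt_add_one _).le a1

end Pool.Agent.ZSharp
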