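import Pool.Agent.ZSharp.Calc

/-!
# Recursion: sequences defined by recursion are constructible
-/

set_option autoImplicit false
set_option linter.deprecated false

open FirstOrder Set Ordinal Cardinal

namespace Pool.Agent.ZSharp

universe u

/-- `L_κ` contains all constructible subsets of `L_γ`. -/
structure Big (γ : Ordinal.{u}) (κ : Cardinal.{u}) : Prop where
  unc : ℵ₀ < κ
  lt : γ < κ.ord
  sub : ∀ x : ZFSet.{u}, Constructible x → x ⊆ Lset γ → x ∈ Lset κ.ord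

theorem exists_Big (γ : Ordinal.{u}) (ν : Cardinal.{u}) : ∃ κ : Cardinal.{u}, ν < κ ∧
    Big γ κ := by
  obtain ⟨κ, h1, h2, h3⟩ := exists_big (Lset γ) (max ν γ.card)
  exact ⟨κ, (le_max_left _ _).trans_lt h1, h2, Cardinal.lt_ord.2
    ((le_max_right _ _).trans_lt h1), h3⟩

theorem Big.lim {γ : Ordinal.{u}} {κ : Cardinal.{u}} (h : Big γ κ) :
    ∀ α < κ.ord, α + 1 < κ.ord := card_lim h.unc

theorem Big.mem {γ : Ordinal.{u}} {κ : Cardinal.{u}} (h : Big γ κ) {x : ZFSet.{u}}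
    (hx : x ∈ Lset γ) : x ∈ Lset κ.ord := Lset_mono h.lt.le hx

theorem Big.of_le {γ γ' : Ordinal.{u}} {κ : Cardinal.{u}} (h : Big γ κ) (hγ : γ' ≤ γ) :
    Big γ' κ :=
  ⟨h.unc, hγ.trans_lt h.lt, fun x hx hs => h.sub x hx fun _ ht => Lset_mono hγ (hs ht)⟩

/-- The graph of `f` restricted to `ζ`. -/
noncomputable def gr (f : Ordinal.{u} → ZFSet.{u}) (ζ : Ordinal.{u}) : ZFSet.{u} :=
  ZFSet.range (fun η : Set.Iio ζ => ZFSet.pair η.1.toZFSet (f η.1))

theorem mem_gr {f : Ordinal.{u} → ZFSet.{u}} {ζ : Ordinal.{u}} {t : ZFSet.{u}} :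
    t ∈ gr f ζ ↔ ∃ η < ζ, t = ZFSet.pair η.toZFSet (f η) := by
  rw [gr, ZFSet.mem_range]
  constructor
  · rintro ⟨η, rfl⟩
    exact ⟨η.1, η.2, rfl⟩
  · rintro ⟨η, hη, rfl⟩
    exact ⟨⟨η, hη⟩, rfl⟩

theorem pair_mem_gr {f : Ordinal.{u} → ZFSet.{u}} {ζ η : Ordinal.{u}} {y : ZFSet.{u}} :
    ZFSet.pair η.toZFSet y ∈ gr f ζ ↔ η < ζ ∧ y = f η := by
  rw [mem_gr]
  constructor
  · rintro ⟨ξ, hξ, h⟩
    obtain ⟨h1, h2⟩ := ZFSet.pair_injective h
    obtain rfl := Ordinal.toZFSet_injective h1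
    exact ⟨hξ, h2⟩
  · rintro ⟨h, rfl⟩
    exact ⟨η, h, rfl⟩

section

variable {θ : Ordinal.{u}}

/-- The ordinal `α` as an element of `L_θ`. -/
noncomputable def oL {α : Ordinal.{u}} (h : α < θ) : LA θ :=
  ⟨α.toZFSet, (toZFSet_mem_Lset_iff _ _).2 h⟩

/-- `h'` is the restriction of `h` to `z`. -/
def IsRestr (h h' z : LA θ) : Prop :=
  ∀ t : LA θ, t.1 ∈ h'.1 ↔ t.1 ∈ h.1 ∧ ∃ e y : LA θ, e.1 ∈ z.1 ∧ t.1 = ZFSet.pair e.1 y.1

instance IsRestr.dp {I : Type} {f g h : (I → LA θ) → LA θ} [FT f] [FT g] [FT h] :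
    DP (fun v => IsRestr (f v) (g v) (h v)) :=
  DP.sub3 (Q := IsRestr) (by unfold IsRestr; infer_instance) ‹_› ‹_› ‹_›

/-- `h` is an attempt at the recursion, of length `z`. -/
def Att (Step : LA θ → LA θ → LA θ → Prop) (z h : LA θ) : Prop :=
  (∀ t : LA θ, t.1 ∈ h.1 → ∃ e y h' : LA θ, e.1 ∈ z.1 ∧ t.1 = ZFSet.pair e.1 y.1 ∧
    IsRestr h h' e ∧ Step e h' y) ∧
  (∀ e y h' : LA θ, e.1 ∈ z.1 → IsRestr h h' e → Step e h' y → ZFSet.pair e.1 y.1 ∈ h.1)

end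

theorem rec_constr {γ : Ordinal.{u}} (hγ : ∀ α < γ, α + 1 < γ) {β : Ordinal.{u}}
    (hβ : β ≤ γ) {f : Ordinal.{u} → ZFSet.{u}} (hf : ∀ ζ < β, f ζ ∈ Lset γ)
    (Step : ∀ κ : Cardinal.{u}, LA κ.ord → LA κ.ord → LA κ.ord → Prop)
    (hStep : ∀ κ, Big γ κ → DP (fun v : Fin 3 → LA κ.ord => Step κ (v 0) (v 1) (v 2)))
    (hval : ∀ κ, Big γ κ → ∀ ζ < β, ∀ z h y : LA κ.ord, z.1 = ζ.toZFSet → h.1 = gr f ζ →
      (Step κ z h y ↔ y.1 = f ζ)) :
    ∀ ζ ≤ β, Constructible (gr f ζ) := by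
  intro ζ
  induction ζ using WellFoundedLT.induction with
  | ind ζ ih =>
  intro hζ
  obtain ⟨κ, -, hκ⟩ := exists_Big γ 0
  have hζκ : ζ < κ.ord := (hζ.trans hβ).trans_lt hκ.lt
  have hgrγ : ∀ η ≤ β, gr f η ⊆ Lset γ := by
    intro η hη t ht
    obtain ⟨ξ, hξ, rfl⟩ := mem_gr.1 ht
    exact Lset_pair hγ ((toZFSet_mem_Lset_iff _ _).2 ((hξ.trans_le hη).trans_le hβ))
      (hf ξ (hξ.trans_le hη))
  have hgr : ∀ η < ζ, gr f η ∈ Lset κ.ord := fun η hη =>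
    hκ.sub _ (ih η hη (hη.le.trans hζ)) (hgrγ _ (hη.le.trans hζ))
  -- restrictions
  have hres : ∀ η < ζ, ∀ ξ ≤ η, ∀ h h' z : LA κ.ord, h.1 = gr f η → z.1 = ξ.toZFSet →
      (IsRestr h h' z ↔ h'.1 = gr f ξ) := by
    intro η hη ξ hξ h h' z hh hz
    constructor
    · intro hr
      ext t
      constructor
      · intro ht
        obtain ⟨h1, e, y, he, hty⟩ := (hr ⟨t, Lset_trans h'.2 ht⟩).1 ht
        rw [hh, mem_gr] at h1
        obtain ⟨η', hη', h1⟩ := h1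
        have h2 : ZFSet.pair e.1 y.1 = ZFSet.pair η'.toZFSet (f η') := hty.symm.trans h1
        obtain ⟨h3, h4⟩ := ZFSet.pair_injective h2
        rw [hz, h3, Ordinal.toZFSet_mem_toZFSet_iff] at he
        exact mem_gr.2 ⟨η', he, h1⟩
      · intro ht
        obtain ⟨ξ', hξ', rfl⟩ := mem_gr.1 ht
        have h1 : ZFSet.pair ξ'.toZFSet (f ξ') ∈ gr f η :=
          mem_gr.2 ⟨ξ', hξ'.trans_le hξ, rfl⟩
        have h2 : ZFSet.pair ξ'.toZFSet (f ξ') ∈ Lset κ.ord := Lset_trans (hgr η hη) h1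
        refine (hr ⟨_, h2⟩).2 ⟨by rw [hh]; exact h1, oL ((hξ'.trans_le
          (hξ.trans hη.le)).trans hζκ), ⟨f ξ', hκ.mem (hf _ ((hξ'.trans_le
          (hξ.trans hη.le)).trans_le hζ))⟩, ?_, rfl⟩
        rw [hz]
        exact Ordinal.toZFSet_mem_toZFSet_iff.2 hξ'
    · intro hr t
      rw [hr, hh]
      constructor
      · intro ht
        obtain ⟨ξ', hξ', ht'⟩ := mem_gr.1 ht
        refine ⟨mem_gr.2 ⟨ξ', hξ'.trans_le hξ, ht'⟩, oL ((hξ'.trans_le
          (hξ.trans hη.le)).trans hζκ), ⟨f ξ', hκ.mem (hf _ ((hξ'.trans_le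
          (hξ.trans hη.le)).trans_le hζ))⟩, ?_, ht'⟩
        rw [hz]
        exact Ordinal.toZFSet_mem_toZFSet_iff.2 hξ'
      · rintro ⟨h1, e, y, he, hty⟩
        obtain ⟨η', hη', h1⟩ := mem_gr.1 h1
        have h2 : ZFSet.pair e.1 y.1 = ZFSet.pair η'.toZFSet (f η') := hty.symm.trans h1
        obtain ⟨h3, h4⟩ := ZFSet.pair_injective h2
        rw [hz, h3, Ordinal.toZFSet_mem_toZFSet_iff] at he
        exact mem_gr.2 ⟨η', he, h1⟩
  -- attempts
  have hatt : ∀ η < ζ, ∀ z h : LA κ.ord, z.1 = η.toZFSet →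
      (Att (Step κ) z h ↔ h.1 = gr f η) := by
    intro η hη z h hz
    constructor
    · rintro ⟨a1, a2⟩
      have key : ∀ ξ ≤ η, ∀ h' z' : LA κ.ord, z'.1 = ξ.toZFSet → IsRestr h h' z' →
          h'.1 = gr f ξ := by
        intro ξ
        induction ξ using WellFoundedLT.induction with
        | ind ξ ihξ =>
        intro hξ h' z' hz' hr
        ext t
        constructor
        · intro ht
          obtain ⟨h1, e, y, he, hty⟩ := (hr ⟨t, Lset_trans h'.2 ht⟩).1 ht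
          obtain ⟨e', y', h'', he', hty', hr', hst⟩ := a1 _ h1
          have h2 : ZFSet.pair e.1 y.1 = ZFSet.pair e'.1 y'.1 := hty.symm.trans hty'
          obtain ⟨h3, h4⟩ := ZFSet.pair_injective h2
          rw [hz'] at he
          obtain ⟨ξ', hξ', he2⟩ := Ordinal.mem_toZFSet_iff.1 he
          have h5 := ihξ ξ' hξ' (hξ'.le.trans hξ) h'' e' (h3.symm.trans he2.symm) hr'
          have h6 := (hval κ hκ ξ' ((hξ'.trans_le (hξ.trans hη.le)).trans_le hζ) e' h'' y'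
            (h3.symm.trans he2.symm) h5).1 hst
          rw [mem_gr]
          exact ⟨ξ', hξ', by rw [← h6, he2, h3]; exact hty'⟩
        · intro ht
          obtain ⟨ξ', hξ', rfl⟩ := mem_gr.1 ht
          have hξ'β : ξ' < β := (hξ'.trans_le (hξ.trans hη.le)).trans_le hζ
          have hξ'κ : ξ' < κ.ord := (hξ'.trans_le (hξ.trans hη.le)).trans hζκ
          let y : LA κ.ord := ⟨f ξ', hκ.mem (hf _ hξ'β)⟩
          -- the restriction of `h`
          obtain ⟨h'', hr''⟩ : ∃ h'' : LA κ.ord, IsRestr h h'' (oL hξ'κ) := by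
            have h1 : Constructible (sepL (θ := κ.ord) fun t => t.1 ∈ h.1 ∧
                ∃ e y : LA κ.ord, e.1 ∈ (oL hξ'κ).1 ∧ t.1 = ZFSet.pair e.1 y.1) :=
              sepL_constr inferInstance
            have h2 : (sepL (θ := κ.ord) fun t => t.1 ∈ h.1 ∧
                ∃ e y : LA κ.ord, e.1 ∈ (oL hξ'κ).1 ∧ t.1 = ZFSet.pair e.1 y.1) ⊆
                Lset γ := by
              intro t ht
              obtain ⟨ht', ht1, e, y, he, hty⟩ := mem_sepL.1 ht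
              obtain ⟨e', y', h'', he', hty', hr', hst⟩ := a1 _ ht1
              have h2 : ZFSet.pair e.1 y.1 = ZFSet.pair e'.1 y'.1 := hty.symm.trans hty'
              obtain ⟨h3, h4⟩ := ZFSet.pair_injective h2
              obtain ⟨ξ₂, hξ₂, he2⟩ := Ordinal.mem_toZFSet_iff.1 he
              have hξ₂ξ := hξ₂.trans hξ'
              have h5 := ihξ ξ₂ hξ₂ξ (hξ₂ξ.le.trans hξ) h'' e'
                (h3.symm.trans he2.symm) hr'
              have hξ₂β : ξ₂ < β := (hξ₂ξ.trans_le (hξ.trans hη.le)).trans_le hζ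
              have h6 := (hval κ hκ ξ₂ hξ₂β e' h'' y' (h3.symm.trans he2.symm) h5).1 hst
              have h7 : t = ZFSet.pair ξ₂.toZFSet (f ξ₂) := by
                rw [← h6, he2, h3]; exact hty'
              rw [h7]
              exact Lset_pair hγ ((toZFSet_mem_Lset_iff _ _).2 (hξ₂β.trans_le hβ))
                (hf ξ₂ hξ₂β)
            refine ⟨⟨_, hκ.sub _ h1 h2⟩, fun t => ?_⟩
            exact mem_sepL' (θ := κ.ord) (Q := fun t => t.1 ∈ h.1 ∧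
                ∃ e y : LA κ.ord, e.1 ∈ (oL hξ'κ).1 ∧ t.1 = ZFSet.pair e.1 y.1) t
          have h5 := ihξ ξ' hξ' (hξ'.le.trans hξ) h'' (oL hξ'κ) rfl hr''
          have h6 := (hval κ hκ ξ' hξ'β (oL hξ'κ) h'' y rfl h5).2 rfl
          have he1 : (oL hξ'κ).1 ∈ z.1 := by
            rw [hz]
            exact Ordinal.toZFSet_mem_toZFSet_iff.2 (hξ'.trans_le hξ)
          have h7 := a2 (oL hξ'κ) y h'' he1 hr'' h6
          refine (hr ⟨_, Lset_trans h.2 h7⟩).2 ⟨h7, oL hξ'κ, y, ?_, rfl⟩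
          rw [hz']
          exact Ordinal.toZFSet_mem_toZFSet_iff.2 hξ'
      refine key η le_rfl h z hz fun t => ?_
      constructor
      · intro ht
        obtain ⟨e, y, h', h1, h2, -⟩ := a1 t ht
        exact ⟨ht, e, y, h1, h2⟩
      · exact fun ht => ht.1
    · intro hh
      constructor
      · intro t ht
        rw [hh, mem_gr] at ht
        obtain ⟨ξ, hξ, ht⟩ := ht
        have hξζ := hξ.trans hη
        let h' : LA κ.ord := ⟨gr f ξ, hgr ξ hξζ⟩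
        refine ⟨oL (hξζ.trans hζκ), ⟨f ξ, hκ.mem (hf _ (hξζ.trans_le hζ))⟩, h', ?_, ht,
          ?_, ?_⟩
        · rw [hz]
          exact Ordinal.toZFSet_mem_toZFSet_iff.2 hξ
        · exact (hres η hη ξ hξ.le h h' _ hh rfl).2 rfl
        · exact (hval κ hκ ξ (hξζ.trans_le hζ) _ _ _ rfl rfl).2 rfl
      · intro e y h' he hr hst
        rw [hz] at he
        obtain ⟨ξ, hξ, he2⟩ := Ordinal.mem_toZFSet_iff.1 he
        have h1 := (hres η hη ξ hξ.le h h' e hh he2.symm).1 hr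
        have h2 := (hval κ hκ ξ ((hξ.trans hη).trans_le hζ) e h' y he2.symm h1).1 hst
        rw [hh, mem_gr]
        exact ⟨ξ, hξ, by rw [he2, h2]⟩
  -- the definition
  have hS3 := hStep κ hκ
  have hS : ∀ {I : Type} {f g h : (I → LA κ.ord) → LA κ.ord} [FT f] [FT g] [FT h],
      DP (fun v => Step κ (f v) (g v) (h v)) := fun {I f g h} hf hg hh =>
    DP.sub3 (Q := Step κ) hS3 hf hg hh
  have hA : ∀ {I : Type} {f g : (I → LA κ.ord) → LA κ.ord} [FT f] [FT g],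
      DP (fun v => Att (Step κ) (f v) (g v)) := fun {I f g} hf hg =>
    DP.sub2 (Q := Att (Step κ)) (by unfold Att; infer_instance) hf hg
  have h1 : Constructible (sepL (θ := κ.ord) fun t => ∃ z h y : LA κ.ord,
      z.1 ∈ (oL hζκ).1 ∧ Att (Step κ) z h ∧ Step κ z h y ∧ t.1 = ZFSet.pair z.1 y.1) :=
    sepL_constr inferInstance
  have h2 : gr f ζ = sepL (θ := κ.ord) fun t => ∃ z h y : LA κ.ord,
      z.1 ∈ (oL hζκ).1 ∧ Att (Step κ) z h ∧ Step κ z h y ∧ t.1 = ZFSet.pair z.1 y.1 := by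
    ext t
    rw [mem_gr, mem_sepL]
    constructor
    · rintro ⟨η, hη, rfl⟩
      have h3 : ZFSet.pair η.toZFSet (f η) ∈ Lset κ.ord :=
        Lset_pair hκ.lim ((toZFSet_mem_Lset_iff _ _).2 (hη.trans hζκ))
          (hκ.mem (hf _ (hη.trans_le hζ)))
      refine ⟨h3, oL (hη.trans hζκ), ⟨_, hgr η hη⟩, ⟨f η, hκ.mem (hf _ (hη.trans_le hζ))⟩,
        Ordinal.toZFSet_mem_toZFSet_iff.2 hη, (hatt η hη _ _ rfl).2 rfl,
        (hval κ hκ η (hη.trans_le hζ) _ _ _ rfl rfl).2 rfl, rfl⟩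
    · rintro ⟨ht, z, h, y, hz, ha, hst, hty⟩
      obtain ⟨η, hη, hz2⟩ := Ordinal.mem_toZFSet_iff.1 hz
      have h3 := (hatt η hη z h hz2.symm).1 ha
      have h4 := (hval κ hκ η (hη.trans_le hζ) z h y hz2.symm h3).1 hst
      refine ⟨η, hη, ?_⟩
      rw [← h4, hz2]
      exact hty
  rw [h2]
  exact h1

end Pool.Agent.ZSharp
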