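import Pool.Agent.ZSharp.Step

/-!
# Reductions to the hull of a good set
-/

set_option autoImplicit false

open FirstOrder Set Ordinal

namespace Pool.Agent.ZSharp

universe u v w

variable {L : FirstOrder.Language.{0, 0}} {A : Type w} [L.Structure A]
  {c : Ordinal.{u} → A} {lam : Ordinal.{u}} {J : Set Ordinal.{u}} {E : A → A → Prop}

theorem Good.extend {big : Ordinal.{u} → Prop} {K : Set Ordinal.{u}} (hK : Good J lam big K)
    {gu : Ordinal.{u}} (hgu : gu ∈ K ∨ gu = lam) :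
    Good J lam big (K ∪ {x | x ∈ J ∧ x < gu ∧ ∀ k ∈ K, k < gu → k < x}) := by
  classical
  have hgl : gu ≤ lam := by
    rcases hgu with h | h
    · exact (hK.sub _ h).2.le
    · exact h.le
  refine ⟨?_, ?_, ?_⟩
  · rintro k (hk | hk)
    · exact hK.sub k hk
    · exact ⟨hk.1, hk.2.1.trans_le hgl⟩
  · intro n m e e' he he'
    have hlow : ∀ i : {i : Fin m // ¬ (e' i ∈ J ∧ e' i < gu ∧ ∀ k ∈ K, k < gu → k < e' i) ∧
        e' i < gu}, ∃ k ∈ K, k < gu ∧ e' i.1 ≤ k := by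
      rintro ⟨i, h1, h2⟩
      by_contra h3
      push Not at h3
      exact h1 ⟨(he' i).1, h2, h3⟩
    choose kk hkk1 hkk2 hkk3 using hlow
    let G : Set Ordinal.{u} := {x | x ∈ J ∧ x < gu ∧ ∀ k ∈ K, k < gu → k < x}
    let fm : {i : Fin n // e i ∈ K} ⊕
        ({i : Fin m // ¬ (e' i ∈ J ∧ e' i < gu ∧ ∀ k ∈ K, k < gu → k < e' i) ∧
        e' i < gu} ⊕ {_u : Unit // gu ∈ K}) → Ordinal.{u} :=
      Sum.elim (fun i => e i.1) (Sum.elim kk (fun _ => gu))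
    have hfm : ∀ i, fm i ∈ K := by
      rintro (i | (i | i))
      · exact i.2
      · exact hkk1 i
      · exact i.2
    let em : {i : Fin m // ¬ (e' i ∈ J ∧ e' i < gu ∧ ∀ k ∈ K, k < gu → k < e' i)} →
      Ordinal.{u} := fun i => e' i.1
    obtain ⟨e1, he1, hoe⟩ := hK.move fm em hfm (fun i => he' _)
    let e'' : Fin m → Ordinal.{u} := fun i =>
      if h : (e' i ∈ J ∧ e' i < gu ∧ ∀ k ∈ K, k < gu → k < e' i) then e' i else e1 ⟨i, h⟩
    refine ⟨e'', ?_, ?_⟩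
    · intro i
      by_cases h : (e' i ∈ J ∧ e' i < gu ∧ ∀ k ∈ K, k < gu → k < e' i)
      · right
        have e3 : e'' i = e' i := dif_pos h
        rw [e3]
        exact h
      · left
        have e3 : e'' i = e1 ⟨i, h⟩ := dif_neg h
        rw [e3]
        exact he1 _
    · have key : ∀ y : Fin n ⊕ Fin m,
          (Sum.elim e e' y ∈ G ∧ Sum.elim e e'' y = Sum.elim e e' y) ∨
          ∃ z, Sum.elim e e' y = Sum.elim fm em z ∧ Sum.elim e e'' y = Sum.elim fm e1 z ∧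
            ((∃ k, (∀ x ∈ G, k < x) ∧ Sum.elim e e' y ≤ k ∧ Sum.elim e e'' y ≤ k) ∨
              ((∀ x ∈ G, x < Sum.elim e e' y) ∧ (∀ x ∈ G, x < Sum.elim e e'' y))) := by
        rintro (i | i)
        · by_cases h : e i ∈ K
          · right
            refine ⟨Sum.inl (Sum.inl ⟨i, h⟩), rfl, rfl, ?_⟩
            rcases lt_or_ge (e i) gu with h1 | h1
            · left
              exact ⟨e i, fun x hx => hx.2.2 _ h h1, le_rfl, le_rfl⟩
            · right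
              exact ⟨fun x hx => hx.2.1.trans_le h1, fun x hx => hx.2.1.trans_le h1⟩
          · left
            exact ⟨(he i).resolve_left h, rfl⟩
        · by_cases h : (e' i ∈ J ∧ e' i < gu ∧ ∀ k ∈ K, k < gu → k < e' i)
          · left
            exact ⟨h, dif_pos h⟩
          · right
            have e2 : Sum.elim e e'' (Sum.inr i) = e1 ⟨i, h⟩ := dif_neg h
            refine ⟨Sum.inr ⟨i, h⟩, rfl, e2, ?_⟩
            rcases lt_or_ge (e' i) gu with h1 | h1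
            · left
              refine ⟨kk ⟨i, h, h1⟩, fun x hx => hx.2.2 _ (hkk1 _) (hkk2 _), hkk3 ⟨i, h, h1⟩,
                ?_⟩
              rw [e2]
              exact (hoe.le_iff (Sum.inr ⟨i, h⟩) (Sum.inl (Sum.inr (Sum.inl ⟨i, h, h1⟩)))).1
                (hkk3 ⟨i, h, h1⟩)
            · right
              have hgK : gu ∈ K := by
                rcases hgu with h2 | h2
                · exact h2
                · exact absurd (he' i).2 (not_lt.2 (h2 ▸ h1))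
              have h3 : gu ≤ e1 ⟨i, h⟩ :=
                (hoe.le_iff (Sum.inl (Sum.inr (Sum.inr ⟨(), hgK⟩))) (Sum.inr ⟨i, h⟩)).1 h1
              refine ⟨fun x hx => hx.2.1.trans_le h1, fun x hx => ?_⟩
              rw [e2]
              exact hx.2.1.trans_le h3
      intro y1 y2
      rcases key y1 with ⟨h1, h1'⟩ | ⟨z1, a1, b1, c1⟩ <;>
        rcases key y2 with ⟨h2, h2'⟩ | ⟨z2, a2, b2, c2⟩
      · rw [h1', h2']
      · rw [h1']
        rcases c2 with ⟨k, hk, hk1, hk2⟩ | ⟨hk1, hk2⟩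
        · exact iff_of_false (not_lt.2 (hk1.trans (hk _ h1).le))
            (not_lt.2 (hk2.trans (hk _ h1).le))
        · exact iff_of_true (hk1 _ h1) (hk2 _ h1)
      · rw [h2']
        rcases c1 with ⟨k, hk, hk1, hk2⟩ | ⟨hk1, hk2⟩
        · exact iff_of_true (hk1.trans_lt (hk _ h2)) (hk2.trans_lt (hk _ h2))
        · exact iff_of_false (hk1 _ h2).not_gt (hk2 _ h2).not_gt
      · rw [a1, a2, b1, b2]
        exact hoe z1 z2
  · rintro g (hg | hg)
    · rcases hK.lim g hg with h | h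
      · left
        intro j hj hjg
        obtain ⟨b, hb, h1, h2⟩ := h j hj hjg
        exact ⟨b, Or.inl hb, h1, h2⟩
      · exact Or.inr h
    · left
      intro j hj hjg
      by_cases h : j < gu ∧ ∀ k ∈ K, k < gu → k < j
      · exact ⟨j, Or.inr ⟨hj, h⟩, le_rfl, hjg⟩
      · push Not at h
        obtain ⟨k, hk, hkg, hjk⟩ := h (hjg.trans hg.2.1)
        exact ⟨k, Or.inl hk, hjk, hg.2.2 k hk hkg⟩

theorem Supp.mono {K K' : Set Ordinal.{u}} (h : K ⊆ K') {z : A} (hz : Supp L c K z) :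
    Supp L c K' z := by
  obtain ⟨I, fin, e, T, h1, h2, h3⟩ := hz
  exact ⟨I, fin, e, T, fun i => h (h1 i), h2, h3⟩

/-- Common extensions can be taken in the hull of a good set. -/
theorem Sit.elem (S : Sit L A c lam J E) {big : Ordinal.{u} → Prop} {K : Set Ordinal.{u}}
    (hK : Good J lam big K) {IP : Type} [Finite IP] {eP : IP → Ordinal.{u}}
    (heP : ∀ i, eP i ∈ K) {Le : (IP → A) → A → A → Prop}
    (hLe : Dfn L (fun v : IP ⊕ Fin 2 → A => Le (v ∘ Sum.inl) (v (Sum.inr 0))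
      (v (Sum.inr 1)))) {x y z : A} (hx : Supp L c K x) (hy : Supp L c K y)
    (hzx : Le (c ∘ eP) z x) (hzy : Le (c ∘ eP) z y) (hzz : Le (c ∘ eP) z z) :
    ∃ z', Supp L c K z' ∧ Le (c ∘ eP) z' x ∧ Le (c ∘ eP) z' y ∧ Le (c ∘ eP) z' z' := by
  obtain ⟨Ix, fx, ex, Tx, hex, hTx, hdx⟩ := hx
  obtain ⟨Iy, fy, ey, Ty, hey, hTy, hdy⟩ := hy
  obtain ⟨n, ez, Tz, hez, hTz, hdz⟩ := S.gen z
  obtain ⟨e', he', hoe⟩ := hK.move (Sum.elim eP (Sum.elim ex ey)) ez (by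
    rintro (i | (i | i))
    · exact heP i
    · exact hex i
    · exact hey i) hez
  let idx := (IP ⊕ (Ix ⊕ Iy)) ⊕ Fin n
  let P : (idx → A) → Prop := fun v => ∃ z x y, IsDef Tz (v ∘ Sum.inr) z ∧
    IsDef Tx (v ∘ (fun i => Sum.inl (Sum.inr (Sum.inl i)))) x ∧
    IsDef Ty (v ∘ (fun i => Sum.inl (Sum.inr (Sum.inr i)))) y ∧
    (Le (v ∘ (fun i => Sum.inl (Sum.inl i))) z x ∧
    Le (v ∘ (fun i => Sum.inl (Sum.inl i))) z y ∧
    Le (v ∘ (fun i => Sum.inl (Sum.inl i))) z z)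
  have hP : Dfn L P := by
    refine Dfn.ex (Dfn.ex (Dfn.ex ?_))
    exact (hTz.isDef.at (K := ((idx ⊕ Unit) ⊕ Unit) ⊕ Unit)
      (fun i => Sum.inl (Sum.inl (Sum.inl (Sum.inr i))))
        (Sum.inl (Sum.inl (Sum.inr ())))).and
      ((hTx.isDef.at (K := ((idx ⊕ Unit) ⊕ Unit) ⊕ Unit)
      (fun i => Sum.inl (Sum.inl (Sum.inl (Sum.inl (Sum.inr (Sum.inl i))))))
        (Sum.inl (Sum.inr ()))).and
      ((hTy.isDef.at (K := ((idx ⊕ Unit) ⊕ Unit) ⊕ Unit)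
      (fun i => Sum.inl (Sum.inl (Sum.inl (Sum.inl (Sum.inr (Sum.inr i))))))
        (Sum.inr ())).and
      ((dfn_le hLe (idx := ((idx ⊕ Unit) ⊕ Unit) ⊕ Unit)
        (fun i => Sum.inl (Sum.inl (Sum.inl (Sum.inl (Sum.inl i)))))
        (Sum.inl (Sum.inl (Sum.inr ()))) (Sum.inl (Sum.inr ()))).and
      ((dfn_le hLe (idx := ((idx ⊕ Unit) ⊕ Unit) ⊕ Unit)
        (fun i => Sum.inl (Sum.inl (Sum.inl (Sum.inl (Sum.inl i)))))
        (Sum.inl (Sum.inl (Sum.inr ()))) (Sum.inr ())).and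
      (dfn_le hLe (idx := ((idx ⊕ Unit) ⊕ Unit) ⊕ Unit)
        (fun i => Sum.inl (Sum.inl (Sum.inl (Sum.inl (Sum.inl i)))))
        (Sum.inl (Sum.inl (Sum.inr ()))) (Sum.inl (Sum.inl (Sum.inr ()))))))))
  have hJf : InJ J lam (Sum.elim eP (Sum.elim ex ey)) := by
    rintro (i | (i | i))
    · exact hK.sub _ (heP i)
    · exact hK.sub _ (hex i)
    · exact hK.sub _ (hey i)
  have h1 : P (c ∘ Sum.elim (Sum.elim eP (Sum.elim ex ey)) ez) :=
    ⟨z, x, y, hdz, hdx, hdy, hzx, hzy, hzz⟩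
  obtain ⟨z', x', y', h2, h3, h4, h5, h6, h7⟩ := (S.ind hP (hJf.sum hez)
    (hJf.sum (fun i => hK.sub _ (he' i))) hoe).1 h1
  have h3' : x' = x := IsDef.unique h3 hdx
  have h4' : y' = y := IsDef.unique h4 hdy
  subst h3' h4'
  exact ⟨z', ⟨Fin n, inferInstance, e', Tz, he', hTz, h2⟩, h5, h6, h7⟩

/-- Every condition has a reduction to the hull of a good set. -/
theorem Sit.reduce (S : Sit L A c lam J E) {big : Ordinal.{u} → Prop}
    (hbig : ∀ β < lam, ∃ g < lam, β < g ∧ LimJ J g ∧ big g)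
    {IP : Type} [Finite IP] {eP : IP → Ordinal.{u}} {Le : (IP → A) → A → A → Prop}
    (hLe : Dfn L (fun v : IP ⊕ Fin 2 → A => Le (v ∘ Sum.inl) (v (Sum.inr 0))
      (v (Sum.inr 1))))
    (hcc : CC L (Le (c ∘ eP)) big)
    (htr : ∀ x y z, Le (c ∘ eP) x y → Le (c ∘ eP) y z → Le (c ∘ eP) x z)
    (hrl : ∀ x y, Le (c ∘ eP) x y → Le (c ∘ eP) x x)
    {n : ℕ} {e : Fin n → Ordinal.{u}} (he : InJ J lam e) {T : (Fin n → A) → A → Prop}
    (hT : Dfn1 L T) {q : A} (hq : IsDef T (c ∘ e) q) (hqP : Le (c ∘ eP) q q) :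
    ∀ (N : ℕ) (K : Set Ordinal.{u}), Good J lam big K → (∀ i, eP i ∈ K) →
      Nat.card {i // e i ∉ K} = N →
      ∃ q', Supp L c K q' ∧ Le (c ∘ eP) q' q' ∧ ∀ s, Supp L c K s → Le (c ∘ eP) s s →
        Le (c ∘ eP) s q' → ∃ z, Le (c ∘ eP) z s ∧ Le (c ∘ eP) z q := by
  classical
  intro N
  induction N using Nat.strong_induction_on with
  | _ N ih =>
  intro K hK heP hN
  by_cases hall : ∀ i, e i ∈ K
  · exact ⟨q, ⟨Fin n, inferInstance, e, T, hall, hT, hq⟩, hqP, fun s _ hs hsq =>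
      ⟨s, hs, hsq⟩⟩
  push Not at hall
  obtain ⟨i0, hi0⟩ := hall
  -- choose the upper end of the gap
  obtain ⟨gu, hgu, hjgu, hmin⟩ : ∃ gu, (gu ∈ K ∨ gu = lam) ∧ e i0 < gu ∧
      ∀ k ∈ K, k < gu → k < e i0 := by
    by_cases h : ∃ k ∈ K, e i0 ≤ k
    · obtain ⟨k, hk, hek⟩ := h
      let s : Set Ordinal.{u} := {k | k ∈ K ∧ e i0 ≤ k}
      have hs : s.Nonempty := ⟨k, hk, hek⟩
      have hm : sInf s ∈ s := csInf_mem hs
      refine ⟨sInf s, Or.inl hm.1, lt_of_le_of_ne hm.2 ?_, ?_⟩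
      · intro h
        rw [h] at hi0
        exact hi0 hm.1
      · intro k' hk' hk'l
        by_contra hcon
        exact absurd (csInf_le' (s := s) ⟨hk', not_lt.1 hcon⟩) (not_le.2 hk'l)
    · push Not at h
      exact ⟨lam, Or.inr rfl, (he i0).2, fun k hk _ => h k hk⟩
  let K' := K ∪ {x | x ∈ J ∧ x < gu ∧ ∀ k ∈ K, k < gu → k < x}
  have hK' : Good J lam big K' := hK.extend hgu
  have hi0' : e i0 ∈ K' := Or.inr ⟨(he i0).1, hjgu, hmin⟩
  have hlt : Nat.card {i // e i ∉ K'} < N := by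
    rw [← hN]
    have h1 : {i | e i ∉ K'} ⊂ {i | e i ∉ K} := by
      refine ⟨fun i hi hik => hi (Or.inl hik), fun hcon => ?_⟩
      exact hcon (show i0 ∈ {i | e i ∉ K} from hi0) hi0'
    exact Set.ncard_lt_ncard h1 (Set.toFinite _)
  obtain ⟨q1, hq1, hq1P, hred1⟩ := ih _ hlt K' hK' (fun i => Or.inl (heP i)) rfl
  obtain ⟨I1, fin1, e1, T1, he1, hT1, hd1⟩ := hq1
  have he1J : ∀ i, e1 i < lam := fun i => (hK'.sub _ (he1 i)).2
  -- choose `g`
  obtain ⟨g, hgl, hgLim, hgbig, hgK, hgap⟩ : ∃ g < lam, LimJ J g ∧ big g ∧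
      (g ∈ K ∨ ∀ k ∈ K, k < g) ∧ (∀ i, e1 i ∈ K ∨
        (e1 i ∈ J ∧ e1 i < g ∧ ∀ k ∈ K, k < g → k < e1 i)) := by
    rcases hgu with h | h
    · refine ⟨gu, (hK.sub _ h).2, ?_⟩
      rcases hK.lim gu h with h1 | h1
      · exfalso
        obtain ⟨b, hb, h2, h3⟩ := h1 (e i0) (he i0).1 hjgu
        exact absurd (hmin b hb h3) (not_lt.2 h2)
      · exact ⟨h1.1, h1.2, Or.inl h, fun i => he1 i⟩
    · obtain ⟨β, hβ, hβ'⟩ := S.exists_bound (a := Sum.elim e1 (fun _ : Unit => e i0)) (by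
        rintro (i | i)
        · exact he1J i
        · exact (he i0).2)
      obtain ⟨g, hg, hβg, hg1, hg2⟩ := hbig β hβ
      have hKg : ∀ k ∈ K, k < e i0 := fun k hk => hmin k hk (h ▸ (hK.sub k hk).2)
      refine ⟨g, hg, hg1, hg2, Or.inr fun k hk => ?_, fun i => ?_⟩
      · exact (hKg k hk).trans ((hβ' (Sum.inr ())).trans hβg)
      · rcases he1 i with h1 | h1
        · exact Or.inl h1
        · refine Or.inr ⟨h1.1, (hβ' (Sum.inl i)).trans hβg, fun k hk _ => ?_⟩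
          exact h1.2.2 k hk (h ▸ (hK.sub k hk).2)
  obtain ⟨q2, hq2, hq2P, hred2⟩ := S.step hK hgl hgLim hgbig hgK heP hLe hcc htr hgap hT1 hd1
    hq1P
  refine ⟨q2, hq2, hq2P, fun s hs hss hsq => ?_⟩
  obtain ⟨z, hz1, hz2⟩ := hred2 s hs hss hsq
  obtain ⟨z', hz', h1, h2, h3⟩ := S.elem hK' (fun i => Or.inl (heP i)) hLe
    (hs.mono (fun _ h => Or.inl h)) ⟨I1, fin1, e1, T1, he1, hT1, hd1⟩ hz1 hz2 (hrl _ _ hz1)
  obtain ⟨z'', h4, h5⟩ := hred1 z' hz' h3 h2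
  exact ⟨z'', htr _ _ _ h4 h1, h5⟩

end Pool.Agent.ZSharp
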