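import Pool.Agent.ZSharp.Setup

/-!
# Remarkability
-/

set_option autoImplicit false

open FirstOrder Set Ordinal

namespace Pool.Agent.ZSharp

universe u v w

variable {L : FirstOrder.Language.{0, 0}} {A : Type w} [L.Structure A]
  {c : Ordinal.{u} → A} {lam : Ordinal.{u}} {J : Set Ordinal.{u}} {E : A → A → Prop}

theorem Sit.not_bdd (S : Sit L A c lam J E) : ¬ BddAbove J := fun h => by
  obtain ⟨b, hb⟩ := h
  obtain ⟨j, hj, hbj⟩ := S.unbdd b
  exact absurd (hb hj) (not_le.2 hbj)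

theorem Sit.normal (S : Sit L A c lam J E) : Order.IsNormal (enumOrd J) := by
  refine isNormal_enumOrd (fun t ht hne hb => ?_) S.not_bdd
  by_cases hm : sSup t ∈ t
  · exact ht hm
  · refine S.closed _ ?_ ?_
    · intro h0
      obtain ⟨x, hx⟩ := hne
      have h1 : x ≤ sSup t := le_csSup hb hx
      rw [h0] at h1
      have h2 : x = 0 := nonpos_iff_eq_zero.1 h1
      rw [h0, ← h2] at hm
      exact hm hx
    · intro β hβ
      obtain ⟨x, hx, hβx⟩ := exists_lt_of_lt_csSup hne hβ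
      refine ⟨x, ht hx, hβx, lt_of_le_of_ne (le_csSup hb hx) ?_⟩
      rintro rfl
      exact hm hx

/-- The `i`-th block above `β`. -/
noncomputable def blk (J : Set Ordinal.{u}) (β : Ordinal.{u}) {m : ℕ} (i : Ordinal.{u}) :
    Fin m → Ordinal.{u} := fun k => enumOrd J (β + ω * i + (k.1 : Ordinal.{u}))

theorem Sit.blk_mono (S : Sit L A c lam J E) (β : Ordinal.{u}) {m : ℕ} (i : Ordinal.{u}) :
    StrictMono (blk J β (m := m) i) := by
  intro k l hkl
  refine enumOrd_strictMono S.not_bdd ?_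
  have : ((k.1 : ℕ) : Ordinal.{u}) < ((l.1 : ℕ) : Ordinal.{u}) := by exact_mod_cast hkl
  exact (add_lt_add_iff_left _).2 this

theorem Sit.blk_lt (S : Sit L A c lam J E) (β : Ordinal.{u}) {m n : ℕ} {i i' : Ordinal.{u}}
    (h : i < i') (k : Fin m) (l : Fin n) : blk J β i k < blk J β i' l := by
  refine enumOrd_strictMono S.not_bdd ?_
  have h1 : ω * i + ω ≤ ω * i' := by
    have := mul_le_mul_right (Order.succ_le_of_lt h) ω
    rwa [mul_succ] at this
  calc β + ω * i + (k.1 : Ordinal.{u}) < β + ω * i + ω := by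
        exact (add_lt_add_iff_left _).2 (natCast_lt_omega0 _)
    _ = β + (ω * i + ω) := by rw [add_assoc]
    _ ≤ β + ω * i' := by gcongr
    _ ≤ β + ω * i' + (l.1 : Ordinal.{u}) := le_self_add

theorem Sit.blk_inJ (S : Sit L A c lam J E) {β : Ordinal.{u}} (hβ : β < lam) {m : ℕ}
    {i : Ordinal.{u}} (hi : i < lam) : InJ J lam (blk J β (m := m) i) := by
  intro k
  refine ⟨enumOrd_mem S.not_bdd _, S.enum_lt _ ?_⟩
  exact S.add_lt _ (S.add_lt _ hβ _ (S.omega_mul_lt _ hi)) _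
    ((natCast_lt_omega0 _).trans S.omega_lt)

theorem Sit.le_blk (S : Sit L A c lam J E) (β : Ordinal.{u}) {m : ℕ} (i : Ordinal.{u})
    (k : Fin m) : β ≤ blk J β i k := by
  refine le_trans ?_ (id_le_enumOrd S.not_bdd _)
  show β ≤ β + ω * i + (k.1 : Ordinal.{u})
  rw [add_assoc]
  exact le_self_add

theorem Sit.blk_omega (S : Sit L A c lam J E) (β : Ordinal.{u}) {m : ℕ} {η : Ordinal.{u}}
    (h : η < blk J β (m := m + 1) ω 0) : ∃ n : ℕ, η < blk J β (m := m + 1) (n : Ordinal.{u}) 0 := by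
  by_contra hn
  push Not at hn
  refine absurd h (not_lt.2 ?_)
  have hl : Order.IsSuccLimit (β + ω * ω) :=
    isSuccLimit_add β (isSuccLimit_mul_left isSuccLimit_omega0 omega0_pos)
  have h1 : blk J β (m := m + 1) ω 0 = enumOrd J (β + ω * ω) := by
    simp [blk]
  rw [h1]
  refine (Order.isNormal_iff.1 S.normal).2 _ hl η fun b hb => ?_
  have h2 : ∃ n : ℕ, b ≤ β + ω * (n : Ordinal.{u}) := by
    rcases lt_or_ge b β with h3 | h3
    · exact ⟨0, by simpa using h3.le⟩
    · obtain ⟨d, rfl⟩ : ∃ d, b = β + d := ⟨b - β, (Ordinal.add_sub_cancel_of_le h3).symm⟩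
      have h4 : d < ω * ω := (add_lt_add_iff_left _).1 hb
      rw [lt_mul_iff_of_isSuccLimit isSuccLimit_omega0] at h4
      obtain ⟨e, he, hde⟩ := h4
      obtain ⟨n, rfl⟩ := lt_omega0.1 he
      exact ⟨n, by gcongr⟩
  obtain ⟨n, hn'⟩ := h2
  refine le_trans ((enumOrd_strictMono S.not_bdd).monotone hn') ?_
  have h5 := hn n
  simpa [blk] using h5

end Pool.Agent.ZSharp
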