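import Pool.Agent.ZSharp.Remark

/-!
# Remarkability, second part
-/

set_option autoImplicit false

open FirstOrder Set Ordinal

namespace Pool.Agent.ZSharp

universe u v w

variable {L : FirstOrder.Language.{0, 0}} {A : Type w} [L.Structure A]
  {c : Ordinal.{u} → A} {lam : Ordinal.{u}} {J : Set Ordinal.{u}} {E : A → A → Prop}

theorem Sit.c_inj (S : Sit L A c lam J E) {α β : Ordinal.{u}} (hα : α < lam) (hβ : β < lam)
    (h : c α = c β) : α = β := by
  rcases lt_trichotomy α β with h1 | h1 | h1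
  · have := (S.E_iff α hα β hβ).2 h1
    rw [h] at this
    exact absurd ((S.E_iff β hβ β hβ).1 this) (lt_irrefl _)
  · exact h1
  · have := (S.E_iff β hβ α hα).2 h1
    rw [h] at this
    exact absurd ((S.E_iff β hβ β hβ).1 this) (lt_irrefl _)

/-- The valid tuples above the parameters `a`. -/
structure Val (J : Set Ordinal.{u}) (lam : Ordinal.{u}) {Q : Type} (a : Q → Ordinal.{u}) {m : ℕ}
    (x : Fin m → Ordinal.{u}) : Prop where
  mono : StrictMono x
  inJ : InJ J lam x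
  above : ∀ q k, a q < x k

theorem Sit.uniform (S : Sit L A c lam J E) {Q : Type} [Finite Q] {m : ℕ}
    {T : (Q ⊕ Fin (m + 1) → A) → A → Prop} (hT : Dfn1 L T) {a : Q → Ordinal.{u}}
    (ha : InJ J lam a) (f : (Fin (m + 1) → Ordinal.{u}) → Ordinal.{u})
    (hf : ∀ z, Val J lam a z → IsDef T (c ∘ Sum.elim a z) (c (f z)))
    {R : (Fin 3 → A) → Prop} (hR : Dfn L R) {z1 z2 w1 w2 : Fin (m + 1) → Ordinal.{u}}
    (hz1 : Val J lam a z1) (hz2 : Val J lam a z2) (hz : ∀ k l, z1 k < z2 l)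
    (hw1 : Val J lam a w1) (hw2 : Val J lam a w2) (hw : ∀ k l, w1 k < w2 l) :
    R ![c (f z1), c (f z2), c (z1 0)] ↔ R ![c (f w1), c (f w2), c (w1 0)] := by
  let g1 : Q ⊕ Fin (m + 1) → Q ⊕ (Fin (m + 1) ⊕ Fin (m + 1)) :=
    Sum.map id Sum.inl
  let g2 : Q ⊕ Fin (m + 1) → Q ⊕ (Fin (m + 1) ⊕ Fin (m + 1)) :=
    Sum.map id Sum.inr
  let P : (Q ⊕ (Fin (m + 1) ⊕ Fin (m + 1)) → A) → Prop := fun v =>
    ∃ x, ∃ y, IsDef T (v ∘ g1) x ∧ IsDef T (v ∘ g2) y ∧ R ![x, y, v (Sum.inr (Sum.inl 0))]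
  have hP : Dfn L P := by
    refine Dfn.ex (Dfn.ex ?_)
    refine ((hT.isDef.at (K := ((Q ⊕ (Fin (m + 1) ⊕ Fin (m + 1))) ⊕ Unit) ⊕ Unit)
      (fun i => Sum.inl (Sum.inl (g1 i))) (Sum.inl (Sum.inr ()))).and
      ((hT.isDef.at (fun i => Sum.inl (Sum.inl (g2 i))) (Sum.inr ())).and
      (hR.relabel ![Sum.inl (Sum.inr ()), Sum.inr (), Sum.inl (Sum.inl
        (Sum.inr (Sum.inl 0)))]))).congr fun v => ?_
    refine and_congr Iff.rfl (and_congr Iff.rfl ?_)
    refine iff_of_eq (congrArg R ?_)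
    funext i
    fin_cases i <;> rfl
  have key : ∀ x y : Fin (m + 1) → Ordinal.{u}, Val J lam a x → Val J lam a y →
      (P (c ∘ Sum.elim a (Sum.elim x y)) ↔ R ![c (f x), c (f y), c (x 0)]) := by
    intro x y hx hy
    have e1 : (c ∘ Sum.elim a (Sum.elim x y)) ∘ g1 = c ∘ Sum.elim a x := by
      funext i; rcases i with i | i <;> rfl
    have e2 : (c ∘ Sum.elim a (Sum.elim x y)) ∘ g2 = c ∘ Sum.elim a y := by
      funext i; rcases i with i | i <;> rfl
    constructor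
    · rintro ⟨p, q, hp, hq, hpq⟩
      rw [e1] at hp
      rw [e2] at hq
      rw [hp.unique (hf x hx), hq.unique (hf y hy)] at hpq
      exact hpq
    · intro h
      refine ⟨_, _, ?_, ?_, h⟩
      · rw [e1]; exact hf x hx
      · rw [e2]; exact hf y hy
  rw [← key z1 z2 hz1 hz2, ← key w1 w2 hw1 hw2]
  refine S.ind hP (ha.sum (hz1.inJ.sum hz2.inJ)) (ha.sum (hw1.inJ.sum hw2.inJ)) ?_
  refine OE.sum (OE.refl a) (OE.sum (StrictMono.oe hz1.mono hw1.mono)
    (StrictMono.oe hz2.mono hw2.mono) hz hw) ?_ ?_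
  · rintro q (k | k)
    · exact hz1.above q k
    · exact hz2.above q k
  · rintro q (k | k)
    · exact hw1.above q k
    · exact hw2.above q k

theorem Sit.exists_bound {Q : Type} [Finite Q] (S : Sit L A c lam J E) {a : Q → Ordinal.{u}}
    (ha : ∀ q, a q < lam) : ∃ β < lam, ∀ q, a q < β := by
  obtain ⟨n, t, r, ht, hr⟩ := exists_sort a
  rcases n with _ | n
  · refine ⟨0, zero_le.trans_lt S.omega_lt, fun q => (r q).elim0⟩
  · refine ⟨a (t (Fin.last n)) + 1, S.add_lt _ (ha _) _ (one_lt_omega0.trans S.omega_lt),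
      fun q => ?_⟩
    rw [← hr q]
    exact (ht.monotone (Fin.le_last _)).trans_lt (lt_add_one _)

/-- Remarkability: an ordinal below the upper part of its support does not depend on it. -/
theorem Sit.remark (S : Sit L A c lam J E) {Q : Type} [Finite Q] {m : ℕ}
    {T : (Q ⊕ Fin m → A) → A → Prop} (hT : Dfn1 L T) {a : Q → Ordinal.{u}}
    (ha : InJ J lam a) {x : Fin m → Ordinal.{u}} (hx : Val J lam a x) {ξ : Ordinal.{u}}
    (hξ : ∀ k, ξ < x k) (hξl : ξ < lam) (hd : IsDef T (c ∘ Sum.elim a x) (c ξ))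
    {y : Fin m → Ordinal.{u}} (hy : Val J lam a y) : IsDef T (c ∘ Sum.elim a y) (c ξ) := by
  rcases m with _ | m
  · have : x = y := Subsingleton.elim _ _
    rwa [← this]
  have key : ∀ z : Fin (m + 1) → Ordinal.{u}, Val J lam a z →
      ∃ η, η < z 0 ∧ IsDef T (c ∘ Sum.elim a z) (c η) := by
    intro z hz
    let P : (Q ⊕ Fin (m + 1) → A) → Prop := fun v => ∃ u, IsDef T v u ∧ E u (v (Sum.inr 0))
    have hP : Dfn L P := by
      refine Dfn.ex ?_
      refine ((hT.isDef.at (K := (Q ⊕ Fin (m + 1)) ⊕ Unit) Sum.inl (Sum.inr ())).and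
        (S.defE.relabel ![Sum.inr (), Sum.inl (Sum.inr 0)])).congr fun v => ?_
      exact Iff.rfl
    have h1 : P (c ∘ Sum.elim a x) :=
      ⟨c ξ, hd, (S.E_iff _ hξl _ (hx.inJ 0).2).2 (hξ 0)⟩
    have h2 := (S.ind hP (ha.sum hx.inJ) (ha.sum hz.inJ) (OE.sum (OE.refl a)
      (StrictMono.oe hx.mono hz.mono) hx.above hz.above)).1 h1
    obtain ⟨u, hu, hE⟩ := h2
    obtain ⟨η, hη, rfl⟩ := S.E_ord _ (hz.inJ 0).2 u hE
    exact ⟨η, hη, hu⟩
  choose! f hf0 hf using key
  have hfl : ∀ z, Val J lam a z → f z < lam := fun z hz => (hf0 z hz).trans (hz.inJ 0).2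
  have uE : Dfn L (fun v : Fin 3 → A => E (v 0) (v 1)) :=
    (S.defE.relabel ![0, 1]).congr fun v => Iff.rfl
  have uE' : Dfn L (fun v : Fin 3 → A => E (v 1) (v 0)) :=
    (S.defE.relabel ![1, 0]).congr fun v => Iff.rfl
  have uE'' : Dfn L (fun v : Fin 3 → A => E (v 1) (v 2)) :=
    (S.defE.relabel ![1, 2]).congr fun v => Iff.rfl
  obtain ⟨β, hβ, hβa⟩ := S.exists_bound (fun q => (ha q).2)
  have hB : ∀ i < lam, Val J lam a (blk J β (m := m + 1) i) := fun i hi =>
    ⟨S.blk_mono β i, S.blk_inJ hβ hi, fun q k => (hβa q).trans_le (S.le_blk β i k)⟩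
  have hnat : ∀ n : ℕ, (n : Ordinal.{u}) < lam := fun n =>
    (natCast_lt_omega0 n).trans S.omega_lt
  have h01 : (0 : Ordinal.{u}) < 1 := zero_lt_one
  have h0l : (0 : Ordinal.{u}) < lam := by simpa using hnat 0
  have h1l : (1 : Ordinal.{u}) < lam := by simpa using hnat 1
  -- not decreasing
  have nd : ¬ f (blk J β 1) < f (blk J β (m := m + 1) 0) := by
    intro h
    have h2 : ∀ i i' : Ordinal.{u}, i < i' → i' < lam →
        f (blk J β i') < f (blk J β (m := m + 1) i) := by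
      intro i i' hi hi'
      have h3 := S.uniform hT ha f hf uE' (hB 0 h0l) (hB 1 h1l)
        (fun k l => S.blk_lt β h01 k l) (hB i (hi.trans hi')) (hB i' hi')
        (fun k l => S.blk_lt β hi k l)
      have h4 := h3.1 ((S.E_iff _ (hfl _ (hB 1 h1l)) _ (hfl _ (hB 0 h0l))).2 h)
      exact (S.E_iff _ (hfl _ (hB i' hi')) _ (hfl _ (hB i (hi.trans hi')))).1 h4
    have h5 : StrictAnti (fun n : ℕ => f (blk J β (m := m + 1) (n : Ordinal.{u}))) := by
      intro n k hnk
      exact h2 _ _ (by exact_mod_cast hnk) (hnat k)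
    exact not_strictAnti_of_wellFoundedLT _ h5
  -- not increasing
  have ni : ¬ f (blk J β (m := m + 1) 0) < f (blk J β 1) := by
    intro h
    have h2 : ∀ i i' : Ordinal.{u}, i < i' → i' < lam →
        f (blk J β (m := m + 1) i) < f (blk J β i') := by
      intro i i' hi hi'
      have h3 := S.uniform hT ha f hf uE (hB 0 h0l) (hB 1 h1l)
        (fun k l => S.blk_lt β h01 k l) (hB i (hi.trans hi')) (hB i' hi')
        (fun k l => S.blk_lt β hi k l)
      have h4 := h3.1 ((S.E_iff _ (hfl _ (hB 0 h0l)) _ (hfl _ (hB 1 h1l))).2 h)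
      exact (S.E_iff _ (hfl _ (hB i (hi.trans hi'))) _ (hfl _ (hB i' hi'))).1 h4
    by_cases hc : f (blk J β 1) < blk J β (m := m + 1) 0 0
    · -- bounded
      have h6 : ∀ i' : Ordinal.{u}, 0 < i' → i' < lam →
          f (blk J β i') < blk J β (m := m + 1) 0 0 := by
        intro i' hi hi'
        have h3 := S.uniform hT ha f hf uE'' (hB 0 h0l) (hB 1 h1l)
          (fun k l => S.blk_lt β h01 k l) (hB 0 (hi.trans hi')) (hB i' hi')
          (fun k l => S.blk_lt β hi k l)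
        have h4 := h3.1 ((S.E_iff _ (hfl _ (hB 1 h1l)) _ ((hB 0 h0l).inJ 0).2).2 hc)
        exact (S.E_iff _ (hfl _ (hB i' hi')) _ ((hB 0 h0l).inJ 0).2).1 h4
      have h7 : ∀ i : Ordinal.{u}, i < lam → i ≤ f (blk J β (m := m + 1) (1 + i)) := by
        intro i
        induction i using WellFoundedLT.induction with
        | ind i ih =>
          intro hi
          refine le_of_forall_lt fun j hj => ?_
          have h8 := ih j hj (hj.trans hi)
          refine h8.trans_lt (h2 _ _ ?_ (S.add_lt _ h1l _ hi))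
          exact (add_lt_add_iff_left _).2 hj
      have hx0 : blk J β (m := m + 1) 0 0 < lam := ((hB 0 h0l).inJ 0).2
      have h9 := h7 _ hx0
      have h10 := h6 (1 + blk J β (m := m + 1) 0 0) (h01.trans_le le_self_add)
        (S.add_lt _ h1l _ hx0)
      exact absurd (h9.trans_lt h10) (lt_irrefl _)
    · have h6 : ∀ i i' : Ordinal.{u}, i < i' → i' < lam →
          blk J β (m := m + 1) i 0 ≤ f (blk J β i') := by
        intro i i' hi hi'
        have h3 := S.uniform hT ha f hf uE'' (hB 0 h0l) (hB 1 h1l)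
          (fun k l => S.blk_lt β h01 k l) (hB i (hi.trans hi')) (hB i' hi')
          (fun k l => S.blk_lt β hi k l)
        by_contra h7
        push Not at h7
        have h4 := h3.2 ((S.E_iff _ (hfl _ (hB i' hi')) _
          ((hB i (hi.trans hi')).inJ 0).2).2 h7)
        exact hc ((S.E_iff _ (hfl _ (hB 1 h1l)) _ ((hB 0 h0l).inJ 0).2).1 h4)
      obtain ⟨n, hn⟩ := S.blk_omega β (hf0 _ (hB ω S.omega_lt))
      exact absurd (hn.trans_le (h6 n ω (natCast_lt_omega0 n) S.omega_lt)) (lt_irrefl _)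
  have heq : ∀ z1 z2 : Fin (m + 1) → Ordinal.{u}, Val J lam a z1 → Val J lam a z2 →
      (∀ k l, z1 k < z2 l) → f z1 = f z2 := by
    intro z1 z2 h1 h2 h12
    rcases lt_trichotomy (f z1) (f z2) with h | h | h
    · exfalso
      have h3 := S.uniform hT ha f hf uE (hB 0 h0l) (hB 1 h1l)
        (fun k l => S.blk_lt β h01 k l) h1 h2 h12
      have h4 := h3.2 ((S.E_iff _ (hfl _ h1) _ (hfl _ h2)).2 h)
      exact ni ((S.E_iff _ (hfl _ (hB 0 h0l)) _ (hfl _ (hB 1 h1l))).1 h4)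
    · exact h
    · exfalso
      have h3 := S.uniform hT ha f hf uE' (hB 0 h0l) (hB 1 h1l)
        (fun k l => S.blk_lt β h01 k l) h1 h2 h12
      have h4 := h3.2 ((S.E_iff _ (hfl _ h2) _ (hfl _ h1)).2 h)
      exact nd ((S.E_iff _ (hfl _ (hB 1 h1l)) _ (hfl _ (hB 0 h0l))).1 h4)
  obtain ⟨γ, hγ, hγx⟩ := S.exists_bound (a := Sum.elim a (Sum.elim x y))
    (fun q => ((ha.sum (hx.inJ.sum hy.inJ)) q).2)
  have hC : Val J lam a (blk J γ (m := m + 1) 0) :=
    ⟨S.blk_mono γ 0, S.blk_inJ hγ h0l, fun q k => (hγx (Sum.inl q)).trans_le (S.le_blk γ 0 k)⟩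
  have e1 : f x = f (blk J γ 0) := heq _ _ hx hC fun k l =>
    (hγx (Sum.inr (Sum.inl k))).trans_le (S.le_blk γ 0 l)
  have e2 : f y = f (blk J γ 0) := heq _ _ hy hC fun k l =>
    (hγx (Sum.inr (Sum.inr k))).trans_le (S.le_blk γ 0 l)
  have e3 : f x = ξ := S.c_inj (hfl x hx) hξl ((hf x hx).unique hd)
  rw [← e3, e1, ← e2]
  exact hf y hy

end Pool.Agent.ZSharp
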