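import Pool.Agent.ZSharp.Dfn

/-!
# Order types of finite assignments; the abstract set-up
-/

set_option autoImplicit false

open FirstOrder Set Ordinal

namespace Pool.Agent.ZSharp

universe u v w

/-- Two assignments of ordinals have the same order type. -/
def OE {I : Type} (a b : I → Ordinal.{u}) : Prop := ∀ i j, a i < a j ↔ b i < b j

theorem OE.refl {I : Type} (a : I → Ordinal.{u}) : OE a a := fun _ _ => Iff.rfl

theorem OE.symm {I : Type} {a b : I → Ordinal.{u}} (h : OE a b) : OE b a :=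
  fun i j => (h i j).symm

theorem OE.trans {I : Type} {a b c : I → Ordinal.{u}} (h : OE a b) (k : OE b c) : OE a c :=
  fun i j => (h i j).trans (k i j)

theorem OE.comp {I K : Type} {a b : I → Ordinal.{u}} (h : OE a b) (g : K → I) :
    OE (a ∘ g) (b ∘ g) := fun i j => h (g i) (g j)

theorem OE.eq_iff {I : Type} {a b : I → Ordinal.{u}} (h : OE a b) (i j : I) :
    a i = a j ↔ b i = b j := by
  have h1 := h i j
  have h2 := h j i
  constructor
  · intro e
    rw [e] at h1 h2
    simp only [lt_self_iff_false, false_iff, not_lt] at h1 h2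
    exact le_antisymm h2 h1
  · intro e
    rw [e] at h1 h2
    simp only [lt_self_iff_false, iff_false, not_lt] at h1 h2
    exact le_antisymm h2 h1

theorem OE.le_iff {I : Type} {a b : I → Ordinal.{u}} (h : OE a b) (i j : I) :
    a i ≤ a j ↔ b i ≤ b j := by
  rw [← not_lt, ← not_lt, h j i]

theorem OE.sum {I K : Type} {a a' : I → Ordinal.{u}} {b b' : K → Ordinal.{u}}
    (h : OE a a') (k : OE b b') (hab : ∀ i j, a i < b j) (hab' : ∀ i j, a' i < b' j) :
    OE (Sum.elim a b) (Sum.elim a' b') := by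
  rintro (i | i) (j | j)
  · exact h i j
  · simp [hab, hab']
  · exact iff_of_false (hab j i).not_gt (hab' j i).not_gt
  · exact k i j

theorem StrictMono.oe {n : ℕ} {a b : Fin n → Ordinal.{u}} (h : StrictMono a)
    (k : StrictMono b) : OE a b := fun i j => by rw [h.lt_iff_lt, k.lt_iff_lt]

/-- Sorting a finite assignment. -/
theorem exists_sort {I : Type} [Finite I] (a : I → Ordinal.{u}) :
    ∃ (n : ℕ) (t : Fin n → I) (r : I → Fin n), StrictMono (a ∘ t) ∧ ∀ i, a (t (r i)) = a i := by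
  classical
  have := Fintype.ofFinite I
  let s : Finset Ordinal.{u} := Finset.univ.image a
  let f := s.orderEmbOfFin rfl
  have h1 : ∀ k, ∃ i, a i = f k := by
    intro k
    have h0 := Finset.orderEmbOfFin_mem s rfl k
    obtain ⟨i, -, hi⟩ := Finset.mem_image.1 h0
    exact ⟨i, hi⟩
  choose t ht using h1
  have h2 : ∀ i, ∃ k, f k = a i := by
    intro i
    have h3 : a i ∈ Set.range f := by
      rw [Finset.range_orderEmbOfFin]
      simp [s]
    exact h3
  choose r hr using h2
  refine ⟨_, t, r, ?_, fun i => ?_⟩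
  · intro x y hxy
    simp only [Function.comp_apply, ht]
    exact f.strictMono hxy
  · rw [ht, hr]

/-- The abstract situation: a structure `A` with a binary relation `E`, ordinals `c α`
(`α < lam`) in it, and a club `J` of order indiscernibles which generates `A`. -/
structure Sit (L : FirstOrder.Language.{0, 0}) (A : Type w) [L.Structure A]
    (c : Ordinal.{u} → A) (lam : Ordinal.{u}) (J : Set Ordinal.{u}) (E : A → A → Prop) :
    Prop where
  defE : Dfn L (fun v : Fin 2 → A => E (v 0) (v 1))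
  E_iff : ∀ α < lam, ∀ β < lam, E (c α) (c β) ↔ α < β
  E_ord : ∀ β < lam, ∀ x, E x (c β) → ∃ α < β, x = c α
  unbdd : ∀ α, ∃ j ∈ J, α < j
  closed : ∀ α, α ≠ 0 → (∀ β < α, ∃ j ∈ J, β < j ∧ j < α) → α ∈ J
  enum_lt : ∀ i < lam, enumOrd J i < lam
  add_lt : ∀ i < lam, ∀ j < lam, i + j < lam
  omega_mul_lt : ∀ i < lam, ω * i < lam
  omega_lt : ω < lam
  indisc : ∀ (n : ℕ) (R : (Fin n → A) → Prop), Dfn L R → ∀ a b : Fin n → Ordinal.{u},
    StrictMono a → StrictMono b → (∀ i, a i ∈ J ∧ a i < lam) → (∀ i, b i ∈ J ∧ b i < lam) →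
    (R (c ∘ a) ↔ R (c ∘ b))
  gen : ∀ z : A, ∃ (n : ℕ) (e : Fin n → Ordinal.{u}) (T : (Fin n → A) → A → Prop),
    (∀ i, e i ∈ J ∧ e i < lam) ∧ Dfn1 L T ∧ IsDef T (c ∘ e) z

variable {L : FirstOrder.Language.{0, 0}} {A : Type w} [L.Structure A]
  {c : Ordinal.{u} → A} {lam : Ordinal.{u}} {J : Set Ordinal.{u}} {E : A → A → Prop}

/-- `a` is an assignment into the indiscernibles below `lam`. -/
def InJ (J : Set Ordinal.{u}) (lam : Ordinal.{u}) {I : Type} (a : I → Ordinal.{u}) : Prop :=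
  ∀ i, a i ∈ J ∧ a i < lam

theorem InJ.comp {I K : Type} {a : I → Ordinal.{u}} (h : InJ J lam a) (g : K → I) :
    InJ J lam (a ∘ g) := fun i => h (g i)

theorem InJ.sum {I K : Type} {a : I → Ordinal.{u}} {b : K → Ordinal.{u}} (h : InJ J lam a)
    (k : InJ J lam b) : InJ J lam (Sum.elim a b) := by
  rintro (i | i)
  · exact h i
  · exact k i

/-- Indiscernibility for arbitrary finite assignments of the same order type. -/
theorem Sit.ind (S : Sit L A c lam J E) {I : Type} [Finite I] {R : (I → A) → Prop}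
    (hR : Dfn L R) {a b : I → Ordinal.{u}} (ha : InJ J lam a) (hb : InJ J lam b) (h : OE a b) :
    R (c ∘ a) ↔ R (c ∘ b) := by
  obtain ⟨n, t, r, ht, hr⟩ := exists_sort a
  have h1 : a = (a ∘ t) ∘ r := by funext i; exact (hr i).symm
  have h2 : b = (b ∘ t) ∘ r := by
    funext i
    exact ((h.eq_iff _ _).1 (hr i)).symm
  have h3 : StrictMono (b ∘ t) := fun i j hij => (h _ _).1 (ht hij)
  have h4 := S.indisc n (fun v => R (v ∘ r)) (hR.relabel r) (a ∘ t) (b ∘ t) ht h3
    (ha.comp t) (hb.comp t)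
  have e1 : c ∘ a = (c ∘ (a ∘ t)) ∘ r := by
    conv_lhs => rw [h1]
    rfl
  have e2 : c ∘ b = (c ∘ (b ∘ t)) ∘ r := by
    conv_lhs => rw [h2]
    rfl
  rw [e1, e2]
  exact h4

theorem comp_sum {I K : Type} (a : I → Ordinal.{u}) (b : K → Ordinal.{u}) :
    c ∘ Sum.elim a b = Sum.elim (c ∘ a) (c ∘ b) := by
  funext i
  rcases i with i | i <;> rfl

/-- Definability of an element moves along order isomorphic assignments. -/
theorem Sit.isDef_iff (S : Sit L A c lam J E) {I : Type} [Finite I] {T : (I → A) → A → Prop}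
    (hT : Dfn1 L T) {a b : I → Ordinal.{u}} (ha : InJ J lam a) (hb : InJ J lam b) (h : OE a b) :
    (∃ x, IsDef T (c ∘ a) x) ↔ ∃ x, IsDef T (c ∘ b) x :=
  S.ind (R := fun v => ∃ x, IsDef T v x) (Dfn.ex hT.isDef) ha hb h

theorem Sit.J_mem_enum (S : Sit L A c lam J E) (i : Ordinal.{u}) : enumOrd J i ∈ J :=
  enumOrd_mem (fun h => by
    obtain ⟨b, hb⟩ := h
    obtain ⟨j, hj, hbj⟩ := S.unbdd b
    exact absurd (hb hj) (not_le.2 hbj)) i

end Pool.Agent.ZSharp
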