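import Pool.Agent.ZSharp.Core

/-!
# Good sets of indiscernibles; one gap
-/

set_option autoImplicit false

open FirstOrder Set Ordinal

namespace Pool.Agent.ZSharp

universe u v w

variable {L : FirstOrder.Language.{0, 0}} {A : Type w} [L.Structure A]
  {c : Ordinal.{u} → A} {lam : Ordinal.{u}} {J : Set Ordinal.{u}} {E : A → A → Prop}

/-- Good sets of indiscernibles. -/
structure Good (J : Set Ordinal.{u}) (lam : Ordinal.{u}) (big : Ordinal.{u} → Prop)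
    (K : Set Ordinal.{u}) : Prop where
  sub : ∀ k ∈ K, k ∈ J ∧ k < lam
  moveFin : ∀ (n m : ℕ) (e : Fin n → Ordinal.{u}) (e' : Fin m → Ordinal.{u}),
    (∀ i, e i ∈ K) → InJ J lam e' → ∃ e'' : Fin m → Ordinal.{u}, (∀ i, e'' i ∈ K) ∧
      OE (Sum.elim e e') (Sum.elim e e'')
  lim : ∀ g ∈ K, (∀ j ∈ J, j < g → ∃ b ∈ K, j ≤ b ∧ b < g) ∨ (LimJ J g ∧ big g)

theorem Good.move {big : Ordinal.{u} → Prop} {K : Set Ordinal.{u}} (h : Good J lam big K)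
    {I I' : Type} [Finite I] [Finite I'] (e : I → Ordinal.{u}) (e' : I' → Ordinal.{u})
    (he : ∀ i, e i ∈ K) (he' : InJ J lam e') : ∃ e'' : I' → Ordinal.{u},
      (∀ i, e'' i ∈ K) ∧ OE (Sum.elim e e') (Sum.elim e e'') := by
  obtain ⟨n, ⟨f⟩⟩ := Finite.exists_equiv_fin I
  obtain ⟨m, ⟨f'⟩⟩ := Finite.exists_equiv_fin I'
  obtain ⟨e'', h1, h2⟩ := h.moveFin n m (e ∘ f.symm) (e' ∘ f'.symm) (fun i => he _)
    (he'.comp _)
  refine ⟨e'' ∘ f', fun i => h1 _, ?_⟩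
  have h3 := h2.comp (Sum.map f f')
  have e1 : Sum.elim (e ∘ f.symm) (e' ∘ f'.symm) ∘ Sum.map f f' = Sum.elim e e' := by
    funext i; rcases i with i | i <;> simp
  have e2 : Sum.elim (e ∘ f.symm) e'' ∘ Sum.map f f' = Sum.elim e (e'' ∘ f') := by
    funext i; rcases i with i | i <;> simp
  rwa [e1, e2] at h3

/-- `z` is definable from elements of `K`. -/
def Supp (L : FirstOrder.Language.{0, 0}) {A : Type w} [L.Structure A] (c : Ordinal.{u} → A)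
    (K : Set Ordinal.{u}) (z : A) : Prop :=
  ∃ (I : Type) (_ : Finite I) (e : I → Ordinal.{u}) (T : (I → A) → A → Prop),
    (∀ i, e i ∈ K) ∧ Dfn1 L T ∧ IsDef T (c ∘ e) z

theorem Sit.step (S : Sit L A c lam J E) {big : Ordinal.{u} → Prop} {K : Set Ordinal.{u}}
    (hK : Good J lam big K) {g : Ordinal.{u}} (hgl : g < lam) (hg : LimJ J g) (hbig : big g)
    (hgK : g ∈ K ∨ ∀ k ∈ K, k < g) {IP : Type} [Finite IP] {eP : IP → Ordinal.{u}}
    (heP : ∀ i, eP i ∈ K) {Le : (IP → A) → A → A → Prop}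
    (hLe : Dfn L (fun v : IP ⊕ Fin 2 → A => Le (v ∘ Sum.inl) (v (Sum.inr 0))
      (v (Sum.inr 1))))
    (hcc : CC L (Le (c ∘ eP)) big)
    (htr : ∀ x y z, Le (c ∘ eP) x y → Le (c ∘ eP) y z → Le (c ∘ eP) x z)
    {I1 : Type} [Finite I1] {e1 : I1 → Ordinal.{u}}
    (he1 : ∀ i, e1 i ∈ K ∨ (e1 i ∈ J ∧ e1 i < g ∧ ∀ k ∈ K, k < g → k < e1 i))
    {T1 : (I1 → A) → A → Prop} (hT1 : Dfn1 L T1) {q1 : A} (hq1 : IsDef T1 (c ∘ e1) q1)
    (hq1P : Le (c ∘ eP) q1 q1) :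
    ∃ q2, Supp L c K q2 ∧ Le (c ∘ eP) q2 q2 ∧ ∀ s, Supp L c K s → Le (c ∘ eP) s s →
      Le (c ∘ eP) s q2 → ∃ z, Le (c ∘ eP) z s ∧ Le (c ∘ eP) z q1 := by
  classical
  by_cases hgap : ∀ i, e1 i ∈ K
  · exact ⟨q1, ⟨I1, inferInstance, e1, T1, hgap, hT1, hq1⟩, hq1P, fun s _ hs hsq =>
      ⟨s, hs, hsq⟩⟩
  push Not at hgap
  obtain ⟨i0, hi0⟩ := hgap
  have hnK : ∀ i, ¬ e1 i ∈ K → (e1 i ∈ J ∧ e1 i < g ∧ ∀ k ∈ K, k < g → k < e1 i) :=
    fun i hi => (he1 i).resolve_left hi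
  have he1J : InJ J lam e1 := by
    intro i
    by_cases h : e1 i ∈ K
    · exact hK.sub _ h
    · exact ⟨(hnK i h).1, (hnK i h).2.1.trans hgl⟩
  let Kx := {i : I1 // ¬ e1 i ∈ K}
  let C1 := {i : I1 // e1 i ∈ K ∧ e1 i < g}
  let D1 := {i : I1 // e1 i ∈ K ∧ g ≤ e1 i}
  let CP := {i : IP // eP i < g}
  let DP := {i : IP // g ≤ eP i}
  let j0 : Kx → Ordinal.{u} := fun i => e1 i.1
  let fx : ((C1 ⊕ CP) ⊕ (D1 ⊕ DP)) ⊕ {_u : Unit // g ∈ K} → Ordinal.{u} :=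
    Sum.elim (Sum.elim (Sum.elim (fun i => e1 i.1) (fun i => eP i.1))
      (Sum.elim (fun i => e1 i.1) (fun i => eP i.1))) (fun _ => g)
  have hfx : ∀ i, fx i ∈ K := by
    rintro (((i | i) | (i | i)) | i)
    · exact i.2.1
    · exact heP _
    · exact i.2.1
    · exact heP _
    · exact i.2
  have hj0 : InJ J lam j0 := fun i => he1J _
  obtain ⟨k0, hk0, hoe⟩ := hK.move fx j0 hfx hj0
  have hk0g : ∀ i, k0 i < g := by
    intro i
    rcases hgK with h | h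
    · have := (hoe (Sum.inr i) (Sum.inl (Sum.inr ⟨(), h⟩))).1 (hnK i.1 i.2).2.1
      exact this
    · exact h _ (hk0 i)
  -- the map of `I1`
  let ι : I1 → (((C1 ⊕ CP) ⊕ (D1 ⊕ DP)) ⊕ {_u : Unit // g ∈ K}) ⊕ Kx := fun i =>
    if h : e1 i ∈ K then
      if h' : e1 i < g then Sum.inl (Sum.inl (Sum.inl (Sum.inl ⟨i, h, h'⟩)))
      else Sum.inl (Sum.inl (Sum.inr (Sum.inl ⟨i, h, not_lt.1 h'⟩)))
    else Sum.inr ⟨i, h⟩
  let ιP : IP → (((C1 ⊕ CP) ⊕ (D1 ⊕ DP)) ⊕ {_u : Unit // g ∈ K}) ⊕ Kx := fun i =>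
    if h' : eP i < g then Sum.inl (Sum.inl (Sum.inl (Sum.inr ⟨i, h'⟩)))
      else Sum.inl (Sum.inl (Sum.inr (Sum.inr ⟨i, not_lt.1 h'⟩)))
  have hι : Sum.elim fx j0 ∘ ι = e1 := by
    funext i
    by_cases h : e1 i ∈ K
    · by_cases h' : e1 i < g
      · simp [ι, h, h', fx]
      · simp [ι, h, h', fx]
    · simp [ι, h, j0]
  have hιP : ∀ k : Kx → Ordinal.{u}, Sum.elim fx k ∘ ιP = eP := by
    intro k
    funext i
    by_cases h' : eP i < g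
    · simp [ιP, h', fx]
    · simp [ιP, h', fx]
  let e2 : I1 → Ordinal.{u} := Sum.elim fx k0 ∘ ι
  have he2K : ∀ i, e2 i ∈ K := by
    intro i
    show Sum.elim fx k0 (ι i) ∈ K
    rcases ι i with x | x
    · exact hfx x
    · exact hk0 x
  have hoe2 : OE (Sum.elim e1 eP) (Sum.elim e2 eP) := by
    have h1 := hoe.comp (Sum.elim ι ιP)
    have h2 : Sum.elim fx j0 ∘ Sum.elim ι ιP = Sum.elim e1 eP := by
      funext i
      rcases i with i | i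
      · exact congrFun hι i
      · exact congrFun (hιP j0) i
    have h3 : Sum.elim fx k0 ∘ Sum.elim ι ιP = Sum.elim e2 eP := by
      funext i
      rcases i with i | i
      · rfl
      · exact congrFun (hιP k0) i
    rwa [h2, h3] at h1
  have hePJ : InJ J lam eP := fun i => hK.sub _ (heP i)
  have he2J : InJ J lam e2 := fun i => hK.sub _ (he2K i)
  -- the element `q2`
  obtain ⟨q2, hq2, hq2P⟩ : ∃ q2, IsDef T1 (c ∘ e2) q2 ∧ Le (c ∘ eP) q2 q2 := by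
    let P : (I1 ⊕ IP → A) → Prop := fun v => ∃ a, IsDef T1 (v ∘ Sum.inl) a ∧
      Le (v ∘ Sum.inr) a a
    have hP : Dfn L P := Dfn.ex (R := fun (v : I1 ⊕ IP → A) a =>
      IsDef T1 (v ∘ Sum.inl) a ∧ Le (v ∘ Sum.inr) a a)
      ((hT1.isDef.at (K := (I1 ⊕ IP) ⊕ Unit) (fun i => Sum.inl (Sum.inl i))
        (Sum.inr ())).and (dfn_le hLe (fun i => Sum.inl (Sum.inr i)) (Sum.inr ())
        (Sum.inr ())))
    have h1 : P (c ∘ Sum.elim e1 eP) := ⟨q1, hq1, hq1P⟩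
    exact (S.ind hP (he1J.sum hePJ) (he2J.sum hePJ) hoe2).1 h1
  refine ⟨q2, ⟨I1, inferInstance, e2, T1, he2K, hT1, hq2⟩, hq2P, ?_⟩
  rintro s ⟨Is, finIs, es, Us, hes, hUs, hds⟩ hsP hsq
  -- the threshold
  have hne : Nonempty Kx := ⟨⟨i0, hi0⟩⟩
  obtain ⟨im, him⟩ := Finite.exists_min k0
  let θ := k0 im
  let Cs := {i : Is // es i < θ}
  let Ws := {i : Is // θ ≤ es i ∧ es i < g}
  let Ds := {i : Is // g ≤ es i}
  let c0 : (C1 ⊕ CP) ⊕ Cs → Ordinal.{u} :=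
    Sum.elim (Sum.elim (fun i => e1 i.1) (fun i => eP i.1)) (fun i => es i.1)
  let w0 : Kx ⊕ Ws → Ordinal.{u} := Sum.elim k0 (fun i => es i.1)
  let d0 : (D1 ⊕ DP) ⊕ Ds → Ordinal.{u} :=
    Sum.elim (Sum.elim (fun i => e1 i.1) (fun i => eP i.1)) (fun i => es i.1)
  let gs : Is → (((C1 ⊕ CP) ⊕ Cs) ⊕ (Kx ⊕ Ws)) ⊕ ((D1 ⊕ DP) ⊕ Ds) := fun i =>
    if h : es i < θ then Sum.inl (Sum.inl (Sum.inr ⟨i, h⟩))
    else if h' : es i < g then Sum.inl (Sum.inr (Sum.inr ⟨i, not_lt.1 h, h'⟩))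
    else Sum.inr (Sum.inr ⟨i, not_lt.1 h'⟩)
  let g1 : I1 → (((C1 ⊕ CP) ⊕ Cs) ⊕ Kx) ⊕ ((D1 ⊕ DP) ⊕ Ds) := fun i =>
    if h : e1 i ∈ K then
      if h' : e1 i < g then Sum.inl (Sum.inl (Sum.inl (Sum.inl ⟨i, h, h'⟩)))
      else Sum.inr (Sum.inl (Sum.inl ⟨i, h, not_lt.1 h'⟩))
    else Sum.inl (Sum.inr ⟨i, h⟩)
  let gP : IP → ((C1 ⊕ CP) ⊕ Cs) ⊕ ((D1 ⊕ DP) ⊕ Ds) := fun i =>
    if h' : eP i < g then Sum.inl (Sum.inl (Sum.inr ⟨i, h'⟩))
      else Sum.inr (Sum.inl (Sum.inr ⟨i, not_lt.1 h'⟩))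
  have hgs : Sum.elim (Sum.elim c0 w0) d0 ∘ gs = es := by
    funext i
    by_cases h : es i < θ
    · simp [gs, h, c0]
    · by_cases h' : es i < g
      · simp [gs, h, h', w0]
      · simp [gs, h, h', d0]
  have hg1 : ∀ k : Kx → Ordinal.{u}, Sum.elim (Sum.elim c0 k) d0 ∘ g1 =
      Sum.elim fx k ∘ ι := by
    intro k
    funext i
    by_cases h : e1 i ∈ K
    · by_cases h' : e1 i < g
      · simp [g1, ι, h, h', c0, fx]
      · simp [g1, ι, h, h', d0, fx]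
    · simp [g1, ι, h]
  have hgP : Sum.elim c0 d0 ∘ gP = eP := by
    funext i
    by_cases h' : eP i < g
    · simp [gP, h', c0]
    · simp [gP, h', d0]
  have hLe' : Dfn L (fun v : (((C1 ⊕ CP) ⊕ Cs) ⊕ ((D1 ⊕ DP) ⊕ Ds)) ⊕ Fin 2 → A =>
      (fun (v : ((C1 ⊕ CP) ⊕ Cs) ⊕ ((D1 ⊕ DP) ⊕ Ds) → A) x y => Le (v ∘ gP) x y)
        (v ∘ Sum.inl) (v (Sum.inr 0)) (v (Sum.inr 1))) :=
    dfn_le hLe (fun i => Sum.inl (gP i)) (Sum.inr 0) (Sum.inr 1)
  have eLe : (c ∘ Sum.elim c0 d0) ∘ gP = c ∘ eP := by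
    rw [Function.comp_assoc, hgP]
  -- order facts
  have gap : ∀ (k : Ordinal.{u}) (i : Kx), k ∈ K → k < g → k < j0 i := fun k i hk hkg =>
    (hnK i.1 i.2).2.2 k hk hkg
  have hCk : ∀ (x : C1 ⊕ CP) (k : Kx), fx (Sum.inl (Sum.inl x)) < k0 k := by
    intro x k
    have h9 : fx (Sum.inl (Sum.inl x)) < j0 k := by
      refine gap _ k (hfx _) ?_
      rcases x with x | x
      · exact x.2.2
      · exact x.2
    exact (hoe (Sum.inl (Sum.inl (Sum.inl x))) (Sum.inr k)).1 h9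
  have hθg : θ < g := hk0g im
  have hcore := S.core (Le := fun v x y => Le (v ∘ gP) x y) hLe'
    (U := fun v x => Us (v ∘ gs) x) (hUs.relabel gs)
    (T := fun v x => T1 (v ∘ g1) x) (hT1.relabel g1) (c0 := c0) (w0 := w0) (d0 := d0)
    (j0 := j0) ?_ ?_ ?_ hj0 (g := g) ?_ hgl hg ?_ ?_ ?_ ?_ ?_ ?_ ?_ (big := big) hbig ?_ ?_
    (s := Sum.inl) ?_ (s0 := s) (q1 := q1) (q2 := q2) ?_ ?_ ?_ ?_ ?_
  · simpa only [eLe] using hcore
  · -- InJ c0
    rintro ((i | i) | i)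
    · exact he1J _
    · exact hePJ _
    · exact hK.sub _ (hes _)
  · rintro (i | i)
    · exact hK.sub _ (hk0 _)
    · exact hK.sub _ (hes _)
  · rintro ((i | i) | i)
    · exact he1J _
    · exact hePJ _
    · exact hK.sub _ (hes _)
  · exact zero_le.trans_lt hθg
  · -- c0 < w0
    rintro ((i | i) | i) (k | k)
    · exact hCk (Sum.inl i) k
    · exact (hCk (Sum.inl i) im).trans_le k.2.1
    · exact hCk (Sum.inr i) k
    · exact (hCk (Sum.inr i) im).trans_le k.2.1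
    · exact i.2.trans_le (him k)
    · exact i.2.trans_le k.2.1
  · -- c0 < j0
    rintro ((i | i) | i) k
    · exact gap _ k i.2.1 i.2.2
    · exact gap _ k (heP _) i.2
    · exact gap _ k (hes _) (i.2.trans hθg)
  · -- w0 < j0
    rintro (i | i) k
    · exact gap _ k (hk0 _) (hk0g _)
    · exact gap _ k (hes _) i.2.2
  · rintro ((i | i) | i)
    · exact i.2.2
    · exact i.2
    · exact i.2.trans hθg
  · rintro (i | i)
    · exact hk0g i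
    · exact i.2.2
  · exact fun i => (hnK i.1 i.2).2.1
  · rintro ((i | i) | i)
    · exact i.2.2
    · exact i.2
    · exact i.2
  · show CC L (fun x y => Le ((c ∘ Sum.elim c0 d0) ∘ gP) x y) big
    rw [eLe]
    exact hcc
  · intro x y z hxy hyz
    simp only [eLe] at hxy hyz ⊢
    exact htr x y z hxy hyz
  · exact (hoe.comp Sum.inr).symm
  · intro y
    have : (c ∘ Sum.elim (Sum.elim c0 w0) d0) ∘ gs = c ∘ es := by
      rw [Function.comp_assoc, hgs]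
    simp only [this]
    exact hds y
  · intro y
    have : (c ∘ Sum.elim (Sum.elim c0 j0) d0) ∘ g1 = c ∘ e1 := by
      rw [Function.comp_assoc, hg1, hι]
    simp only [this]
    exact hq1 y
  · intro y
    have : (c ∘ Sum.elim (Sum.elim c0 (w0 ∘ Sum.inl)) d0) ∘ g1 = c ∘ e2 := by
      have h0 : w0 ∘ Sum.inl = k0 := rfl
      rw [Function.comp_assoc, h0, hg1]
    simp only [this]
    exact hq2 y
  · simp only [eLe]
    exact hsP
  · simp only [eLe]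
    exact hsq

end Pool.Agent.ZSharp
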