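import Pool.Agent.ZSharp.Keys

/-!
# A constructible well-order of the sets of ordinals in `L_γ`
-/

set_option autoImplicit false
set_option linter.deprecated false

open FirstOrder Set Ordinal Cardinal

namespace Pool.Agent.ZSharp

universe u

section

variable {θ : Ordinal.{u}}

/-- The relation `BF n x y`, over `L_θ`. -/
def BFs (G n x y : LA θ) : Prop :=
  ∃ g : LA θ, ZFSet.pair n.1 g.1 ∈ G.1 ∧ ZFSet.pair x.1 y.1 ∈ g.1

instance BFs.dp {I : Type} {f g h k : (I → LA θ) → LA θ} [FT f] [FT g] [FT h] [FT k] :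
    DP (fun v => BFs (f v) (g v) (h v) (k v)) :=
  DP.sub4 (Q := BFs) (by unfold BFs; infer_instance) ‹_› ‹_› ‹_› ‹_›

/-- `s ∈ M` is a finite set of ordinals. -/
def FinS (M s : LA θ) : Prop :=
  s.1 ∈ M.1 ∧ (∀ t : LA θ, t.1 ∈ s.1 → ZFSet.IsOrdinal t.1) ∧
    ∀ u : LA θ, u.1 ⊆ s.1 → (∃ t : LA θ, t.1 ∈ u.1) →
      ∃ t : LA θ, t.1 ∈ u.1 ∧ ∀ t' : LA θ, t'.1 ∈ u.1 → (t'.1 ∈ t.1 ∨ t'.1 = t.1)

instance FinS.dp {I : Type} {f g : (I → LA θ) → LA θ} [FT f] [FT g] :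
    DP (fun v => FinS (f v) (g v)) :=
  DP.sub2 (Q := FinS) (by unfold FinS; infer_instance) ‹_› ‹_›

/-- `a` is the assignment given by `s`. -/
def Asg (s a : LA θ) : Prop :=
  ∀ t : LA θ, t.1 ∈ a.1 ↔ ∃ α w : LA θ, α.1 ∈ s.1 ∧ w.1 = ZFSet.pair α.1 α.1 ∧
    t.1 = ZFSet.pair w.1 α.1

instance Asg.dp {I : Type} {f g : (I → LA θ) → LA θ} [FT f] [FT g] :
    DP (fun v => Asg (f v) (g v)) :=
  DP.sub2 (Q := Asg) (by unfold Asg; infer_instance) ‹_› ‹_›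

/-- `(s, n)` is a key of `z`. -/
def KeyD (M G Om s n z : LA θ) : Prop :=
  FinS M s ∧ n.1 ∈ Om.1 ∧ z.1 ∈ M.1 ∧ ∃ a x : LA θ, Asg s a ∧
    x.1 = insert (ZFSet.pair n.1 z.1) a.1 ∧ ∀ z' x' : LA θ, z'.1 ∈ M.1 →
      x'.1 = insert (ZFSet.pair n.1 z'.1) a.1 → BFs G n x x' → z'.1 = z.1

instance KeyD.dp {I : Type} {M G Om : LA θ} {f g h : (I → LA θ) → LA θ} [FT f] [FT g]
    [FT h] : DP (fun v => KeyD M G Om (f v) (g v) (h v)) :=
  DP.sub3 (Q := KeyD M G Om) (by unfold KeyD; infer_instance) ‹_› ‹_› ‹_›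

/-- The ordering of finite sets of ordinals. -/
def CLtD (s s' : LA θ) : Prop :=
  ∃ α : LA θ, α.1 ∈ s'.1 ∧ ¬ α.1 ∈ s.1 ∧ ∀ β : LA θ, ZFSet.IsOrdinal β.1 → α.1 ∈ β.1 →
    (β.1 ∈ s.1 ↔ β.1 ∈ s'.1)

/-- The ordering of keys. -/
def KLtD (s n s' n' : LA θ) : Prop := CLtD s s' ∨ (s.1 = s'.1 ∧ n.1 ∈ n'.1)

instance KLtD.dp {I : Type} {f g h k : (I → LA θ) → LA θ} [FT f] [FT g] [FT h] [FT k] :
    DP (fun v => KLtD (f v) (g v) (h v) (k v)) :=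
  DP.sub4 (Q := KLtD) (by unfold KLtD CLtD; infer_instance) ‹_› ‹_› ‹_› ‹_›

/-- `(s, n)` is the least key of `z`. -/
def MinK (M G Om s n z : LA θ) : Prop :=
  KeyD M G Om s n z ∧ ∀ s' n' : LA θ, KeyD M G Om s' n' z → ¬ KLtD s' n' s n

instance MinK.dp {I : Type} {M G Om : LA θ} {f g h : (I → LA θ) → LA θ} [FT f] [FT g]
    [FT h] : DP (fun v => MinK M G Om (f v) (g v) (h v)) :=
  DP.sub3 (Q := MinK M G Om) (by unfold MinK; infer_instance) ‹_› ‹_› ‹_›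

/-- The lexicographical ordering of sets of ordinals. -/
def LexD (z z' : LA θ) : Prop :=
  ∃ α : LA θ, ZFSet.IsOrdinal α.1 ∧ α.1 ∈ z'.1 ∧ ¬ α.1 ∈ z.1 ∧
    ∀ β : LA θ, β.1 ∈ α.1 → (β.1 ∈ z.1 ↔ β.1 ∈ z'.1)

/-- The well-order. -/
def WD (M G Om z z' : LA θ) : Prop :=
  ∃ s n s' n' : LA θ, MinK M G Om s n z ∧ MinK M G Om s' n' z' ∧
    (KLtD s n s' n' ∨ (s.1 = s'.1 ∧ n.1 = n'.1 ∧ LexD z z'))

instance WD.dp {I : Type} {M G Om : LA θ} {f g : (I → LA θ) → LA θ} [FT f] [FT g] :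
    DP (fun v => WD M G Om (f v) (g v)) :=
  DP.sub2 (Q := WD M G Om) (by unfold WD LexD; infer_instance) ‹_› ‹_›

end

/-- The lexicographical ordering of sets of ordinals. -/
def LexV (z z' : ZFSet.{u}) : Prop :=
  ∃ α : Ordinal.{u}, α.toZFSet ∈ z' ∧ α.toZFSet ∉ z ∧
    ∀ β < α, (β.toZFSet ∈ z ↔ β.toZFSet ∈ z')

theorem LexV.irrefl (z : ZFSet.{u}) : ¬ LexV z z := fun ⟨_, h1, h2, _⟩ => h2 h1

theorem LexV.trans {x y z : ZFSet.{u}} (h : LexV x y) (k : LexV y z) : LexV x z := by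
  obtain ⟨α, h1, h2, h3⟩ := h
  obtain ⟨β, k1, k2, k3⟩ := k
  rcases lt_trichotomy α β with h4 | h4 | h4
  · exact ⟨α, (k3 α h4).1 h1, h2, fun δ hδ => (h3 δ hδ).trans (k3 δ (hδ.trans h4))⟩
  · rw [h4] at h1
    exact absurd h1 k2
  · refine ⟨β, k1, fun h5 => k2 ((h3 β h4).1 h5), fun δ hδ => ?_⟩
    exact (h3 δ (hδ.trans h4)).trans (k3 δ hδ)

theorem LexV.tri {x y : ZFSet.{u}} (hx : ∀ t ∈ x, t.IsOrdinal) (hy : ∀ t ∈ y, t.IsOrdinal)
    (h : x ≠ y) : LexV x y ∨ LexV y x := by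
  classical
  have h1 : ∃ α : Ordinal.{u}, ¬ (α.toZFSet ∈ x ↔ α.toZFSet ∈ y) := by
    by_contra hcon
    push Not at hcon
    refine h (ZFSet.ext fun t => ?_)
    by_cases ht : t.IsOrdinal
    · have := hcon t.rank
      rwa [ht.toZFSet_rank_eq] at this
    · exact iff_of_false (fun h => ht (hx t h)) (fun h => ht (hy t h))
  let s : Set Ordinal.{u} := {α | ¬ (α.toZFSet ∈ x ↔ α.toZFSet ∈ y)}
  have hs : sInf s ∈ s := csInf_mem h1
  have hlt : ∀ β < sInf s, (β.toZFSet ∈ x ↔ β.toZFSet ∈ y) := by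
    intro β hβ
    by_contra hcon
    exact absurd (csInf_le' (s := s) hcon) (not_le.2 hβ)
  have hs' : ¬ ((sInf s).toZFSet ∈ x ↔ (sInf s).toZFSet ∈ y) := hs
  by_cases h2 : (sInf s).toZFSet ∈ x
  · right
    exact ⟨_, h2, fun h3 => hs' (iff_of_true h2 h3), fun β hβ => (hlt β hβ).symm⟩
  · left
    refine ⟨_, ?_, h2, hlt⟩
    by_contra h3
    exact hs' (iff_of_false h2 h3)

/-- `k` is the least key of `z`. -/
def MinV (m : Ordinal.{u}) (k : Finset Ordinal.{u} × ℕ) (z : ZFSet.{u}) : Prop :=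
  Isol m k.1 k.2 z ∧ ∀ k' : Finset Ordinal.{u} × ℕ, Isol m k'.1 k'.2 z → ¬ KLt k' k

/-- The well-order. -/
def WV (m : Ordinal.{u}) (z z' : ZFSet.{u}) : Prop :=
  ∃ k k', MinV m k z ∧ MinV m k' z' ∧ (KLt k k' ∨ (k = k' ∧ LexV z z'))

variable {m : Ordinal.{u}}

theorem MinV.unique {k k' : Finset Ordinal.{u} × ℕ} {z : ZFSet.{u}} (h : MinV m k z)
    (h' : MinV m k' z) : k = k' := by
  by_contra hne
  rcases KLt.tri hne with h1 | h1
  · exact h'.2 k h.1 h1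
  · exact h.2 k' h'.1 h1

theorem MinV.exists {k : Finset Ordinal.{u} × ℕ} {z : ZFSet.{u}} (h : Isol m k.1 k.2 z) :
    ∃ k, MinV m k z := by
  let s : Set (Finset Ordinal.{u} × ℕ) := {k | Isol m k.1 k.2 z}
  have hs : s.Nonempty := ⟨k, h⟩
  exact ⟨KLt.wf.min s hs, KLt.wf.min_mem s hs, fun k' hk' => KLt.wf.not_lt_min s hk'⟩

theorem KLt.asymm {k k' : Finset Ordinal.{u} × ℕ} (h : KLt k k') : ¬ KLt k' k :=
  KLt.wf.asymmetric k k' h

theorem WV.asymm {z z' : ZFSet.{u}} (h : WV m z z') : ¬ WV m z' z := by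
  rintro ⟨k1', k1, h1', h1, h2⟩
  obtain ⟨k, k', h3, h3', h4⟩ := h
  obtain rfl := h1.unique h3
  obtain rfl := h1'.unique h3'
  rcases h4 with h4 | ⟨rfl, h4⟩
  · rcases h2 with h2 | ⟨rfl, h2⟩
    · exact h4.asymm h2
    · exact h4.asymm h4
  · rcases h2 with h2 | ⟨-, h2⟩
    · exact h2.asymm h2
    · exact LexV.irrefl _ (h4.trans h2)

theorem WV.least (hkey : ∀ z ∈ Lset m, ∃ F N, Isol m F N z) {Z : Set ZFSet.{u}}
    (hne : Z.Nonempty) (hZ : ∀ z ∈ Z, z ∈ Lset m) (hZo : ∀ z ∈ Z, ∀ t ∈ z, t.IsOrdinal) :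
    ∃ z ∈ Z, ∀ z' ∈ Z, z' ≠ z → WV m z z' := by
  classical
  have hmin : ∀ z ∈ Z, ∃ k, MinV m k z := by
    intro z hz
    obtain ⟨F, N, h⟩ := hkey z (hZ z hz)
    exact MinV.exists (k := (F, N)) h
  let s : Set (Finset Ordinal.{u} × ℕ) := {k | ∃ z ∈ Z, MinV m k z}
  have hs : s.Nonempty := by
    obtain ⟨z, hz⟩ := hne
    obtain ⟨k, hk⟩ := hmin z hz
    exact ⟨k, z, hz, hk⟩
  let K := KLt.wf.min s hs
  have hK : K ∈ s := KLt.wf.min_mem s hs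
  have hK' : ∀ k ∈ s, ¬ KLt k K := fun k hk => KLt.wf.not_lt_min s hk
  let Z' : Set ZFSet.{u} := {z | z ∈ Z ∧ MinV m K z}
  have hfin : Z'.Finite := (isol_finite m K.1 K.2).subset fun z hz => hz.2.1
  have hne' : Z'.Nonempty := by
    obtain ⟨z, hz, hk⟩ := hK
    exact ⟨z, hz, hk⟩
  obtain ⟨z, hz, hzmin⟩ : ∃ z ∈ Z', ∀ z' ∈ Z', ¬ LexV z' z := by
    have hst : IsStrictOrder ZFSet.{u} LexV := 
      { irrefl := LexV.irrefl
        trans := fun _ _ _ h k => h.trans k }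
    have h1 := hfin.wellFoundedOn (r := LexV)
    obtain ⟨z, hz, h2⟩ := h1.has_min (Set.univ) ⟨⟨_, hne'.choose_spec⟩, mem_univ _⟩
    exact ⟨z.1, z.2, fun z' hz' => h2 ⟨z', hz'⟩ (mem_univ _)⟩
  refine ⟨z, hz.1, fun z' hz' hne'' => ?_⟩
  obtain ⟨k', hk'⟩ := hmin z' hz'
  refine ⟨K, k', hz.2, hk', ?_⟩
  by_cases h1 : k' = K
  · subst h1
    right
    refine ⟨rfl, ?_⟩
    rcases LexV.tri (hZo z hz.1) (hZo z' hz') hne''.symm with h2 | h2
    · exact h2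
    · exact absurd h2 (hzmin z' ⟨hz', hk'⟩)
  · left
    rcases KLt.tri h1 with h2 | h2
    · exact absurd h2 (hK' k' ⟨z', hz', hk'⟩)
    · exact h2

section

variable {κ : Cardinal.{u}} (hm : ∀ α < m, α + 1 < m) (hω : ω < m) (hκ : Big m κ)
  {M G Om : LA κ.ord} (hM : M.1 = Lset m) (hG : G.1 = gr (Gn m) ω)
  (hOm : Om.1 = Ordinal.toZFSet ω)
include hm hω hκ hM

theorem FinS_iff (s : LA κ.ord) : FinS M s ↔ ∃ F : Finset Ordinal.{u}, (∀ α ∈ F, α < m) ∧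
    s.1 = fs F := by
  classical
  constructor
  · rintro ⟨h1, h2, h3⟩
    rw [hM] at h1
    have hlt : ∀ α : Ordinal.{u}, α.toZFSet ∈ s.1 → α < m := fun α hα =>
      (toZFSet_mem_Lset_iff _ _).1 (Lset_trans h1 hα)
    by_cases hfin : {α : Ordinal.{u} | α.toZFSet ∈ s.1}.Finite
    · refine ⟨hfin.toFinset, fun α hα => hlt α (by simpa using hα), ?_⟩
      ext t
      rw [mem_fs]
      constructor
      · intro ht
        have ho := h2 ⟨t, Lset_trans s.2 ht⟩ ht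
        refine ⟨t.rank, ?_, ho.toZFSet_rank_eq.symm⟩
        simp only [Set.Finite.mem_toFinset, Set.mem_setOf_eq]
        rw [ho.toZFSet_rank_eq]
        exact ht
      · rintro ⟨α, hα, rfl⟩
        simpa using hα
    · exfalso
      let D : Set Ordinal.{u} := {δ | ¬ {α : Ordinal.{u} | α.toZFSet ∈ s.1 ∧ α < δ}.Finite}
      have hmD : m ∈ D := by
        intro hf
        exact hfin (hf.subset fun α hα => ⟨hα, hlt α hα⟩)
      have hδ : sInf D ∈ D := csInf_mem ⟨m, hmD⟩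
      have hδm : sInf D ≤ m := csInf_le' hmD
      have hδκ : sInf D < κ.ord := hδm.trans_lt hκ.lt
      let Q : LA κ.ord → Prop := fun t => t.1 ∈ s.1 ∧ t.1 ∈ (oL hδκ).1
      have hc : Constructible (sepL Q) := sepL_constr inferInstance
      let u : LA κ.ord := ⟨sepL Q, hκ.sub _ hc fun t ht =>
        Lset_trans h1 (mem_sepL.1 ht).2.1⟩
      have hu : ∀ α : Ordinal.{u}, α.toZFSet ∈ u.1 ↔ α.toZFSet ∈ s.1 ∧ α < sInf D := by
        intro α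
        show α.toZFSet ∈ sepL Q ↔ _
        rw [mem_sepL]
        constructor
        · rintro ⟨_, h4, h5⟩
          exact ⟨h4, Ordinal.toZFSet_mem_toZFSet_iff.1 h5⟩
        · rintro ⟨h4, h5⟩
          exact ⟨Lset_trans s.2 h4, h4, Ordinal.toZFSet_mem_toZFSet_iff.2 h5⟩
      have hus : u.1 ⊆ s.1 := fun t ht => (mem_sepL (Q := Q).1 ht).2.1
      have hinf : ¬ {α : Ordinal.{u} | α.toZFSet ∈ s.1 ∧ α < sInf D}.Finite := hδ
      obtain ⟨α0, hα0⟩ : {α : Ordinal.{u} | α.toZFSet ∈ s.1 ∧ α < sInf D}.Nonempty := by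
        by_contra hcon
        rw [Set.not_nonempty_iff_eq_empty] at hcon
        rw [hcon] at hinf
        exact hinf Set.finite_empty
      obtain ⟨t, ht, hmax⟩ := h3 u hus ⟨⟨α0.toZFSet, Lset_trans s.2 hα0.1⟩, (hu α0).2 hα0⟩
      have hto := h2 t (hus ht)
      have h5 : t.1.rank < sInf D := ((hu t.1.rank).1 (by
        rw [hto.toZFSet_rank_eq]
        exact ht)).2
      have h6 : t.1.rank ∉ D := fun h => absurd (csInf_le' h) (not_le.2 h5)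
      have h7 : {α : Ordinal.{u} | α.toZFSet ∈ s.1 ∧ α < t.1.rank}.Finite := by
        by_contra hcon
        exact h6 hcon
      refine hinf ((h7.insert t.1.rank).subset fun α hα => ?_)
      have h8 : α.toZFSet ∈ u.1 := (hu α).2 hα
      rcases hmax ⟨α.toZFSet, Lset_trans s.2 hα.1⟩ h8 with h9 | h9
      · right
        refine ⟨hα.1, ?_⟩
        rw [← hto.toZFSet_rank_eq, Ordinal.toZFSet_mem_toZFSet_iff] at h9
        exact h9
      · left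
        rw [← hto.toZFSet_rank_eq] at h9
        exact Ordinal.toZFSet_injective h9
  · rintro ⟨F, hF, hs⟩
    refine ⟨?_, ?_, ?_⟩
    · rw [hM, hs]
      exact fs_mem hm (omega0_pos.trans hω) hF
    · intro t ht
      rw [hs, mem_fs] at ht
      obtain ⟨α, -, h⟩ := ht
      rw [h]
      exact ZFSet.isOrdinal_toZFSet α
    · rintro u hu ⟨t, ht⟩
      rw [hs] at hu
      let F' := F.filter fun α => α.toZFSet ∈ u.1
      have hne : F'.Nonempty := by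
        obtain ⟨α, hα, h⟩ := mem_fs.1 (hu ht)
        exact ⟨α, Finset.mem_filter.2 ⟨hα, by rw [← h]; exact ht⟩⟩
      have hmax := Finset.max'_mem F' hne
      obtain ⟨h4, h5⟩ := Finset.mem_filter.1 hmax
      refine ⟨⟨_, Lset_trans u.2 h5⟩, h5, fun t' ht' => ?_⟩
      obtain ⟨β, hβ, h6⟩ := mem_fs.1 (hu ht')
      have h7 : β ∈ F' := Finset.mem_filter.2 ⟨hβ, by rw [← h6]; exact ht'⟩
      rcases (Finset.le_max' F' β h7).lt_or_eq with h8 | h8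
      · left
        rw [h6]
        exact Ordinal.toZFSet_mem_toZFSet_iff.2 h8
      · right
        rw [h6]
        show β.toZFSet = (F'.max' hne).toZFSet
        rw [← h8]

omit hM in
include hG in
theorem BFs_iff {n : LA κ.ord} {N : ℕ} (hn : n.1 = nn N) {x y : LA κ.ord}
    (hx : x.1 ∈ Lset m) (hy : y.1 ∈ Lset m) : BFs G n x y ↔ BF (Lset m) N x.1 y.1 := by
  constructor
  · rintro ⟨g, h1, h2⟩
    rw [hG, hn] at h1
    have h3 : g.1 = Gn m N := ((pair_mem_gr (η := (N : Ordinal.{u}))).1 h1).2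
    rw [h3, pair_mem_Gn hm hx hy] at h2
    exact h2
  · intro h
    have h1 : Gn m N ∈ Lset κ.ord := hκ.sub _ (Gn_constr hm hω N) fun t ht =>
      (ZFSet.mem_sep.1 ht).1
    refine ⟨⟨_, h1⟩, ?_, (pair_mem_Gn hm hx hy).2 h⟩
    rw [hG, hn]
    exact (pair_mem_gr (η := (N : Ordinal.{u}))).2 ⟨natCast_lt_omega0 N, rfl⟩

include hG hOm in
theorem KeyD_iff (s n z : LA κ.ord) : KeyD M G Om s n z ↔
    ∃ F N, s.1 = fs F ∧ n.1 = nn N ∧ Isol m F N z.1 := by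
  have hmκ : ∀ x ∈ Lset m, x ∈ Lset κ.ord := fun x hx => hκ.mem hx
  have h0 : 0 < m := omega0_pos.trans hω
  have hnnm : ∀ N : ℕ, nn.{u} N ∈ Lset m := fun N =>
    (toZFSet_mem_Lset_iff _ _).2 ((natCast_lt_omega0 N).trans hω)
  have hasg : ∀ (F : Finset Ordinal.{u}), (∀ α ∈ F, α < m) → ∀ s a : LA κ.ord,
      s.1 = fs F → (Asg s a ↔ a.1 = asg F) := by
    intro F hF s a hs
    constructor
    · intro h
      ext t
      rw [mem_asg]
      constructor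
      · intro ht
        obtain ⟨α, w, hα, hw, hw'⟩ := (h ⟨t, Lset_trans a.2 ht⟩).1 ht
        rw [hs, mem_fs] at hα
        obtain ⟨β, hβ, h1⟩ := hα
        refine ⟨β, hβ, ?_⟩
        rw [← h1, ← hw]
        exact hw'
      · rintro ⟨α, hα, rfl⟩
        have h1 := (toZFSet_mem_Lset_iff m α).2 (hF α hα)
        exact (h ⟨_, hmκ _ (Lset_pair hm (Lset_pair hm h1 h1) h1)⟩).2
          ⟨⟨_, hmκ _ h1⟩, ⟨_, hmκ _ (Lset_pair hm h1 h1)⟩, by
            rw [hs]; exact ord_mem_fs.2 hα, rfl, rfl⟩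
    · intro h t
      rw [h, mem_asg]
      constructor
      · rintro ⟨α, hα, h2⟩
        have h1 := (toZFSet_mem_Lset_iff m α).2 (hF α hα)
        exact ⟨⟨_, hmκ _ h1⟩, ⟨_, hmκ _ (Lset_pair hm h1 h1)⟩, by
            rw [hs]; exact ord_mem_fs.2 hα, rfl, h2⟩
      · rintro ⟨α, w, hα, hw, hw'⟩
        rw [hs, mem_fs] at hα
        obtain ⟨β, hβ, h1⟩ := hα
        refine ⟨β, hβ, ?_⟩
        rw [← h1, ← hw]
        exact hw'
  constructor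
  · rintro ⟨h1, h2, h3, a, x, h4, h5, h6⟩
    obtain ⟨F, hF, hs⟩ := (FinS_iff hm hω hκ hM s).1 h1
    rw [hOm, Ordinal.mem_toZFSet_iff] at h2
    obtain ⟨ζ, hζ, hn⟩ := h2
    obtain ⟨N, rfl⟩ := lt_omega0.1 hζ
    rw [hM] at h3
    have ha := (hasg F hF s a hs).1 h4
    have hamem : asg F ∈ Lset m := asg_mem hm h0 hF
    refine ⟨F, N, hs, hn.symm, hF, h3, fun z' hz' hb => ?_⟩
    have hx : x.1 ∈ Lset m := by
      rw [h5, ha, ← hn]
      exact Lset_insert hm (Lset_pair hm (hnnm N) h3) hamem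
    have hx' : insert (ZFSet.pair (nn N) z') (asg F) ∈ Lset m :=
      Lset_insert hm (Lset_pair hm (hnnm N) hz') hamem
    refine h6 ⟨z', hmκ _ hz'⟩ ⟨_, hmκ _ hx'⟩ (by rw [hM]; exact hz') ?_ ?_
    · rw [ha, ← hn]
      rfl
    · rw [BFs_iff hm hω hκ hG hn.symm hx hx', h5, ha, ← hn]
      exact hb
  · rintro ⟨F, N, hs, hn, hF, hz, hiso⟩
    have hamem : asg F ∈ Lset m := asg_mem hm h0 hF
    have hxm : ∀ z ∈ Lset m, insert (ZFSet.pair (nn N) z) (asg F) ∈ Lset m := fun z hz =>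
      Lset_insert hm (Lset_pair hm (hnnm N) hz) hamem
    refine ⟨(FinS_iff hm hω hκ hM s).2 ⟨F, hF, hs⟩, ?_, by rw [hM]; exact hz,
      ⟨_, hmκ _ hamem⟩, ⟨_, hmκ _ (hxm z.1 hz)⟩, (hasg F hF s _ hs).2 rfl, ?_, ?_⟩
    · rw [hOm, hn]
      exact Ordinal.toZFSet_mem_toZFSet_iff.2 (natCast_lt_omega0 N)
    · rw [hn]
    · intro z' x' hz' hx' hb
      rw [hM] at hz'
      have hx'' : x'.1 ∈ Lset m := by
        rw [hx', hn]
        exact hxm _ hz'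
      rw [BFs_iff hm hω hκ hG hn (hxm z.1 hz) hx'', hx', hn] at hb
      exact hiso z'.1 hz' hb

omit hω hκ hM hm in
theorem CLtD_iff {s s' : LA κ.ord} {F F' : Finset Ordinal.{u}} (hs : s.1 = fs F)
    (hs' : s'.1 = fs F') : CLtD s s' ↔ CLt F F' := by
  constructor
  · rintro ⟨α, h1, h2, h3⟩
    rw [hs', mem_fs] at h1
    obtain ⟨a, ha, h1⟩ := h1
    refine ⟨a, ha, fun h4 => h2 (by rw [h1, hs]; exact ord_mem_fs.2 h4), fun β hβ => ?_⟩
    by_cases hβκ : β < κ.ord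
    · have h4 := h3 (oL hβκ) (ZFSet.isOrdinal_toZFSet β) (by
        rw [h1]
        exact Ordinal.toZFSet_mem_toZFSet_iff.2 hβ)
      rw [hs, hs'] at h4
      exact (ord_mem_fs.symm.trans h4).trans ord_mem_fs
    · have h5 : ∀ (t : LA κ.ord) (E : Finset Ordinal.{u}), t.1 = fs E → β ∉ E := by
        intro t E ht hE
        have h6 := Lset_trans t.2 (by rw [ht]; exact ord_mem_fs.2 hE :
          β.toZFSet ∈ t.1)
        exact hβκ ((toZFSet_mem_Lset_iff _ _).1 h6)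
      exact iff_of_false (h5 s F hs) (h5 s' F' hs')
  · rintro ⟨a, h1, h2, h3⟩
    have h4 : a.toZFSet ∈ s'.1 := by
      rw [hs']
      exact ord_mem_fs.2 h1
    refine ⟨⟨_, Lset_trans s'.2 h4⟩, h4, fun h5 => ?_, fun β hβ haβ => ?_⟩
    · rw [hs] at h5
      exact h2 (ord_mem_fs.1 h5)
    · have h6 := h3 β.1.rank (by
        rw [← hβ.toZFSet_rank_eq] at haβ
        exact Ordinal.toZFSet_mem_toZFSet_iff.1 haβ)
      rw [← ord_mem_fs, ← ord_mem_fs (F := F'), ← hs, ← hs', hβ.toZFSet_rank_eq] at h6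
      exact h6

omit hω hκ hM hm in
theorem KLtD_iff {s s' n n' : LA κ.ord} {k k' : Finset Ordinal.{u} × ℕ} (hs : s.1 = fs k.1)
    (hs' : s'.1 = fs k'.1) (hn : n.1 = nn k.2) (hn' : n'.1 = nn k'.2) :
    KLtD s n s' n' ↔ KLt k k' := by
  refine or_congr (CLtD_iff hs hs') (and_congr ?_ ?_)
  · rw [hs, hs']
    exact ⟨fs_inj, fun h => by rw [h]⟩
  · rw [hn, hn']
    exact nn_mem_nn

include hG hOm in
theorem MinK_iff {s n z : LA κ.ord} : MinK M G Om s n z ↔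
    ∃ k, s.1 = fs k.1 ∧ n.1 = nn k.2 ∧ MinV m k z.1 := by
  have hmκ : ∀ x ∈ Lset m, x ∈ Lset κ.ord := fun x hx => hκ.mem hx
  have h0 : 0 < m := omega0_pos.trans hω
  have hK := KeyD_iff hm hω hκ hM hG hOm
  constructor
  · rintro ⟨h1, h2⟩
    obtain ⟨F, N, h3, h4, h5⟩ := (hK s n z).1 h1
    refine ⟨(F, N), h3, h4, h5, fun k' hk' hlt => ?_⟩
    have h6 : fs k'.1 ∈ Lset m := fs_mem hm h0 hk'.1
    have h7 : nn.{u} k'.2 ∈ Lset m :=
      (toZFSet_mem_Lset_iff _ _).2 ((natCast_lt_omega0 k'.2).trans hω)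
    refine h2 ⟨_, hmκ _ h6⟩ ⟨_, hmκ _ h7⟩ ((hK _ _ _).2 ⟨k'.1, k'.2, rfl, rfl, hk'⟩) ?_
    exact (KLtD_iff (k := k') (k' := (F, N)) rfl h3 rfl h4).2 hlt
  · rintro ⟨k, h3, h4, h5, h6⟩
    refine ⟨(hK s n z).2 ⟨k.1, k.2, h3, h4, h5⟩, fun s' n' hk' hlt => ?_⟩
    obtain ⟨F, N, h7, h8, h9⟩ := (hK s' n' z).1 hk'
    exact h6 (F, N) h9 ((KLtD_iff (k := (F, N)) (k' := k) h7 h3 h8 h4).1 hlt)

omit hω hκ hM hm in
theorem LexD_iff (z z' : LA κ.ord) : LexD z z' ↔ LexV z.1 z'.1 := by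
  constructor
  · rintro ⟨α, h1, h2, h3, h4⟩
    refine ⟨α.1.rank, by rw [h1.toZFSet_rank_eq]; exact h2, by
      rw [h1.toZFSet_rank_eq]; exact h3, fun β hβ => ?_⟩
    have h5 : β.toZFSet ∈ α.1 := by
      rw [← h1.toZFSet_rank_eq]
      exact Ordinal.toZFSet_mem_toZFSet_iff.2 hβ
    exact h4 ⟨_, Lset_trans α.2 h5⟩ h5
  · rintro ⟨a, h1, h2, h3⟩
    refine ⟨⟨a.toZFSet, Lset_trans z'.2 h1⟩, ZFSet.isOrdinal_toZFSet a, h1, h2,
      fun β hβ => ?_⟩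
    obtain ⟨b, hb, h4⟩ := Ordinal.mem_toZFSet_iff.1 hβ
    rw [← h4]
    exact h3 b hb

include hG hOm in
theorem WD_iff (z z' : LA κ.ord) : WD M G Om z z' ↔ WV m z.1 z'.1 := by
  have hmκ : ∀ x ∈ Lset m, x ∈ Lset κ.ord := fun x hx => hκ.mem hx
  have h0 : 0 < m := omega0_pos.trans hω
  have hK := fun s n z => MinK_iff hm hω hκ hM hG hOm (s := s) (n := n) (z := z)
  constructor
  · rintro ⟨s, n, s', n', h1, h2, h3⟩
    obtain ⟨k, a1, a2, a3⟩ := (hK s n z).1 h1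
    obtain ⟨k', b1, b2, b3⟩ := (hK s' n' z').1 h2
    refine ⟨k, k', a3, b3, h3.imp (KLtD_iff a1 b1 a2 b2).1 ?_⟩
    rintro ⟨c1, c2, c3⟩
    refine ⟨Prod.ext (fs_inj ?_) (nn_inj ?_), (LexD_iff z z').1 c3⟩
    · rw [← a1, ← b1, c1]
    · rw [← a2, ← b2, c2]
  · rintro ⟨k, k', h1, h2, h3⟩
    have hf : ∀ k : Finset Ordinal.{u} × ℕ, ∀ z, MinV m k z → fs k.1 ∈ Lset κ.ord ∧
        nn.{u} k.2 ∈ Lset κ.ord := by
      intro k z hk
      exact ⟨hmκ _ (fs_mem hm h0 hk.1.1), hmκ _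
        ((toZFSet_mem_Lset_iff _ _).2 ((natCast_lt_omega0 k.2).trans hω))⟩
    refine ⟨⟨_, (hf k _ h1).1⟩, ⟨_, (hf k _ h1).2⟩, ⟨_, (hf k' _ h2).1⟩,
      ⟨_, (hf k' _ h2).2⟩, (hK _ _ _).2 ⟨k, rfl, rfl, h1⟩, (hK _ _ _).2 ⟨k', rfl, rfl, h2⟩,
      h3.imp (KLtD_iff rfl rfl rfl rfl).2 ?_⟩
    rintro ⟨rfl, h4⟩
    exact ⟨rfl, rfl, (LexD_iff z z').2 h4⟩

end

/-- There is a constructible well-order of the sets of ordinals in `L_γ`. -/
theorem exists_wo (h0 : ZeroSharp.{u}) (γ : Ordinal.{u}) : ∃ W : ZFSet.{u},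
    Constructible W ∧ (∀ x y, ZFSet.pair x y ∈ W → ZFSet.pair y x ∉ W) ∧
    ∀ Z : Set ZFSet.{u}, Z.Nonempty → (∀ z ∈ Z, z ∈ Lset γ) →
      (∀ z ∈ Z, ∀ t ∈ z, t.IsOrdinal) →
      ∃ z ∈ Z, ∀ z' ∈ Z, z' ≠ z → ZFSet.pair z z' ∈ W := by
  obtain ⟨J, hJ⟩ := h0
  obtain ⟨κ1, -, hκ1⟩ := exists_Big γ 0
  have hm := hκ1.lim
  have hω : ω < κ1.ord := by rw [Cardinal.lt_ord]; simpa using hκ1.unc
  obtain ⟨δ, hδ⟩ := GBF_constr hm hω
  obtain ⟨κ, -, hκ⟩ := exists_Big (max δ (κ1.ord + 1)) 0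
  have hκm : Big κ1.ord κ := hκ.of_le ((lt_add_one _).le.trans (le_max_right _ _))
  let M : LA κ.ord := ⟨Lset κ1.ord, hκ.mem (Lset_mono (le_max_right _ _)
    (Lset_mem_succ _))⟩
  let G : LA κ.ord := ⟨gr (Gn κ1.ord) ω, hκ.mem (Lset_mono (le_max_left _ _) hδ)⟩
  let Om : LA κ.ord := oL (hω.trans hκm.lt)
  have hW := WD_iff (M := M) (G := G) (Om := Om) hm hω hκm rfl rfl rfl
  let Q : LA κ.ord → Prop := fun t => ∃ z z' : LA κ.ord, t.1 = ZFSet.pair z.1 z'.1 ∧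
    WD M G Om z z'
  have hpair : ∀ x y : ZFSet.{u}, ZFSet.pair x y ∈ sepL Q ↔ WV κ1.ord x y := by
    intro x y
    rw [mem_sepL]
    constructor
    · rintro ⟨ht, z, z', h1, h2⟩
      obtain ⟨h3, h4⟩ := ZFSet.pair_injective h1
      rw [h3, h4]
      exact (hW z z').1 h2
    · intro h
      obtain ⟨k, k', h1, h2, h3⟩ := id h
      have hx := hκm.mem h1.1.2.1
      have hy := hκm.mem h2.1.2.1
      exact ⟨Lset_pair hκ.lim hx hy, ⟨x, hx⟩, ⟨y, hy⟩, rfl, (hW _ _).2 h⟩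
  have hQ : Constructible (sepL Q) := sepL_constr inferInstance
  refine ⟨sepL Q, hQ, fun x y h1 h2 => ?_, fun Z hne hZ hZo => ?_⟩
  · exact ((hpair x y).1 h1).asymm ((hpair y x).1 h2)
  · obtain ⟨z, hz, h1⟩ := WV.least (m := κ1.ord) (fun z hz => exists_key hJ hκ1.unc hz) hne
      (fun z hz => hκ1.mem (hZ z hz)) hZo
    exact ⟨z, hz, fun z' hz' hne' => (hpair z z').2 (h1 z' hz' hne')⟩

end Pool.Agent.ZSharp
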